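import Pool.Agent.ACF.Player

set_option autoImplicit false
set_option linter.unusedSectionVars false
open MeasureTheory ProbabilityTheory Set Filter Topology
open scoped NNReal ENNReal

namespace Pool.Agent.ACF

variable {Ω : Type*} {mΩ : MeasurableSpace Ω}

lemma jm_of_brownian {P : Measure Ω} {B : ℝ≥0 → Ω → ℝ} (hB : IsBrownianReal B P)
    (hm : ∀ t, StronglyMeasurable (B t)) : JM P (fun t => B t.toNNReal) := by
  have h0 : P {ω | ¬ Continuous (B · ω)} = 0 := ae_iff.1 hB.cont
  set N := toMeasurable P {ω | ¬ Continuous (B · ω)} with hN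
  have hNm : MeasurableSet N := measurableSet_toMeasurable _ _
  have hN0 : P N = 0 := by rw [hN, measure_toMeasurable, h0]
  have hsub : {ω | ¬ Continuous (B · ω)} ⊆ N := subset_toMeasurable _ _
  refine ⟨fun t ω => Nᶜ.indicator (B t.toNNReal) ω, ?_, ?_⟩
  · have h1 := stronglyMeasurable_uncurry_of_continuous_of_stronglyMeasurable
      (u := fun (t : ℝ) (ω : Ω) => Nᶜ.indicator (B t.toNNReal) ω) ?_ ?_
    · exact h1
    · intro ω
      by_cases hω : ω ∈ N
      · have : (fun t : ℝ => Nᶜ.indicator (B t.toNNReal) ω) = fun _ => 0 := by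
          funext t
          exact indicator_of_notMem (by simpa using hω) _
        rw [this]
        exact continuous_const
      · have : (fun t : ℝ => Nᶜ.indicator (B t.toNNReal) ω) = fun t => B t.toNNReal ω := by
          funext t
          exact indicator_of_mem (by simpa using hω) _
        rw [this]
        have hc : Continuous (B · ω) := by
          by_contra h
          exact hω (hsub h)
        exact hc.comp continuous_real_toNNReal
    · intro t
      exact (hm t.toNNReal).indicator hNm.compl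
  · have h2 : ∀ᵐ ω ∂P, ω ∉ N := measure_eq_zero_iff_ae_notMem.1 hN0
    filter_upwards [h2] with ω hω t
    exact (indicator_of_mem (by simpa using hω) _).symm

variable {P : Measure Ω} [IsProbabilityMeasure P] {T : ℝ}

/-- the expectation of the time integral is the integral over the product -/
lemma exp_time {f : ℝ → Ω → ℝ} (hT : 0 ≤ T)
    (hf : Integrable (fun p : ℝ × Ω => f p.1 p.2) (muT T P)) :
    ∫ ω, (∫ t in (0 : ℝ)..T, f t ω) ∂P = ∫ p, f p.1 p.2 ∂(muT T P) := by
  have hr : volume.restrict (Icc (0 : ℝ) T) = volume.restrict (Ioc 0 T) :=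
    Measure.restrict_congr_set Ioc_ae_eq_Icc.symm
  unfold muT at hf ⊢
  rw [hr] at hf ⊢
  rw [integral_prod_symm _ hf]
  simp_rw [intervalIntegral.integral_of_le hT]

section swap

variable {E : Type*} [NormedAddCommGroup E] [InnerProductSpace ℝ E] [CompleteSpace E]
variable {G : Type*} [NormedAddCommGroup G] [InnerProductSpace ℝ G] [CompleteSpace G]
variable {H : Type*} [NormedAddCommGroup H] [InnerProductSpace ℝ H] [CompleteSpace H]
  {F : ℝ → MeasurableSpace Ω} {b : ℝ → Ω → ℝ}
  {A D : ℝ → E →L[ℝ] E} {B : ℝ → G →L[ℝ] E} {C : ℝ → H →L[ℝ] E}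

lemma Sol.swap {x0 : E} {U : ℝ → Ω → G} {V : ℝ → Ω → H} {x : ℝ → Ω → E}
    (h : Sol P F b T A D B C x0 U V x) : Sol P F b T A D C B x0 V U x := by
  refine ⟨h.adp, h.msc, h.joint, ?_⟩
  obtain ⟨I, hI, he⟩ := h.eq
  refine ⟨I, hI, fun t ht => ?_⟩
  filter_upwards [he t ht] with ω hω
  rw [hω]
  congr 3
  funext s
  abel

end swap

section riccati

variable {E : Type*} [NormedAddCommGroup E] [InnerProductSpace ℝ E] [CompleteSpace E]
variable {G : Type*} [NormedAddCommGroup G] [InnerProductSpace ℝ G] [CompleteSpace G]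
variable {H : Type*} [NormedAddCommGroup H] [InnerProductSpace ℝ H] [CompleteSpace H]
variable {Z : Type*} [NormedAddCommGroup Z] [InnerProductSpace ℝ Z] [CompleteSpace Z]

open ContinuousLinearMap (adjoint)

lemma adj_neg_smul_comp (c : ℝ) (B : G →L[ℝ] E) (S : E →L[ℝ] E) (hS : adjoint S = S) :
    adjoint (-(c • (adjoint B ∘L S))) = -(c • (S ∘L B)) := by
  have h1 : adjoint (c • (adjoint B ∘L S)) = c • adjoint (adjoint B ∘L S) := by
    simp
  rw [map_neg, h1, ContinuousLinearMap.adjoint_comp, ContinuousLinearMap.adjoint_adjoint, hS]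

/-- the first coupled equation from the Lyapunov form -/
lemma riccati_one (A D S1 S2 : E →L[ℝ] E) (B : G →L[ℝ] E) (C : H →L[ℝ] E) (Cz : E →L[ℝ] Z)
    {g : ℝ} (hg : g ≠ 0) (h1 : adjoint S1 = S1) (h2 : adjoint S2 = S2) :
    lyapOp (A + B ∘L (-(adjoint B ∘L S2)) + C ∘L (-(g⁻¹ • (adjoint C ∘L S1)))) D S1
      + costOp g (-1) (-(adjoint Cz ∘L Cz)) (-(adjoint B ∘L S2)) (-(g⁻¹ • (adjoint C ∘L S1)))
    = adjoint A ∘L S1 + S1 ∘L A + adjoint D ∘L S1 ∘L D - adjoint Cz ∘L Cz
      - g⁻¹ • (S1 ∘L C ∘L adjoint C ∘L S1) - S1 ∘L B ∘L adjoint B ∘L S2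
      - S2 ∘L B ∘L adjoint B ∘L S1 - S2 ∘L B ∘L adjoint B ∘L S2 := by
  have e1 : adjoint (-(adjoint B ∘L S2)) = -(S2 ∘L B) := by
    have := adj_neg_smul_comp 1 B S2 h2
    simpa using this
  have e2 := adj_neg_smul_comp g⁻¹ C S1 h1
  unfold lyapOp costOp
  rw [map_add, map_add, ContinuousLinearMap.adjoint_comp, ContinuousLinearMap.adjoint_comp, e1, e2]
  ext z
  simp only [ContinuousLinearMap.add_apply, ContinuousLinearMap.sub_apply,
    ContinuousLinearMap.neg_apply, ContinuousLinearMap.smul_apply, ContinuousLinearMap.comp_apply,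
    map_add, map_neg, map_smul, smul_neg, neg_neg, smul_smul, neg_smul, one_smul]
  have hgg : g * (g⁻¹ * g⁻¹) = g⁻¹ := by field_simp
  rw [hgg]
  abel

/-- the second coupled equation from the Lyapunov form -/
lemma riccati_two (A D S1 S2 : E →L[ℝ] E) (B : G →L[ℝ] E) (C : H →L[ℝ] E) (Cz : E →L[ℝ] Z)
    {g : ℝ} (hg : g ≠ 0) (h1 : adjoint S1 = S1) (h2 : adjoint S2 = S2) :
    lyapOp (A + C ∘L (-(g⁻¹ • (adjoint C ∘L S1))) + B ∘L (-(adjoint B ∘L S2))) D S2
      + costOp 1 0 (adjoint Cz ∘L Cz) (-(g⁻¹ • (adjoint C ∘L S1))) (-(adjoint B ∘L S2))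
    = adjoint A ∘L S2 + S2 ∘L A + adjoint D ∘L S2 ∘L D + adjoint Cz ∘L Cz
      - g⁻¹ • (S2 ∘L C ∘L adjoint C ∘L S1 + S1 ∘L C ∘L adjoint C ∘L S2)
      - S2 ∘L B ∘L adjoint B ∘L S2 := by
  have e1 : adjoint (-(adjoint B ∘L S2)) = -(S2 ∘L B) := by
    have := adj_neg_smul_comp 1 B S2 h2
    simpa using this
  have e2 := adj_neg_smul_comp g⁻¹ C S1 h1
  unfold lyapOp costOp
  rw [map_add, map_add, ContinuousLinearMap.adjoint_comp, ContinuousLinearMap.adjoint_comp, e1, e2]
  ext z
  simp only [ContinuousLinearMap.add_apply, ContinuousLinearMap.sub_apply,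
    ContinuousLinearMap.neg_apply, ContinuousLinearMap.smul_apply, ContinuousLinearMap.comp_apply,
    map_add, map_neg, map_smul, smul_neg, neg_neg, smul_add, one_smul, zero_smul, add_zero]
  abel

end riccati

end Pool.Agent.ACF
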