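import Pool.Agent.ACF.NConv

set_option autoImplicit false
set_option linter.unusedSectionVars false
open MeasureTheory ProbabilityTheory Set Filter Topology
open scoped NNReal ENNReal

namespace Pool.Agent.ACF

variable {E : Type*} [NormedAddCommGroup E] [InnerProductSpace ℝ E] [CompleteSpace E]
variable {Ω : Type*} {mΩ : MeasurableSpace Ω} {P : Measure Ω} [IsProbabilityMeasure P]
  {F : ℝ → MeasurableSpace Ω} {b : ℝ → Ω → ℝ} {T : ℝ}

/-- a linear recursion inequality -/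
lemma lin_rec {u : ℕ → ℝ} {c h R : ℝ} (hc : 0 ≤ c) (hh : 0 ≤ h) (hR : 0 ≤ R) (hu0 : 0 ≤ u 0)
    {N : ℕ} (hu : ∀ k, k < N → u (k + 1) ≤ Real.exp (c * h) * u k + h * R) :
    ∀ k, k ≤ N → u k ≤ Real.exp (c * (k * h)) * (u 0 + k * h * R) := by
  intro k
  induction k with
  | zero => intro _; simp
  | succ k ih =>
    intro hk
    have h1 := ih (by omega)
    have h2 := hu k (by omega)
    have e1 : Real.exp (c * (((k + 1 : ℕ) : ℝ) * h)) = Real.exp (c * h) * Real.exp (c * (k * h)) := by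
      rw [← Real.exp_add]
      congr 1
      push_cast
      ring
    have h3 : Real.exp (c * h) * u k ≤ Real.exp (c * h) * (Real.exp (c * (k * h)) * (u 0 + k * h * R)) :=
      mul_le_mul_of_nonneg_left h1 (Real.exp_pos _).le
    have h4 : h * R ≤ Real.exp (c * h) * Real.exp (c * (k * h)) * (h * R) := by
      have h5 : 1 ≤ Real.exp (c * h) * Real.exp (c * (k * h)) := by
        rw [← Real.exp_add, Real.one_le_exp_iff]
        positivity
      have h6 : 0 ≤ h * R := mul_nonneg hh hR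
      nlinarith
    rw [e1]
    push_cast
    have e2 : Real.exp (c * h) * Real.exp (c * (k * h)) * (u 0 + (k + 1) * h * R)
        = Real.exp (c * h) * (Real.exp (c * (k * h)) * (u 0 + k * h * R))
          + Real.exp (c * h) * Real.exp (c * (k * h)) * (h * R) := by ring
    rw [e2]
    linarith

lemma step_exp {a L h : ℝ} (hL : 0 ≤ L) (hh : 0 ≤ h) :
    (1 + h) * ((1 + 3 * a ^ 2 * h) * (1 + h * L) ^ 2)
      ≤ Real.exp ((1 + 3 * a ^ 2 + 2 * L) * h) := by
  have h1 : 1 + h ≤ Real.exp h := by linarith [Real.add_one_le_exp h]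
  have h2 : 1 + 3 * a ^ 2 * h ≤ Real.exp (3 * a ^ 2 * h) := by
    linarith [Real.add_one_le_exp (3 * a ^ 2 * h)]
  have h3 : 1 + h * L ≤ Real.exp (h * L) := by linarith [Real.add_one_le_exp (h * L)]
  have h4 : (1 + h * L) ^ 2 ≤ Real.exp (h * L) ^ 2 :=
    pow_le_pow_left₀ (by positivity) h3 2
  have e : Real.exp ((1 + 3 * a ^ 2 + 2 * L) * h)
      = Real.exp h * (Real.exp (3 * a ^ 2 * h) * Real.exp (h * L) ^ 2) := by
    rw [← Real.exp_nat_mul, ← Real.exp_add, ← Real.exp_add]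
    congr 1
    push_cast
    ring
  rw [e]
  have p1 : 0 ≤ 1 + h := by positivity
  have p2 : 0 ≤ 1 + 3 * a ^ 2 * h := by positivity
  have p3 : 0 ≤ (1 + h * L) ^ 2 := by positivity
  exact mul_le_mul h1 (mul_le_mul h2 h4 p3 (Real.exp_pos _).le) (mul_nonneg p2 p3)
    (Real.exp_pos _).le

/-- strong convergence of the splitting scheme -/
theorem nl_tendsto (hN : Noise P F b) (hT : 0 < T) {D : ℝ → E →L[ℝ] E}
    (hcD : ContinuousOn D (Icc 0 T)) {L : ℝ}
    {f : ℝ → E → E} (hf : Drift T L f) {X I : ℝ → Ω → E} (hX : MSC P T X) (hXa : Adp P F T X)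
    (hg : MemLp (fun p : ℝ × Ω => f p.1 (X p.1 p.2)) 2 (muT T P))
    (hI : IsIto P b T (fun t ω => D t (X t ω)) I) {x0 : E}
    (heq : ∀ t ∈ Icc 0 T, ∀ᵐ ω ∂P, X t ω = x0 + (∫ r in (0 : ℝ)..t, f r (X r ω)) + I t ω)
    (h0 : X 0 =ᵐ[P] fun _ => x0) {s : ℝ} (hs : 0 < s) (hsT : s ≤ T) :
    Tendsto (fun N : ℕ => qn P (fun ω => nl b D f s N x0 N ω - X s ω)) atTop (𝓝 0) := by
  obtain ⟨a, ha⟩ := isCompact_Icc.exists_bound_of_continuousOn (s := Icc (0 : ℝ) T) hcD
  have hfX := hf.msc hX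
  have hDX : MSC P T (fun t ω => D t (X t ω)) := hX.clm hcD
  obtain ⟨cf, hcf⟩ := isCompact_Icc.exists_bound_of_continuousOn (s := Icc (0 : ℝ) T)
    hfX.continuousOn_qn
  have h00 : (0 : ℝ) ∈ Icc 0 T := ⟨le_rfl, hT.le⟩
  have hcf0 : 0 ≤ cf := (norm_nonneg _).trans (hcf 0 h00)
  have hL := hf.nn
  set c : ℝ := 1 + 3 * a ^ 2 + 2 * L with hc
  set K0 : ℝ := Real.exp (c * T) * (T * (7 * (1 + T))) with hK0
  have hK0p : 0 < K0 := by positivity
  rw [Metric.tendsto_atTop]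
  intro ε hε
  set w : ℝ := ε / (2 * K0) with hw
  have hwp : 0 < w := by positivity
  obtain ⟨δ1, hδ1, hu1⟩ := hfX.unif hwp
  obtain ⟨δ2, hδ2, hu2⟩ := hDX.unif hwp
  -- the step size is eventually small
  have hlim : Tendsto (fun N : ℕ => s / (N : ℝ)) atTop (𝓝 0) :=
    tendsto_const_nhds.div_atTop tendsto_natCast_atTop_atTop
  have hlim2 : Tendsto (fun N : ℕ => a ^ 2 * (s / (N : ℝ)) ^ 2 * cf) atTop (𝓝 0) := by
    have := ((hlim.pow 2).const_mul (a ^ 2)).mul_const cf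
    simpa using this
  have ev1 := hlim.eventually (gt_mem_nhds (lt_min hδ1 hδ2))
  have ev2 := hlim2.eventually (gt_mem_nhds hwp)
  obtain ⟨N0, hN0⟩ := eventually_atTop.1 ((ev1.and ev2).and (eventually_gt_atTop 0))
  refine ⟨N0, fun N hNN => ?_⟩
  obtain ⟨⟨hh1, hh2⟩, hNp⟩ := hN0 N hNN
  have hNr : (0 : ℝ) < N := Nat.cast_pos.2 hNp
  set h : ℝ := s / (N : ℝ) with hh
  have hhp : 0 < h := by positivity
  have hhT : h ≤ T := by
    rw [hh, div_le_iff₀ hNr]
    have : (1 : ℝ) ≤ N := by exact_mod_cast hNp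
    nlinarith
  have hNh : (N : ℝ) * h = s := by
    rw [hh]
    field_simp
  set u : ℕ → ℝ := fun k => qn P (fun ω => nl b D f s N x0 k ω - X (gp s N k) ω) with hu
  have hu0 : u 0 = 0 := by
    have e : (fun ω => nl b D f s N x0 0 ω - X (gp s N 0) ω) =ᵐ[P] fun _ => (0 : E) := by
      rw [gp_zero]
      filter_upwards [h0] with ω hω
      rw [hω]
      simp [nl]
    simp only [hu]
    rw [qn_congr e]
    simp [qn]
  have hrec : ∀ k, k < N → u (k + 1) ≤ Real.exp (c * h) * u k + h * (7 * (1 + T) * w) := by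
    intro k hk
    have m0 : gp s N k ∈ Icc 0 T := gp_mem hs hsT hNp hk.le
    have m1 : gp s N (k + 1) ∈ Icc 0 T := gp_mem hs hsT hNp hk
    have hsub : ∀ r ∈ Icc (gp s N k) (gp s N (k + 1)), r ∈ Icc 0 T ∧ |gp s N k - r| ≤ h := by
      intro r hr
      refine ⟨⟨m0.1.trans hr.1, hr.2.trans m1.2⟩, ?_⟩
      have e := gp_succ (T := s) N k
      rw [abs_sub_comm, abs_of_nonneg (by linarith [hr.1])]
      rw [e] at hr
      linarith [hr.2]
    have hst := nl_step hN hT hcD ha hf hX hXa hg hI heq hs hsT hNp hk (w := w) (cf := cf)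
      (fun r hr => hu1 _ m0 r (hsub r hr).1 ((hsub r hr).2.trans
        (hh1.le.trans (min_le_left _ _))))
      (fun r hr => hu2 _ m0 r (hsub r hr).1 ((hsub r hr).2.trans
        (hh1.le.trans (min_le_right _ _))))
      ((Real.le_norm_self _).trans (hcf _ m0))
    rw [← hh] at hst
    have huk : 0 ≤ u k := qn_nonneg _
    have b1 : (1 + h) * ((1 + 3 * a ^ 2 * h) * (1 + h * L) ^ 2 * u k) ≤ Real.exp (c * h) * u k := by
      have := mul_le_mul_of_nonneg_right (step_exp (a := a) hL hhp.le) huk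
      rw [hc]
      linarith
    have b2 : a ^ 2 * h ^ 2 * cf + w ≤ 2 * w := by linarith
    have b3 : (1 + h) * (3 * h * (a ^ 2 * h ^ 2 * cf + w)) ≤ (1 + T) * (3 * h * (2 * w)) := by
      have h1 : 0 ≤ 3 * h * (a ^ 2 * h ^ 2 * cf + w) := by positivity
      have h2 : 3 * h * (a ^ 2 * h ^ 2 * cf + w) ≤ 3 * h * (2 * w) :=
        mul_le_mul_of_nonneg_left b2 (by positivity)
      exact mul_le_mul (by linarith) h2 h1 (by linarith)
    have b4 : (1 + h⁻¹) * (h ^ 2 * w) ≤ (1 + T) * (h * w) := by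
      have e : (1 + h⁻¹) * (h ^ 2 * w) = (1 + h) * (h * w) := by
        field_simp
        ring
      rw [e]
      exact mul_le_mul_of_nonneg_right (by linarith) (by positivity)
    have e5 : (1 + h) * ((1 + 3 * a ^ 2 * h) * (1 + h * L) ^ 2 * u k
          + 3 * h * (a ^ 2 * h ^ 2 * cf + w))
        = (1 + h) * ((1 + 3 * a ^ 2 * h) * (1 + h * L) ^ 2 * u k)
          + (1 + h) * (3 * h * (a ^ 2 * h ^ 2 * cf + w)) := by ring
    have hst' : u (k + 1) ≤ (1 + h) * ((1 + 3 * a ^ 2 * h) * (1 + h * L) ^ 2 * u k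
          + 3 * h * (a ^ 2 * h ^ 2 * cf + w)) + (1 + h⁻¹) * (h ^ 2 * w) := hst
    rw [e5] at hst'
    have e6 : (1 + T) * (3 * h * (2 * w)) + (1 + T) * (h * w) = h * (7 * (1 + T) * w) := by ring
    linarith
  have hcn : 0 ≤ c := by positivity
  have hfin := lin_rec hcn hhp.le (by positivity) (le_of_eq hu0.symm) hrec N le_rfl
  rw [hu0, hNh, zero_add] at hfin
  have e7 : u N = qn P (fun ω => nl b D f s N x0 N ω - X s ω) := by
    simp only [hu]
    rw [gp_self hNp]
  rw [e7] at hfin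
  rw [Real.dist_eq, sub_zero, abs_of_nonneg (qn_nonneg _)]
  refine hfin.trans_lt ?_
  have h8 : Real.exp (c * s) * (s * (7 * (1 + T) * w)) ≤ Real.exp (c * T) * (T * (7 * (1 + T) * w)) := by
    refine mul_le_mul (Real.exp_le_exp.2 (mul_le_mul_of_nonneg_left hsT hcn)) ?_ (by positivity)
      (Real.exp_pos _).le
    exact mul_le_mul_of_nonneg_right hsT (by positivity)
  have h9 : Real.exp (c * T) * (T * (7 * (1 + T) * w)) = K0 * w := by
    rw [hK0]
    ring
  have h10 : K0 * w = ε / 2 := by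
    rw [hw]
    field_simp
  linarith

end Pool.Agent.ACF
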