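import Pool.Agent.ACF.OneStep
import Pool.Agent.ACF.NLim

set_option autoImplicit false
set_option linter.unusedSectionVars false
open MeasureTheory ProbabilityTheory Set Filter Topology Module
open scoped NNReal ENNReal

namespace Pool.Agent.ACF

variable {E : Type*} [NormedAddCommGroup E] [InnerProductSpace ℝ E] [FiniteDimensional ℝ E]
  [MeasurableSpace E] [BorelSpace E]
variable {Ω : Type*} {mΩ : MeasurableSpace Ω} {P : Measure Ω} [IsProbabilityMeasure P]
  {F : ℝ → MeasurableSpace Ω} {b : ℝ → Ω → ℝ} {T : ℝ}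

/-- symmetric increments with small tails -/
structure SymNoise (P : Measure Ω) (b : ℝ → Ω → ℝ) : Prop where
  symm : ∀ s t, 0 ≤ s → s ≤ t → ∀ φ : ℝ → ℝ≥0∞, Measurable φ →
    ∫⁻ ω, φ (b t ω - b s ω) ∂P = ∫⁻ ω, φ (-(b t ω - b s ω)) ∂P
  tail : ∀ η : ℝ, 0 < η → ∃ C : ℝ, 0 ≤ C ∧ ∀ s t, 0 ≤ s → s ≤ t →
    P.real {ω | η < |b t ω - b s ω|} ≤ C * (t - s) ^ 2

/-- truncation -/
noncomputable def tr (η r : ℝ) : ℝ := if |r| ≤ η then r else 0

lemma tr_meas (η : ℝ) : Measurable (tr η) := by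
  unfold tr
  exact Measurable.ite (measurableSet_le (by fun_prop) measurable_const) measurable_id
    measurable_const

lemma tr_neg (η r : ℝ) : tr η (-r) = -tr η r := by
  unfold tr
  rw [abs_neg]
  split_ifs <;> simp

lemma tr_abs {η : ℝ} (hη : 0 ≤ η) (r : ℝ) : |tr η r| ≤ η := by
  unfold tr
  split_ifs with h
  · exact h
  · simpa using hη

lemma tr_sq (η r : ℝ) : tr η r ^ 2 ≤ r ^ 2 := by
  unfold tr
  split_ifs with h
  · exact le_rfl
  · simp only [ne_eq, OfNat.ofNat_ne_zero, not_false_eq_true, zero_pow]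
    positivity

lemma tr_of_le {η r : ℝ} (h : |r| ≤ η) : tr η r = r := by
  unfold tr
  rw [if_pos h]

/-- independence of an increment from the past -/
lemma Noise.indepS (hN : Noise P F b) {s t : ℝ} (hs : 0 ≤ s) (hst : s ≤ t) {Y : Ω → E}
    (hY : StronglyMeasurable[F s] Y) : IndepFun (fun ω => b t ω - b s ω) Y P := by
  have hYm : Measurable[F s] Y := hY.measurable
  rw [IndepFun_iff_Indep, Indep_iff]
  rintro t1 t2 ⟨B1, hB1, rfl⟩ ⟨B2, hB2, rfl⟩
  have hS : MeasurableSet[F s] (Y ⁻¹' B2) := hYm hB2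
  have hf : StronglyMeasurable[F s] ((Y ⁻¹' B2).indicator (fun _ => (1 : ℝ))) :=
    (@stronglyMeasurable_const _ _ (F s) _ (1 : ℝ)).indicator hS
  have hI := hN.indep s t hs hst _ hf
  have h1 := hI.measure_inter_preimage_eq_mul B1 {1} hB1 (measurableSet_singleton _)
  have e : (Y ⁻¹' B2).indicator (fun _ => (1 : ℝ)) ⁻¹' {1} = Y ⁻¹' B2 := by
    ext ω
    by_cases h : ω ∈ Y ⁻¹' B2
    · simp [h]
    · simp [h]
  rw [e] at h1
  exact h1

/-- integrating out an independent increment -/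
lemma indep_lintegral {β : Ω → ℝ} {Y : Ω → E} (hβ : Measurable β) (hY : Measurable Y)
    (hI : IndepFun β Y P) {G : ℝ × E → ℝ≥0∞} (hG : Measurable G) :
    ∫⁻ ω, G (β ω, Y ω) ∂P = ∫⁻ ω, (∫⁻ ω', G (β ω', Y ω) ∂P) ∂P := by
  have h1 := (indepFun_iff_map_prod_eq_prod_map_map hβ.aemeasurable hY.aemeasurable).1 hI
  have h2 : ∫⁻ ω, G (β ω, Y ω) ∂P = ∫⁻ p, G p ∂(P.map (fun ω => (β ω, Y ω))) :=
    (lintegral_map hG (hβ.prodMk hY)).symm
  have hp1 : IsProbabilityMeasure (P.map β) := Measure.isProbabilityMeasure_map hβ.aemeasurable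
  have hp2 : IsProbabilityMeasure (P.map Y) := Measure.isProbabilityMeasure_map hY.aemeasurable
  rw [h2, h1, lintegral_prod_symm' _ hG]
  have hin : Measurable (fun y : E => ∫⁻ r, G (r, y) ∂(P.map β)) :=
    Measurable.lintegral_prod_left' (f := fun p : ℝ × E => G p) hG
  rw [lintegral_map hin hY]
  refine lintegral_congr fun ω => ?_
  exact lintegral_map (f := fun r : ℝ => G (r, Y ω))
    (hG.comp (measurable_id.prodMk measurable_const)) hβ

/-- the truncated scheme -/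
noncomputable def ch (b : ℝ → Ω → ℝ) (D : ℝ → E →L[ℝ] E) (f : ℝ → E → E) (s : ℝ) (N : ℕ)
    (η : ℝ) : ℕ → E → Ω → E
  | 0, x, _ => x
  | k + 1, x, ω => stp (f (gp s N k)) (D (gp s N k)) (s / N)
      (tr η (b (gp s N (k + 1)) ω - b (gp s N k) ω)) (ch b D f s N η k x ω)

lemma ch_joint (hN : Noise P F b) {D : ℝ → E →L[ℝ] E} {L : ℝ} {f : ℝ → E → E}
    (hf : Drift T L f) {s : ℝ} (hs : 0 < s) (hsT : s ≤ T) {N : ℕ} (hNp : 0 < N) (η : ℝ) :
    ∀ k, k ≤ N → Measurable (fun p : E × Ω => ch b D f s N η k p.1 p.2) := by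
  intro k
  induction k with
  | zero =>
    intro _
    exact measurable_fst
  | succ k ih =>
    intro hk
    have h1 := ih (by omega)
    have ht := gp_mem (T := T) hs hsT hNp (by omega : k ≤ N)
    have hc := (stp_cont (hf.continuous ht) (D (gp s N k)) (s / N)).measurable
    have hb : Measurable (fun p : E × Ω => tr η (b (gp s N (k + 1)) p.2 - b (gp s N k) p.2)) :=
      (tr_meas η).comp ((((hN.adapt (gp s N (k + 1))).mono (hN.le _)).measurable.comp
        measurable_snd).sub (((hN.adapt (gp s N k)).mono (hN.le _)).measurable.comp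
        measurable_snd))
    exact hc.comp (hb.prodMk h1)

lemma ch_adapt (hN : Noise P F b) {D : ℝ → E →L[ℝ] E} {L : ℝ} {f : ℝ → E → E}
    (hf : Drift T L f) {s : ℝ} (hs : 0 < s) (hsT : s ≤ T) {N : ℕ} (hNp : 0 < N) (η : ℝ)
    (x : E) : ∀ k, k ≤ N → StronglyMeasurable[F (gp s N k)] (ch b D f s N η k x) := by
  intro k
  induction k with
  | zero =>
    intro _
    exact @stronglyMeasurable_const _ _ (F _) _ _
  | succ k ih =>
    intro hk
    have h1 := ih (by omega)
    have ht := gp_mem (T := T) hs hsT hNp (by omega : k ≤ N)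
    have hmono : gp s N k ≤ gp s N (k + 1) := gp_mono hs N (Nat.le_succ k)
    have hb : Measurable[F (gp s N (k + 1))]
        (fun ω => tr η (b (gp s N (k + 1)) ω - b (gp s N k) ω)) :=
      (tr_meas η).comp (((hN.adapt _).measurable).sub
        ((hN.adapt _).mono (hN.mono _ _ hmono)).measurable)
    have hb' : StronglyMeasurable[F (gp s N (k + 1))]
        (fun ω => tr η (b (gp s N (k + 1)) ω - b (gp s N k) ω)) := hb.stronglyMeasurable
    exact (stp_cont (hf.continuous ht) (D (gp s N k)) (s / N)).comp_stronglyMeasurable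
      (hb'.prodMk (h1.mono (hN.mono _ _ hmono)))

/-- the truncated scheme agrees with the scheme for small increments -/
lemma ch_eq_nl {D : ℝ → E →L[ℝ] E} {f : ℝ → E → E} {s : ℝ} {N : ℕ} {η : ℝ} (x : E) (ω : Ω) :
    ∀ k, (∀ j < k, |b (gp s N (j + 1)) ω - b (gp s N j) ω| ≤ η) →
      ch b D f s N η k x ω = nl b D f s N x k ω := by
  intro k
  induction k with
  | zero => intro _; rfl
  | succ k ih =>
    intro h
    have h1 := ih fun j hj => h j (by omega)
    have h2 := tr_of_le (h k (by omega))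
    simp only [ch, nl]
    rw [h1, h2]
    rfl

/-- the chain inequality -/
theorem chain_ge (hN : Noise P F b) (hS : SymNoise P b) {D : ℝ → E →L[ℝ] E} {a : ℝ}
    (ha : ∀ t ∈ Icc 0 T, ‖D t‖ ≤ a) {L c : ℝ} {f : ℝ → E → E}
    (hf : Drift T L f) (hc : 0 ≤ c) (hfb : ∀ t ∈ Icc 0 T, ∀ x, ‖f t x‖ ≤ c + L * ‖x‖)
    {s : ℝ} (hs : 0 < s) (hsT : s ≤ T) {N : ℕ} (hNp : 0 < N) (hh1 : s / N ≤ 1)
    (hhL : s / N * L ≤ 1 / 8) {η : ℝ} (hη : 0 ≤ η) (hηa : η * a ≤ 1 / 4) (m : ℕ) {C3 : ℝ}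
    (hC3 : (finrank ℝ E : ℝ) * L + m * (1 + 4 * c ^ 2 * (1 + 2 * L) ^ 2 + 16 * L ^ 2)
      + (finrank ℝ E : ℝ) * a ^ 2 + 5 * m * a ^ 2 ≤ C3) :
    ∀ k, k ≤ N → ∀ g : E → ℝ≥0∞, Measurable g →
      ENNReal.ofReal (Real.exp (-(2 * C3 * (s / N) * k)))
        * ∫⁻ y, ENNReal.ofReal (wgt m y) * g y ∂(hm E)
      ≤ ∫⁻ x, ENNReal.ofReal (wgt m x) * (∫⁻ ω, g (ch b D f s N η k x ω) ∂P) ∂(hm E) := by
  have hh0 : 0 ≤ s / N := by positivity
  have ha0 : 0 ≤ a := (norm_nonneg _).trans (ha 0 ⟨le_rfl, hs.le.trans hsT⟩)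
  intro k
  induction k with
  | zero =>
    intro _ g _
    simp [ch]
  | succ k ih =>
    intro hk g hg
    have ht := gp_mem (T := T) hs hsT hNp (by omega : k ≤ N)
    have hmono : gp s N k ≤ gp s N (k + 1) := gp_mono hs N (Nat.le_succ k)
    set t0 := gp s N k with ht0
    set t1 := gp s N (k + 1) with ht1
    set β : Ω → ℝ := fun ω => tr η (b t1 ω - b t0 ω) with hβ
    have hΔm : Measurable (fun ω => b t1 ω - b t0 ω) :=
      ((hN.adapt t1).mono (hN.le _)).measurable.sub ((hN.adapt t0).mono (hN.le _)).measurable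
    have hβm : Measurable β := (tr_meas η).comp hΔm
    have hstc := stp_cont (hf.continuous ht) (D t0) (s / N)
    set Tg : E → ℝ≥0∞ := fun y => ∫⁻ ω, g (stp (f t0) (D t0) (s / N) (β ω) y) ∂P with hTg
    have hTgm : Measurable Tg := by
      refine Measurable.lintegral_prod_right' (f := fun p : E × Ω =>
        g (stp (f t0) (D t0) (s / N) (β p.2) p.1)) ?_
      exact hg.comp (hstc.measurable.comp ((hβm.comp measurable_snd).prodMk measurable_fst))
    have h1 := ih (by omega) Tg hTgm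
    have e1 : ∀ x : E, ∫⁻ ω, g (ch b D f s N η (k + 1) x ω) ∂P
        = ∫⁻ ω, Tg (ch b D f s N η k x ω) ∂P := by
      intro x
      have hch := ch_adapt hN (D := D) hf hs hsT hNp η x k (by omega)
      have hI0 := hN.indepS ht.1 hmono hch
      have hI : IndepFun β (ch b D f s N η k x) P :=
        hI0.comp (φ := tr η) (ψ := id) (tr_meas η) measurable_id
      exact indep_lintegral (G := fun p : ℝ × E => g (stp (f t0) (D t0) (s / N) p.1 p.2)) hβm
        (hch.mono (hN.le _)).measurable hI (hg.comp hstc.measurable)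
    simp_rw [e1]
    refine le_trans ?_ h1
    have hΔ2 : Integrable (fun ω => (b t1 ω - b t0 ω) ^ 2) P :=
      (hN.incr_memLp t0 t1).integrable_sq
    have hβi : Integrable (fun ω => β ω ^ 2) P := by
      refine Integrable.mono' hΔ2 (hβm.pow_const 2).aestronglyMeasurable
        (Eventually.of_forall fun ω => ?_)
      rw [Real.norm_eq_abs, abs_of_nonneg (sq_nonneg _)]
      exact tr_sq η _
    have hβ2 : ∫ ω, β ω ^ 2 ∂P ≤ s / N := by
      have h2 : ∫ ω, β ω ^ 2 ∂P ≤ ∫ ω, (b t1 ω - b t0 ω) ^ 2 ∂P :=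
        integral_mono hβi hΔ2 fun ω => tr_sq η _
      rw [hN.var t0 t1 ht.1 hmono] at h2
      have e2 : t1 - t0 = s / N := by
        rw [ht1, ht0, gp_succ]
        ring
      linarith
    have hsym : ∀ φ : ℝ → ℝ≥0∞, Measurable φ → ∫⁻ ω, φ (β ω) ∂P = ∫⁻ ω, φ (-(β ω)) ∂P := by
      intro φ hφ
      have h2 := hS.symm t0 t1 ht.1 hmono (fun r => φ (tr η r)) (hφ.comp (tr_meas η))
      simp only [tr_neg] at h2
      exact h2
    have h3 := one_step (P := P) hf.nn hc (hf.lip t0 ht) (hf.continuous ht) (hfb t0 ht)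
      (ha t0 ht) hh0 hh1 hhL m hg hC3 hβm (fun ω => by
        have := mul_le_mul_of_nonneg_right (tr_abs hη (b t1 ω - b t0 ω)) ha0
        linarith) hsym hβi hβ2
    have e4 : Real.exp (-(2 * C3 * (s / N) * ((k + 1 : ℕ) : ℝ)))
        = Real.exp (-(2 * C3 * (s / N) * k)) * Real.exp (-(2 * C3 * (s / N))) := by
      rw [← Real.exp_add]
      congr 1
      push_cast
      ring
    rw [e4, ENNReal.ofReal_mul (Real.exp_pos _).le, mul_assoc]
    gcongr

end Pool.Agent.ACF
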