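import Pool.Agent.ACF.Scale

set_option autoImplicit false
set_option linter.unusedSectionVars false
open MeasureTheory ProbabilityTheory Set Filter Topology
open scoped NNReal ENNReal

namespace Pool.Agent.ACF

variable {E : Type*} [NormedAddCommGroup E] [InnerProductSpace ℝ E] [CompleteSpace E]
variable {G : Type*} [NormedAddCommGroup G] [InnerProductSpace ℝ G] [CompleteSpace G]
variable {H : Type*} [NormedAddCommGroup H] [InnerProductSpace ℝ H] [CompleteSpace H]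
variable {Ω : Type*} {mΩ : MeasurableSpace Ω} {P : Measure Ω} [IsProbabilityMeasure P]
  {F : ℝ → MeasurableSpace Ω} {b : ℝ → Ω → ℝ} {T : ℝ}

/-- convergence of integrals of quadratic expressions -/
lemma quad_conv {α : Type*} {mα : MeasurableSpace α} {μ : Measure α}
    {a : ℕ → α → E} {z : α → E} (ha : ∀ n, MemLp (a n) 2 μ) (hz : MemLp z 2 μ)
    (hlim : Tendsto (fun n => ∫ p, ‖a n p - z p‖ ^ 2 ∂μ) atTop (𝓝 0))
    {f : ℕ → α → ℝ} {g : α → ℝ} (hf : ∀ n, Integrable (f n) μ) (hg : Integrable g μ) {c : ℝ}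
    (hc : 0 ≤ c)
    (hb : ∀ n, ∀ᵐ p ∂μ, |f n p - g p| ≤ c * (‖a n p - z p‖ * (‖a n p - z p‖ + 2 * ‖z p‖))) :
    Tendsto (fun n => ∫ p, f n p ∂μ) atTop (𝓝 (∫ p, g p ∂μ)) := by
  set S := ∫ p, ‖z p‖ ^ 2 ∂μ with hS
  have hS0 : 0 ≤ S := integral_nonneg fun _ => sq_nonneg _
  have iz : Integrable (fun p => ‖z p‖ ^ 2) μ := (memLp_two_iff_integrable_sq_norm hz.1).1 hz
  have ia : ∀ n, Integrable (fun p => ‖a n p - z p‖ ^ 2) μ := fun n =>
    (memLp_two_iff_integrable_sq_norm ((ha n).sub hz).1).1 ((ha n).sub hz)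
  have est : ∀ l : ℝ, 0 < l → ∀ n, |∫ p, f n p ∂μ - ∫ p, g p ∂μ|
      ≤ c * ((1 + l⁻¹) * (∫ p, ‖a n p - z p‖ ^ 2 ∂μ) + l * S) := by
    intro l hl n
    rw [← integral_sub (hf n) hg]
    have i1 : Integrable (fun p => c * ((1 + l⁻¹) * ‖a n p - z p‖ ^ 2 + l * ‖z p‖ ^ 2)) μ :=
      (((ia n).const_mul _).add (iz.const_mul _)).const_mul _
    calc |∫ p, (f n p - g p) ∂μ| ≤ ∫ p, |f n p - g p| ∂μ := abs_integral_le_integral_abs
      _ ≤ ∫ p, c * ((1 + l⁻¹) * ‖a n p - z p‖ ^ 2 + l * ‖z p‖ ^ 2) ∂μ := by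
          refine integral_mono_ae ((hf n).sub hg).abs i1 ?_
          filter_upwards [hb n] with p hp
          refine hp.trans (mul_le_mul_of_nonneg_left ?_ hc)
          set u := ‖a n p - z p‖
          set v := ‖z p‖
          have h1 : 2 * u * v ≤ l⁻¹ * u ^ 2 + l * v ^ 2 := by
            have h2 : 0 ≤ l⁻¹ * (u - l * v) ^ 2 := by positivity
            have h3 : l⁻¹ * (u - l * v) ^ 2 = l⁻¹ * u ^ 2 - 2 * u * v + l * v ^ 2 := by
              field_simp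
              ring
            linarith
          nlinarith
      _ = c * ((1 + l⁻¹) * (∫ p, ‖a n p - z p‖ ^ 2 ∂μ) + l * S) := by
          rw [integral_const_mul, integral_add ((ia n).const_mul _) (iz.const_mul _),
            integral_const_mul, integral_const_mul]
  rw [Metric.tendsto_atTop]
  intro ε hε
  set l : ℝ := ε / (4 * (c + 1) * (S + 1)) with hl
  have hl0 : 0 < l := by positivity
  have h1 : c * (l * S) ≤ ε / 4 := by
    have h2 : l * (4 * (c + 1) * (S + 1)) = ε := by rw [hl]; field_simp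
    have h3 : c * (l * S) ≤ (c + 1) * (l * (S + 1)) := by
      have : l * S ≤ l * (S + 1) := by nlinarith
      calc c * (l * S) ≤ (c + 1) * (l * S) := by nlinarith [mul_nonneg hl0.le hS0]
        _ ≤ (c + 1) * (l * (S + 1)) := by gcongr
    nlinarith
  have h4 : Tendsto (fun n => c * ((1 + l⁻¹) * ∫ p, ‖a n p - z p‖ ^ 2 ∂μ)) atTop (𝓝 0) := by
    simpa using (hlim.const_mul (1 + l⁻¹)).const_mul c
  obtain ⟨n0, hn0⟩ := (Metric.tendsto_atTop.1 h4) (ε / 4) (by positivity)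
  refine ⟨n0, fun n hn => ?_⟩
  have h5 := hn0 n hn
  rw [Real.dist_eq, sub_zero] at h5
  have h6 := est l hl0 n
  rw [Real.dist_eq]
  have h7 := (abs_lt.1 h5).2
  rw [mul_add] at h6
  linarith

lemma tail_tendsto {y : ℝ → Ω → E} (hy : MemLp (fun p : ℝ × Ω => y p.1 p.2) 2 (muT T P)) :
    Tendsto (fun R : ℝ => ∫ p, (if R < ‖y p.1 p.2‖ then ‖y p.1 p.2‖ else 0) ^ 2 ∂(muT T P))
      atTop (𝓝 0) := by
  suffices hs : Tendsto (fun R : ℝ => ∫ p, (if R < ‖y p.1 p.2‖ then ‖y p.1 p.2‖ else 0) ^ 2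
      ∂(muT T P)) atTop (𝓝 (∫ _p : ℝ × Ω, (0 : ℝ) ∂(muT T P))) by
    rwa [integral_zero] at hs
  have iz : Integrable (fun p : ℝ × Ω => ‖y p.1 p.2‖ ^ 2) (muT T P) :=
    (memLp_two_iff_integrable_sq_norm hy.1).1 hy
  refine tendsto_integral_filter_of_dominated_convergence (fun p => ‖y p.1 p.2‖ ^ 2) ?_ ?_ iz ?_
  · refine Eventually.of_forall fun R => ?_
    have hm : AEMeasurable (fun p : ℝ × Ω => ‖y p.1 p.2‖) (muT T P) := hy.1.norm.aemeasurable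
    have hg : Measurable (fun v : ℝ => (if R < v then v else 0) ^ 2) :=
      (Measurable.ite measurableSet_Ioi measurable_id measurable_const).pow_const 2
    exact (hg.comp_aemeasurable hm).aestronglyMeasurable
  · refine Eventually.of_forall fun R => Eventually.of_forall fun p => ?_
    split_ifs with h
    · rw [Real.norm_eq_abs, abs_of_nonneg (sq_nonneg _)]
    · simp
  · refine Eventually.of_forall fun p => ?_
    refine tendsto_const_nhds.congr' ?_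
    filter_upwards [eventually_ge_atTop ‖y p.1 p.2‖] with R hR
    rw [if_neg (not_lt.2 hR)]
    simp

variable {A D : ℝ → E →L[ℝ] E} {B : ℝ → G →L[ℝ] E} {C : ℝ → H →L[ℝ] E}

/-- the scaled solutions converge to the linear one -/
theorem scale_conv (hN : Noise P F b) (hT : 0 < T) (hcA : ContinuousOn A (Icc 0 T))
    (hcD : ContinuousOn D (Icc 0 T)) (hcB : ContinuousOn B (Icc 0 T))
    (hcC : ContinuousOn C (Icc 0 T)) {c c' : ℝ} (hc : 0 ≤ c) (hc' : 0 ≤ c')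
    {K : ℝ → E →L[ℝ] G} {L : ℝ → E →L[ℝ] H} (hcK : ContinuousOn K (Icc 0 T))
    (hcL : ContinuousOn L (Icc 0 T)) {ξ : E} {y : ℝ → Ω → E}
    (hy : LinSol P F b T (fun t => A t + B t ∘L K t + C t ∘L L t) D ξ y)
    {ε : ℕ → ℝ} {U : ℕ → ℝ → Ω → G} {V : ℕ → ℝ → Ω → H} {x : ℕ → ℝ → Ω → E}
    (hε : ∀ n, 0 < ε n) (hε0 : Tendsto ε atTop (𝓝 0))
    (hU : ∀ n, Ctl P F T (U n)) (hV : ∀ n, Ctl P F T (V n))
    (hx : ∀ n, Sol P F b T A D B C (ε n • ξ) (U n) (V n) (x n))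
    (hb : ∀ η : ℝ, 0 < η → η ≤ 1 → ∃ δ > 0, ∀ n, ∀ t ∈ Icc 0 T, ∀ ω,
      ‖(ε n)⁻¹ • U n t ω - K t (y t ω)‖ ≤ c * ‖(ε n)⁻¹ • x n t ω - y t ω‖
        + (η * ‖y t ω‖ + c' * (if δ / (2 * ε n) < ‖y t ω‖ then ‖y t ω‖ else 0)) ∧
      ‖(ε n)⁻¹ • V n t ω - L t (y t ω)‖ ≤ c * ‖(ε n)⁻¹ • x n t ω - y t ω‖
        + (η * ‖y t ω‖ + c' * (if δ / (2 * ε n) < ‖y t ω‖ then ‖y t ω‖ else 0))) :
    Tendsto (fun n => ∫ p, ‖(ε n)⁻¹ • x n p.1 p.2 - y p.1 p.2‖ ^ 2 ∂(muT T P)) atTop (𝓝 0) ∧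
    Tendsto (fun n => ∫ p, ‖(ε n)⁻¹ • U n p.1 p.2 - K p.1 (y p.1 p.2)‖ ^ 2 ∂(muT T P))
      atTop (𝓝 0) ∧
    Tendsto (fun n => ∫ p, ‖(ε n)⁻¹ • V n p.1 p.2 - L p.1 (y p.1 p.2)‖ ^ 2 ∂(muT T P))
      atTop (𝓝 0) := by
  obtain ⟨a1, ha1⟩ := isCompact_Icc.exists_bound_of_continuousOn (s := Icc (0 : ℝ) T) hcA
  obtain ⟨a2, ha2⟩ := isCompact_Icc.exists_bound_of_continuousOn (s := Icc (0 : ℝ) T) hcD
  obtain ⟨k1, hk1⟩ := isCompact_Icc.exists_bound_of_continuousOn (s := Icc (0 : ℝ) T) hcB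
  obtain ⟨k2, hk2⟩ := isCompact_Icc.exists_bound_of_continuousOn (s := Icc (0 : ℝ) T) hcC
  have h00 : (0 : ℝ) ∈ Icc 0 T := ⟨le_rfl, hT.le⟩
  set a := max a1 a2 with ha
  set k := max k1 k2 with hk
  have ha0 : 0 ≤ a := ((norm_nonneg _).trans (ha1 0 h00)).trans (le_max_left _ _)
  have hk0 : 0 ≤ k := ((norm_nonneg _).trans (hk1 0 h00)).trans (le_max_left _ _)
  have jy : MemLp (fun p : ℝ × Ω => y p.1 p.2) 2 (muT T P) :=
    hy.msc.joint hy.joint.aestronglyMeasurable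
  have jKy := clm_memLp hT.le hcK jy
  have jLy := clm_memLp hT.le hcL jy
  set Y := ∫ p, ‖y p.1 p.2‖ ^ 2 ∂(muT T P) with hY
  have hY0 : 0 ≤ Y := integral_nonneg fun _ => sq_nonneg _
  have iy : Integrable (fun p : ℝ × Ω => ‖y p.1 p.2‖ ^ 2) (muT T P) :=
    (memLp_two_iff_integrable_sq_norm jy.1).1 jy
  set Ks := Kst T a c k with hKs
  have hKs0 : 0 ≤ Ks := by rw [hKs]; unfold Kst; positivity
  -- the basic estimate
  have basic : ∀ κ : ℝ, 0 < κ → ∃ n0, ∀ n ≥ n0, ∃ θ : ℝ → Ω → ℝ,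
      MemLp (fun p : ℝ × Ω => θ p.1 p.2) 2 (muT T P) ∧
      (∫ p, ‖θ p.1 p.2‖ ^ 2 ∂(muT T P) ≤ κ) ∧
      (∀ t ∈ Icc 0 T, ∀ ω, ‖(ε n)⁻¹ • U n t ω - K t (y t ω)‖
        ≤ c * ‖(ε n)⁻¹ • x n t ω - y t ω‖ + θ t ω) ∧
      (∀ t ∈ Icc 0 T, ∀ ω, ‖(ε n)⁻¹ • V n t ω - L t (y t ω)‖
        ≤ c * ‖(ε n)⁻¹ • x n t ω - y t ω‖ + θ t ω) := by
    intro κ hκ
    set η : ℝ := min 1 (κ / (4 * (Y + 1))) with hη
    have hη0 : 0 < η := lt_min one_pos (by positivity)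
    have hη1 : η ≤ 1 := min_le_left _ _
    obtain ⟨δ, hδ, hbd⟩ := hb η hη0 hη1
    have htl : Tendsto (fun n => ∫ p, (if δ / (2 * ε n) < ‖y p.1 p.2‖ then ‖y p.1 p.2‖ else 0) ^ 2
        ∂(muT T P)) atTop (𝓝 0) := by
      have h1 : Tendsto (fun n => δ / (2 * ε n)) atTop atTop := by
        have h2 : Tendsto (fun n => 2 * ε n) atTop (𝓝[>] 0) := by
          rw [tendsto_nhdsWithin_iff]
          refine ⟨by simpa using hε0.const_mul 2, Eventually.of_forall fun n => ?_⟩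
          have := hε n
          simp only [mem_Ioi]
          positivity
        have h3 := (tendsto_inv_nhdsGT_zero.comp h2).const_mul_atTop hδ
        refine h3.congr fun n => ?_
        simp [div_eq_mul_inv]
      exact (tail_tendsto jy).comp h1
    obtain ⟨n0, hn0⟩ := (Metric.tendsto_atTop.1 htl) (κ / (4 * (c' ^ 2 + 1))) (by positivity)
    refine ⟨n0, fun n hn => ?_⟩
    set ι : ℝ → Ω → ℝ := fun t ω => if δ / (2 * ε n) < ‖y t ω‖ then ‖y t ω‖ else 0 with hι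
    have hιm : AEStronglyMeasurable (fun p : ℝ × Ω => ι p.1 p.2) (muT T P) := by
      have hm : AEMeasurable (fun p : ℝ × Ω => ‖y p.1 p.2‖) (muT T P) := jy.1.norm.aemeasurable
      have hg : Measurable (fun v : ℝ => (if δ / (2 * ε n) < v then v else 0)) :=
        Measurable.ite measurableSet_Ioi measurable_id measurable_const
      exact (hg.comp_aemeasurable hm).aestronglyMeasurable
    have hιn : ∀ t ω, 0 ≤ ι t ω := by
      intro t ω
      simp only [hι]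
      split_ifs
      · exact norm_nonneg _
      · exact le_rfl
    have hιL : MemLp (fun p : ℝ × Ω => ι p.1 p.2) 2 (muT T P) := by
      refine MemLp.of_le jy hιm (Eventually.of_forall fun p => ?_)
      simp only [hι]
      split_ifs
      · simp
      · simp
    have hny : MemLp (fun p : ℝ × Ω => ‖y p.1 p.2‖) 2 (muT T P) := jy.norm
    refine ⟨fun t ω => η * ‖y t ω‖ + c' * ι t ω, (hny.const_mul η).add (hιL.const_mul c'), ?_,
      fun t ht ω => (hbd n t ht ω).1, fun t ht ω => (hbd n t ht ω).2⟩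
    have iι : Integrable (fun p : ℝ × Ω => ι p.1 p.2 ^ 2) (muT T P) := hιL.integrable_sq
    have h1 : ∫ p, ‖η * ‖y p.1 p.2‖ + c' * ι p.1 p.2‖ ^ 2 ∂(muT T P)
        ≤ ∫ p, (2 * η ^ 2 * ‖y p.1 p.2‖ ^ 2 + 2 * c' ^ 2 * ι p.1 p.2 ^ 2) ∂(muT T P) := by
      refine integral_mono_of_nonneg (Eventually.of_forall fun _ => sq_nonneg _)
        ((iy.const_mul _).add (iι.const_mul _)) (Eventually.of_forall fun p => ?_)
      simp only
      rw [Real.norm_eq_abs, sq_abs]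
      nlinarith [sq_nonneg (η * ‖y p.1 p.2‖ - c' * ι p.1 p.2)]
    rw [integral_add (iy.const_mul _) (iι.const_mul _), integral_const_mul, integral_const_mul,
      ← hY] at h1
    have h2 := hn0 n hn
    rw [Real.dist_eq, sub_zero] at h2
    have h3 := (abs_lt.1 h2).2
    have h4 : 2 * η ^ 2 * Y ≤ κ / 2 := by
      have h5 : η ^ 2 ≤ η := by nlinarith
      have h6 : η * (4 * (Y + 1)) ≤ κ := by
        have := min_le_right 1 (κ / (4 * (Y + 1)))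
        rw [← hη, le_div_iff₀ (by positivity)] at this
        exact this
      nlinarith [mul_nonneg hη0.le hY0]
    have h7 : 2 * c' ^ 2 * ∫ p, ι p.1 p.2 ^ 2 ∂(muT T P) ≤ κ / 2 := by
      rw [lt_div_iff₀ (by positivity)] at h3
      have h8 : 0 ≤ ∫ p, ι p.1 p.2 ^ 2 ∂(muT T P) := integral_nonneg fun _ => sq_nonneg _
      have h9 : ∫ p, ι p.1 p.2 ^ 2 ∂(muT T P)
        = ∫ p, (if δ / (2 * ε n) < ‖y p.1 p.2‖ then ‖y p.1 p.2‖ else 0) ^ 2 ∂(muT T P) := rfl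
      rw [← h9] at h3
      nlinarith
    linarith
  -- the squared norms in terms of `κ`
  have main : ∀ κ : ℝ, 0 < κ → ∃ n0, ∀ n ≥ n0,
      (∫ p, ‖(ε n)⁻¹ • x n p.1 p.2 - y p.1 p.2‖ ^ 2 ∂(muT T P) ≤ T * Ks * κ) ∧
      (∫ p, ‖(ε n)⁻¹ • U n p.1 p.2 - K p.1 (y p.1 p.2)‖ ^ 2 ∂(muT T P)
        ≤ 2 * c ^ 2 * (T * Ks * κ) + 2 * κ) ∧
      (∫ p, ‖(ε n)⁻¹ • V n p.1 p.2 - L p.1 (y p.1 p.2)‖ ^ 2 ∂(muT T P)
        ≤ 2 * c ^ 2 * (T * Ks * κ) + 2 * κ) := by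
    intro κ hκ
    obtain ⟨n0, hn0⟩ := basic κ hκ
    refine ⟨n0, fun n hn => ?_⟩
    obtain ⟨θ, hθ, hθκ, h1, h2⟩ := hn0 n hn
    have hest := scale_est hN hT hcA hcD hcB hcC (a := a) (k := k)
      (fun t ht => (ha1 t ht).trans (le_max_left _ _))
      (fun t ht => (ha2 t ht).trans (le_max_right _ _))
      (fun t ht => (hk1 t ht).trans (le_max_left _ _))
      (fun t ht => (hk2 t ht).trans (le_max_right _ _)) hc hcK hcL hy (hε n) (hU n) (hV n)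
      (hx n) hθ h1 h2
    have jx : MemLp (fun p : ℝ × Ω => x n p.1 p.2) 2 (muT T P) := (hx n).msc.joint (hx n).joint
    have jw : MemLp (fun p : ℝ × Ω => (ε n)⁻¹ • x n p.1 p.2 - y p.1 p.2) 2 (muT T P) :=
      (jx.const_smul (ε n)⁻¹).sub jy
    have iw : Integrable (fun p : ℝ × Ω => ‖(ε n)⁻¹ • x n p.1 p.2 - y p.1 p.2‖ ^ 2) (muT T P) :=
      (memLp_two_iff_integrable_sq_norm jw.1).1 jw
    have iθ : Integrable (fun p : ℝ × Ω => ‖θ p.1 p.2‖ ^ 2) (muT T P) :=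
      (memLp_two_iff_integrable_sq_norm hθ.1).1 hθ
    have hW : ∫ p, ‖(ε n)⁻¹ • x n p.1 p.2 - y p.1 p.2‖ ^ 2 ∂(muT T P) ≤ T * Ks * κ := by
      rw [fub_eq hT.le (g := fun t ω => (ε n)⁻¹ • x n t ω - y t ω) jw]
      have h3 : ∀ s ∈ uIoc 0 T, ‖qn P (fun ω => (ε n)⁻¹ • x n s ω - y s ω)‖ ≤ Ks * κ := by
        intro s hs
        rw [uIoc_of_le hT.le] at hs
        rw [Real.norm_eq_abs, abs_of_nonneg (qn_nonneg _)]
        exact (hest s ⟨hs.1.le, hs.2⟩).trans (mul_le_mul_of_nonneg_left hθκ hKs0)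
      have h4 := intervalIntegral.norm_integral_le_of_norm_le_const h3
      rw [sub_zero, abs_of_nonneg hT.le] at h4
      calc _ ≤ ‖∫ s in (0 : ℝ)..T, qn P (fun ω => (ε n)⁻¹ • x n s ω - y s ω)‖ :=
            Real.le_norm_self _
        _ ≤ Ks * κ * T := h4
        _ = T * Ks * κ := by ring
    have gen2 : ∀ {q : ℝ × Ω → ℝ}, (∀ᵐ p ∂(muT T P), 0 ≤ q p ∧
        q p ≤ c * ‖(ε n)⁻¹ • x n p.1 p.2 - y p.1 p.2‖ + θ p.1 p.2) →
        ∫ p, q p ^ 2 ∂(muT T P) ≤ 2 * c ^ 2 * (T * Ks * κ) + 2 * κ := by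
      intro q hq
      have h3 : ∫ p, q p ^ 2 ∂(muT T P)
          ≤ ∫ p, (2 * c ^ 2 * ‖(ε n)⁻¹ • x n p.1 p.2 - y p.1 p.2‖ ^ 2
            + 2 * ‖θ p.1 p.2‖ ^ 2) ∂(muT T P) := by
        refine integral_mono_of_nonneg (Eventually.of_forall fun _ => sq_nonneg _)
          ((iw.const_mul _).add (iθ.const_mul _)) ?_
        filter_upwards [hq] with p hp
        have h4 := pow_le_pow_left₀ hp.1 hp.2 2
        rw [Real.norm_eq_abs (θ p.1 p.2), sq_abs]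
        nlinarith [sq_nonneg (c * ‖(ε n)⁻¹ • x n p.1 p.2 - y p.1 p.2‖ - θ p.1 p.2)]
      rw [integral_add (iw.const_mul _) (iθ.const_mul _), integral_const_mul,
        integral_const_mul] at h3
      have h5 := mul_le_mul_of_nonneg_left hW (by positivity : 0 ≤ 2 * c ^ 2)
      linarith
    refine ⟨hW, gen2 ?_, gen2 ?_⟩
    · filter_upwards [muT_ae (P := P) T] with p hp
      exact ⟨norm_nonneg _, h1 _ hp _⟩
    · filter_upwards [muT_ae (P := P) T] with p hp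
      exact ⟨norm_nonneg _, h2 _ hp _⟩
  have fin : ∀ (f : ℕ → ℝ) (M : ℝ), 0 ≤ M → (∀ n, 0 ≤ f n) →
      (∀ κ : ℝ, 0 < κ → ∃ n0, ∀ n ≥ n0, f n ≤ M * κ) → Tendsto f atTop (𝓝 0) := by
    intro f M hM hf h
    rw [Metric.tendsto_atTop]
    intro e he
    obtain ⟨n0, hn0⟩ := h (e / (2 * (M + 1))) (by positivity)
    refine ⟨n0, fun n hn => ?_⟩
    rw [Real.dist_eq, sub_zero, abs_of_nonneg (hf n)]
    refine (hn0 n hn).trans_lt ?_
    have h1 : M * (e / (2 * (M + 1))) ≤ (M + 1) * (e / (2 * (M + 1))) := by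
      have : 0 ≤ e / (2 * (M + 1)) := by positivity
      nlinarith
    have h2 : (M + 1) * (e / (2 * (M + 1))) = e / 2 := by field_simp
    linarith
  refine ⟨fin _ (T * Ks) (by positivity) (fun n => integral_nonneg fun _ => sq_nonneg _)
      (fun κ hκ => ?_),
    fin _ (2 * c ^ 2 * (T * Ks) + 2) (by positivity)
      (fun n => integral_nonneg fun _ => sq_nonneg _) (fun κ hκ => ?_),
    fin _ (2 * c ^ 2 * (T * Ks) + 2) (by positivity)
      (fun n => integral_nonneg fun _ => sq_nonneg _) (fun κ hκ => ?_)⟩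
  · obtain ⟨n0, hn0⟩ := main κ hκ
    exact ⟨n0, fun n hn => (hn0 n hn).1⟩
  · obtain ⟨n0, hn0⟩ := main κ hκ
    exact ⟨n0, fun n hn => ((hn0 n hn).2.1).trans (le_of_eq (by ring))⟩
  · obtain ⟨n0, hn0⟩ := main κ hκ
    exact ⟨n0, fun n hn => ((hn0 n hn).2.2).trans (le_of_eq (by ring))⟩

end Pool.Agent.ACF
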