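import Pool.Agent.ACF.LinOpt

set_option autoImplicit false
set_option linter.unusedSectionVars false
open MeasureTheory ProbabilityTheory Set Filter Topology
open scoped NNReal ENNReal

namespace Pool.Agent.ACF

variable {E : Type*} [NormedAddCommGroup E] [InnerProductSpace ℝ E] [CompleteSpace E]
variable {G : Type*} [NormedAddCommGroup G] [InnerProductSpace ℝ G] [CompleteSpace G]
variable {H : Type*} [NormedAddCommGroup H] [InnerProductSpace ℝ H] [CompleteSpace H]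
variable {Ω : Type*} {mΩ : MeasurableSpace Ω} {P : Measure Ω} [IsProbabilityMeasure P]
  {F : ℝ → MeasurableSpace Ω} {b : ℝ → Ω → ℝ} {T : ℝ}

variable {A D : ℝ → E →L[ℝ] E} {B : ℝ → G →L[ℝ] E} {C : ℝ → H →L[ℝ] E}

/-- the scaled solutions converge to the linear one, with a vanishing error term -/
theorem scale_conv' (hN : Noise P F b) (hT : 0 < T) (hcA : ContinuousOn A (Icc 0 T))
    (hcD : ContinuousOn D (Icc 0 T)) (hcB : ContinuousOn B (Icc 0 T))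
    (hcC : ContinuousOn C (Icc 0 T)) {c : ℝ} (hc : 0 ≤ c)
    {K : ℝ → E →L[ℝ] G} {L : ℝ → E →L[ℝ] H} (hcK : ContinuousOn K (Icc 0 T))
    (hcL : ContinuousOn L (Icc 0 T)) {ξ : E} {y : ℝ → Ω → E}
    (hy : LinSol P F b T (fun t => A t + B t ∘L K t + C t ∘L L t) D ξ y)
    {ε : ℕ → ℝ} {U : ℕ → ℝ → Ω → G} {V : ℕ → ℝ → Ω → H} {x : ℕ → ℝ → Ω → E}
    (hε : ∀ n, 0 < ε n)
    (hU : ∀ n, Ctl P F T (U n)) (hV : ∀ n, Ctl P F T (V n))
    (hx : ∀ n, Sol P F b T A D B C (ε n • ξ) (U n) (V n) (x n))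
    {θ : ℕ → ℝ → Ω → ℝ} (hθ : ∀ n, MemLp (fun p : ℝ × Ω => θ n p.1 p.2) 2 (muT T P))
    (hθ0 : Tendsto (fun n => ∫ p, ‖θ n p.1 p.2‖ ^ 2 ∂(muT T P)) atTop (𝓝 0))
    (hbU : ∀ n, ∀ t ∈ Icc 0 T, ∀ ω, ‖(ε n)⁻¹ • U n t ω - K t (y t ω)‖
      ≤ c * ‖(ε n)⁻¹ • x n t ω - y t ω‖ + θ n t ω)
    (hbV : ∀ n, ∀ t ∈ Icc 0 T, ∀ ω, ‖(ε n)⁻¹ • V n t ω - L t (y t ω)‖
      ≤ c * ‖(ε n)⁻¹ • x n t ω - y t ω‖ + θ n t ω) :
    Tendsto (fun n => ∫ p, ‖(ε n)⁻¹ • x n p.1 p.2 - y p.1 p.2‖ ^ 2 ∂(muT T P)) atTop (𝓝 0) ∧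
    Tendsto (fun n => ∫ p, ‖(ε n)⁻¹ • U n p.1 p.2 - K p.1 (y p.1 p.2)‖ ^ 2 ∂(muT T P))
      atTop (𝓝 0) ∧
    Tendsto (fun n => ∫ p, ‖(ε n)⁻¹ • V n p.1 p.2 - L p.1 (y p.1 p.2)‖ ^ 2 ∂(muT T P))
      atTop (𝓝 0) := by
  obtain ⟨a1, ha1⟩ := isCompact_Icc.exists_bound_of_continuousOn (s := Icc (0 : ℝ) T) hcA
  obtain ⟨a2, ha2⟩ := isCompact_Icc.exists_bound_of_continuousOn (s := Icc (0 : ℝ) T) hcD
  obtain ⟨k1, hk1⟩ := isCompact_Icc.exists_bound_of_continuousOn (s := Icc (0 : ℝ) T) hcB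
  obtain ⟨k2, hk2⟩ := isCompact_Icc.exists_bound_of_continuousOn (s := Icc (0 : ℝ) T) hcC
  have h00 : (0 : ℝ) ∈ Icc 0 T := ⟨le_rfl, hT.le⟩
  set a := max a1 a2 with ha
  set k := max k1 k2 with hk
  have ha0 : 0 ≤ a := ((norm_nonneg _).trans (ha1 0 h00)).trans (le_max_left _ _)
  have hk0 : 0 ≤ k := ((norm_nonneg _).trans (hk1 0 h00)).trans (le_max_left _ _)
  have jy : MemLp (fun p : ℝ × Ω => y p.1 p.2) 2 (muT T P) :=
    hy.msc.joint hy.joint.aestronglyMeasurable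
  set Ks := Kst T a c k with hKs
  have hKs0 : 0 ≤ Ks := by rw [hKs]; unfold Kst; positivity
  set S : ℕ → ℝ := fun n => ∫ p, ‖θ n p.1 p.2‖ ^ 2 ∂(muT T P) with hS
  have hS0 : ∀ n, 0 ≤ S n := fun n => integral_nonneg fun _ => sq_nonneg _
  have main : ∀ n,
      (∫ p, ‖(ε n)⁻¹ • x n p.1 p.2 - y p.1 p.2‖ ^ 2 ∂(muT T P) ≤ (T * Ks) * S n) ∧
      (∫ p, ‖(ε n)⁻¹ • U n p.1 p.2 - K p.1 (y p.1 p.2)‖ ^ 2 ∂(muT T P)
        ≤ (2 * c ^ 2 * (T * Ks) + 2) * S n) ∧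
      (∫ p, ‖(ε n)⁻¹ • V n p.1 p.2 - L p.1 (y p.1 p.2)‖ ^ 2 ∂(muT T P)
        ≤ (2 * c ^ 2 * (T * Ks) + 2) * S n) := by
    intro n
    have hest := scale_est hN hT hcA hcD hcB hcC (a := a) (k := k)
      (fun t ht => (ha1 t ht).trans (le_max_left _ _))
      (fun t ht => (ha2 t ht).trans (le_max_right _ _))
      (fun t ht => (hk1 t ht).trans (le_max_left _ _))
      (fun t ht => (hk2 t ht).trans (le_max_right _ _)) hc hcK hcL hy (hε n) (hU n) (hV n)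
      (hx n) (hθ n) (hbU n) (hbV n)
    have jx : MemLp (fun p : ℝ × Ω => x n p.1 p.2) 2 (muT T P) := (hx n).msc.joint (hx n).joint
    have jw : MemLp (fun p : ℝ × Ω => (ε n)⁻¹ • x n p.1 p.2 - y p.1 p.2) 2 (muT T P) :=
      (jx.const_smul (ε n)⁻¹).sub jy
    have iw : Integrable (fun p : ℝ × Ω => ‖(ε n)⁻¹ • x n p.1 p.2 - y p.1 p.2‖ ^ 2) (muT T P) :=
      (memLp_two_iff_integrable_sq_norm jw.1).1 jw
    have iθ : Integrable (fun p : ℝ × Ω => ‖θ n p.1 p.2‖ ^ 2) (muT T P) :=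
      (memLp_two_iff_integrable_sq_norm (hθ n).1).1 (hθ n)
    have hW : ∫ p, ‖(ε n)⁻¹ • x n p.1 p.2 - y p.1 p.2‖ ^ 2 ∂(muT T P) ≤ (T * Ks) * S n := by
      rw [fub_eq hT.le (g := fun t ω => (ε n)⁻¹ • x n t ω - y t ω) jw]
      have h3 : ∀ s ∈ uIoc 0 T, ‖qn P (fun ω => (ε n)⁻¹ • x n s ω - y s ω)‖ ≤ Ks * S n := by
        intro s hs
        rw [uIoc_of_le hT.le] at hs
        rw [Real.norm_eq_abs, abs_of_nonneg (qn_nonneg _)]
        exact hest s ⟨hs.1.le, hs.2⟩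
      have h4 := intervalIntegral.norm_integral_le_of_norm_le_const h3
      rw [sub_zero, abs_of_nonneg hT.le] at h4
      calc _ ≤ ‖∫ s in (0 : ℝ)..T, qn P (fun ω => (ε n)⁻¹ • x n s ω - y s ω)‖ :=
            Real.le_norm_self _
        _ ≤ Ks * S n * T := h4
        _ = (T * Ks) * S n := by ring
    have gen2 : ∀ {q : ℝ × Ω → ℝ}, (∀ᵐ p ∂(muT T P), 0 ≤ q p ∧
        q p ≤ c * ‖(ε n)⁻¹ • x n p.1 p.2 - y p.1 p.2‖ + θ n p.1 p.2) →
        ∫ p, q p ^ 2 ∂(muT T P) ≤ (2 * c ^ 2 * (T * Ks) + 2) * S n := by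
      intro q hq
      have h3 : ∫ p, q p ^ 2 ∂(muT T P)
          ≤ ∫ p, (2 * c ^ 2 * ‖(ε n)⁻¹ • x n p.1 p.2 - y p.1 p.2‖ ^ 2
            + 2 * ‖θ n p.1 p.2‖ ^ 2) ∂(muT T P) := by
        refine integral_mono_of_nonneg (Eventually.of_forall fun _ => sq_nonneg _)
          ((iw.const_mul _).add (iθ.const_mul _)) ?_
        filter_upwards [hq] with p hp
        have h4 := pow_le_pow_left₀ hp.1 hp.2 2
        rw [Real.norm_eq_abs (θ n p.1 p.2), sq_abs]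
        nlinarith [sq_nonneg (c * ‖(ε n)⁻¹ • x n p.1 p.2 - y p.1 p.2‖ - θ n p.1 p.2)]
      rw [integral_add (iw.const_mul _) (iθ.const_mul _), integral_const_mul,
        integral_const_mul] at h3
      have h5 := mul_le_mul_of_nonneg_left hW (by positivity : 0 ≤ 2 * c ^ 2)
      have h6 : (2 * c ^ 2 * (T * Ks) + 2) * S n = 2 * c ^ 2 * ((T * Ks) * S n) + 2 * S n := by
        ring
      rw [h6]
      linarith
    refine ⟨hW, gen2 ?_, gen2 ?_⟩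
    · filter_upwards [muT_ae (P := P) T] with p hp
      exact ⟨norm_nonneg _, hbU n _ hp _⟩
    · filter_upwards [muT_ae (P := P) T] with p hp
      exact ⟨norm_nonneg _, hbV n _ hp _⟩
  have fin : ∀ (f : ℕ → ℝ) (M : ℝ), (∀ n, 0 ≤ f n) → (∀ n, f n ≤ M * S n) →
      Tendsto f atTop (𝓝 0) := by
    intro f M hf h
    have h1 := hθ0.const_mul M
    rw [mul_zero] at h1
    exact squeeze_zero hf h h1
  exact ⟨fin _ (T * Ks) (fun n => integral_nonneg fun _ => sq_nonneg _) fun n => (main n).1,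
    fin _ (2 * c ^ 2 * (T * Ks) + 2) (fun n => integral_nonneg fun _ => sq_nonneg _)
      fun n => (main n).2.1,
    fin _ (2 * c ^ 2 * (T * Ks) + 2) (fun n => integral_nonneg fun _ => sq_nonneg _)
      fun n => (main n).2.2⟩

end Pool.Agent.ACF
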