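import Pool.Agent.ACF.Ode

set_option autoImplicit false
set_option linter.unusedSectionVars false
open Set Filter Topology
open scoped NNReal

namespace Pool.Agent.ACF

variable {E : Type*} [NormedAddCommGroup E] [InnerProductSpace ℝ E] [CompleteSpace E]

/-- the adjoint as a real linear map -/
noncomputable def adjL : (E →L[ℝ] E) →L[ℝ] (E →L[ℝ] E) :=
  LinearMap.mkContinuous
    { toFun := fun A => ContinuousLinearMap.adjoint A
      map_add' := fun A B => map_add _ _ _
      map_smul' := fun c A => by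
        simp }
    1 (fun A => by
      rw [one_mul]
      exact le_of_eq (LinearIsometryEquiv.norm_map _ A))

lemma adjL_apply (A : E →L[ℝ] E) : adjL A = ContinuousLinearMap.adjoint A := rfl

/-- the Lyapunov operator -/
noncomputable def lyapOp (A D S : E →L[ℝ] E) : E →L[ℝ] E :=
  (ContinuousLinearMap.adjoint A) ∘L S + S ∘L A + (ContinuousLinearMap.adjoint D) ∘L S ∘L D

noncomputable def lyapL (A D : E →L[ℝ] E) : (E →L[ℝ] E) →L[ℝ] (E →L[ℝ] E) :=
  ContinuousLinearMap.compL ℝ E E E (ContinuousLinearMap.adjoint A)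
    + (ContinuousLinearMap.compL ℝ E E E).flip A
    + (ContinuousLinearMap.compL ℝ E E E (ContinuousLinearMap.adjoint D)) ∘L ((ContinuousLinearMap.compL ℝ E E E).flip D)

lemma lyapL_apply (A D S : E →L[ℝ] E) : lyapL A D S = lyapOp A D S := by
  unfold lyapL lyapOp
  simp [ContinuousLinearMap.compL_apply]

lemma lyapL_cont {A D : ℝ → E →L[ℝ] E} {s : Set ℝ} (hA : ContinuousOn A s)
    (hD : ContinuousOn D s) : ContinuousOn (fun t => lyapL (A t) (D t)) s := by
  have a1 : ContinuousOn (fun t => ContinuousLinearMap.adjoint (A t)) s :=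
    (adjL (E := E)).continuous.comp_continuousOn hA
  have a2 : ContinuousOn (fun t => ContinuousLinearMap.adjoint (D t)) s :=
    (adjL (E := E)).continuous.comp_continuousOn hD
  unfold lyapL
  have c1 := (ContinuousLinearMap.compL ℝ E E E).continuous.comp_continuousOn a1
  have c2 := (ContinuousLinearMap.compL ℝ E E E).flip.continuous.comp_continuousOn hA
  have c3 := (ContinuousLinearMap.compL ℝ E E E).continuous.comp_continuousOn a2
  have c4 := (ContinuousLinearMap.compL ℝ E E E).flip.continuous.comp_continuousOn hD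
  exact (c1.add c2).add (c3.clm_comp c4)

lemma adj_lyapOp (A D S : E →L[ℝ] E) : ContinuousLinearMap.adjoint (lyapOp A D S) = lyapOp A D (ContinuousLinearMap.adjoint S) := by
  unfold lyapOp
  simp only [map_add, ContinuousLinearMap.adjoint_comp, ContinuousLinearMap.adjoint_adjoint]
  rw [add_comm (ContinuousLinearMap.adjoint S ∘L A) (ContinuousLinearMap.adjoint A ∘L ContinuousLinearMap.adjoint S)]
  congr 1

/-- the Lyapunov equation has a symmetric solution -/
theorem exists_lyap {T : ℝ} (hT : 0 < T) {A D M : ℝ → E →L[ℝ] E} (hA : ContinuousOn A (Icc 0 T))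
    (hD : ContinuousOn D (Icc 0 T)) (hM : ContinuousOn M (Icc 0 T))
    (hMs : ∀ t ∈ Icc 0 T, ContinuousLinearMap.adjoint (M t) = M t) :
    ∃ S : ℝ → E →L[ℝ] E, S T = 0 ∧ (∀ t, ContinuousLinearMap.adjoint (S t) = S t) ∧
      ∀ t ∈ Icc 0 T, HasDerivWithinAt S (-(lyapOp (A t) (D t) (S t) + M t)) (Icc 0 T) t := by
  have c1 : ContinuousOn (fun t => -(lyapL (A t) (D t))) (Icc 0 T) := (lyapL_cont hA hD).neg
  obtain ⟨S0, h1, h2⟩ := lin_backward (f := fun t => -(M t)) hT.le c1 hM.neg
    (0 : E →L[ℝ] E)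
  refine ⟨fun t => (2 : ℝ)⁻¹ • (S0 t + adjL (S0 t)), ?_, ?_, ?_⟩
  · simp [h1]
  · intro t
    simp only [adjL_apply]
    have : ContinuousLinearMap.adjoint ((2 : ℝ)⁻¹ • (S0 t + ContinuousLinearMap.adjoint (S0 t))) = adjL ((2 : ℝ)⁻¹ • (S0 t + ContinuousLinearMap.adjoint (S0 t))) := rfl
    rw [this, map_smul, map_add, adjL_apply, adjL_apply, ContinuousLinearMap.adjoint_adjoint,
      add_comm]
  · intro t ht
    have h3 := h2 t ht
    have h4 : HasDerivWithinAt (fun t => adjL (S0 t))
        (adjL ((-(lyapL (A t) (D t))) (S0 t) + -(M t))) (Icc 0 T) t :=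
      (adjL (E := E)).hasFDerivAt.comp_hasDerivWithinAt t h3
    have h5 := (h3.add h4).const_smul (2 : ℝ)⁻¹
    refine h5.congr_deriv ?_
    rw [← lyapL_apply]
    have e1 : adjL ((-(lyapL (A t) (D t))) (S0 t) + -(M t))
        = -(lyapL (A t) (D t) (adjL (S0 t))) - M t := by
      rw [map_add, map_neg, ContinuousLinearMap.neg_apply, map_neg, lyapL_apply, lyapL_apply,
        adjL_apply, adjL_apply, adjL_apply, adj_lyapOp, hMs t ht]
      abel
    rw [e1, map_smul, map_add, ContinuousLinearMap.neg_apply]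
    generalize lyapL (A t) (D t) (S0 t) = z1
    generalize lyapL (A t) (D t) (adjL (S0 t)) = z2
    have e2 : M t = (2 : ℝ)⁻¹ • (M t + M t) := by
      rw [← two_smul ℝ (M t), smul_smul]
      norm_num
    conv_rhs => rw [e2]
    rw [← smul_add, ← smul_neg]
    congr 1
    abel

end Pool.Agent.ACF
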