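import Pool.Agent.ACF.Conv
import Pool.Agent.ACF.Lyap

set_option autoImplicit false
set_option linter.unusedSectionVars false
open MeasureTheory ProbabilityTheory Set Filter Topology
open scoped NNReal ENNReal

namespace Pool.Agent.ACF

variable {E : Type*} [NormedAddCommGroup E] [InnerProductSpace ℝ E] [CompleteSpace E]
variable {G : Type*} [NormedAddCommGroup G] [InnerProductSpace ℝ G] [CompleteSpace G]
variable {H : Type*} [NormedAddCommGroup H] [InnerProductSpace ℝ H] [CompleteSpace H]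
variable {Ω : Type*} {mΩ : MeasurableSpace Ω} {P : Measure Ω} [IsProbabilityMeasure P]
  {F : ℝ → MeasurableSpace Ω} {b : ℝ → Ω → ℝ} {T : ℝ}

/-- the cost `E ∫ (r |W|² + ⟨Q x, x⟩ + s |O|²) dt` -/
noncomputable def cst (r s : ℝ) (Q : ℝ → E →L[ℝ] E) (T : ℝ) (P : Measure Ω)
    (x : ℝ → Ω → E) (O : ℝ → Ω → G) (W : ℝ → Ω → H) : ℝ :=
  ∫ p, (r * ‖W p.1 p.2‖ ^ 2 + inner ℝ (Q p.1 (x p.1 p.2)) (x p.1 p.2)
    + s * ‖O p.1 p.2‖ ^ 2) ∂(muT T P)

lemma int_sq {z : ℝ → Ω → E} (hz : MemLp (fun p : ℝ × Ω => z p.1 p.2) 2 (muT T P)) :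
    Integrable (fun p : ℝ × Ω => ‖z p.1 p.2‖ ^ 2) (muT T P) :=
  (memLp_two_iff_integrable_sq_norm hz.1).1 hz

lemma int_inner {z w : ℝ → Ω → E} (hz : MemLp (fun p : ℝ × Ω => z p.1 p.2) 2 (muT T P))
    (hw : MemLp (fun p : ℝ × Ω => w p.1 p.2) 2 (muT T P)) :
    Integrable (fun p : ℝ × Ω => inner ℝ (z p.1 p.2) (w p.1 p.2)) (muT T P) := by
  refine Integrable.mono' ((int_sq hz).add (int_sq hw))
    (hz.1.inner hw.1) (Eventually.of_forall fun p => ?_)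
  have h1 := norm_inner_le_norm (𝕜 := ℝ) (z p.1 p.2) (w p.1 p.2)
  simp only [Pi.add_apply]
  nlinarith [sq_nonneg (‖z p.1 p.2‖ - ‖w p.1 p.2‖), sq_nonneg (‖z p.1 p.2‖),
    sq_nonneg (‖w p.1 p.2‖)]

lemma cst_split (hT : 0 ≤ T) {r s : ℝ} {Q : ℝ → E →L[ℝ] E} (hQ : ContinuousOn Q (Icc 0 T))
    {x : ℝ → Ω → E} {O : ℝ → Ω → G} {W : ℝ → Ω → H}
    (hx : MemLp (fun p : ℝ × Ω => x p.1 p.2) 2 (muT T P))
    (hO : MemLp (fun p : ℝ × Ω => O p.1 p.2) 2 (muT T P))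
    (hW : MemLp (fun p : ℝ × Ω => W p.1 p.2) 2 (muT T P)) :
    cst r s Q T P x O W = r * (∫ p, ‖W p.1 p.2‖ ^ 2 ∂(muT T P))
      + (∫ p, inner ℝ (Q p.1 (x p.1 p.2)) (x p.1 p.2) ∂(muT T P))
      + s * ∫ p, ‖O p.1 p.2‖ ^ 2 ∂(muT T P) := by
  have i1 := (int_sq hW).const_mul r
  have i2 := int_inner (z := fun t ω => Q t (x t ω)) (w := x) (clm_memLp hT hQ hx) hx
  have i3 := (int_sq hO).const_mul s
  have i12 : Integrable (fun p : ℝ × Ω => r * ‖W p.1 p.2‖ ^ 2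
    + inner ℝ (Q p.1 (x p.1 p.2)) (x p.1 p.2)) (muT T P) := i1.add i2
  unfold cst
  rw [integral_add i12 i3, integral_add i1 i2, integral_const_mul, integral_const_mul]

lemma norm_sq_diff (a z : E) : |‖a‖ ^ 2 - ‖z‖ ^ 2| ≤ 1 * (‖a - z‖ * (‖a - z‖ + 2 * ‖z‖)) := by
  have h1 : ‖a‖ ≤ ‖a - z‖ + ‖z‖ := by
    have := norm_add_le (a - z) z
    simpa using this
  have h2 : |‖a‖ - ‖z‖| ≤ ‖a - z‖ := abs_norm_sub_norm_le _ _
  have h3 : ‖a‖ ^ 2 - ‖z‖ ^ 2 = (‖a‖ - ‖z‖) * (‖a‖ + ‖z‖) := by ring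
  rw [h3, abs_mul, abs_of_nonneg (by positivity : 0 ≤ ‖a‖ + ‖z‖), one_mul]
  exact mul_le_mul h2 (by linarith) (by positivity) (norm_nonneg _)

lemma inner_diff (M : E →L[ℝ] E) {c : ℝ} (hM : ‖M‖ ≤ c) (a z : E) :
    |inner ℝ (M a) a - inner ℝ (M z) z| ≤ c * (‖a - z‖ * (‖a - z‖ + 2 * ‖z‖)) := by
  have hc : 0 ≤ c := (norm_nonneg _).trans hM
  have h1 : inner ℝ (M a) a - inner ℝ (M z) z
      = inner ℝ (M (a - z)) (a - z) + inner ℝ (M (a - z)) z + inner ℝ (M z) (a - z) := by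
    simp only [map_sub, inner_sub_left, inner_sub_right]
    ring
  rw [h1]
  have b1 : |inner ℝ (M (a - z)) (a - z)| ≤ c * ‖a - z‖ * ‖a - z‖ :=
    (abs_real_inner_le_norm _ _).trans
      (mul_le_mul_of_nonneg_right (M.le_of_opNorm_le hM _) (norm_nonneg _))
  have b2 : |inner ℝ (M (a - z)) z| ≤ c * ‖a - z‖ * ‖z‖ :=
    (abs_real_inner_le_norm _ _).trans
      (mul_le_mul_of_nonneg_right (M.le_of_opNorm_le hM _) (norm_nonneg _))
  have b3 : |inner ℝ (M z) (a - z)| ≤ c * ‖z‖ * ‖a - z‖ :=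
    (abs_real_inner_le_norm _ _).trans
      (mul_le_mul_of_nonneg_right (M.le_of_opNorm_le hM _) (norm_nonneg _))
  refine (abs_add_three _ _ _).trans ?_
  nlinarith

/-- convergence of the scaled costs -/
lemma cost_conv (hT : 0 ≤ T) {r s : ℝ} {Q : ℝ → E →L[ℝ] E} (hQ : ContinuousOn Q (Icc 0 T))
    {K : ℝ → E →L[ℝ] G} {L : ℝ → E →L[ℝ] H} (hcK : ContinuousOn K (Icc 0 T))
    (hcL : ContinuousOn L (Icc 0 T)) {y : ℝ → Ω → E}
    (hy : MemLp (fun p : ℝ × Ω => y p.1 p.2) 2 (muT T P))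
    {ε : ℕ → ℝ} {U : ℕ → ℝ → Ω → G} {V : ℕ → ℝ → Ω → H} {x : ℕ → ℝ → Ω → E}
    (hx : ∀ n, MemLp (fun p : ℝ × Ω => x n p.1 p.2) 2 (muT T P))
    (hU : ∀ n, MemLp (fun p : ℝ × Ω => U n p.1 p.2) 2 (muT T P))
    (hV : ∀ n, MemLp (fun p : ℝ × Ω => V n p.1 p.2) 2 (muT T P))
    (hlim : Tendsto (fun n => ∫ p, ‖(ε n)⁻¹ • x n p.1 p.2 - y p.1 p.2‖ ^ 2 ∂(muT T P))
        atTop (𝓝 0) ∧
      Tendsto (fun n => ∫ p, ‖(ε n)⁻¹ • U n p.1 p.2 - K p.1 (y p.1 p.2)‖ ^ 2 ∂(muT T P))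
        atTop (𝓝 0) ∧
      Tendsto (fun n => ∫ p, ‖(ε n)⁻¹ • V n p.1 p.2 - L p.1 (y p.1 p.2)‖ ^ 2 ∂(muT T P))
        atTop (𝓝 0)) :
    Tendsto (fun n => ((ε n)⁻¹) ^ 2 * cst r s Q T P (x n) (U n) (V n)) atTop
      (𝓝 (cst r s Q T P y (fun t ω => K t (y t ω)) (fun t ω => L t (y t ω)))) := by
  have jK := clm_memLp hT hcK hy
  have jL := clm_memLp hT hcL hy
  obtain ⟨cQ, hcQ⟩ := isCompact_Icc.exists_bound_of_continuousOn (s := Icc (0 : ℝ) T) hQ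
  have hcQ0 : 0 ≤ cQ := (norm_nonneg _).trans (hcQ 0 ⟨le_rfl, hT⟩)
  have t1 := quad_conv (μ := muT T P)
    (a := fun n p => (ε n)⁻¹ • V n p.1 p.2) (z := fun p => L p.1 (y p.1 p.2))
    (fun n => (hV n).const_smul _) jL hlim.2.2
    (f := fun n p => ‖(ε n)⁻¹ • V n p.1 p.2‖ ^ 2) (g := fun p => ‖L p.1 (y p.1 p.2)‖ ^ 2)
    (fun n => int_sq (z := fun t ω => (ε n)⁻¹ • V n t ω) ((hV n).const_smul _))
    (int_sq (z := fun t ω => L t (y t ω)) jL) zero_le_one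
    (fun n => Eventually.of_forall fun p => norm_sq_diff _ _)
  have t2 := quad_conv (μ := muT T P)
    (a := fun n p => (ε n)⁻¹ • U n p.1 p.2) (z := fun p => K p.1 (y p.1 p.2))
    (fun n => (hU n).const_smul _) jK hlim.2.1
    (f := fun n p => ‖(ε n)⁻¹ • U n p.1 p.2‖ ^ 2) (g := fun p => ‖K p.1 (y p.1 p.2)‖ ^ 2)
    (fun n => int_sq (z := fun t ω => (ε n)⁻¹ • U n t ω) ((hU n).const_smul _))
    (int_sq (z := fun t ω => K t (y t ω)) jK) zero_le_one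
    (fun n => Eventually.of_forall fun p => norm_sq_diff _ _)
  have jx : ∀ n, MemLp (fun p : ℝ × Ω => (ε n)⁻¹ • x n p.1 p.2) 2 (muT T P) :=
    fun n => (hx n).const_smul _
  have t3 := quad_conv (μ := muT T P)
    (a := fun n p => (ε n)⁻¹ • x n p.1 p.2) (z := fun p => y p.1 p.2)
    jx hy hlim.1
    (f := fun n p => inner ℝ (Q p.1 ((ε n)⁻¹ • x n p.1 p.2)) ((ε n)⁻¹ • x n p.1 p.2))
    (g := fun p => inner ℝ (Q p.1 (y p.1 p.2)) (y p.1 p.2))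
    (fun n => int_inner (z := fun t ω => Q t ((ε n)⁻¹ • x n t ω))
      (w := fun t ω => (ε n)⁻¹ • x n t ω)
      (clm_memLp hT hQ (z := fun t ω => (ε n)⁻¹ • x n t ω) (jx n)) (jx n))
    (int_inner (z := fun t ω => Q t (y t ω)) (w := y) (clm_memLp hT hQ hy) hy) hcQ0
    (fun n => by
      filter_upwards [muT_ae (P := P) T] with p hp
      exact inner_diff (Q p.1) (hcQ _ hp) _ _)
  have h := ((t1.const_mul r).add t3).add (t2.const_mul s)
  rw [cst_split hT hQ hy jK jL]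
  refine h.congr fun n => ?_
  rw [cst_split hT hQ (hx n) (hU n) (hV n)]
  simp only [map_smul, real_inner_smul_left, real_inner_smul_right, norm_smul, mul_pow]
  rw [integral_const_mul, integral_const_mul, integral_const_mul, integral_const_mul]
  simp only [Real.norm_eq_abs, sq_abs]
  ring

lemma fub_ei (hT : 0 ≤ T) {M : ℝ → E →L[ℝ] E} (hM : ContinuousOn M (Icc 0 T))
    {y : ℝ → Ω → E} (hy : MemLp (fun p : ℝ × Ω => y p.1 p.2) 2 (muT T P)) :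
    ∫ p, inner ℝ (M p.1 (y p.1 p.2)) (y p.1 p.2) ∂(muT T P)
      = ∫ t in (0 : ℝ)..T, ei P (fun ω => M t (y t ω)) (y t) := by
  have i3 := int_inner (z := fun t ω => M t (y t ω)) (w := y) (clm_memLp hT hM hy) hy
  unfold muT at i3 ⊢
  rw [integral_prod _ i3, intervalIntegral.integral_of_le hT, integral_Icc_eq_integral_Ioc]
  rfl

/-- the cost operator of linear laws -/
noncomputable def costOp (r s : ℝ) (Q : E →L[ℝ] E) (K : E →L[ℝ] G) (L : E →L[ℝ] H) :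
    E →L[ℝ] E := r • (ContinuousLinearMap.adjoint L ∘L L) + Q + s • (ContinuousLinearMap.adjoint K ∘L K)

lemma costOp_inner (r s : ℝ) (Q : E →L[ℝ] E) (K : E →L[ℝ] G) (L : E →L[ℝ] H) (z : E) :
    inner ℝ (costOp r s Q K L z) z = r * ‖L z‖ ^ 2 + inner ℝ (Q z) z + s * ‖K z‖ ^ 2 := by
  unfold costOp
  simp only [ContinuousLinearMap.add_apply, ContinuousLinearMap.smul_apply,
    ContinuousLinearMap.comp_apply, inner_add_left, real_inner_smul_left,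
    ContinuousLinearMap.adjoint_inner_left, real_inner_self_eq_norm_sq]

lemma costOp_adj {r s : ℝ} {Q : E →L[ℝ] E} (hQ : ContinuousLinearMap.adjoint Q = Q) (K : E →L[ℝ] G) (L : E →L[ℝ] H) :
    ContinuousLinearMap.adjoint (costOp r s Q K L) = costOp r s Q K L := by
  have h1 : ∀ c : ℝ, ∀ R : E →L[ℝ] E, ContinuousLinearMap.adjoint (c • R) = c • ContinuousLinearMap.adjoint R := by
    intro c R
    change adjL (c • R) = c • adjL R
    rw [map_smul]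
  unfold costOp
  rw [map_add, map_add, h1, h1, ContinuousLinearMap.adjoint_comp, ContinuousLinearMap.adjoint_comp,
    ContinuousLinearMap.adjoint_adjoint, ContinuousLinearMap.adjoint_adjoint, hQ]

lemma adj_cont {L : ℝ → E →L[ℝ] G} {s : Set ℝ} (hL : ContinuousOn L s) :
    ContinuousOn (fun t => ContinuousLinearMap.adjoint (L t)) s :=
  ((ContinuousLinearMap.adjoint : (E →L[ℝ] G) ≃ₗᵢ⋆[ℝ] (G →L[ℝ] E)).continuous).comp_continuousOn hL

lemma costOp_cont {r s : ℝ} {Q : ℝ → E →L[ℝ] E} {K : ℝ → E →L[ℝ] G} {L : ℝ → E →L[ℝ] H}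
    {S : Set ℝ} (hQ : ContinuousOn Q S) (hK : ContinuousOn K S) (hL : ContinuousOn L S) :
    ContinuousOn (fun t => costOp r s (Q t) (K t) (L t)) S := by
  unfold costOp
  exact ((((adj_cont hL).clm_comp hL).const_smul r).add hQ).add
    (((adj_cont hK).clm_comp hK).const_smul s)

lemma cst_linear (hT : 0 ≤ T) {r s : ℝ} {Q : ℝ → E →L[ℝ] E} (hQ : ContinuousOn Q (Icc 0 T))
    {K : ℝ → E →L[ℝ] G} {L : ℝ → E →L[ℝ] H} (hcK : ContinuousOn K (Icc 0 T))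
    (hcL : ContinuousOn L (Icc 0 T)) {y : ℝ → Ω → E}
    (hy : MemLp (fun p : ℝ × Ω => y p.1 p.2) 2 (muT T P)) :
    cst r s Q T P y (fun t ω => K t (y t ω)) (fun t ω => L t (y t ω))
      = ∫ t in (0 : ℝ)..T, ei P (fun ω => costOp r s (Q t) (K t) (L t) (y t ω)) (y t) := by
  rw [← fub_ei hT (M := fun t => costOp r s (Q t) (K t) (L t)) (costOp_cont hQ hcK hcL) hy]
  unfold cst
  simp_rw [costOp_inner]

end Pool.Agent.ACF
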