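import Pool.Agent.ACF.Cost

set_option autoImplicit false
set_option linter.unusedSectionVars false
open MeasureTheory ProbabilityTheory Set Filter Topology
open scoped NNReal ENNReal

namespace Pool.Agent.ACF

variable {E : Type*} [NormedAddCommGroup E] [InnerProductSpace ℝ E] [CompleteSpace E]
variable {G : Type*} [NormedAddCommGroup G] [InnerProductSpace ℝ G] [CompleteSpace G]
variable {H : Type*} [NormedAddCommGroup H] [InnerProductSpace ℝ H] [CompleteSpace H]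
variable {Ω : Type*} {mΩ : MeasurableSpace Ω} {P : Measure Ω} [IsProbabilityMeasure P]
  {F : ℝ → MeasurableSpace Ω} {b : ℝ → Ω → ℝ} {T : ℝ}

/-- a law of linear growth with a derivative at the origin, uniformly in time -/
structure LawOK (T : ℝ) (f : ℝ → E → G) (K : ℝ → E →L[ℝ] G) : Prop where
  cont : ContinuousOn K (Icc 0 T)
  growth : ∃ κ : ℝ, ∀ t ∈ Icc 0 T, ∀ x, ‖f t x‖ ≤ κ * ‖x‖
  diff : ∀ η > 0, ∃ δ > 0, ∀ t ∈ Icc 0 T, ∀ x, ‖x‖ ≤ δ → ‖f t x - K t x‖ ≤ η * ‖x‖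

variable {A D : ℝ → E →L[ℝ] E} {B : ℝ → G →L[ℝ] E} {C : ℝ → H →L[ℝ] E}

/-- time zero optimality of the law `w` against the law `o` -/
def Opt (P : Measure Ω) (F : ℝ → MeasurableSpace Ω) (b : ℝ → Ω → ℝ) (T : ℝ)
    (A D : ℝ → E →L[ℝ] E) (B : ℝ → G →L[ℝ] E) (C : ℝ → H →L[ℝ] E) (r s : ℝ)
    (Q : ℝ → E →L[ℝ] E) (o : ℝ → E → G) (w : ℝ → E → H) : Prop :=
  ∀ x0 : E, ∃ X : ℝ → Ω → E, Ctl P F T (fun t ω => o t (X t ω)) ∧
    Ctl P F T (fun t ω => w t (X t ω)) ∧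
    Sol P F b T A D B C x0 (fun t ω => o t (X t ω)) (fun t ω => w t (X t ω)) X ∧
    ∀ W : ℝ → Ω → H, Ctl P F T W → ∃ X' : ℝ → Ω → E,
      Ctl P F T (fun t ω => o t (X' t ω)) ∧
      Sol P F b T A D B C x0 (fun t ω => o t (X' t ω)) W X' ∧
      cst r s Q T P X (fun t ω => o t (X t ω)) (fun t ω => w t (X t ω))
        ≤ cst r s Q T P X' (fun t ω => o t (X' t ω)) W

/-- the linear parts inherit optimality among linear laws -/
theorem lin_opt_aux (hN : Noise P F b) (hT : 0 < T) (hcA : ContinuousOn A (Icc 0 T))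
    (hcD : ContinuousOn D (Icc 0 T)) (hcB : ContinuousOn B (Icc 0 T))
    (hcC : ContinuousOn C (Icc 0 T)) {r s : ℝ} {Q : ℝ → E →L[ℝ] E}
    (hQ : ContinuousOn Q (Icc 0 T)) {o : ℝ → E → G} {w : ℝ → E → H} {KO : ℝ → E →L[ℝ] G}
    {KW L : ℝ → E →L[ℝ] H} (ho : LawOK T o KO) (hw : LawOK T w KW)
    (hcL : ContinuousOn L (Icc 0 T)) (hopt : Opt P F b T A D B C r s Q o w) {ξ : E}
    {y z : ℝ → Ω → E} (hy : LinSol P F b T (fun t => A t + B t ∘L KO t + C t ∘L KW t) D ξ y)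
    (hz : LinSol P F b T (fun t => A t + B t ∘L KO t + C t ∘L L t) D ξ z)
    {ε : ℕ → ℝ} (hε : ∀ n, 0 < ε n) (hε0 : Tendsto ε atTop (𝓝 0)) :
    cst r s Q T P y (fun t ω => KO t (y t ω)) (fun t ω => KW t (y t ω))
      ≤ cst r s Q T P z (fun t ω => KO t (z t ω)) (fun t ω => L t (z t ω)) := by
  have jy : MemLp (fun p : ℝ × Ω => y p.1 p.2) 2 (muT T P) :=
    hy.msc.joint hy.joint.aestronglyMeasurable
  have jz : MemLp (fun p : ℝ × Ω => z p.1 p.2) 2 (muT T P) :=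
    hz.msc.joint hz.joint.aestronglyMeasurable
  have hW : ∀ n, Ctl P F T (fun t ω => ε n • L t (z t ω)) := by
    intro n
    refine ⟨?_, (clm_memLp hT.le hcL jz).const_smul _⟩
    intro t ht
    obtain ⟨g, hg, hfg⟩ := (hz.adp.clm L) t ht
    exact ⟨fun ω => ε n • g ω, hg.const_smul _, by
      filter_upwards [hfg] with ω hω
      rw [hω]⟩
  choose X hX1 hX2 hX3 hX4 using fun n => hopt (ε n • ξ)
  choose X' hX'1 hX'2 hX'3 using fun n => hX4 n (fun t ω => ε n • L t (z t ω)) (hW n)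
  -- constants
  have h00 : (0 : ℝ) ∈ Icc 0 T := ⟨le_rfl, hT.le⟩
  obtain ⟨κ1, hκ1⟩ := ho.growth
  obtain ⟨κ2, hκ2⟩ := hw.growth
  obtain ⟨k1, hk1⟩ := isCompact_Icc.exists_bound_of_continuousOn (s := Icc (0 : ℝ) T) ho.cont
  obtain ⟨k2, hk2⟩ := isCompact_Icc.exists_bound_of_continuousOn (s := Icc (0 : ℝ) T) hw.cont
  set κ := max 0 (max κ1 κ2) with hκ
  set k := max k1 k2 with hk
  have hκ0 : 0 ≤ κ := le_max_left _ _
  have hk0 : 0 ≤ k := ((norm_nonneg _).trans (hk1 0 h00)).trans (le_max_left _ _)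
  have gO : ∀ t ∈ Icc 0 T, ∀ x, ‖o t x‖ ≤ κ * ‖x‖ := fun t ht x =>
    (hκ1 t ht x).trans (mul_le_mul_of_nonneg_right
      ((le_max_left _ _).trans (le_max_right _ _)) (norm_nonneg _))
  have gW : ∀ t ∈ Icc 0 T, ∀ x, ‖w t x‖ ≤ κ * ‖x‖ := fun t ht x =>
    (hκ2 t ht x).trans (mul_le_mul_of_nonneg_right
      ((le_max_right _ _).trans (le_max_right _ _)) (norm_nonneg _))
  have kO : ∀ t ∈ Icc 0 T, ‖KO t‖ ≤ k := fun t ht => (hk1 t ht).trans (le_max_left _ _)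
  have kW : ∀ t ∈ Icc 0 T, ‖KW t‖ ≤ k := fun t ht => (hk2 t ht).trans (le_max_right _ _)
  set c : ℝ := 1 + 2 * κ + 3 * k with hc
  have hc0 : 0 ≤ c := by positivity
  have hc'0 : 0 ≤ κ + k := by positivity
  have lim1 := scale_conv hN hT hcA hcD hcB hcC hc0 hc'0 ho.cont hw.cont hy hε hε0 hX1 hX2 hX3
    (by
      intro η hη hη1
      obtain ⟨δ1, hδ1, h1⟩ := ho.diff η hη
      obtain ⟨δ2, hδ2, h2⟩ := hw.diff η hη
      refine ⟨min δ1 δ2, lt_min hδ1 hδ2, fun n t ht ω => ⟨?_, ?_⟩⟩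
      · exact law_bound (gO t ht) (kO t ht) hη.le hη1 hκ0
          (fun x hx => h1 t ht x (hx.trans (min_le_left _ _))) (hε n) _ _
      · exact law_bound (gW t ht) (kW t ht) hη.le hη1 hκ0
          (fun x hx => h2 t ht x (hx.trans (min_le_right _ _))) (hε n) _ _)
  have lim2 := scale_conv hN hT hcA hcD hcB hcC hc0 hc'0 ho.cont hcL hz hε hε0 hX'1 hW hX'2
    (by
      intro η hη hη1
      obtain ⟨δ1, hδ1, h1⟩ := ho.diff η hη
      refine ⟨δ1, hδ1, fun n t ht ω => ⟨?_, ?_⟩⟩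
      · exact law_bound (gO t ht) (kO t ht) hη.le hη1 hκ0
          (fun x hx => h1 t ht x hx) (hε n) _ _
      · have e1 : (ε n)⁻¹ • ε n • L t (z t ω) - L t (z t ω) = 0 := by
          rw [smul_smul, inv_mul_cancel₀ (hε n).ne', one_smul, sub_self]
        rw [e1, norm_zero]
        have h3 : 0 ≤ (if δ1 / (2 * ε n) < ‖z t ω‖ then ‖z t ω‖ else 0) := by
          split_ifs
          · exact norm_nonneg _
          · exact le_rfl
        have h4 := norm_nonneg (z t ω)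
        have h5 := norm_nonneg ((ε n)⁻¹ • X' n t ω - z t ω)
        positivity)
  have jX : ∀ n, MemLp (fun p : ℝ × Ω => X n p.1 p.2) 2 (muT T P) := fun n =>
    (hX3 n).msc.joint (hX3 n).joint
  have jX' : ∀ n, MemLp (fun p : ℝ × Ω => X' n p.1 p.2) 2 (muT T P) := fun n =>
    (hX'2 n).msc.joint (hX'2 n).joint
  have c1 := cost_conv (r := r) (s := s) (K := KO) (L := KW) (y := y) (ε := ε)
    (U := fun n t ω => o t (X n t ω)) (V := fun n t ω => w t (X n t ω)) (x := X)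
    hT.le hQ ho.cont hw.cont jy jX
    (fun n => (hX1 n).memLp) (fun n => (hX2 n).memLp) lim1
  have c2 := cost_conv (r := r) (s := s) (K := KO) (L := L) (y := z) (ε := ε)
    (U := fun n t ω => o t (X' n t ω)) (V := fun n t ω => ε n • L t (z t ω)) (x := X')
    hT.le hQ ho.cont hcL jz jX'
    (fun n => (hX'1 n).memLp) (fun n => (hW n).memLp) lim2
  refine le_of_tendsto_of_tendsto' c1 c2 fun n => ?_
  exact mul_le_mul_of_nonneg_left (hX'3 n) (sq_nonneg _)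

/-- the linear parts inherit optimality among linear laws -/
theorem lin_opt (hN : Noise P F b) (hT : 0 < T) (hcA : ContinuousOn A (Icc 0 T))
    (hcD : ContinuousOn D (Icc 0 T)) (hcB : ContinuousOn B (Icc 0 T))
    (hcC : ContinuousOn C (Icc 0 T)) {r s : ℝ} {Q : ℝ → E →L[ℝ] E}
    (hQ : ContinuousOn Q (Icc 0 T)) {o : ℝ → E → G} {w : ℝ → E → H} {KO : ℝ → E →L[ℝ] G}
    {KW L : ℝ → E →L[ℝ] H} (ho : LawOK T o KO) (hw : LawOK T w KW)
    (hcL : ContinuousOn L (Icc 0 T)) (hopt : Opt P F b T A D B C r s Q o w) {ξ : E}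
    {y z : ℝ → Ω → E} (hy : LinSol P F b T (fun t => A t + B t ∘L KO t + C t ∘L KW t) D ξ y)
    (hz : LinSol P F b T (fun t => A t + B t ∘L KO t + C t ∘L L t) D ξ z) :
    cst r s Q T P y (fun t ω => KO t (y t ω)) (fun t ω => KW t (y t ω))
      ≤ cst r s Q T P z (fun t ω => KO t (z t ω)) (fun t ω => L t (z t ω)) :=
  lin_opt_aux hN hT hcA hcD hcB hcC hQ ho hw hcL hopt hy hz
    (ε := fun n : ℕ => 1 / ((n : ℝ) + 1)) (fun n => by positivity)
    tendsto_one_div_add_atTop_nhds_zero_nat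

end Pool.Agent.ACF
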