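import Pool.Agent.ACF.Est
import Pool.Agent.ACF.LinOpt

set_option autoImplicit false
set_option linter.unusedSectionVars false
open MeasureTheory ProbabilityTheory Set Filter Topology
open scoped NNReal ENNReal

namespace Pool.Agent.ACF

variable {E : Type*} [NormedAddCommGroup E] [InnerProductSpace ℝ E] [CompleteSpace E]
variable {G : Type*} [NormedAddCommGroup G] [InnerProductSpace ℝ G] [CompleteSpace G]
variable {H : Type*} [NormedAddCommGroup H] [InnerProductSpace ℝ H] [CompleteSpace H]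
variable {Ω : Type*} {mΩ : MeasurableSpace Ω} {P : Measure Ω} [IsProbabilityMeasure P]
  {F : ℝ → MeasurableSpace Ω} {b : ℝ → Ω → ℝ} {T : ℝ}

/-- the indicator weight -/
noncomputable def iw (Λ : Set Ω) (ω : Ω) : ℝ := Λ.indicator (fun _ => (1 : ℝ)) ω

lemma iw_mem {Λ : Set Ω} {ω : Ω} (h : ω ∈ Λ) : iw Λ ω = 1 := by simp [iw, h]

lemma iw_nmem {Λ : Set Ω} {ω : Ω} (h : ω ∉ Λ) : iw Λ ω = 0 := by simp [iw, h]

lemma iw_smul (Λ : Set Ω) (f : Ω → E) : (fun ω => iw Λ ω • f ω) = Λ.indicator f := by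
  funext ω
  by_cases h : ω ∈ Λ
  · simp [iw_mem h, h]
  · simp [iw_nmem h, h]

lemma iw_wt {s : ℝ} {Λ : Set Ω} (hΛ : MeasurableSet[F s] Λ) : Wt P F s (iw Λ) where
  meas := ⟨iw Λ, (@stronglyMeasurable_const _ _ (F s) _ (1 : ℝ)).indicator hΛ,
    Filter.EventuallyEq.rfl⟩
  le ω := by
    by_cases h : ω ∈ Λ
    · simp [iw_mem h]
    · simp [iw_nmem h]

lemma Wt.mono (hN : Noise P F b) {s r : ℝ} (hsr : s ≤ r) {χ : Ω → ℝ} (hχ : Wt P F s χ) :
    Wt P F r χ :=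
  ⟨hχ.meas.mono (hN.mono _ _ hsr), hχ.le⟩

/-- the control `W` switched off on `Λ` after time `s` -/
noncomputable def kill (s : ℝ) (Λ : Set Ω) (W : ℝ → Ω → H) (t : ℝ) (ω : Ω) : H :=
  (Ioi s ×ˢ Λ)ᶜ.indicator (fun p : ℝ × Ω => W p.1 p.2) (t, ω)

lemma kill_on {s t : ℝ} {Λ : Set Ω} {ω : Ω} (W : ℝ → Ω → H) (h : s < t) (hω : ω ∈ Λ) :
    kill s Λ W t ω = 0 := by
  unfold kill
  rw [indicator_of_notMem]
  simp [h, hω]

lemma kill_off {s t : ℝ} {Λ : Set Ω} {ω : Ω} (W : ℝ → Ω → H) (hω : ω ∉ Λ) :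
    kill s Λ W t ω = W t ω := by
  unfold kill
  rw [indicator_of_mem]
  simp [hω]

lemma kill_before {s t : ℝ} {Λ : Set Ω} {ω : Ω} (W : ℝ → Ω → H) (h : t ≤ s) :
    kill s Λ W t ω = W t ω := by
  unfold kill
  rw [indicator_of_mem]
  simp [h]

lemma kill_ctl (hN : Noise P F b) {s : ℝ} {Λ : Set Ω} (hΛ : MeasurableSet[F s] Λ)
    {W : ℝ → Ω → H} (hW : Ctl P F T W) : Ctl P F T (kill s Λ W) where
  adp t ht := by
    rcases le_or_gt t s with h | h
    · have e : kill s Λ W t = W t := by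
        funext ω
        exact kill_before W h
      rw [e]
      exact hW.adp t ht
    · have e : kill s Λ W t = Λᶜ.indicator (W t) := by
        funext ω
        by_cases hω : ω ∈ Λ
        · rw [kill_on W h hω, indicator_of_notMem (by simpa using hω)]
        · rw [kill_off W hω, indicator_of_mem (by simpa using hω)]
      rw [e]
      obtain ⟨g, hg, hfg⟩ := hW.adp t ht
      refine ⟨Λᶜ.indicator g, hg.indicator ?_, ?_⟩
      · exact (hN.mono s t h.le _ hΛ).compl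
      · filter_upwards [hfg] with ω hω
        by_cases h' : ω ∈ Λᶜ
        · rw [indicator_of_mem h', indicator_of_mem h', hω]
        · rw [indicator_of_notMem h', indicator_of_notMem h']
  memLp := by
    have h1 : MeasurableSet (Ioi s ×ˢ Λ) := measurableSet_Ioi.prod (hN.le s _ hΛ)
    exact hW.memLp.indicator h1.compl

/-- integral over the late part of `Λ` -/
lemma S_int (hN : Noise P F b) {s : ℝ} (hs : 0 ≤ s) (hsT : s ≤ T) {Λ : Set Ω}
    (hΛ : MeasurableSet[F s] Λ) {Z : ℝ → Ω → E}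
    (hZ : MemLp (fun p : ℝ × Ω => Z p.1 p.2) 2 (muT T P)) :
    ∫ p in Ioi s ×ˢ Λ, ‖Z p.1 p.2‖ ^ 2 ∂(muT T P)
      = ∫ r in s..T, qn P (fun ω => iw Λ ω • Z r ω) := by
  have hm : MeasurableSet Λ := hN.le s _ hΛ
  have i1 : Integrable (fun p : ℝ × Ω => ‖Z p.1 p.2‖ ^ 2) (muT T P) :=
    (memLp_two_iff_integrable_sq_norm hZ.1).1 hZ
  have e1 : (muT T P).restrict (Ioi s ×ˢ Λ)
      = (volume.restrict (Ioc s T)).prod (P.restrict Λ) := by
    unfold muT
    rw [← Measure.prod_restrict, Measure.restrict_restrict measurableSet_Ioi]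
    congr 2
    ext r
    simp only [mem_inter_iff, mem_Ioi, mem_Icc, mem_Ioc]
    constructor
    · rintro ⟨h1, h2, h3⟩
      exact ⟨h1, h3⟩
    · rintro ⟨h1, h3⟩
      exact ⟨h1, by linarith, h3⟩
  have i2 := i1.integrableOn (s := Ioi s ×ˢ Λ)
  unfold IntegrableOn at i2
  rw [e1] at i2 ⊢
  rw [integral_prod _ i2, intervalIntegral.integral_of_le hsT]
  refine integral_congr_ae (Eventually.of_forall fun r => ?_)
  simp only
  unfold qn
  rw [← integral_indicator hm]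
  refine integral_congr_ae (Eventually.of_forall fun ω => ?_)
  by_cases h : ω ∈ Λ
  · simp [iw_mem h, h]
  · simp [iw_nmem h, h]

variable {A D : ℝ → E →L[ℝ] E} {B : ℝ → G →L[ℝ] E} {C : ℝ → H →L[ℝ] E}

lemma Sol.drift_memLp (hT : 0 ≤ T) (hcA : ContinuousOn A (Icc 0 T))
    (hcB : ContinuousOn B (Icc 0 T)) (hcC : ContinuousOn C (Icc 0 T)) {x0 : E} {U : ℝ → Ω → G}
    {V : ℝ → Ω → H} {x : ℝ → Ω → E} (hU : Ctl P F T U) (hV : Ctl P F T V)
    (h : Sol P F b T A D B C x0 U V x) :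
    MemLp (fun p : ℝ × Ω => A p.1 (x p.1 p.2) + B p.1 (U p.1 p.2) + C p.1 (V p.1 p.2)) 2
      (muT T P) :=
  ((clm_memLp hT hcA (h.msc.joint h.joint)).add (clm_memLp hT hcB hU.memLp)).add
    (clm_memLp hT hcC hV.memLp)

/-- the initial value -/
lemma Sol.init (hN : Noise P F b) (hT : 0 < T) (hcD : ContinuousOn D (Icc 0 T)) {x0 : E}
    {U : ℝ → Ω → G} {V : ℝ → Ω → H} {x : ℝ → Ω → E} (h : Sol P F b T A D B C x0 U V x) :
    x 0 =ᵐ[P] fun _ => x0 := by
  obtain ⟨I, hI, he⟩ := h.eq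
  have h0 : (0 : ℝ) ∈ Icc 0 T := ⟨le_rfl, hT.le⟩
  have h1 := hI.iso hN hT (h.msc.clm hcD) (h.adp.clm D) h0
  rw [intervalIntegral.integral_same] at h1
  have h2 : I 0 =ᵐ[P] fun _ => 0 := by
    unfold qn at h1
    have h3 := (integral_eq_zero_iff_of_nonneg (fun ω => sq_nonneg ‖I 0 ω‖)
      (sq_integrable (hI 0 h0).1)).1 h1
    filter_upwards [h3] with ω hω
    have : ‖I 0 ω‖ ^ 2 = 0 := hω
    simpa using this
  filter_upwards [he 0 h0, h2] with ω h3 h4
  rw [h3, h4]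
  simp

/-- a process with vanishing weighted mean squares vanishes almost everywhere -/
lemma ae_zero (hT : 0 ≤ T) {Z : ℝ → Ω → E}
    (hZ : MemLp (fun p : ℝ × Ω => Z p.1 p.2) 2 (muT T P))
    (h : ∀ t ∈ Icc 0 T, qn P (Z t) = 0) : ∀ᵐ p ∂(muT T P), Z p.1 p.2 = 0 := by
  have h1 := fub_eq hT hZ
  have h2 : ∫ s in (0 : ℝ)..T, qn P (Z s) = 0 := by
    rw [intervalIntegral.integral_congr (g := fun _ => (0 : ℝ))]
    · simp
    · intro s hs
      rw [uIcc_of_le hT] at hs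
      exact h s hs
  rw [h2] at h1
  have i3 : Integrable (fun p : ℝ × Ω => ‖Z p.1 p.2‖ ^ 2) (muT T P) :=
    (memLp_two_iff_integrable_sq_norm hZ.1).1 hZ
  have h3 := (integral_eq_zero_iff_of_nonneg (fun p : ℝ × Ω => sq_nonneg ‖Z p.1 p.2‖) i3).1 h1
  filter_upwards [h3] with p hp
  have : ‖Z p.1 p.2‖ ^ 2 = 0 := hp
  simpa using this

end Pool.Agent.ACF
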