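import Pool.Agent.ACF.Dev

set_option autoImplicit false
set_option linter.unusedSectionVars false
open MeasureTheory ProbabilityTheory Set Filter Topology
open scoped NNReal ENNReal

namespace Pool.Agent.ACF

variable {E : Type*} [NormedAddCommGroup E] [InnerProductSpace ℝ E] [CompleteSpace E]
variable {G : Type*} [NormedAddCommGroup G] [InnerProductSpace ℝ G] [CompleteSpace G]
variable {H : Type*} [NormedAddCommGroup H] [InnerProductSpace ℝ H] [CompleteSpace H]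
variable {Ω : Type*} {mΩ : MeasurableSpace Ω} {P : Measure Ω} [IsProbabilityMeasure P]
  {F : ℝ → MeasurableSpace Ω} {b : ℝ → Ω → ℝ} {T : ℝ}
variable {A D : ℝ → E →L[ℝ] E} {B : ℝ → G →L[ℝ] E} {C : ℝ → H →L[ℝ] E}

/-- the running cost -/
noncomputable def cf (r s : ℝ) (Q : ℝ → E →L[ℝ] E) (x : ℝ → Ω → E) (O : ℝ → Ω → G)
    (W : ℝ → Ω → H) (p : ℝ × Ω) : ℝ :=
  r * ‖W p.1 p.2‖ ^ 2 + inner ℝ (Q p.1 (x p.1 p.2)) (x p.1 p.2) + s * ‖O p.1 p.2‖ ^ 2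

lemma cf_int (hT : 0 ≤ T) {r s : ℝ} {Q : ℝ → E →L[ℝ] E} (hQ : ContinuousOn Q (Icc 0 T))
    {x : ℝ → Ω → E} {O : ℝ → Ω → G} {W : ℝ → Ω → H}
    (hx : MemLp (fun p : ℝ × Ω => x p.1 p.2) 2 (muT T P))
    (hO : MemLp (fun p : ℝ × Ω => O p.1 p.2) 2 (muT T P))
    (hW : MemLp (fun p : ℝ × Ω => W p.1 p.2) 2 (muT T P)) :
    Integrable (cf r s Q x O W) (muT T P) := by
  have i1 := (int_sq hW).const_mul r
  have i2 := int_inner (z := fun t ω => Q t (x t ω)) (w := x) (clm_memLp hT hQ hx) hx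
  have i3 := (int_sq hO).const_mul s
  exact (i1.add i2).add i3

lemma wt_one (s : ℝ) : Wt P F s (fun _ => (1 : ℝ)) where
  meas := ⟨fun _ => 1, @stronglyMeasurable_const _ _ (F s) _ _, Filter.EventuallyEq.rfl⟩
  le ω := by simp

/-- two solutions with the same exogenous input where the weight lives agree there -/
lemma sol_uniq (hN : Noise P F b) (hT : 0 < T) (hcA : ContinuousOn A (Icc 0 T))
    (hcD : ContinuousOn D (Icc 0 T)) (hcB : ContinuousOn B (Icc 0 T))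
    (hcC : ContinuousOn C (Icc 0 T)) {a k κ : ℝ} (ha : ∀ t ∈ Icc 0 T, ‖A t‖ ≤ a)
    (hd : ∀ t ∈ Icc 0 T, ‖D t‖ ≤ a) (hkB : ∀ t ∈ Icc 0 T, ‖B t‖ ≤ k)
    {o : ℝ → E → G} (hlip : ∀ t ∈ Icc 0 T, ∀ x y, ‖o t x - o t y‖ ≤ κ * ‖x - y‖)
    {x0 : E} {X Y : ℝ → Ω → E} {V W : ℝ → Ω → H}
    (hoX : Ctl P F T (fun t ω => o t (X t ω))) (hoY : Ctl P F T (fun t ω => o t (Y t ω)))
    (hV : Ctl P F T V) (hW : Ctl P F T W)
    (hX : Sol P F b T A D B C x0 (fun t ω => o t (X t ω)) V X)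
    (hY : Sol P F b T A D B C x0 (fun t ω => o t (Y t ω)) W Y)
    {s τ : ℝ} (hs : 0 ≤ s) (hsτ : s ≤ τ) (hτ : τ ≤ T) {χ : Ω → ℝ} (hχ : Wt P F s χ)
    (hVW : ∀ r ∈ Ioc s τ, ∀ ω, χ ω • W r ω = χ ω • V r ω)
    (h0 : qn P (fun ω => χ ω • (Y s ω - X s ω)) = 0) :
    ∀ t ∈ Icc s τ, qn P (fun ω => χ ω • (Y t ω - X t ω)) = 0 := by
  obtain ⟨IX, hIX, heX⟩ := hX.eq
  obtain ⟨IY, hIY, heY⟩ := hY.eq
  have h00 : (0 : ℝ) ∈ Icc 0 T := ⟨le_rfl, hT.le⟩
  have ha0 : 0 ≤ a := (norm_nonneg _).trans (ha 0 h00)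
  have hk0 : 0 ≤ k := (norm_nonneg _).trans (hkB 0 h00)
  set z : ℝ → Ω → E := fun t ω => (1 : ℝ) • Y t ω - X t ω with hz
  have hzm : MSC P T z := hY.msc.sub hX.msc 1
  have hza : Adp P F T z := hY.adp.sub hX.adp 1
  have hDX : MSC P T (fun t ω => D t (X t ω)) := hX.msc.clm hcD
  have hDY : MSC P T (fun t ω => D t (Y t ω)) := hY.msc.clm hcD
  have hI : IsIto P b T (fun t ω => D t (z t ω)) (fun t ω => (1 : ℝ) • IY t ω - IX t ω) := by
    have h1 := IsIto.lincomb hN hT hIY hDY.memLp (hY.adp.clm D) hIX hDX.memLp (hX.adp.clm D) 1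
    have e : (fun t ω => D t (z t ω)) = fun t ω => (1 : ℝ) • D t (Y t ω) - D t (X t ω) := by
      funext t ω
      simp only [hz, map_sub, map_smul]
    rw [e]
    exact h1
  set gX : ℝ → Ω → E := fun r ω => A r (X r ω) + B r (o r (X r ω)) + C r (V r ω) with hgX
  set gY : ℝ → Ω → E := fun r ω => A r (Y r ω) + B r (o r (Y r ω)) + C r (W r ω) with hgY
  have jX : MemLp (fun p : ℝ × Ω => gX p.1 p.2) 2 (muT T P) :=
    Sol.drift_memLp hT.le hcA hcB hcC hoX hV hX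
  have jY : MemLp (fun p : ℝ × Ω => gY p.1 p.2) 2 (muT T P) :=
    Sol.drift_memLp hT.le hcA hcB hcC hoY hW hY
  have jg : MemLp (fun p : ℝ × Ω => gY p.1 p.2 - gX p.1 p.2) 2 (muT T P) := jY.sub jX
  have heq : ∀ t ∈ Icc 0 T, ∀ᵐ ω ∂P, z t ω = 0 + (∫ r in (0 : ℝ)..t, (gY r ω - gX r ω))
      + ((1 : ℝ) • IY t ω - IX t ω) := by
    intro t ht
    filter_upwards [heX t ht, heY t ht, fub_ae le_rfl ht.1 ht.2 jX, fub_ae le_rfl ht.1 ht.2 jY]
      with ω h1 h2 h3 h4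
    simp only [hz]
    rw [h1, h2, intervalIntegral.integral_sub h4.1 h3.1, one_smul, one_smul]
    simp only [hgX, hgY]
    abel
  have hb : ∀ r ∈ Ioc s τ, ∀ ω, ‖χ ω • (gY r ω - gX r ω)‖
      ≤ (a + k * κ) * (‖χ ω • z r ω‖ + ‖(0 : ℝ)‖) := by
    intro r hr ω
    have hrT : r ∈ Icc 0 T := ⟨hs.trans hr.1.le, hr.2.trans hτ⟩
    have e : χ ω • (gY r ω - gX r ω)
        = A r (χ ω • z r ω) + χ ω • B r (o r (Y r ω) - o r (X r ω)) := by
      have e1 : χ ω • C r (W r ω) = χ ω • C r (V r ω) := by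
        rw [← map_smul, ← map_smul, hVW r hr ω]
      simp only [hgX, hgY, hz, map_smul, map_sub, one_smul, smul_sub, smul_add]
      rw [e1]
      abel
    rw [e, norm_zero, add_zero]
    refine (norm_add_le _ _).trans ?_
    have h1 : ‖A r (χ ω • z r ω)‖ ≤ a * ‖χ ω • z r ω‖ := (A r).le_of_opNorm_le (ha r hrT) _
    have h2 : ‖χ ω • B r (o r (Y r ω) - o r (X r ω))‖ ≤ k * κ * ‖χ ω • z r ω‖ := by
      rw [norm_smul, norm_smul]
      have h3 : ‖B r (o r (Y r ω) - o r (X r ω))‖ ≤ k * (κ * ‖z r ω‖) := by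
        refine ((B r).le_of_opNorm_le (hkB r hrT) _).trans (mul_le_mul_of_nonneg_left ?_ hk0)
        have := hlip r hrT (Y r ω) (X r ω)
        simpa [hz] using this
      calc ‖χ ω‖ * ‖B r (o r (Y r ω) - o r (X r ω))‖ ≤ ‖χ ω‖ * (k * (κ * ‖z r ω‖)) :=
            mul_le_mul_of_nonneg_left h3 (norm_nonneg _)
        _ = k * κ * (‖χ ω‖ * ‖z r ω‖) := by ring
    linarith
  have jθ : MemLp (fun p : ℝ × Ω => (fun (_ : ℝ) (_ : Ω) => (0 : ℝ)) p.1 p.2) 2 (muT T P) :=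
    MemLp.zero
  have hest := loc_est hN hT hcD hd hzm hza jg hI heq hs hsτ hτ hχ
    (θ := fun _ _ => (0 : ℝ)) jθ hb
  intro t ht
  have h1 := hest t ht
  have e0 : (fun ω => χ ω • z s ω) = fun ω => χ ω • (Y s ω - X s ω) := by
    funext ω
    simp only [hz, one_smul]
  have et : (fun ω => χ ω • z t ω) = fun ω => χ ω • (Y t ω - X t ω) := by
    funext ω
    simp only [hz, one_smul]
  have eθ : ∫ r in s..τ, qn P (fun _ : Ω => (0 : ℝ)) = 0 := by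
    simp [qn]
  rw [e0, et, h0, eθ] at h1
  simp only [mul_zero, add_zero, zero_mul] at h1
  exact le_antisymm h1 (qn_nonneg _)

end Pool.Agent.ACF
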