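import Pool.Agent.ACF.DevA

set_option autoImplicit false
set_option linter.unusedSectionVars false
open MeasureTheory ProbabilityTheory Set Filter Topology
open scoped NNReal ENNReal

namespace Pool.Agent.ACF

variable {E : Type*} [NormedAddCommGroup E] [InnerProductSpace ℝ E] [CompleteSpace E]
variable {G : Type*} [NormedAddCommGroup G] [InnerProductSpace ℝ G] [CompleteSpace G]
variable {H : Type*} [NormedAddCommGroup H] [InnerProductSpace ℝ H] [CompleteSpace H]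
variable {Ω : Type*} {mΩ : MeasurableSpace Ω} {P : Measure Ω} [IsProbabilityMeasure P]
  {F : ℝ → MeasurableSpace Ω} {b : ℝ → Ω → ℝ} {T : ℝ}
variable {A D : ℝ → E →L[ℝ] E} {B : ℝ → G →L[ℝ] E} {C : ℝ → H →L[ℝ] E}

/-- switching the control `w` off on `Λ` after time `s` -/
theorem dev_main (hN : Noise P F b) (hT : 0 < T) (hcA : ContinuousOn A (Icc 0 T))
    (hcD : ContinuousOn D (Icc 0 T)) (hcB : ContinuousOn B (Icc 0 T))
    (hcC : ContinuousOn C (Icc 0 T)) {a k κ : ℝ} (ha : ∀ t ∈ Icc 0 T, ‖A t‖ ≤ a)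
    (hd : ∀ t ∈ Icc 0 T, ‖D t‖ ≤ a) (hkB : ∀ t ∈ Icc 0 T, ‖B t‖ ≤ k)
    {r q : ℝ} {Q : ℝ → E →L[ℝ] E} (hQ : ContinuousOn Q (Icc 0 T))
    {o : ℝ → E → G} {w : ℝ → E → H}
    (hlip : ∀ t ∈ Icc 0 T, ∀ x y, ‖o t x - o t y‖ ≤ κ * ‖x - y‖)
    {x0 : E} {X : ℝ → Ω → E}
    (hoX : Ctl P F T (fun t ω => o t (X t ω))) (hwX : Ctl P F T (fun t ω => w t (X t ω)))
    (hX : Sol P F b T A D B C x0 (fun t ω => o t (X t ω)) (fun t ω => w t (X t ω)) X)
    (hopt : ∀ W : ℝ → Ω → H, Ctl P F T W → ∃ X' : ℝ → Ω → E,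
      Ctl P F T (fun t ω => o t (X' t ω)) ∧
      Sol P F b T A D B C x0 (fun t ω => o t (X' t ω)) W X' ∧
      cst r q Q T P X (fun t ω => o t (X t ω)) (fun t ω => w t (X t ω))
        ≤ cst r q Q T P X' (fun t ω => o t (X' t ω)) W)
    {s : ℝ} (hs : 0 ≤ s) (hsT : s ≤ T) {Λ : Set Ω} (hΛ : MeasurableSet[F s] Λ) :
    ∃ Y : ℝ → Ω → E, Ctl P F T (fun t ω => o t (Y t ω)) ∧
      Sol P F b T A D B C x0 (fun t ω => o t (Y t ω))
        (kill s Λ (fun t ω => w t (X t ω))) Y ∧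
      qn P (fun ω => iw Λ ω • Y s ω) = qn P (fun ω => iw Λ ω • X s ω) ∧
      ∫ p in Ioi s ×ˢ Λ, cf r q Q X (fun t ω => o t (X t ω)) (fun t ω => w t (X t ω)) p ∂(muT T P)
        ≤ ∫ p in Ioi s ×ˢ Λ, (inner ℝ (Q p.1 (Y p.1 p.2)) (Y p.1 p.2)
          + q * ‖o p.1 (Y p.1 p.2)‖ ^ 2) ∂(muT T P) := by
  have hkill : Ctl P F T (kill s Λ (fun t ω => w t (X t ω))) := kill_ctl hN hΛ hwX
  obtain ⟨Y, hoY, hY, hle⟩ := hopt _ hkill
  have h0T : (0 : ℝ) ∈ Icc 0 T := ⟨le_rfl, hT.le⟩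
  have hsTm : s ∈ Icc 0 T := ⟨hs, hsT⟩
  have hΛm : MeasurableSet Λ := hN.le s _ hΛ
  have hS : MeasurableSet (Ioi s ×ˢ Λ) := measurableSet_Ioi.prod hΛm
  -- before `s`
  have i0 : qn P (fun ω => (fun _ => (1 : ℝ)) ω • (Y 0 ω - X 0 ω)) = 0 := by
    have h1 : (fun ω => (fun _ => (1 : ℝ)) ω • (Y 0 ω - X 0 ω)) =ᵐ[P] fun _ => (0 : E) := by
      filter_upwards [hY.init hN hT hcD, hX.init hN hT hcD] with ω h1 h2
      rw [h1, h2, sub_self, smul_zero]
    rw [qn_congr h1]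
    simp [qn]
  have u1 := sol_uniq hN hT hcA hcD hcB hcC ha hd hkB hlip hoX hoY hwX hkill hX hY
    (s := 0) (τ := s) le_rfl hs hsT (wt_one 0) (fun r hr ω => by
      rw [kill_before _ hr.2]) i0
  have u1' : ∀ t ∈ Icc 0 s, qn P (fun ω => Y t ω - X t ω) = 0 := by
    intro t ht
    have := u1 t ht
    simpa using this
  -- after `s`, off `Λ`
  have hΛc : Wt P F s (iw Λᶜ) := iw_wt hΛ.compl
  have mz : ∀ t ∈ Icc 0 T, MemLp (fun ω => Y t ω - X t ω) 2 P := fun t ht =>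
    (hY.msc.memLp t ht).sub (hX.msc.memLp t ht)
  have zae : (fun ω => Y s ω - X s ω) =ᵐ[P] fun _ => (0 : E) := by
    have h1 := u1' s ⟨hs, le_rfl⟩
    unfold qn at h1
    have h3 := (integral_eq_zero_iff_of_nonneg (fun ω => sq_nonneg ‖Y s ω - X s ω‖)
      (sq_integrable (mz s hsTm))).1 h1
    filter_upwards [h3] with ω hω
    have : ‖Y s ω - X s ω‖ ^ 2 = 0 := hω
    simpa using this
  have i1 : qn P (fun ω => iw Λᶜ ω • (Y s ω - X s ω)) = 0 := by
    have h1 : (fun ω => iw Λᶜ ω • (Y s ω - X s ω)) =ᵐ[P] fun _ => (0 : E) := by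
      filter_upwards [zae] with ω h1
      rw [h1, smul_zero]
    rw [qn_congr h1]
    simp [qn]
  have u2 := sol_uniq hN hT hcA hcD hcB hcC ha hd hkB hlip hoX hoY hwX hkill hX hY
    (s := s) (τ := T) hs hsT le_rfl hΛc (fun r hr ω => by
      by_cases hω : ω ∈ Λ
      · rw [iw_nmem (by simpa using hω), zero_smul, zero_smul]
      · rw [kill_off _ hω]) i1
  -- the difference vanishes off the late part of `Λ`
  have jX : MemLp (fun p : ℝ × Ω => X p.1 p.2) 2 (muT T P) := hX.msc.joint hX.joint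
  have jY : MemLp (fun p : ℝ × Ω => Y p.1 p.2) 2 (muT T P) := hY.msc.joint hY.joint
  have jk : MemLp (fun p : ℝ × Ω => kill s Λ (fun t ω => Y t ω - X t ω) p.1 p.2) 2 (muT T P) :=
    (jY.sub jX).indicator hS.compl
  have hz := ae_zero hT.le jk (fun t ht => by
    rcases le_or_gt t s with h | h
    · have e : kill s Λ (fun t ω => Y t ω - X t ω) t = fun ω => Y t ω - X t ω := by
        funext ω
        exact kill_before _ h
      rw [e]
      exact u1' t ⟨ht.1, h⟩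
    · have e : kill s Λ (fun t ω => Y t ω - X t ω) t = fun ω => iw Λᶜ ω • (Y t ω - X t ω) := by
        funext ω
        by_cases hω : ω ∈ Λ
        · rw [kill_on _ h hω, iw_nmem (by simpa using hω), zero_smul]
        · rw [kill_off _ hω, iw_mem (by simpa using hω), one_smul]
      rw [e]
      exact u2 t ⟨h.le, ht.2⟩)
  have hagree : ∀ᵐ p ∂(muT T P), p ∈ (Ioi s ×ˢ Λ)ᶜ → Y p.1 p.2 = X p.1 p.2 := by
    filter_upwards [hz] with p hp hpS
    have h1 : kill s Λ (fun t ω => Y t ω - X t ω) p.1 p.2 = Y p.1 p.2 - X p.1 p.2 := by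
      unfold kill
      rw [indicator_of_mem (by simpa using hpS)]
    rw [h1] at hp
    exact sub_eq_zero.1 hp
  refine ⟨Y, hoY, hY, ?_, ?_⟩
  · refine qn_congr ?_
    filter_upwards [zae] with ω h1
    have : Y s ω = X s ω := sub_eq_zero.1 h1
    rw [this]
  · have iX := cf_int (r := r) (s := q) (O := fun t ω => o t (X t ω))
      (W := fun t ω => w t (X t ω)) hT.le hQ jX hoX.memLp hwX.memLp
    have iY := cf_int (r := r) (s := q) (O := fun t ω => o t (Y t ω))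
      (W := kill s Λ (fun t ω => w t (X t ω))) hT.le hQ jY hoY.memLp hkill.memLp
    have hX' : cst r q Q T P X (fun t ω => o t (X t ω)) (fun t ω => w t (X t ω))
        = (∫ p in Ioi s ×ˢ Λ, cf r q Q X (fun t ω => o t (X t ω)) (fun t ω => w t (X t ω)) p
            ∂(muT T P))
          + ∫ p in (Ioi s ×ˢ Λ)ᶜ, cf r q Q X (fun t ω => o t (X t ω))
            (fun t ω => w t (X t ω)) p ∂(muT T P) := by
      rw [integral_add_compl hS iX]
      rfl
    have hY' : cst r q Q T P Y (fun t ω => o t (Y t ω)) (kill s Λ (fun t ω => w t (X t ω)))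
        = (∫ p in Ioi s ×ˢ Λ, cf r q Q Y (fun t ω => o t (Y t ω))
            (kill s Λ (fun t ω => w t (X t ω))) p ∂(muT T P))
          + ∫ p in (Ioi s ×ˢ Λ)ᶜ, cf r q Q Y (fun t ω => o t (Y t ω))
            (kill s Λ (fun t ω => w t (X t ω))) p ∂(muT T P) := by
      rw [integral_add_compl hS iY]
      rfl
    have hoff : ∫ p in (Ioi s ×ˢ Λ)ᶜ, cf r q Q Y (fun t ω => o t (Y t ω))
          (kill s Λ (fun t ω => w t (X t ω))) p ∂(muT T P)
        = ∫ p in (Ioi s ×ˢ Λ)ᶜ, cf r q Q X (fun t ω => o t (X t ω))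
            (fun t ω => w t (X t ω)) p ∂(muT T P) := by
      refine setIntegral_congr_ae hS.compl ?_
      filter_upwards [hagree] with p hp hpS
      have h1 : kill s Λ (fun t ω => w t (X t ω)) p.1 p.2 = w p.1 (X p.1 p.2) := by
        unfold kill
        rw [indicator_of_mem (by simpa using hpS)]
      simp only [cf]
      rw [h1, hp hpS]
    have hon : ∫ p in Ioi s ×ˢ Λ, cf r q Q Y (fun t ω => o t (Y t ω))
          (kill s Λ (fun t ω => w t (X t ω))) p ∂(muT T P)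
        = ∫ p in Ioi s ×ˢ Λ, (inner ℝ (Q p.1 (Y p.1 p.2)) (Y p.1 p.2)
          + q * ‖o p.1 (Y p.1 p.2)‖ ^ 2) ∂(muT T P) := by
      refine setIntegral_congr_fun hS fun p hp => ?_
      have h1 : kill s Λ (fun t ω => w t (X t ω)) p.1 p.2 = 0 := kill_on _ hp.1 hp.2
      simp only [cf]
      rw [h1, norm_zero]
      ring
    rw [hX', hY', hoff, hon] at hle
    linarith

end Pool.Agent.ACF
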