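import Pool.Agent.ACF.DevB

set_option autoImplicit false
set_option linter.unusedSectionVars false
open MeasureTheory ProbabilityTheory Set Filter Topology
open scoped NNReal ENNReal

namespace Pool.Agent.ACF

variable {E : Type*} [NormedAddCommGroup E] [InnerProductSpace ℝ E] [CompleteSpace E]
variable {G : Type*} [NormedAddCommGroup G] [InnerProductSpace ℝ G] [CompleteSpace G]
variable {H : Type*} [NormedAddCommGroup H] [InnerProductSpace ℝ H] [CompleteSpace H]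
variable {Ω : Type*} {mΩ : MeasurableSpace Ω} {P : Measure Ω} [IsProbabilityMeasure P]
  {F : ℝ → MeasurableSpace Ω} {b : ℝ → Ω → ℝ} {T : ℝ}
variable {A D : ℝ → E →L[ℝ] E} {B : ℝ → G →L[ℝ] E} {C : ℝ → H →L[ℝ] E}

/-- the growth factor -/
noncomputable def Gf (T a K : ℝ) : ℝ := Real.exp ((6 * T * K ^ 2 + 3 * a ^ 2) * T)

lemma one_le_Gf (hT : 0 ≤ T) (a K : ℝ) : 1 ≤ Gf T a K := by
  unfold Gf
  rw [Real.one_le_exp_iff]
  positivity

/-- weighted growth estimate for solutions -/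
lemma sol_est (hN : Noise P F b) (hT : 0 < T) (hcA : ContinuousOn A (Icc 0 T))
    (hcD : ContinuousOn D (Icc 0 T)) (hcB : ContinuousOn B (Icc 0 T))
    (hcC : ContinuousOn C (Icc 0 T)) {a : ℝ} (hd : ∀ t ∈ Icc 0 T, ‖D t‖ ≤ a)
    {x0 : E} {U : ℝ → Ω → G} {V : ℝ → Ω → H} {x : ℝ → Ω → E} (hU : Ctl P F T U)
    (hV : Ctl P F T V) (hx : Sol P F b T A D B C x0 U V x)
    {s τ : ℝ} (hs : 0 ≤ s) (hsτ : s ≤ τ) (hτ : τ ≤ T) {χ : Ω → ℝ} (hχ : Wt P F s χ)
    {K : ℝ} {θ : ℝ → Ω → ℝ} (hθ : MemLp (fun p : ℝ × Ω => θ p.1 p.2) 2 (muT T P))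
    (hb : ∀ r ∈ Ioc s τ, ∀ ω, ‖χ ω • (A r (x r ω) + B r (U r ω) + C r (V r ω))‖
      ≤ K * (‖χ ω • x r ω‖ + ‖θ r ω‖)) :
    ∀ t ∈ Icc s τ, qn P (fun ω => χ ω • x t ω)
      ≤ (3 * qn P (fun ω => χ ω • x s ω) + 6 * K ^ 2 * (τ - s) * ∫ r in s..τ, qn P (θ r))
        * Gf T a K := by
  obtain ⟨I, hI, he⟩ := hx.eq
  intro t ht
  have h1 := loc_est hN hT hcD hd hx.msc hx.adp (Sol.drift_memLp hT.le hcA hcB hcC hU hV hx)
    hI he hs hsτ hτ hχ hθ hb t ht
  refine h1.trans (mul_le_mul_of_nonneg_left ?_ ?_)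
  · unfold Gf
    refine Real.exp_le_exp.2 (mul_le_mul_of_nonneg_left ?_ (by positivity))
    linarith [ht.2]
  · have h2 : 0 ≤ ∫ r in s..τ, qn P (θ r) :=
      intervalIntegral.integral_nonneg hsτ fun _ _ => qn_nonneg _
    have h3 : 0 ≤ τ - s := by linarith
    have := qn_nonneg (P := P) (fun ω => χ ω • x s ω)
    positivity

lemma iw_sq (hN : Noise P F b) {s : ℝ} {Λ : Set Ω} (hΛ : MeasurableSet[F s] Λ) (c : E) :
    qn P (fun ω => iw Λ ω • c) = P.real Λ * ‖c‖ ^ 2 := by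
  have hm : MeasurableSet Λ := hN.le s _ hΛ
  have e : ∀ ω, ‖iw Λ ω • c‖ ^ 2 = Λ.indicator (fun _ => ‖c‖ ^ 2) ω := by
    intro ω
    by_cases h : ω ∈ Λ
    · simp [iw_mem h, h]
    · simp [iw_nmem h, h]
  unfold qn
  simp_rw [e]
  rw [integral_indicator hm, setIntegral_const, smul_eq_mul]

/-- a law at the origin against the law along the state -/
lemma law_zero (hN : Noise P F b) {v : ℝ → E → H} {κ : ℝ}
    (hlip : ∀ t ∈ Icc 0 T, ∀ x y, ‖v t x - v t y‖ ≤ κ * ‖x - y‖) {X : ℝ → Ω → E}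
    (hX : MSC P T X) (hvX : MemLp (fun p : ℝ × Ω => v p.1 (X p.1 p.2)) 2 (muT T P))
    (hv0 : ContinuousOn (fun r => v r 0) (Icc 0 T)) {s τ : ℝ} (hs : 0 ≤ s) (hsτ : s ≤ τ)
    (hτ : τ ≤ T) {Λ : Set Ω} (hΛ : MeasurableSet[F s] Λ) :
    P.real Λ * ∫ r in s..τ, ‖v r 0‖ ^ 2
      ≤ 2 * (∫ r in s..τ, qn P (fun ω => iw Λ ω • v r (X r ω)))
        + 2 * κ ^ 2 * ∫ r in s..τ, qn P (fun ω => iw Λ ω • X r ω) := by
  have hχ := iw_wt (P := P) hΛ
  have jv : MemLp (fun p : ℝ × Ω => iw Λ p.2 • v p.1 (X p.1 p.2)) 2 (muT T P) :=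
    hχ.joint hN (g := fun t ω => v t (X t ω)) hvX
  have hsub : Icc s τ ⊆ Icc 0 T := Icc_subset_Icc hs hτ
  have i1 : IntervalIntegrable (fun r => qn P (fun ω => iw Λ ω • v r (X r ω))) volume s τ :=
    fub_qint (g := fun r ω => iw Λ ω • v r (X r ω)) hs hsτ hτ jv
  have i2 : IntervalIntegrable (fun r => qn P (fun ω => iw Λ ω • X r ω)) volume s τ := by
    refine ContinuousOn.intervalIntegrable ?_
    rw [uIcc_of_le hsτ]
    exact (hχ.msc hN hX).continuousOn_qn.mono hsub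
  have i0 : IntervalIntegrable (fun r => P.real Λ * ‖v r 0‖ ^ 2) volume s τ := by
    refine ContinuousOn.intervalIntegrable ?_
    rw [uIcc_of_le hsτ]
    exact ((hv0.norm.pow 2).const_smul (P.real Λ)).mono hsub
  rw [← intervalIntegral.integral_const_mul, ← intervalIntegral.integral_const_mul,
    ← intervalIntegral.integral_const_mul, ← intervalIntegral.integral_add (i1.const_mul 2)
      (i2.const_mul (2 * κ ^ 2))]
  refine intervalIntegral.integral_mono_ae_restrict hsτ i0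
    ((i1.const_mul 2).add (i2.const_mul (2 * κ ^ 2))) ?_
  have hj' := jv.mono_measure (muT_mono (P := P) hs hτ)
  have i6 : Integrable (fun p : ℝ × Ω => ‖iw Λ p.2 • v p.1 (X p.1 p.2)‖ ^ 2)
      ((volume.restrict (Ioc s τ)).prod P) := (memLp_two_iff_integrable_sq_norm hj'.1).1 hj'
  have hae : ∀ᵐ r ∂(volume.restrict (Ioc s τ)),
      Integrable (fun ω => ‖iw Λ ω • v r (X r ω)‖ ^ 2) P := i6.prod_right_ae
  have hr : volume.restrict (Icc (s : ℝ) τ) = volume.restrict (Ioc s τ) :=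
    Measure.restrict_congr_set Ioc_ae_eq_Icc.symm
  rw [hr]
  filter_upwards [hae, ae_restrict_mem measurableSet_Ioc] with r hr1 hr2
  have hrT : r ∈ Icc 0 T := hsub ⟨hr2.1.le, hr2.2⟩
  have i7 := sq_integrable (hχ.memLp hN (hX.memLp r hrT))
  rw [← iw_sq hN hΛ (v r 0)]
  unfold qn
  rw [← integral_const_mul, ← integral_const_mul, ← integral_add (hr1.const_mul 2)
    (i7.const_mul (2 * κ ^ 2))]
  refine integral_mono (sq_integrable (hχ.memLp hN (memLp_const _)))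
    ((hr1.const_mul 2).add (i7.const_mul (2 * κ ^ 2))) fun ω => ?_
  simp only
  by_cases h : ω ∈ Λ
  · rw [iw_mem h, one_smul, one_smul, one_smul]
    have h1 := hlip r hrT (X r ω) 0
    rw [sub_zero] at h1
    have h2 : ‖v r 0‖ ≤ ‖v r (X r ω)‖ + κ * ‖X r ω‖ := by
      have h3 := norm_sub_norm_le (v r 0) (v r (X r ω))
      rw [norm_sub_rev] at h3
      linarith
    have h4 := pow_le_pow_left₀ (norm_nonneg _) h2 2
    nlinarith [sq_nonneg (‖v r (X r ω)‖ - κ * ‖X r ω‖)]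
  · rw [iw_nmem h, zero_smul, zero_smul, zero_smul]
    simp

end Pool.Agent.ACF
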