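import Pool.Agent.ACF.DevC

set_option autoImplicit false
set_option linter.unusedSectionVars false
open MeasureTheory ProbabilityTheory Set Filter Topology
open scoped NNReal ENNReal

namespace Pool.Agent.ACF

variable {E : Type*} [NormedAddCommGroup E] [InnerProductSpace ℝ E] [CompleteSpace E]
variable {G : Type*} [NormedAddCommGroup G] [InnerProductSpace ℝ G] [CompleteSpace G]
variable {H : Type*} [NormedAddCommGroup H] [InnerProductSpace ℝ H] [CompleteSpace H]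
variable {Ω : Type*} {mΩ : MeasurableSpace Ω} {P : Measure Ω} [IsProbabilityMeasure P]
  {F : ℝ → MeasurableSpace Ω} {b : ℝ → Ω → ℝ} {T : ℝ}
variable {A D : ℝ → E →L[ℝ] E} {B : ℝ → G →L[ℝ] E} {C : ℝ → H →L[ℝ] E}

/-- a deterministic continuous function as a process -/
lemma det_joint (hT : 0 ≤ T) {f : ℝ → E} (hf : ContinuousOn f (Icc 0 T)) :
    MemLp (fun p : ℝ × Ω => f p.1) 2 (muT T P) := by
  obtain ⟨c, hc⟩ := isCompact_Icc.exists_bound_of_continuousOn (s := Icc (0 : ℝ) T) hf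
  set f' : ℝ → E := IccExtend hT ((Icc 0 T).restrict f) with hf'
  have cf : Continuous f' := (continuousOn_iff_continuous_restrict.1 hf).Icc_extend'
  have h1 : AEStronglyMeasurable (fun p : ℝ × Ω => f' p.1) (muT T P) :=
    (cf.stronglyMeasurable.comp_measurable measurable_fst).aestronglyMeasurable
  have h2 : AEStronglyMeasurable (fun p : ℝ × Ω => f p.1) (muT T P) := by
    refine h1.congr ?_
    filter_upwards [muT_ae (P := P) T] with p hp
    rw [hf', IccExtend_of_mem _ _ hp]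
    rfl
  refine MemLp.of_bound h2 c ?_
  filter_upwards [muT_ae (P := P) T] with p hp
  exact hc _ hp

/-- a solution fed by a law of linear growth, the other input switched off on `Λ` -/
lemma dev_Y (hN : Noise P F b) (hT : 0 < T) (hcA : ContinuousOn A (Icc 0 T))
    (hcD : ContinuousOn D (Icc 0 T)) (hcB : ContinuousOn B (Icc 0 T))
    (hcC : ContinuousOn C (Icc 0 T)) {a k κ K : ℝ} (ha : ∀ t ∈ Icc 0 T, ‖A t‖ ≤ a)
    (hd : ∀ t ∈ Icc 0 T, ‖D t‖ ≤ a) (hkB : ∀ t ∈ Icc 0 T, ‖B t‖ ≤ k)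
    (hK1 : a + k * κ ≤ K) (hK2 : k ≤ K)
    {o : ℝ → E → G} (hlip : ∀ t ∈ Icc 0 T, ∀ x y, ‖o t x - o t y‖ ≤ κ * ‖x - y‖)
    (ho0 : ContinuousOn (fun r => o r 0) (Icc 0 T))
    {x0 : E} {W : ℝ → Ω → H} {Y : ℝ → Ω → E}
    (hoY : Ctl P F T (fun t ω => o t (Y t ω))) {s τ : ℝ} (hs : 0 ≤ s) (hsτ : s ≤ τ)
    (hτ : τ ≤ T) {Λ : Set Ω} (hΛ : MeasurableSet[F s] Λ)
    (hkill : Ctl P F T (kill s Λ W))
    (hY : Sol P F b T A D B C x0 (fun t ω => o t (Y t ω)) (kill s Λ W) Y)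
    (hz : ∀ r ∈ Ioc τ T, o r 0 = 0) :
    ∀ t ∈ Icc s T, qn P (fun ω => iw Λ ω • Y t ω)
      ≤ 3 * Gf T a K ^ 2 * (3 * qn P (fun ω => iw Λ ω • Y s ω)
        + 6 * K ^ 2 * (τ - s) * (P.real Λ * ∫ r in s..τ, ‖o r 0‖ ^ 2)) := by
  have hχ := iw_wt (P := P) hΛ
  have h00 : (0 : ℝ) ∈ Icc 0 T := ⟨le_rfl, hT.le⟩
  have hk0 : 0 ≤ k := (norm_nonneg _).trans (hkB 0 h00)
  have hg1 := one_le_Gf hT.le a K
  have bnd : ∀ r ∈ Icc 0 T, s < r → ∀ ω, ‖iw Λ ω • (A r (Y r ω) + B r (o r (Y r ω))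
      + C r (kill s Λ W r ω))‖ ≤ K * (‖iw Λ ω • Y r ω‖ + iw Λ ω * ‖o r 0‖) := by
    intro r hr hsr ω
    by_cases h : ω ∈ Λ
    · rw [iw_mem h, one_smul, one_smul, kill_on W hsr h, map_zero, add_zero, one_mul]
      have h1 : ‖A r (Y r ω)‖ ≤ a * ‖Y r ω‖ := (A r).le_of_opNorm_le (ha r hr) _
      have h2 := hlip r hr (Y r ω) 0
      rw [sub_zero] at h2
      have h3 : ‖o r (Y r ω)‖ ≤ ‖o r 0‖ + κ * ‖Y r ω‖ := by
        have h4 := norm_sub_norm_le (o r (Y r ω)) (o r 0)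
        linarith
      have h5 : ‖B r (o r (Y r ω))‖ ≤ k * (‖o r 0‖ + κ * ‖Y r ω‖) :=
        ((B r).le_of_opNorm_le (hkB r hr) _).trans (mul_le_mul_of_nonneg_left h3 hk0)
      have h6 := norm_add_le (A r (Y r ω)) (B r (o r (Y r ω)))
      have n1 := norm_nonneg (Y r ω)
      have n2 := norm_nonneg (o r 0)
      nlinarith [mul_le_mul_of_nonneg_right hK1 n1, mul_le_mul_of_nonneg_right hK2 n2]
    · rw [iw_nmem h, zero_smul, zero_smul, zero_mul]
      simp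
  -- first part
  have jo : MemLp (fun p : ℝ × Ω => ‖o p.1 0‖) 2 (muT T P) := (det_joint hT.le ho0).norm
  have jθ : MemLp (fun p : ℝ × Ω => iw Λ p.2 • ‖o p.1 0‖) 2 (muT T P) :=
    hχ.joint hN (g := fun r _ => ‖o r 0‖) jo
  have iw0 : ∀ ω : Ω, 0 ≤ iw Λ ω := fun ω => by
    by_cases h : ω ∈ Λ
    · simp [iw_mem h]
    · simp [iw_nmem h]
  have e1 := sol_est hN hT hcA hcD hcB hcC hd hoY hkill hY hs hsτ hτ hχ (K := K)
    (θ := fun r ω => iw Λ ω • ‖o r 0‖) jθ (fun r hr ω => by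
      have h1 := bnd r ⟨hs.trans hr.1.le, hr.2.trans hτ⟩ hr.1 ω
      have h2 : ‖iw Λ ω • ‖o r 0‖‖ = iw Λ ω * ‖o r 0‖ := by
        rw [smul_eq_mul, Real.norm_eq_abs, abs_of_nonneg (mul_nonneg (iw0 ω) (norm_nonneg _))]
      rw [h2]
      exact h1)
  have eΘ : ∫ r in s..τ, qn P (fun ω => iw Λ ω • ‖o r 0‖)
      = P.real Λ * ∫ r in s..τ, ‖o r 0‖ ^ 2 := by
    rw [← intervalIntegral.integral_const_mul]
    refine intervalIntegral.integral_congr fun r _ => ?_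
    have h1 := iw_sq (P := P) hN hΛ (‖o r 0‖)
    rw [Real.norm_eq_abs, sq_abs] at h1
    exact h1
  rw [eΘ] at e1
  set N0 := 3 * qn P (fun ω => iw Λ ω • Y s ω)
        + 6 * K ^ 2 * (τ - s) * (P.real Λ * ∫ r in s..τ, ‖o r 0‖ ^ 2) with hN0
  have hN0' : 0 ≤ N0 := by
    have h1 := qn_nonneg (P := P) (fun ω => iw Λ ω • Y s ω)
    have h2 : 0 ≤ ∫ r in s..τ, ‖o r 0‖ ^ 2 :=
      intervalIntegral.integral_nonneg hsτ fun _ _ => sq_nonneg _
    have h3 : 0 ≤ τ - s := by linarith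
    have h4 : 0 ≤ P.real Λ := measureReal_nonneg
    rw [hN0]
    positivity
  -- second part
  have e2 := sol_est hN hT hcA hcD hcB hcC hd hoY hkill hY (hs.trans hsτ) hτ le_rfl
    (hχ.mono hN hsτ) (K := K) (θ := fun _ _ => (0 : ℝ)) MemLp.zero (fun r hr ω => by
      have h1 := bnd r ⟨(hs.trans hsτ).trans hr.1.le, hr.2⟩ (hsτ.trans_lt hr.1) ω
      rw [hz r hr, norm_zero, mul_zero] at h1
      rw [norm_zero]
      exact h1)
  intro t ht
  rcases le_total t τ with h | h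
  · have h1 := e1 t ⟨ht.1, h⟩
    refine h1.trans ?_
    have h2 : Gf T a K ≤ 3 * Gf T a K ^ 2 := by nlinarith
    calc N0 * Gf T a K ≤ N0 * (3 * Gf T a K ^ 2) := mul_le_mul_of_nonneg_left h2 hN0'
      _ = 3 * Gf T a K ^ 2 * N0 := by ring
  · have h1 := e2 t ⟨h, ht.2⟩
    have h2 := e1 τ ⟨hsτ, le_rfl⟩
    have e3 : ∫ r in τ..T, qn P (fun _ : Ω => (0 : ℝ)) = 0 := by
      simp [qn]
    rw [e3, mul_zero, add_zero] at h1
    refine h1.trans ?_
    have h3 : 3 * qn P (fun ω => iw Λ ω • Y τ ω) * Gf T a K ≤ 3 * (N0 * Gf T a K) * Gf T a K :=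
      mul_le_mul_of_nonneg_right (by linarith) (by linarith)
    refine h3.trans (le_of_eq ?_)
    ring

end Pool.Agent.ACF
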