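import Pool.Agent.ACF.DevD
import Pool.Agent.ACF.Brown

set_option autoImplicit false
set_option linter.unusedSectionVars false
open MeasureTheory ProbabilityTheory Set Filter Topology
open scoped NNReal ENNReal

namespace Pool.Agent.ACF

variable {E : Type*} [NormedAddCommGroup E] [InnerProductSpace ℝ E] [CompleteSpace E]
variable {G : Type*} [NormedAddCommGroup G] [InnerProductSpace ℝ G] [CompleteSpace G]
variable {H : Type*} [NormedAddCommGroup H] [InnerProductSpace ℝ H] [CompleteSpace H]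
variable {Ω : Type*} {mΩ : MeasurableSpace Ω} {P : Measure Ω} [IsProbabilityMeasure P]
  {F : ℝ → MeasurableSpace Ω} {b : ℝ → Ω → ℝ} {T : ℝ}

/-- both optimality properties at the initial value `x0`, with equilibrium state `X` -/
structure NashAt (P : Measure Ω) (F : ℝ → MeasurableSpace Ω) (b : ℝ → Ω → ℝ) (T : ℝ)
    (A D : ℝ → E →L[ℝ] E) (B : ℝ → G →L[ℝ] E) (C : ℝ → H →L[ℝ] E) (g : ℝ)
    (Q : ℝ → E →L[ℝ] E) (u : ℝ → E → G) (v : ℝ → E → H) (x0 : E) (X : ℝ → Ω → E) : Prop where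
  cu : Ctl P F T (fun t ω => u t (X t ω))
  cv : Ctl P F T (fun t ω => v t (X t ω))
  sol : Sol P F b T A D B C x0 (fun t ω => u t (X t ω)) (fun t ω => v t (X t ω)) X
  optV : ∀ V : ℝ → Ω → H, Ctl P F T V → ∃ Y : ℝ → Ω → E,
    Ctl P F T (fun t ω => u t (Y t ω)) ∧
    Sol P F b T A D B C x0 (fun t ω => u t (Y t ω)) V Y ∧
    cst g (-1) (fun t => -(Q t)) T P X (fun t ω => u t (X t ω)) (fun t ω => v t (X t ω))
      ≤ cst g (-1) (fun t => -(Q t)) T P Y (fun t ω => u t (Y t ω)) V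
  optU : ∀ U : ℝ → Ω → G, Ctl P F T U → ∃ Y : ℝ → Ω → E,
    Ctl P F T (fun t ω => v t (Y t ω)) ∧
    Sol P F b T A D C B x0 (fun t ω => v t (Y t ω)) U Y ∧
    cst 1 0 Q T P X (fun t ω => v t (X t ω)) (fun t ω => u t (X t ω))
      ≤ cst 1 0 Q T P Y (fun t ω => v t (Y t ω)) U

variable {A D : ℝ → E →L[ℝ] E} {B : ℝ → G →L[ℝ] E} {C : ℝ → H →L[ℝ] E}

/-- the late costs of both players on `Λ` -/
lemma dev_costs (hN : Noise P F b) (hT : 0 < T) (hcA : ContinuousOn A (Icc 0 T))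
    (hcD : ContinuousOn D (Icc 0 T)) (hcB : ContinuousOn B (Icc 0 T))
    (hcC : ContinuousOn C (Icc 0 T)) {a k κ K c g : ℝ} (ha : ∀ t ∈ Icc 0 T, ‖A t‖ ≤ a)
    (hd : ∀ t ∈ Icc 0 T, ‖D t‖ ≤ a) (hkB : ∀ t ∈ Icc 0 T, ‖B t‖ ≤ k)
    (hkC : ∀ t ∈ Icc 0 T, ‖C t‖ ≤ k) (hK1 : a + k * κ ≤ K) (hK2 : k ≤ K)
    {Q : ℝ → E →L[ℝ] E} (hQ : ContinuousOn Q (Icc 0 T)) (hQc : ∀ t ∈ Icc 0 T, ‖Q t‖ ≤ c)
    (hQ0 : ∀ t ∈ Icc 0 T, ∀ x, 0 ≤ inner ℝ (Q t x) x)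
    {u : ℝ → E → G} {v : ℝ → E → H}
    (hlu : ∀ t ∈ Icc 0 T, ∀ x y, ‖u t x - u t y‖ ≤ κ * ‖x - y‖)
    (hlv : ∀ t ∈ Icc 0 T, ∀ x y, ‖v t x - v t y‖ ≤ κ * ‖x - y‖)
    (hv0 : ContinuousOn (fun r => v r 0) (Icc 0 T)) {x0 : E} {X : ℝ → Ω → E}
    (hX : NashAt P F b T A D B C g Q u v x0 X) {s τ : ℝ} (hs : 0 ≤ s) (hsτ : s ≤ τ)
    (hτ : τ ≤ T) {Λ : Set Ω} (hΛ : MeasurableSet[F s] Λ) (hz : ∀ r ∈ Ioc τ T, v r 0 = 0) :
    (∫ p in Ioi s ×ˢ Λ, ‖u p.1 (X p.1 p.2)‖ ^ 2 ∂(muT T P)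
      ≤ c * T * (3 * Gf T a K ^ 2 * (3 * qn P (fun ω => iw Λ ω • X s ω)
        + 6 * K ^ 2 * (τ - s) * (P.real Λ * ∫ r in s..τ, ‖v r 0‖ ^ 2)))) ∧
    g * ∫ p in Ioi s ×ˢ Λ, ‖v p.1 (X p.1 p.2)‖ ^ 2 ∂(muT T P)
      ≤ c * T * (3 * Gf T a K ^ 2 * (3 * qn P (fun ω => iw Λ ω • X s ω)
        + 6 * K ^ 2 * (τ - s) * (P.real Λ * ∫ r in s..τ, ‖v r 0‖ ^ 2))) := by
  have h00 : (0 : ℝ) ∈ Icc 0 T := ⟨le_rfl, hT.le⟩
  have hc0 : 0 ≤ c := (norm_nonneg _).trans (hQc 0 h00)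
  have hsT : s ≤ T := hsτ.trans hτ
  have hχ := iw_wt (P := P) hΛ
  have hΛm : MeasurableSet Λ := hN.le s _ hΛ
  have hS : MeasurableSet (Ioi s ×ˢ Λ) := measurableSet_Ioi.prod hΛm
  -- the control player switches off
  obtain ⟨Y, hvY, hY, hq, hle⟩ := dev_main (r := 1) (q := 0) (o := v) (w := u) hN hT hcA hcD hcC
    hcB ha hd hkC hQ hlv hX.cv hX.cu hX.sol.swap hX.optU hs hsT hΛ
  have hkill : Ctl P F T (kill s Λ (fun t ω => u t (X t ω))) := kill_ctl hN hΛ hX.cu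
  have hYb := dev_Y hN hT hcA hcD hcC hcB ha hd hkC hK1 hK2 hlv hv0 hvY hs hsτ hτ hΛ hkill hY hz
  rw [hq] at hYb
  set N1 := 3 * Gf T a K ^ 2 * (3 * qn P (fun ω => iw Λ ω • X s ω)
        + 6 * K ^ 2 * (τ - s) * (P.real Λ * ∫ r in s..τ, ‖v r 0‖ ^ 2)) with hN1
  have jX : MemLp (fun p : ℝ × Ω => X p.1 p.2) 2 (muT T P) := hX.sol.msc.joint hX.sol.joint
  have jY : MemLp (fun p : ℝ × Ω => Y p.1 p.2) 2 (muT T P) := hY.msc.joint hY.joint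
  have iY := (int_sq jY).integrableOn (s := Ioi s ×ˢ Λ)
  have iQY : Integrable (fun p : ℝ × Ω => inner ℝ (Q p.1 (Y p.1 p.2)) (Y p.1 p.2)
      + (0 : ℝ) * ‖v p.1 (Y p.1 p.2)‖ ^ 2) (muT T P) :=
    (int_inner (z := fun t ω => Q t (Y t ω)) (w := Y) (clm_memLp hT.le hQ jY) jY).add
      ((int_sq (z := fun t ω => v t (Y t ω)) hvY.memLp).const_mul 0)
  have hR : ∫ p in Ioi s ×ˢ Λ, (inner ℝ (Q p.1 (Y p.1 p.2)) (Y p.1 p.2)
      + (0 : ℝ) * ‖v p.1 (Y p.1 p.2)‖ ^ 2) ∂(muT T P) ≤ c * T * N1 := by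
    have h1 : ∫ p in Ioi s ×ˢ Λ, (inner ℝ (Q p.1 (Y p.1 p.2)) (Y p.1 p.2)
        + (0 : ℝ) * ‖v p.1 (Y p.1 p.2)‖ ^ 2) ∂(muT T P)
        ≤ ∫ p in Ioi s ×ˢ Λ, c * ‖Y p.1 p.2‖ ^ 2 ∂(muT T P) := by
      refine setIntegral_mono_ae iQY.integrableOn (iY.const_mul c) ?_
      filter_upwards [muT_ae (P := P) T] with p hp
      rw [zero_mul, add_zero]
      have h2 := real_inner_le_norm (Q p.1 (Y p.1 p.2)) (Y p.1 p.2)
      have h3 := (Q p.1).le_of_opNorm_le (hQc _ hp) (Y p.1 p.2)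
      have h4 := norm_nonneg (Y p.1 p.2)
      nlinarith
    refine h1.trans ?_
    rw [integral_const_mul, S_int hN hs hsT hΛ jY, mul_assoc]
    refine mul_le_mul_of_nonneg_left ?_ hc0
    have h5 : ∀ r ∈ uIoc s T, ‖qn P (fun ω => iw Λ ω • Y r ω)‖ ≤ N1 := by
      intro r hr
      rw [uIoc_of_le hsT] at hr
      rw [Real.norm_eq_abs, abs_of_nonneg (qn_nonneg _)]
      exact hYb r ⟨hr.1.le, hr.2⟩
    have h6 := intervalIntegral.norm_integral_le_of_norm_le_const h5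
    rw [abs_of_nonneg (by linarith)] at h6
    have h7 := (Real.le_norm_self _).trans h6
    have hN1' : 0 ≤ N1 := (qn_nonneg _).trans (hYb s ⟨le_rfl, hsT⟩)
    nlinarith
  -- split the cost of the control player
  have iQX : Integrable (fun p : ℝ × Ω => inner ℝ (Q p.1 (X p.1 p.2)) (X p.1 p.2)) (muT T P) :=
    int_inner (z := fun t ω => Q t (X t ω)) (w := X) (clm_memLp hT.le hQ jX) jX
  have iu : Integrable (fun p : ℝ × Ω => ‖u p.1 (X p.1 p.2)‖ ^ 2) (muT T P) :=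
    int_sq (z := fun t ω => u t (X t ω)) hX.cu.memLp
  have iv : Integrable (fun p : ℝ × Ω => ‖v p.1 (X p.1 p.2)‖ ^ 2) (muT T P) :=
    int_sq (z := fun t ω => v t (X t ω)) hX.cv.memLp
  have hcf1 : ∫ p in Ioi s ×ˢ Λ, cf 1 0 Q X (fun t ω => v t (X t ω)) (fun t ω => u t (X t ω)) p
        ∂(muT T P)
      = (∫ p in Ioi s ×ˢ Λ, ‖u p.1 (X p.1 p.2)‖ ^ 2 ∂(muT T P))
        + ∫ p in Ioi s ×ˢ Λ, inner ℝ (Q p.1 (X p.1 p.2)) (X p.1 p.2) ∂(muT T P) := by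
    rw [← integral_add iu.integrableOn iQX.integrableOn]
    refine setIntegral_congr_fun hS fun p _ => ?_
    simp only [cf]
    ring
  have hQX0 : 0 ≤ ∫ p in Ioi s ×ˢ Λ, inner ℝ (Q p.1 (X p.1 p.2)) (X p.1 p.2) ∂(muT T P) := by
    refine integral_nonneg_of_ae (ae_restrict_of_ae ?_)
    filter_upwards [muT_ae (P := P) T] with p hp
    exact hQ0 _ hp _
  have hU := hle.trans hR
  rw [hcf1] at hU
  -- the disturbance player switches off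
  have hQn : ContinuousOn (fun t => -(Q t)) (Icc 0 T) := hQ.neg
  obtain ⟨Z, huZ, hZ, -, hle2⟩ := dev_main (r := g) (q := -1) (o := u) (w := v)
    (Q := fun t => -(Q t)) hN hT hcA hcD hcB
    hcC ha hd hkB hQn hlu hX.cu hX.cv hX.sol hX.optV hs hsT hΛ
  have hneg : ∫ p in Ioi s ×ˢ Λ, (inner ℝ ((-(Q p.1)) (Z p.1 p.2)) (Z p.1 p.2)
      + (-1 : ℝ) * ‖u p.1 (Z p.1 p.2)‖ ^ 2) ∂(muT T P) ≤ 0 := by
    refine integral_nonpos_of_ae (ae_restrict_of_ae ?_)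
    filter_upwards [muT_ae (P := P) T] with p hp
    have h1 := hQ0 _ hp (Z p.1 p.2)
    have h2 : inner ℝ ((-(Q p.1)) (Z p.1 p.2)) (Z p.1 p.2)
        = -inner ℝ (Q p.1 (Z p.1 p.2)) (Z p.1 p.2) := by
      rw [neg_apply, inner_neg_left]
    rw [h2]
    have h3 := sq_nonneg ‖u p.1 (Z p.1 p.2)‖
    simp only [Pi.zero_apply]
    linarith
  have hcf2 : ∫ p in Ioi s ×ˢ Λ, cf g (-1) (fun t => -(Q t)) X (fun t ω => u t (X t ω))
        (fun t ω => v t (X t ω)) p ∂(muT T P)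
      = g * (∫ p in Ioi s ×ˢ Λ, ‖v p.1 (X p.1 p.2)‖ ^ 2 ∂(muT T P))
        - ((∫ p in Ioi s ×ˢ Λ, ‖u p.1 (X p.1 p.2)‖ ^ 2 ∂(muT T P))
        + ∫ p in Ioi s ×ˢ Λ, inner ℝ (Q p.1 (X p.1 p.2)) (X p.1 p.2) ∂(muT T P)) := by
    have j1 : Integrable (fun p : ℝ × Ω => g * ‖v p.1 (X p.1 p.2)‖ ^ 2)
        ((muT T P).restrict (Ioi s ×ˢ Λ)) := iv.integrableOn.const_mul g
    have j2 : Integrable (fun p : ℝ × Ω => ‖u p.1 (X p.1 p.2)‖ ^ 2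
        + inner ℝ (Q p.1 (X p.1 p.2)) (X p.1 p.2)) ((muT T P).restrict (Ioi s ×ˢ Λ)) :=
      iu.integrableOn.add iQX.integrableOn
    rw [← integral_add iu.integrableOn iQX.integrableOn, ← integral_const_mul,
      ← integral_sub j1 j2]
    refine setIntegral_congr_fun hS fun p _ => ?_
    simp only [cf]
    rw [neg_apply, inner_neg_left]
    ring
  have hV := hle2.trans hneg
  rw [hcf2] at hV
  exact ⟨by linarith, by linarith⟩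

end Pool.Agent.ACF
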