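import Pool.Agent.ACF.DevE

set_option autoImplicit false
set_option linter.unusedSectionVars false
open MeasureTheory ProbabilityTheory Set Filter Topology
open scoped NNReal ENNReal

namespace Pool.Agent.ACF

variable {E : Type*} [NormedAddCommGroup E] [InnerProductSpace ℝ E] [CompleteSpace E]
variable {G : Type*} [NormedAddCommGroup G] [InnerProductSpace ℝ G] [CompleteSpace G]
variable {H : Type*} [NormedAddCommGroup H] [InnerProductSpace ℝ H] [CompleteSpace H]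
variable {Ω : Type*} {mΩ : MeasurableSpace Ω} {P : Measure Ω} [IsProbabilityMeasure P]
  {F : ℝ → MeasurableSpace Ω} {b : ℝ → Ω → ℝ} {T : ℝ}
variable {A D : ℝ → E →L[ℝ] E} {B : ℝ → G →L[ℝ] E} {C : ℝ → H →L[ℝ] E}

/-- the equilibrium state on `Λ` after time `s` -/
lemma dev_X (hN : Noise P F b) (hT : 0 < T) (hcA : ContinuousOn A (Icc 0 T))
    (hcD : ContinuousOn D (Icc 0 T)) (hcB : ContinuousOn B (Icc 0 T))
    (hcC : ContinuousOn C (Icc 0 T)) {a k K : ℝ} (ha : ∀ t ∈ Icc 0 T, ‖A t‖ ≤ a)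
    (hd : ∀ t ∈ Icc 0 T, ‖D t‖ ≤ a) (hkB : ∀ t ∈ Icc 0 T, ‖B t‖ ≤ k)
    (hkC : ∀ t ∈ Icc 0 T, ‖C t‖ ≤ k) (hK1 : a ≤ K) (hK2 : k ≤ K)
    {x0 : E} {U : ℝ → Ω → G} {V : ℝ → Ω → H} {X : ℝ → Ω → E} (hU : Ctl P F T U)
    (hV : Ctl P F T V) (hX : Sol P F b T A D B C x0 U V X) {s τ : ℝ} (hs : 0 ≤ s)
    (hsτ : s ≤ τ) (hτ : τ ≤ T) {Λ : Set Ω} (hΛ : MeasurableSet[F s] Λ) :
    ∀ t ∈ Icc s τ, qn P (fun ω => iw Λ ω • X t ω)
      ≤ (3 * qn P (fun ω => iw Λ ω • X s ω) + 12 * K ^ 2 * T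
        * ((∫ p in Ioi s ×ˢ Λ, ‖U p.1 p.2‖ ^ 2 ∂(muT T P))
          + ∫ p in Ioi s ×ˢ Λ, ‖V p.1 p.2‖ ^ 2 ∂(muT T P))) * Gf T a K := by
  have hχ := iw_wt (P := P) hΛ
  have hsT : s ≤ T := hsτ.trans hτ
  have hΛm : MeasurableSet Λ := hN.le s _ hΛ
  have hS : MeasurableSet (Ioi s ×ˢ Λ) := measurableSet_Ioi.prod hΛm
  have iw0 : ∀ ω : Ω, 0 ≤ iw Λ ω := fun ω => by
    by_cases h : ω ∈ Λ
    · simp [iw_mem h]
    · simp [iw_nmem h]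
  have jn : MemLp (fun p : ℝ × Ω => ‖U p.1 p.2‖ + ‖V p.1 p.2‖) 2 (muT T P) :=
    hU.memLp.norm.add hV.memLp.norm
  have jθ : MemLp (fun p : ℝ × Ω => iw Λ p.2 • (‖U p.1 p.2‖ + ‖V p.1 p.2‖)) 2 (muT T P) :=
    hχ.joint hN (g := fun r ω => ‖U r ω‖ + ‖V r ω‖) jn
  have e1 := sol_est hN hT hcA hcD hcB hcC hd hU hV hX hs hsτ hτ hχ (K := K)
    (θ := fun r ω => iw Λ ω • (‖U r ω‖ + ‖V r ω‖)) jθ (fun r hr ω => by
      have hrT : r ∈ Icc 0 T := ⟨hs.trans hr.1.le, hr.2.trans hτ⟩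
      have nn : 0 ≤ ‖U r ω‖ + ‖V r ω‖ := by positivity
      have h2 : ‖iw Λ ω • (‖U r ω‖ + ‖V r ω‖)‖ = iw Λ ω * (‖U r ω‖ + ‖V r ω‖) := by
        rw [smul_eq_mul, Real.norm_eq_abs, abs_of_nonneg (mul_nonneg (iw0 ω) nn)]
      rw [h2]
      by_cases h : ω ∈ Λ
      · rw [iw_mem h, one_smul, one_smul, one_mul]
        have h1 : ‖A r (X r ω)‖ ≤ a * ‖X r ω‖ := (A r).le_of_opNorm_le (ha r hrT) _
        have h3 : ‖B r (U r ω)‖ ≤ k * ‖U r ω‖ := (B r).le_of_opNorm_le (hkB r hrT) _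
        have h4 : ‖C r (V r ω)‖ ≤ k * ‖V r ω‖ := (C r).le_of_opNorm_le (hkC r hrT) _
        have h5 : ‖A r (X r ω) + B r (U r ω) + C r (V r ω)‖
            ≤ ‖A r (X r ω)‖ + ‖B r (U r ω)‖ + ‖C r (V r ω)‖ := norm_add₃_le
        have n1 := norm_nonneg (X r ω)
        nlinarith [mul_le_mul_of_nonneg_right hK1 n1, mul_le_mul_of_nonneg_right hK2 nn]
      · rw [iw_nmem h, zero_smul, zero_smul, zero_mul]
        simp)
  intro t ht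
  refine (e1 t ht).trans (mul_le_mul_of_nonneg_right ?_ (Real.exp_pos _).le)
  -- the integral of the inputs
  have i1 : IntervalIntegrable (fun r => qn P (fun ω => iw Λ ω • (‖U r ω‖ + ‖V r ω‖)))
      volume s τ := fub_qint (g := fun r ω => iw Λ ω • (‖U r ω‖ + ‖V r ω‖)) hs hsτ hτ jθ
  have i2 : IntervalIntegrable (fun r => qn P (fun ω => iw Λ ω • (‖U r ω‖ + ‖V r ω‖)))
      volume τ T := fub_qint (g := fun r ω => iw Λ ω • (‖U r ω‖ + ‖V r ω‖)) (hs.trans hsτ) hτ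
        le_rfl jθ
  have h1 : ∫ r in s..τ, qn P (fun ω => iw Λ ω • (‖U r ω‖ + ‖V r ω‖))
      ≤ ∫ p in Ioi s ×ˢ Λ, ‖‖U p.1 p.2‖ + ‖V p.1 p.2‖‖ ^ 2 ∂(muT T P) := by
    rw [S_int (Z := fun r ω => ‖U r ω‖ + ‖V r ω‖) hN hs hsT hΛ jn,
      ← intervalIntegral.integral_add_adjacent_intervals i1 i2]
    have : 0 ≤ ∫ r in τ..T, qn P (fun ω => iw Λ ω • (‖U r ω‖ + ‖V r ω‖)) :=
      intervalIntegral.integral_nonneg hτ fun _ _ => qn_nonneg _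
    linarith
  have iu : Integrable (fun p : ℝ × Ω => ‖U p.1 p.2‖ ^ 2) (muT T P) := int_sq hU.memLp
  have iv : Integrable (fun p : ℝ × Ω => ‖V p.1 p.2‖ ^ 2) (muT T P) := int_sq hV.memLp
  have h2 : ∫ p in Ioi s ×ˢ Λ, ‖‖U p.1 p.2‖ + ‖V p.1 p.2‖‖ ^ 2 ∂(muT T P)
      ≤ 2 * ((∫ p in Ioi s ×ˢ Λ, ‖U p.1 p.2‖ ^ 2 ∂(muT T P))
          + ∫ p in Ioi s ×ˢ Λ, ‖V p.1 p.2‖ ^ 2 ∂(muT T P)) := by
    rw [← integral_add iu.integrableOn iv.integrableOn, ← integral_const_mul]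
    refine setIntegral_mono (int_sq (z := fun r ω => ‖U r ω‖ + ‖V r ω‖) jn).integrableOn
      ((iu.integrableOn.add iv.integrableOn).const_mul 2) fun p => ?_
    simp only
    rw [Real.norm_eq_abs, sq_abs]
    nlinarith [sq_nonneg (‖U p.1 p.2‖ - ‖V p.1 p.2‖)]
  have hI0 : 0 ≤ (∫ p in Ioi s ×ˢ Λ, ‖U p.1 p.2‖ ^ 2 ∂(muT T P))
          + ∫ p in Ioi s ×ˢ Λ, ‖V p.1 p.2‖ ^ 2 ∂(muT T P) :=
    add_nonneg (integral_nonneg fun _ => sq_nonneg _) (integral_nonneg fun _ => sq_nonneg _)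
  set I0 := (∫ p in Ioi s ×ˢ Λ, ‖U p.1 p.2‖ ^ 2 ∂(muT T P))
          + ∫ p in Ioi s ×ˢ Λ, ‖V p.1 p.2‖ ^ 2 ∂(muT T P) with hI0'
  have h3 := h1.trans h2
  set J := ∫ r in s..τ, qn P (fun ω => iw Λ ω • (‖U r ω‖ + ‖V r ω‖)) with hJ
  have h4 : (τ - s) * J ≤ T * (2 * I0) := by
    calc (τ - s) * J ≤ (τ - s) * (2 * I0) := mul_le_mul_of_nonneg_left h3 (by linarith)
      _ ≤ T * (2 * I0) := mul_le_mul_of_nonneg_right (by linarith) (by linarith)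
  have h5 : 6 * K ^ 2 * (τ - s) * J ≤ 12 * K ^ 2 * T * I0 := by
    have h6 := mul_le_mul_of_nonneg_left h4 (by positivity : 0 ≤ 6 * K ^ 2)
    linarith
  linarith

lemma alg_a {m p ρ h K : ℝ} {q : ℝ} (hm : m ≤ ρ ^ 2 * p) (hp : 0 ≤ p) (hq : 0 ≤ h * q) :
    3 * m + 6 * K ^ 2 * h * (p * q) ≤ (3 + 6 * K ^ 2) * (p * (ρ ^ 2 + h * q)) := by
  have e : (3 + 6 * K ^ 2) * (p * (ρ ^ 2 + h * q)) - (3 * m + 6 * K ^ 2 * h * (p * q))
      = 3 * (ρ ^ 2 * p - m) + 3 * (p * (h * q)) + 6 * (K ^ 2 * (p * ρ ^ 2)) := by ring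
  have h1 : 0 ≤ p * (h * q) := mul_nonneg hp hq
  have h2 : 0 ≤ K ^ 2 * (p * ρ ^ 2) := by positivity
  linarith

lemma alg_b (x y z : ℝ) : x * z + y * (x * z) = (1 + y) * x * z := by ring

lemma alg_c {m p ρ h q : ℝ} (hm : m ≤ ρ ^ 2 * p) (hp : 0 ≤ p) (hq : 0 ≤ h * q) :
    3 * m ≤ 3 * (p * (ρ ^ 2 + h * q)) := by
  have h1 : 0 ≤ p * (h * q) := mul_nonneg hp hq
  have e : 3 * (p * (ρ ^ 2 + h * q)) = 3 * (ρ ^ 2 * p) + 3 * (p * (h * q)) := by ring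
  linarith

lemma alg_d (x y z : ℝ) : 3 * z + x * (y * z) = (3 + x * y) * z := by ring

lemma alg_e (x y z w : ℝ) : w * (x * z * y) = w * (x * y) * z := by ring

lemma alg_g (x y z w : ℝ) : x * (y * (z * w)) = x * (y * z) * w := by ring

lemma alg_f {p qu qv Iu Iv κ N1 Z R T : ℝ}
    (h1 : p * qu ≤ 2 * Iu + 2 * κ ^ 2 * (T * Z * (p * R)))
    (h2 : p * qv ≤ 2 * Iv + 2 * κ ^ 2 * (T * Z * (p * R)))
    (h3 : Iu + Iv ≤ N1 * (p * R)) :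
    p * (qu + qv) ≤ p * ((2 * N1 + 4 * κ ^ 2 * T * Z) * R) := by
  have e : p * ((2 * N1 + 4 * κ ^ 2 * T * Z) * R)
      = 2 * (N1 * (p * R)) + 2 * (2 * κ ^ 2 * (T * Z * (p * R))) := by ring
  have e2 : p * (qu + qv) = p * qu + p * qv := by ring
  rw [e, e2]
  linarith

/-- the step inequality -/
theorem dev_step (hN : Noise P F b) (hT : 0 < T) (hcA : ContinuousOn A (Icc 0 T))
    (hcD : ContinuousOn D (Icc 0 T)) (hcB : ContinuousOn B (Icc 0 T))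
    (hcC : ContinuousOn C (Icc 0 T)) {κ g : ℝ} (hκ : 0 ≤ κ) (hg : 0 < g)
    {Q : ℝ → E →L[ℝ] E} (hQ : ContinuousOn Q (Icc 0 T))
    (hQ0 : ∀ t ∈ Icc 0 T, ∀ x, 0 ≤ inner ℝ (Q t x) x)
    {u : ℝ → E → G} {v : ℝ → E → H}
    (hlu : ∀ t ∈ Icc 0 T, ∀ x y, ‖u t x - u t y‖ ≤ κ * ‖x - y‖)
    (hlv : ∀ t ∈ Icc 0 T, ∀ x y, ‖v t x - v t y‖ ≤ κ * ‖x - y‖)
    (hu0 : ContinuousOn (fun r => u r 0) (Icc 0 T))
    (hv0 : ContinuousOn (fun r => v r 0) (Icc 0 T)) :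
    ∃ M : ℝ, 0 ≤ M ∧ ∀ (x0 : E) (X : ℝ → Ω → E), NashAt P F b T A D B C g Q u v x0 X →
      ∀ s τ : ℝ, 0 ≤ s → s ≤ τ → τ ≤ T → (∀ r ∈ Ioc τ T, v r 0 = 0) →
      ∀ Λ : Set Ω, MeasurableSet[F s] Λ → 0 < P.real Λ → ∀ ρ : ℝ,
      qn P (fun ω => iw Λ ω • X s ω) ≤ ρ ^ 2 * P.real Λ →
      (∫ r in s..τ, ‖u r 0‖ ^ 2) + (∫ r in s..τ, ‖v r 0‖ ^ 2)
        ≤ M * (ρ ^ 2 + (τ - s) * ∫ r in s..τ, ‖v r 0‖ ^ 2) := by
  obtain ⟨a1, ha1⟩ := isCompact_Icc.exists_bound_of_continuousOn (s := Icc (0 : ℝ) T) hcA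
  obtain ⟨a2, ha2⟩ := isCompact_Icc.exists_bound_of_continuousOn (s := Icc (0 : ℝ) T) hcD
  obtain ⟨k1, hk1⟩ := isCompact_Icc.exists_bound_of_continuousOn (s := Icc (0 : ℝ) T) hcB
  obtain ⟨k2, hk2⟩ := isCompact_Icc.exists_bound_of_continuousOn (s := Icc (0 : ℝ) T) hcC
  obtain ⟨c, hc⟩ := isCompact_Icc.exists_bound_of_continuousOn (s := Icc (0 : ℝ) T) hQ
  have h00 : (0 : ℝ) ∈ Icc 0 T := ⟨le_rfl, hT.le⟩
  set a := max a1 a2 with ha'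
  set k := max k1 k2 with hk'
  have ha : ∀ t ∈ Icc 0 T, ‖A t‖ ≤ a := fun t ht => (ha1 t ht).trans (le_max_left _ _)
  have hd : ∀ t ∈ Icc 0 T, ‖D t‖ ≤ a := fun t ht => (ha2 t ht).trans (le_max_right _ _)
  have hkB : ∀ t ∈ Icc 0 T, ‖B t‖ ≤ k := fun t ht => (hk1 t ht).trans (le_max_left _ _)
  have hkC : ∀ t ∈ Icc 0 T, ‖C t‖ ≤ k := fun t ht => (hk2 t ht).trans (le_max_right _ _)
  have ha0 : 0 ≤ a := (norm_nonneg _).trans (ha 0 h00)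
  have hk0 : 0 ≤ k := (norm_nonneg _).trans (hkB 0 h00)
  have hc0 : 0 ≤ c := (norm_nonneg _).trans (hc 0 h00)
  set K := a + k * κ + k with hK
  have hkκ : 0 ≤ k * κ := mul_nonneg hk0 hκ
  set N1 : ℝ := (1 + g⁻¹) * (c * T * (3 * Gf T a K ^ 2 * (3 + 6 * K ^ 2))) with hN1
  have hG0 : 0 < Gf T a K := Real.exp_pos _
  have hgi : 0 < g⁻¹ := inv_pos.2 hg
  have hN10 : 0 ≤ N1 := by positivity
  set M : ℝ := 2 * N1 + 4 * κ ^ 2 * T * ((3 + 12 * K ^ 2 * T * N1) * Gf T a K) with hM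
  refine ⟨M, by positivity, fun x0 X hX s τ hs hsτ hτ hz Λ hΛ hΛp ρ hm => ?_⟩
  have hK1 : a + k * κ ≤ K := by linarith
  have hK2 : k ≤ K := by linarith
  have hK3 : a ≤ K := by linarith
  obtain ⟨cu, cv⟩ := dev_costs hN hT hcA hcD hcB hcC ha hd hkB hkC hK1 hK2 hQ hc hQ0 hlu hlv hv0
    hX hs hsτ hτ hΛ hz
  have hXb := dev_X hN hT hcA hcD hcB hcC ha hd hkB hkC hK3 hK2 hX.cu hX.cv hX.sol hs hsτ hτ hΛ
  have zu := law_zero hN hlu hX.sol.msc hX.cu.memLp hu0 hs hsτ hτ hΛ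
  have zv := law_zero hN hlv hX.sol.msc hX.cv.memLp hv0 hs hsτ hτ hΛ
  have hsT : s ≤ T := hsτ.trans hτ
  have hχ := iw_wt (P := P) hΛ
  -- integrals over part of the time are at most the late ones
  have pu : ∫ r in s..τ, qn P (fun ω => iw Λ ω • u r (X r ω))
      ≤ ∫ p in Ioi s ×ˢ Λ, ‖u p.1 (X p.1 p.2)‖ ^ 2 ∂(muT T P) := by
    have jj : MemLp (fun p : ℝ × Ω => iw Λ p.2 • u p.1 (X p.1 p.2)) 2 (muT T P) :=
      hχ.joint hN (g := fun t ω => u t (X t ω)) hX.cu.memLp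
    rw [S_int (Z := fun t ω => u t (X t ω)) hN hs hsT hΛ hX.cu.memLp,
      ← intervalIntegral.integral_add_adjacent_intervals
        (fub_qint (g := fun r ω => iw Λ ω • u r (X r ω)) hs hsτ hτ jj)
        (fub_qint (g := fun r ω => iw Λ ω • u r (X r ω)) (hs.trans hsτ) hτ le_rfl jj)]
    have : 0 ≤ ∫ r in τ..T, qn P (fun ω => iw Λ ω • u r (X r ω)) :=
      intervalIntegral.integral_nonneg hτ fun _ _ => qn_nonneg _
    linarith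
  have pv : ∫ r in s..τ, qn P (fun ω => iw Λ ω • v r (X r ω))
      ≤ ∫ p in Ioi s ×ˢ Λ, ‖v p.1 (X p.1 p.2)‖ ^ 2 ∂(muT T P) := by
    have jj : MemLp (fun p : ℝ × Ω => iw Λ p.2 • v p.1 (X p.1 p.2)) 2 (muT T P) :=
      hχ.joint hN (g := fun t ω => v t (X t ω)) hX.cv.memLp
    rw [S_int (Z := fun t ω => v t (X t ω)) hN hs hsT hΛ hX.cv.memLp,
      ← intervalIntegral.integral_add_adjacent_intervals
        (fub_qint (g := fun r ω => iw Λ ω • v r (X r ω)) hs hsτ hτ jj)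
        (fub_qint (g := fun r ω => iw Λ ω • v r (X r ω)) (hs.trans hsτ) hτ le_rfl jj)]
    have : 0 ≤ ∫ r in τ..T, qn P (fun ω => iw Λ ω • v r (X r ω)) :=
      intervalIntegral.integral_nonneg hτ fun _ _ => qn_nonneg _
    linarith
  have hXint : ∫ r in s..τ, qn P (fun ω => iw Λ ω • X r ω)
      ≤ T * ((3 * qn P (fun ω => iw Λ ω • X s ω) + 12 * K ^ 2 * T
        * ((∫ p in Ioi s ×ˢ Λ, ‖u p.1 (X p.1 p.2)‖ ^ 2 ∂(muT T P))
          + ∫ p in Ioi s ×ˢ Λ, ‖v p.1 (X p.1 p.2)‖ ^ 2 ∂(muT T P))) * Gf T a K) := by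
    have h5 : ∀ r ∈ uIoc s τ, ‖qn P (fun ω => iw Λ ω • X r ω)‖
        ≤ (3 * qn P (fun ω => iw Λ ω • X s ω) + 12 * K ^ 2 * T
        * ((∫ p in Ioi s ×ˢ Λ, ‖u p.1 (X p.1 p.2)‖ ^ 2 ∂(muT T P))
          + ∫ p in Ioi s ×ˢ Λ, ‖v p.1 (X p.1 p.2)‖ ^ 2 ∂(muT T P))) * Gf T a K := by
      intro r hr
      rw [uIoc_of_le hsτ] at hr
      rw [Real.norm_eq_abs, abs_of_nonneg (qn_nonneg _)]
      exact hXb r ⟨hr.1.le, hr.2⟩
    have h6 := intervalIntegral.norm_integral_le_of_norm_le_const h5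
    rw [abs_of_nonneg (by linarith)] at h6
    have h7 := (Real.le_norm_self _).trans h6
    have h8 := (qn_nonneg _).trans (hXb s ⟨le_rfl, hsτ⟩)
    refine h7.trans ?_
    rw [mul_comm]
    exact mul_le_mul_of_nonneg_right (by linarith) h8
  set m := qn P (fun ω => iw Λ ω • X s ω) with hm'
  set Iu := ∫ p in Ioi s ×ˢ Λ, ‖u p.1 (X p.1 p.2)‖ ^ 2 ∂(muT T P) with hIu
  set Iv := ∫ p in Ioi s ×ˢ Λ, ‖v p.1 (X p.1 p.2)‖ ^ 2 ∂(muT T P) with hIv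
  set qv := ∫ r in s..τ, ‖v r 0‖ ^ 2 with hqv
  set qu := ∫ r in s..τ, ‖u r 0‖ ^ 2 with hqu
  set p := P.real Λ with hp
  have hqv0 : 0 ≤ qv := intervalIntegral.integral_nonneg hsτ fun _ _ => sq_nonneg _
  have hh0 : 0 ≤ τ - s := by linarith
  have hm0 : 0 ≤ m := qn_nonneg _
  have hp0 : 0 ≤ p := hΛp.le
  set R := ρ ^ 2 + (τ - s) * qv with hR
  have hR0 : 0 ≤ R := by positivity
  -- the common bound of the late costs
  have hN0 : 3 * m + 6 * K ^ 2 * (τ - s) * (p * qv) ≤ (3 + 6 * K ^ 2) * (p * R) := by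
    exact alg_a hm hp0 (mul_nonneg hh0 hqv0)
  have hcT : 0 ≤ c * T := by positivity
  have hbase : c * T * (3 * Gf T a K ^ 2 * (3 * m + 6 * K ^ 2 * (τ - s) * (p * qv)))
      ≤ c * T * (3 * Gf T a K ^ 2 * (3 + 6 * K ^ 2)) * (p * R) := by
    have h1 := mul_le_mul_of_nonneg_left hN0 (by positivity : 0 ≤ 3 * Gf T a K ^ 2)
    have h2 := mul_le_mul_of_nonneg_left h1 hcT
    exact h2.trans (le_of_eq (alg_g _ _ _ _))
  have hIu1 := cu.trans hbase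
  have hIv1 := cv.trans hbase
  have hIv2 : Iv ≤ g⁻¹ * (c * T * (3 * Gf T a K ^ 2 * (3 + 6 * K ^ 2)) * (p * R)) := by
    have h1 := mul_le_mul_of_nonneg_left hIv1 hgi.le
    rw [← mul_assoc, inv_mul_cancel₀ hg.ne', one_mul] at h1
    exact h1
  have hI : Iu + Iv ≤ N1 * (p * R) := by
    have h1 := add_le_add hIu1 hIv2
    refine h1.trans (le_of_eq ?_)
    rw [hN1]
    exact alg_b _ _ _
  have hX2 : ∫ r in s..τ, qn P (fun ω => iw Λ ω • X r ω)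
      ≤ T * ((3 + 12 * K ^ 2 * T * N1) * Gf T a K) * (p * R) := by
    refine hXint.trans ?_
    have h1 : 3 * m + 12 * K ^ 2 * T * (Iu + Iv) ≤ (3 + 12 * K ^ 2 * T * N1) * (p * R) := by
      have h2 : 12 * K ^ 2 * T * (Iu + Iv) ≤ 12 * K ^ 2 * T * (N1 * (p * R)) :=
        mul_le_mul_of_nonneg_left hI (by positivity)
      have h3 : 3 * m ≤ 3 * (p * R) := alg_c hm hp0 (mul_nonneg hh0 hqv0)
      have h4 := add_le_add h3 h2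
      exact h4.trans (le_of_eq (alg_d _ _ _))
    have h5 := mul_le_mul_of_nonneg_right h1 hG0.le
    have h6 := mul_le_mul_of_nonneg_left h5 hT.le
    exact h6.trans (le_of_eq (alg_e _ _ _ _))
  have hfin : p * (qu + qv) ≤ p * (M * R) := by
    have hk2 : 0 ≤ 2 * κ ^ 2 := by positivity
    have h0 := mul_le_mul_of_nonneg_left hX2 hk2
    have h1 := zu.trans (add_le_add (mul_le_mul_of_nonneg_left pu zero_le_two) h0)
    have h2 := zv.trans (add_le_add (mul_le_mul_of_nonneg_left pv zero_le_two) h0)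
    exact alg_f h1 h2 hI
  exact le_of_mul_le_mul_left hfin hΛp

end Pool.Agent.ACF
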