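import Pool.Agent.ACF.DevF

set_option autoImplicit false
set_option linter.unusedSectionVars false
open MeasureTheory ProbabilityTheory Set Filter Topology
open scoped NNReal ENNReal

namespace Pool.Agent.ACF

variable {E : Type*} [NormedAddCommGroup E] [InnerProductSpace ℝ E] [CompleteSpace E]
variable {G : Type*} [NormedAddCommGroup G] [InnerProductSpace ℝ G] [CompleteSpace G]
variable {H : Type*} [NormedAddCommGroup H] [InnerProductSpace ℝ H] [CompleteSpace H]
variable {Ω : Type*} {mΩ : MeasurableSpace Ω} {P : Measure Ω} [IsProbabilityMeasure P]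
  {F : ℝ → MeasurableSpace Ω} {b : ℝ → Ω → ℝ} {T : ℝ}
variable {A D : ℝ → E →L[ℝ] E} {B : ℝ → G →L[ℝ] E} {C : ℝ → H →L[ℝ] E}

/-- the event that an adapted variable is small, up to null sets -/
lemma small_event (hN : Noise P F b) {s : ℝ} {X : Ω → E} (hX : AEStronglyMeasurable[F s] X P)
    {ρ : ℝ} (hp : 0 < P {ω | ‖X ω‖ < ρ}) :
    ∃ Λ : Set Ω, MeasurableSet[F s] Λ ∧ 0 < P.real Λ ∧
      qn P (fun ω => iw Λ ω • X ω) ≤ ρ ^ 2 * P.real Λ := by
  obtain ⟨g, hg, hfg⟩ := hX
  set Λ : Set Ω := {ω | ‖g ω‖ < ρ} with hΛ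
  have hΛm : MeasurableSet[F s] Λ := hg.norm.measurable measurableSet_Iio
  have hm : MeasurableSet Λ := hN.le s _ hΛm
  have hP : P Λ = P {ω | ‖X ω‖ < ρ} := by
    refine measure_congr ?_
    filter_upwards [hfg] with ω hω
    have h1 : (ω ∈ Λ) = (ω ∈ {ω | ‖X ω‖ < ρ}) := by
      simp only [hΛ, mem_setOf_eq, hω]
    exact h1
  have hpos : 0 < P.real Λ := by
    rw [measureReal_def, hP]
    exact ENNReal.toReal_pos hp.ne' (measure_ne_top P _)
  refine ⟨Λ, hΛm, hpos, ?_⟩
  have h1 : qn P (fun ω => iw Λ ω • X ω) = ∫ ω in Λ, ‖g ω‖ ^ 2 ∂P := by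
    unfold qn
    rw [← integral_indicator hm]
    refine integral_congr_ae ?_
    filter_upwards [hfg] with ω hω
    by_cases h : ω ∈ Λ
    · rw [indicator_of_mem h, iw_mem h, one_smul, hω]
    · rw [indicator_of_notMem h, iw_nmem h, zero_smul]
      simp
  rw [h1]
  have hb : ∀ ω ∈ Λ, ‖‖g ω‖ ^ 2‖ ≤ ρ ^ 2 := by
    intro ω hω
    have h2 : ‖g ω‖ < ρ := hω
    rw [Real.norm_eq_abs, abs_of_nonneg (sq_nonneg _)]
    exact pow_le_pow_left₀ (norm_nonneg _) h2.le 2
  have h3 := norm_setIntegral_le_of_norm_le_const (measure_lt_top P Λ) hb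
  exact (Real.le_norm_self _).trans h3

/-- if states near the origin are reachable at every time, the laws vanish at the origin -/
theorem vanish (hN : Noise P F b) (hT : 0 < T) (hcA : ContinuousOn A (Icc 0 T))
    (hcD : ContinuousOn D (Icc 0 T)) (hcB : ContinuousOn B (Icc 0 T))
    (hcC : ContinuousOn C (Icc 0 T)) {κ g : ℝ} (hκ : 0 ≤ κ) (hg : 0 < g)
    {Q : ℝ → E →L[ℝ] E} (hQ : ContinuousOn Q (Icc 0 T))
    (hQ0 : ∀ t ∈ Icc 0 T, ∀ x, 0 ≤ inner ℝ (Q t x) x)
    {u : ℝ → E → G} {v : ℝ → E → H}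
    (hlu : ∀ t ∈ Icc 0 T, ∀ x y, ‖u t x - u t y‖ ≤ κ * ‖x - y‖)
    (hlv : ∀ t ∈ Icc 0 T, ∀ x y, ‖v t x - v t y‖ ≤ κ * ‖x - y‖)
    (hu0 : ContinuousOn (fun r => u r 0) (Icc 0 T))
    (hv0 : ContinuousOn (fun r => v r 0) (Icc 0 T))
    (hR : ∀ s ∈ Icc 0 T, ∀ ρ > 0, ∃ (x0 : E) (X : ℝ → Ω → E),
      NashAt P F b T A D B C g Q u v x0 X ∧ 0 < P {ω | ‖X s ω‖ < ρ}) :
    ∀ t ∈ Icc 0 T, u t 0 = 0 ∧ v t 0 = 0 := by
  obtain ⟨M, hM, hstep⟩ := dev_step hN hT hcA hcD hcB hcC hκ hg hQ hQ0 hlu hlv hu0 hv0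
  set h0 : ℝ := 1 / (2 * (M + 1)) with hh0
  have hh : 0 < h0 := by positivity
  have hMh : M * h0 ≤ 1 / 2 := by
    rw [hh0]
    have : M * (1 / (2 * (M + 1))) = M / (M + 1) / 2 := by field_simp
    rw [this]
    have h1 : M / (M + 1) ≤ 1 := by
      rw [div_le_one (by positivity)]
      linarith
    linarith
  have key : ∀ j : ℕ, ∀ r ∈ Ioc (max 0 (T - j * h0)) T, u r 0 = 0 ∧ v r 0 = 0 := by
    intro j
    induction j with
    | zero =>
      intro r hr
      exfalso
      have h1 := hr.1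
      have h2 : T ≤ max 0 (T - ((0 : ℕ) : ℝ) * h0) := by
        refine le_trans ?_ (le_max_right _ _)
        simp
      linarith [hr.2]
    | succ j ih =>
      set τ := max 0 (T - (j : ℝ) * h0) with hτ
      set s := max 0 (T - ((j + 1 : ℕ) : ℝ) * h0) with hs
      have hs0 : 0 ≤ s := le_max_left _ _
      have hsτ : s ≤ τ := by
        refine max_le_max le_rfl ?_
        push_cast
        nlinarith
      have hτT : τ ≤ T := max_le hT.le (by
        have : 0 ≤ (j : ℝ) * h0 := by positivity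
        linarith)
      have hτs : τ - s ≤ h0 := by
        have h1 : T - (j : ℝ) * h0 ≤ s + h0 := by
          have h2 : T - ((j + 1 : ℕ) : ℝ) * h0 ≤ s := le_max_right _ _
          push_cast at h2
          linarith
        have h3 : τ ≤ s + h0 := max_le (by linarith) h1
        linarith
      set qu := ∫ r in s..τ, ‖u r 0‖ ^ 2 with hqu
      set qv := ∫ r in s..τ, ‖v r 0‖ ^ 2 with hqv
      have hqu0 : 0 ≤ qu := intervalIntegral.integral_nonneg hsτ fun _ _ => sq_nonneg _
      have hqv0 : 0 ≤ qv := intervalIntegral.integral_nonneg hsτ fun _ _ => sq_nonneg _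
      have hall : ∀ ρ : ℝ, 0 < ρ → qu + qv ≤ 2 * M * ρ ^ 2 := by
        intro ρ hρ
        obtain ⟨x0, X, hX, hp⟩ := hR s ⟨hs0, hsτ.trans hτT⟩ ρ hρ
        obtain ⟨Λ, hΛ, hΛp, hm⟩ := small_event hN (hX.sol.adp s ⟨hs0, hsτ.trans hτT⟩) hp
        have h1 := hstep x0 X hX s τ hs0 hsτ hτT (fun r hr => (ih r hr).2) Λ hΛ hΛp ρ hm
        have h2 : M * ((τ - s) * qv) ≤ 1 / 2 * qv := by
          have h3 : M * ((τ - s) * qv) ≤ M * (h0 * qv) :=
            mul_le_mul_of_nonneg_left (mul_le_mul_of_nonneg_right hτs hqv0) hM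
          have h4 : M * (h0 * qv) = M * h0 * qv := by ring
          have h5 : M * h0 * qv ≤ 1 / 2 * qv := mul_le_mul_of_nonneg_right hMh hqv0
          linarith
        have h6 : M * (ρ ^ 2 + (τ - s) * qv) = M * ρ ^ 2 + M * ((τ - s) * qv) := by ring
        rw [h6] at h1
        linarith
      have hzero : qu + qv ≤ 0 := by
        by_contra hc
        push Not at hc
        set q := qu + qv with hq
        have h1 := hall (Real.sqrt (q / (4 * (M + 1)))) (Real.sqrt_pos.2 (by positivity))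
        rw [Real.sq_sqrt (by positivity)] at h1
        have h2 : 2 * M * (q / (4 * (M + 1))) = M / (M + 1) * (q / 2) := by
          field_simp
          ring
        rw [h2] at h1
        have h3 : M / (M + 1) ≤ 1 := by
          rw [div_le_one (by positivity)]
          linarith
        have h4 : M / (M + 1) * (q / 2) ≤ 1 * (q / 2) :=
          mul_le_mul_of_nonneg_right h3 (by linarith)
        linarith
      have hqu' : qu = 0 := by linarith
      have hqv' : qv = 0 := by linarith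
      intro r hr
      rcases lt_or_ge τ r with hc | hc
      · exact ih r ⟨hc, hr.2⟩
      · have hlt : s < τ := hr.1.trans_le hc
        have hsub : Icc s τ ⊆ Icc 0 T := Icc_subset_Icc hs0 hτT
        constructor
        · by_contra hne
          have h0 : 0 < ‖u r 0‖ := norm_pos_iff.2 hne
          have h1 : 0 < ∫ r in s..τ, ‖u r 0‖ ^ 2 :=
            intervalIntegral.integral_pos (f := fun r => ‖u r 0‖ ^ 2) hlt
              ((hu0.norm.pow 2).mono hsub) (fun _ _ => sq_nonneg _)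
              ⟨r, ⟨hr.1.le, hc⟩, pow_pos h0 2⟩
          linarith
        · by_contra hne
          have h0 : 0 < ‖v r 0‖ := norm_pos_iff.2 hne
          have h1 : 0 < ∫ r in s..τ, ‖v r 0‖ ^ 2 :=
            intervalIntegral.integral_pos (f := fun r => ‖v r 0‖ ^ 2) hlt
              ((hv0.norm.pow 2).mono hsub) (fun _ _ => sq_nonneg _)
              ⟨r, ⟨hr.1.le, hc⟩, pow_pos h0 2⟩
          linarith
  obtain ⟨j, hj⟩ := exists_nat_gt (T / h0)
  have hj' : T - (j : ℝ) * h0 ≤ 0 := by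
    rw [div_lt_iff₀ hh] at hj
    linarith
  have hpos : ∀ r ∈ Ioc 0 T, u r 0 = 0 ∧ v r 0 = 0 := by
    intro r hr
    refine key j r ?_
    rw [max_eq_left hj']
    exact hr
  intro t ht
  rcases eq_or_lt_of_le ht.1 with h | h
  · rw [← h]
    have hne : (𝓝[Ioc 0 T] (0 : ℝ)).NeBot := by
      have h1 : (0 : ℝ) ∈ closure (Ioc 0 T) := by
        rw [closure_Ioc hT.ne]
        exact ⟨le_rfl, hT.le⟩
      exact mem_closure_iff_nhdsWithin_neBot.1 h1
    have h00 : (0 : ℝ) ∈ Icc 0 T := ⟨le_rfl, hT.le⟩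
    constructor
    · have h1 := (hu0 0 h00).mono_left (nhdsWithin_mono 0 (Ioc_subset_Icc_self (a := 0) (b := T)))
      have h2 : Tendsto (fun r => u r 0) (𝓝[Ioc 0 T] 0) (𝓝 (0 : G)) := by
        refine tendsto_const_nhds.congr' ?_
        filter_upwards [self_mem_nhdsWithin] with r hr
        exact (hpos r hr).1.symm
      exact tendsto_nhds_unique h1 h2
    · have h1 := (hv0 0 h00).mono_left (nhdsWithin_mono 0 (Ioc_subset_Icc_self (a := 0) (b := T)))
      have h2 : Tendsto (fun r => v r 0) (𝓝[Ioc 0 T] 0) (𝓝 (0 : H)) := by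
        refine tendsto_const_nhds.congr' ?_
        filter_upwards [self_mem_nhdsWithin] with r hr
        exact (hpos r hr).2.symm
      exact tendsto_nhds_unique h1 h2
  · exact hpos t ⟨h, ht.2⟩

end Pool.Agent.ACF
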