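import Pool.Agent.ACF.Quad

set_option autoImplicit false
set_option linter.unusedSectionVars false
open MeasureTheory ProbabilityTheory Set Filter Topology
open scoped NNReal ENNReal

namespace Pool.Agent.ACF

variable {E : Type*} [NormedAddCommGroup E] [InnerProductSpace ℝ E] [CompleteSpace E]
variable {G : Type*} [NormedAddCommGroup G] [InnerProductSpace ℝ G] [CompleteSpace G]
variable {H : Type*} [NormedAddCommGroup H] [InnerProductSpace ℝ H] [CompleteSpace H]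
variable {Ω : Type*} {mΩ : MeasurableSpace Ω} {P : Measure Ω} [IsProbabilityMeasure P]
  {F : ℝ → MeasurableSpace Ω} {b : ℝ → Ω → ℝ} {T : ℝ}

/-- adapted square integrable process on `[0,T]` -/
structure Ctl (P : Measure Ω) (F : ℝ → MeasurableSpace Ω) (T : ℝ) (W : ℝ → Ω → E) : Prop where
  adp : Adp P F T W
  memLp : MemLp (fun p : ℝ × Ω => W p.1 p.2) 2 (muT T P)

/-- solution of `dx = (A x + B U + C V) dt + D x dB`, `x(0) = x0` -/
structure Sol (P : Measure Ω) (F : ℝ → MeasurableSpace Ω) (b : ℝ → Ω → ℝ) (T : ℝ)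
    (A D : ℝ → E →L[ℝ] E) (B : ℝ → G →L[ℝ] E) (C : ℝ → H →L[ℝ] E) (x0 : E)
    (U : ℝ → Ω → G) (V : ℝ → Ω → H) (x : ℝ → Ω → E) : Prop where
  adp : Adp P F T x
  msc : MSC P T x
  joint : AEStronglyMeasurable (fun p : ℝ × Ω => x p.1 p.2) (muT T P)
  eq : ∃ I : ℝ → Ω → E, IsIto P b T (fun t ω => D t (x t ω)) I ∧
    ∀ t ∈ Icc 0 T, ∀ᵐ ω ∂P, x t ω = x0 + (∫ s in (0 : ℝ)..t,
      (A s (x s ω) + B s (U s ω) + C s (V s ω))) + I t ω

lemma law_bound {f : E → G} {K : E →L[ℝ] G} {κ k η δ : ℝ} (hκ : ∀ x, ‖f x‖ ≤ κ * ‖x‖)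
    (hk : ‖K‖ ≤ k) (hη : 0 ≤ η) (hη1 : η ≤ 1) (hκ0 : 0 ≤ κ)
    (hd : ∀ x, ‖x‖ ≤ δ → ‖f x - K x‖ ≤ η * ‖x‖) {ε : ℝ} (hε : 0 < ε) (x y : E) :
    ‖ε⁻¹ • f x - K y‖ ≤ (1 + 2 * κ + 3 * k) * ‖ε⁻¹ • x - y‖
      + (η * ‖y‖ + (κ + k) * (if δ / (2 * ε) < ‖y‖ then ‖y‖ else 0)) := by
  have hk0 : 0 ≤ k := (norm_nonneg _).trans hk
  set w := ε⁻¹ • x - y with hw
  have hxw : ε⁻¹ • x = w + y := by rw [hw]; abel
  have hnx : ‖ε⁻¹ • x‖ ≤ ‖w‖ + ‖y‖ := by rw [hxw]; exact norm_add_le _ _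
  have hnx' : ‖ε⁻¹ • x‖ = ε⁻¹ * ‖x‖ := by
    rw [norm_smul, Real.norm_eq_abs, abs_of_pos (inv_pos.2 hε)]
  have e1 : ε⁻¹ • f x - K y = ε⁻¹ • (f x - K x) + K w := by
    rw [hw, map_sub, map_smul, smul_sub]
    abel
  have h1 : ‖K w‖ ≤ k * ‖w‖ := K.le_of_opNorm_le hk w
  have h2 : ‖ε⁻¹ • (f x - K x)‖ = ε⁻¹ * ‖f x - K x‖ := by
    rw [norm_smul, Real.norm_eq_abs, abs_of_pos (inv_pos.2 hε)]
  have hw0 := norm_nonneg w
  have hy0 := norm_nonneg y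
  have hind : 0 ≤ (if δ / (2 * ε) < ‖y‖ then ‖y‖ else 0) := by
    split_ifs
    · exact hy0
    · exact le_rfl
  rw [e1]
  refine (norm_add_le _ _).trans ?_
  rw [h2]
  rcases le_or_gt ‖x‖ δ with hx | hx
  · have h3 : ε⁻¹ * ‖f x - K x‖ ≤ η * (‖w‖ + ‖y‖) := by
      calc ε⁻¹ * ‖f x - K x‖ ≤ ε⁻¹ * (η * ‖x‖) :=
            mul_le_mul_of_nonneg_left (hd x hx) (inv_pos.2 hε).le
        _ = η * (ε⁻¹ * ‖x‖) := by ring
        _ ≤ η * (‖w‖ + ‖y‖) := by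
            rw [← hnx']
            exact mul_le_mul_of_nonneg_left hnx hη
    have h4 : 0 ≤ (κ + k) * (if δ / (2 * ε) < ‖y‖ then ‖y‖ else 0) :=
      mul_nonneg (by positivity) hind
    nlinarith
  · have h3 : ε⁻¹ * ‖f x - K x‖ ≤ (κ + k) * (‖w‖ + ‖y‖) := by
      have h5 : ‖f x - K x‖ ≤ (κ + k) * ‖x‖ := by
        refine (norm_sub_le _ _).trans ?_
        have := K.le_of_opNorm_le hk x
        linarith [hκ x]
      calc ε⁻¹ * ‖f x - K x‖ ≤ ε⁻¹ * ((κ + k) * ‖x‖) :=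
            mul_le_mul_of_nonneg_left h5 (inv_pos.2 hε).le
        _ = (κ + k) * (ε⁻¹ * ‖x‖) := by ring
        _ ≤ (κ + k) * (‖w‖ + ‖y‖) := by
            rw [← hnx']
            exact mul_le_mul_of_nonneg_left hnx (by positivity)
    rcases le_or_gt ‖y‖ ‖w‖ with h6 | h6
    · have h7 : (κ + k) * (‖w‖ + ‖y‖) ≤ (κ + k) * (2 * ‖w‖) :=
        mul_le_mul_of_nonneg_left (by linarith) (by positivity)
      have h8 : 0 ≤ (κ + k) * (if δ / (2 * ε) < ‖y‖ then ‖y‖ else 0) :=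
        mul_nonneg (by positivity) hind
      have h9 : 0 ≤ η * ‖y‖ := mul_nonneg hη hy0
      nlinarith
    · have h7 : δ / (2 * ε) < ‖y‖ := by
        rw [div_lt_iff₀ (by positivity)]
        have h8 : δ < ε * (‖w‖ + ‖y‖) := by
          have h9 : ‖x‖ = ε * (ε⁻¹ * ‖x‖) := by
            rw [← mul_assoc, mul_inv_cancel₀ hε.ne', one_mul]
          rw [h9, ← hnx'] at hx
          exact hx.trans_le (mul_le_mul_of_nonneg_left hnx hε.le)
        nlinarith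
      rw [if_pos h7]
      have h9 : 0 ≤ η * ‖y‖ := mul_nonneg hη hy0
      nlinarith

/-- the integrated mean square is at most the integral over the product -/
lemma fub_le {g : ℝ → Ω → E} (hg : MemLp (fun p : ℝ × Ω => g p.1 p.2) 2 (muT T P)) {t : ℝ}
    (ht : t ∈ Icc 0 T) :
    ∫ s in (0 : ℝ)..t, qn P (g s) ≤ ∫ p, ‖g p.1 p.2‖ ^ 2 ∂(muT T P) := by
  have hg' := hg.mono_measure (muT_mono (P := P) le_rfl ht.2)
  have i2 : Integrable (fun p : ℝ × Ω => ‖g p.1 p.2‖ ^ 2) ((volume.restrict (Ioc 0 t)).prod P) :=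
    (memLp_two_iff_integrable_sq_norm hg'.1).1 hg'
  have i3 : Integrable (fun p : ℝ × Ω => ‖g p.1 p.2‖ ^ 2) (muT T P) :=
    (memLp_two_iff_integrable_sq_norm hg.1).1 hg
  have h1 : ∫ s in (0 : ℝ)..t, qn P (g s)
      = ∫ p, ‖g p.1 p.2‖ ^ 2 ∂((volume.restrict (Ioc 0 t)).prod P) := by
    rw [integral_prod _ i2, intervalIntegral.integral_of_le ht.1]
    rfl
  rw [h1]
  exact integral_mono_measure (muT_mono (P := P) le_rfl ht.2)
    (Eventually.of_forall fun _ => sq_nonneg _) i3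

/-- over the whole horizon there is equality -/
lemma fub_eq (hT : 0 ≤ T) {g : ℝ → Ω → E}
    (hg : MemLp (fun p : ℝ × Ω => g p.1 p.2) 2 (muT T P)) :
    ∫ p, ‖g p.1 p.2‖ ^ 2 ∂(muT T P) = ∫ s in (0 : ℝ)..T, qn P (g s) := by
  have i3 : Integrable (fun p : ℝ × Ω => ‖g p.1 p.2‖ ^ 2) (muT T P) :=
    (memLp_two_iff_integrable_sq_norm hg.1).1 hg
  unfold muT at i3 ⊢
  rw [integral_prod _ i3, intervalIntegral.integral_of_le hT, integral_Icc_eq_integral_Ioc]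
  rfl

lemma clm_memLp (hT : 0 ≤ T) {M : ℝ → E →L[ℝ] G} (hM : ContinuousOn M (Icc 0 T)) {z : ℝ → Ω → E}
    (hz : MemLp (fun p : ℝ × Ω => z p.1 p.2) 2 (muT T P)) :
    MemLp (fun p : ℝ × Ω => M p.1 (z p.1 p.2)) 2 (muT T P) := by
  obtain ⟨cM, hcM⟩ := isCompact_Icc.exists_bound_of_continuousOn (s := Icc (0 : ℝ) T) hM
  refine MemLp.of_le_mul hz (clm_joint hz.1 hT hM) (c := cM) ?_
  filter_upwards [muT_ae (P := P) T] with p hp
  exact (M p.1).le_of_opNorm_le (hcM _ hp) _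

variable {A D : ℝ → E →L[ℝ] E} {B : ℝ → G →L[ℝ] E} {C : ℝ → H →L[ℝ] E}

/-- the Gronwall constant of the comparison -/
noncomputable def Kst (T a c k : ℝ) : ℝ :=
  4 * T * (a + 2 * k * (c + 1)) ^ 2 * Real.exp ((4 * T * (a + 2 * k * (c + 1)) ^ 2 + 2 * a ^ 2) * T)

/-- comparison of a scaled solution with the linear equation -/
theorem scale_est (hN : Noise P F b) (hT : 0 < T) (hcA : ContinuousOn A (Icc 0 T))
    (hcD : ContinuousOn D (Icc 0 T)) (hcB : ContinuousOn B (Icc 0 T))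
    (hcC : ContinuousOn C (Icc 0 T)) {a k c : ℝ} (ha : ∀ t ∈ Icc 0 T, ‖A t‖ ≤ a)
    (hd : ∀ t ∈ Icc 0 T, ‖D t‖ ≤ a) (hkB : ∀ t ∈ Icc 0 T, ‖B t‖ ≤ k)
    (hkC : ∀ t ∈ Icc 0 T, ‖C t‖ ≤ k) (hc : 0 ≤ c)
    {K : ℝ → E →L[ℝ] G} {L : ℝ → E →L[ℝ] H} (hcK : ContinuousOn K (Icc 0 T))
    (hcL : ContinuousOn L (Icc 0 T)) {ξ : E} {y : ℝ → Ω → E}
    (hy : LinSol P F b T (fun t => A t + B t ∘L K t + C t ∘L L t) D ξ y)
    {ε : ℝ} {U : ℝ → Ω → G} {V : ℝ → Ω → H} {x : ℝ → Ω → E} (hε : 0 < ε)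
    (hU : Ctl P F T U) (hV : Ctl P F T V) (hx : Sol P F b T A D B C (ε • ξ) U V x)
    {θ : ℝ → Ω → ℝ} (hθ : MemLp (fun p : ℝ × Ω => θ p.1 p.2) 2 (muT T P))
    (hbU : ∀ t ∈ Icc 0 T, ∀ ω, ‖ε⁻¹ • U t ω - K t (y t ω)‖
      ≤ c * ‖ε⁻¹ • x t ω - y t ω‖ + θ t ω)
    (hbV : ∀ t ∈ Icc 0 T, ∀ ω, ‖ε⁻¹ • V t ω - L t (y t ω)‖
      ≤ c * ‖ε⁻¹ • x t ω - y t ω‖ + θ t ω) :
    ∀ t ∈ Icc 0 T, qn P (fun ω => ε⁻¹ • x t ω - y t ω)
      ≤ Kst T a c k * ∫ p, ‖θ p.1 p.2‖ ^ 2 ∂(muT T P) := by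
  obtain ⟨I, hI, hxe⟩ := hx.eq
  obtain ⟨J, hJ, hye⟩ := hy.eq
  have h00 : (0 : ℝ) ∈ Icc 0 T := ⟨le_rfl, hT.le⟩
  have ha0 : 0 ≤ a := (norm_nonneg _).trans (ha 0 h00)
  have hk0 : 0 ≤ k := (norm_nonneg _).trans (hkB 0 h00)
  set w : ℝ → Ω → E := fun t ω => ε⁻¹ • x t ω - y t ω with hw
  have hwm : MSC P T w := hx.msc.sub hy.msc ε⁻¹
  have hwa : Adp P F T w := hx.adp.sub hy.adp ε⁻¹
  have hDw : MSC P T (fun t ω => D t (w t ω)) := hwm.clm hcD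
  have hDwa : Adp P F T (fun t ω => D t (w t ω)) := hwa.clm D
  have hDx : MSC P T (fun t ω => D t (x t ω)) := hx.msc.clm hcD
  have hDxa : Adp P F T (fun t ω => D t (x t ω)) := hx.adp.clm D
  have hDy : MSC P T (fun t ω => D t (y t ω)) := hy.msc.clm hcD
  have hDya : Adp P F T (fun t ω => D t (y t ω)) := hy.adp.clm D
  have hIw : IsIto P b T (fun t ω => D t (w t ω)) (fun t ω => ε⁻¹ • I t ω - J t ω) := by
    have h1 := IsIto.lincomb hN hT hI hDx.memLp hDxa hJ hDy.memLp hDya ε⁻¹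
    have e : (fun t ω => D t (w t ω)) = fun t ω => ε⁻¹ • D t (x t ω) - D t (y t ω) := by
      funext t ω
      simp only [hw, map_sub, map_smul]
    rw [e]
    exact h1
  -- the drift of `w`
  set g : ℝ → Ω → E := fun s ω => A s (w s ω) + B s (ε⁻¹ • U s ω - K s (y s ω))
    + C s (ε⁻¹ • V s ω - L s (y s ω)) with hg
  have jx : MemLp (fun p : ℝ × Ω => x p.1 p.2) 2 (muT T P) := hx.msc.joint hx.joint
  have jy : MemLp (fun p : ℝ × Ω => y p.1 p.2) 2 (muT T P) :=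
    hy.msc.joint hy.joint.aestronglyMeasurable
  have jw : MemLp (fun p : ℝ × Ω => w p.1 p.2) 2 (muT T P) := (jx.const_smul ε⁻¹).sub jy
  have jKy := clm_memLp hT.le hcK jy
  have jLy := clm_memLp hT.le hcL jy
  have jU : MemLp (fun p : ℝ × Ω => ε⁻¹ • U p.1 p.2 - K p.1 (y p.1 p.2)) 2 (muT T P) :=
    (hU.memLp.const_smul ε⁻¹).sub jKy
  have jV : MemLp (fun p : ℝ × Ω => ε⁻¹ • V p.1 p.2 - L p.1 (y p.1 p.2)) 2 (muT T P) :=
    (hV.memLp.const_smul ε⁻¹).sub jLy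
  have jg : MemLp (fun p : ℝ × Ω => g p.1 p.2) 2 (muT T P) :=
    ((clm_memLp hT.le hcA jw).add (clm_memLp hT.le hcB (z := fun s ω => ε⁻¹ • U s ω - K s (y s ω)) jU)).add
      (clm_memLp hT.le hcC (z := fun s ω => ε⁻¹ • V s ω - L s (y s ω)) jV)
  set gx : ℝ → Ω → E := fun s ω => A s (x s ω) + B s (U s ω) + C s (V s ω) with hgx
  set gy : ℝ → Ω → E := fun s ω => (A s + B s ∘L K s + C s ∘L L s) (y s ω) with hgy
  have jgx : MemLp (fun p : ℝ × Ω => gx p.1 p.2) 2 (muT T P) :=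
    ((clm_memLp hT.le hcA jx).add (clm_memLp hT.le hcB hU.memLp)).add (clm_memLp hT.le hcC hV.memLp)
  have jgy : MemLp (fun p : ℝ × Ω => gy p.1 p.2) 2 (muT T P) :=
    clm_memLp hT.le ((hcA.add (hcB.clm_comp hcK)).add (hcC.clm_comp hcL)) jy
  have hgeq : ∀ s ω, g s ω = ε⁻¹ • gx s ω - gy s ω := by
    intro s ω
    simp only [hg, hgx, hgy, hw, map_sub, map_smul, ContinuousLinearMap.add_apply,
      ContinuousLinearMap.comp_apply, smul_add]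
    abel
  have hweq : ∀ t ∈ Icc 0 T, w t =ᵐ[P] fun ω => (∫ s in (0 : ℝ)..t, g s ω)
      + (ε⁻¹ • I t ω - J t ω) := by
    intro t ht
    filter_upwards [hxe t ht, hye t ht, fub_ae le_rfl ht.1 ht.2 jgx, fub_ae le_rfl ht.1 ht.2 jgy]
      with ω h1 h2 h3 h4
    simp only [hw]
    rw [h1, h2]
    simp_rw [hgeq]
    have h3' : IntervalIntegrable (fun s => ε⁻¹ • gx s ω) volume 0 t := h3.1.smul ε⁻¹
    rw [intervalIntegral.integral_sub h3' h4.1, intervalIntegral.integral_smul]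
    have e5 : ε⁻¹ • (ε • ξ) = ξ := by rw [smul_smul, inv_mul_cancel₀ hε.ne', one_smul]
    rw [smul_add, smul_add, e5]
    abel
  -- pointwise bound of the drift
  set K' : ℝ := a + 2 * k * (c + 1) with hK'
  have hK'0 : 0 ≤ K' := by positivity
  have hgb : ∀ s ∈ Icc 0 T, ∀ ω, ‖g s ω‖ ≤ K' * (‖w s ω‖ + ‖θ s ω‖) := by
    intro s hs ω
    have h1 : ‖A s (w s ω)‖ ≤ a * ‖w s ω‖ := (A s).le_of_opNorm_le (ha s hs) _
    have hθa : θ s ω ≤ ‖θ s ω‖ := Real.le_norm_self _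
    have h2 : ‖B s (ε⁻¹ • U s ω - K s (y s ω))‖ ≤ k * (c * ‖w s ω‖ + ‖θ s ω‖) := by
      refine ((B s).le_of_opNorm_le (hkB s hs) _).trans (mul_le_mul_of_nonneg_left ?_ hk0)
      exact (hbU s hs ω).trans (by linarith)
    have h3 : ‖C s (ε⁻¹ • V s ω - L s (y s ω))‖ ≤ k * (c * ‖w s ω‖ + ‖θ s ω‖) := by
      refine ((C s).le_of_opNorm_le (hkC s hs) _).trans (mul_le_mul_of_nonneg_left ?_ hk0)
      exact (hbV s hs ω).trans (by linarith)
    have h4 : ‖g s ω‖ ≤ a * ‖w s ω‖ + k * (c * ‖w s ω‖ + ‖θ s ω‖)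
        + k * (c * ‖w s ω‖ + ‖θ s ω‖) :=
      norm_add₃_le.trans (by linarith)
    refine h4.trans ?_
    have hw0 := norm_nonneg (w s ω)
    have ht0 := norm_nonneg (θ s ω)
    have p1 : 0 ≤ k * ‖w s ω‖ := by positivity
    have p2 : 0 ≤ k * c * ‖θ s ω‖ := by positivity
    have p3 : 0 ≤ a * ‖θ s ω‖ := by positivity
    have p4 : 0 ≤ k * ‖θ s ω‖ := by positivity
    rw [hK']
    nlinarith
  have hqc := hwm.continuousOn_qn
  set κ := ∫ p, ‖θ p.1 p.2‖ ^ 2 ∂(muT T P) with hκ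
  have hκ0 : 0 ≤ κ := integral_nonneg fun _ => sq_nonneg _
  have hgr := gronwall_int hT hqc (a := 4 * T * K' ^ 2 * κ) (C := 4 * T * K' ^ 2 + 2 * a ^ 2)
    (by positivity) (by
    intro t ht
    have hdr := drift_est le_rfl ht.1 ht.2 jg
    have mI : MemLp (fun ω => ε⁻¹ • I t ω - J t ω) 2 P := (hIw t ht).1
    have h1 : qn P (w t) ≤ 2 * qn P (fun ω => ∫ s in (0 : ℝ)..t, g s ω)
        + 2 * qn P (fun ω => ε⁻¹ • I t ω - J t ω) := by
      rw [qn_congr (hweq t ht)]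
      exact qn_add_le hdr.1 mI
    have h2 : qn P (fun ω => ε⁻¹ • I t ω - J t ω) = ∫ s in (0 : ℝ)..t, qn P (fun ω => D s (w s ω)) :=
      hIw.iso hN hT hDw hDwa ht
    have hsub : Icc 0 t ⊆ Icc 0 T := Icc_subset_Icc le_rfl ht.2
    have iw : IntervalIntegrable (fun s => qn P (w s)) volume 0 t := by
      refine ContinuousOn.intervalIntegrable ?_
      rw [uIcc_of_le ht.1]
      exact hqc.mono hsub
    have iD : IntervalIntegrable (fun s => qn P (fun ω => D s (w s ω))) volume 0 t := by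
      refine ContinuousOn.intervalIntegrable ?_
      rw [uIcc_of_le ht.1]
      exact hDw.continuousOn_qn.mono hsub
    have h3 : ∫ s in (0 : ℝ)..t, qn P (fun ω => D s (w s ω))
        ≤ a ^ 2 * ∫ s in (0 : ℝ)..t, qn P (w s) := by
      rw [← intervalIntegral.integral_const_mul]
      refine intervalIntegral.integral_mono_on ht.1 iD (iw.const_mul _) fun s hs => ?_
      exact qn_clm_le (D s) (hd s (hsub hs)) (hwm.memLp s (hsub hs))
    have iθ : IntervalIntegrable (fun s => qn P (θ s)) volume 0 t :=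
      fub_qint le_rfl ht.1 ht.2 hθ
    have ig : IntervalIntegrable (fun s => qn P (g s)) volume 0 t :=
      fub_qint le_rfl ht.1 ht.2 jg
    have hθ' := hθ.mono_measure (muT_mono (P := P) le_rfl ht.2)
    have i5 : Integrable (fun p : ℝ × Ω => ‖θ p.1 p.2‖ ^ 2) ((volume.restrict (Ioc 0 t)).prod P) :=
      (memLp_two_iff_integrable_sq_norm hθ'.1).1 hθ'
    have hj' := jg.mono_measure (muT_mono (P := P) le_rfl ht.2)
    have i6 : Integrable (fun p : ℝ × Ω => ‖g p.1 p.2‖ ^ 2) ((volume.restrict (Ioc 0 t)).prod P) :=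
      (memLp_two_iff_integrable_sq_norm hj'.1).1 hj'
    have h4 : ∫ s in (0 : ℝ)..t, qn P (g s)
        ≤ 2 * K' ^ 2 * ((∫ s in (0 : ℝ)..t, qn P (w s)) + ∫ s in (0 : ℝ)..t, qn P (θ s)) := by
      rw [← intervalIntegral.integral_add iw iθ, ← intervalIntegral.integral_const_mul]
      refine intervalIntegral.integral_mono_ae_restrict ht.1 ig ((iw.add iθ).const_mul _) ?_
      have hae1 : ∀ᵐ s ∂(volume.restrict (Ioc 0 t)), Integrable (fun ω => ‖θ s ω‖ ^ 2) P :=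
        i5.prod_right_ae
      have hae2 : ∀ᵐ s ∂(volume.restrict (Ioc 0 t)), Integrable (fun ω => ‖g s ω‖ ^ 2) P :=
        i6.prod_right_ae
      have hr : volume.restrict (Icc (0 : ℝ) t) = volume.restrict (Ioc 0 t) :=
        Measure.restrict_congr_set Ioc_ae_eq_Icc.symm
      rw [hr]
      filter_upwards [hae1, hae2, ae_restrict_mem measurableSet_Ioc] with s hs1 hs2 hs3
      have hsT : s ∈ Icc 0 T := hsub ⟨hs3.1.le, hs3.2⟩
      have i7 := sq_integrable (hwm.memLp s hsT)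
      have h6 : qn P (g s) ≤ ∫ ω, 2 * K' ^ 2 * (‖w s ω‖ ^ 2 + ‖θ s ω‖ ^ 2) ∂P := by
        refine integral_mono hs2 ((i7.add hs1).const_mul _) fun ω => ?_
        have h7 := pow_le_pow_left₀ (norm_nonneg _) (hgb s hsT ω) 2
        simp only [Pi.add_apply]
        nlinarith [mul_nonneg (sq_nonneg K') (sq_nonneg (‖w s ω‖ - ‖θ s ω‖))]
      rw [integral_const_mul, integral_add i7 hs1] at h6
      exact h6
    have h8 := fub_le hθ ht
    have hW0 : 0 ≤ ∫ s in (0 : ℝ)..t, qn P (w s) :=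
      intervalIntegral.integral_nonneg ht.1 fun s _ => qn_nonneg _
    have hΘ0 : 0 ≤ ∫ s in (0 : ℝ)..t, qn P (θ s) :=
      intervalIntegral.integral_nonneg ht.1 fun s _ => qn_nonneg _
    rw [h2] at h1
    have h9 := hdr.2
    rw [sub_zero] at h9
    have hg0 : 0 ≤ ∫ s in (0 : ℝ)..t, qn P (g s) :=
      intervalIntegral.integral_nonneg ht.1 fun s _ => qn_nonneg _
    have h10 : t * ∫ s in (0 : ℝ)..t, qn P (g s) ≤ T * (2 * K' ^ 2 *
        ((∫ s in (0 : ℝ)..t, qn P (w s)) + κ)) := by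
      calc t * ∫ s in (0 : ℝ)..t, qn P (g s) ≤ T * ∫ s in (0 : ℝ)..t, qn P (g s) :=
            mul_le_mul_of_nonneg_right ht.2 hg0
        _ ≤ _ := by
            refine mul_le_mul_of_nonneg_left (h4.trans ?_) hT.le
            exact mul_le_mul_of_nonneg_left (by linarith) (by positivity)
    nlinarith)
  intro t ht
  have h1 := hgr t ht
  refine h1.trans ?_
  have h2 : Real.exp ((4 * T * K' ^ 2 + 2 * a ^ 2) * t)
      ≤ Real.exp ((4 * T * K' ^ 2 + 2 * a ^ 2) * T) :=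
    Real.exp_le_exp.2 (mul_le_mul_of_nonneg_left ht.2 (by positivity))
  have h3 : 4 * T * K' ^ 2 * κ * Real.exp ((4 * T * K' ^ 2 + 2 * a ^ 2) * t)
      ≤ 4 * T * K' ^ 2 * κ * Real.exp ((4 * T * K' ^ 2 + 2 * a ^ 2) * T) :=
    mul_le_mul_of_nonneg_left h2 (by positivity)
  refine h3.trans (le_of_eq ?_)
  unfold Kst
  rw [← hK']
  ring

end Pool.Agent.ACF
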