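import Pool.Agent.ACF.Loc
import Pool.Agent.ACF.Scale

set_option autoImplicit false
set_option linter.unusedSectionVars false
open MeasureTheory ProbabilityTheory Set Filter Topology
open scoped NNReal ENNReal

namespace Pool.Agent.ACF

variable {E : Type*} [NormedAddCommGroup E] [InnerProductSpace ℝ E] [CompleteSpace E]
variable {Ω : Type*} {mΩ : MeasurableSpace Ω} {P : Measure Ω} [IsProbabilityMeasure P]
  {F : ℝ → MeasurableSpace Ω} {b : ℝ → Ω → ℝ} {T : ℝ}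

/-- Gronwall on `[s, τ]` -/
lemma gronwall_st {s τ : ℝ} (hsτ : s ≤ τ) {φ : ℝ → ℝ} (hφ : ContinuousOn φ (Icc s τ))
    {a C : ℝ} (hC : 0 ≤ C) (h : ∀ t ∈ Icc s τ, φ t ≤ a + C * ∫ r in s..t, φ r) :
    ∀ t ∈ Icc s τ, φ t ≤ a * Real.exp (C * (t - s)) := by
  rcases eq_or_lt_of_le hsτ with h0 | hpos
  · intro t ht
    have hts : t = s := le_antisymm (ht.2.trans h0.ge) ht.1
    have h1 := h t ht
    rw [hts] at h1 ⊢
    simpa using h1
  have hc : ContinuousOn (fun r => φ (s + r)) (Icc 0 (τ - s)) := by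
    refine hφ.comp (by fun_prop) fun r hr => ?_
    exact ⟨by linarith [hr.1], by linarith [hr.2]⟩
  have hg := gronwall_int (T := τ - s) (by linarith) hc (a := a) hC (fun t ht => by
    have h1 := h (s + t) ⟨by linarith [ht.1], by linarith [ht.2]⟩
    have h2 : ∫ r in s..(s + t), φ r = ∫ r in (0 : ℝ)..t, φ (s + r) := by
      rw [intervalIntegral.integral_comp_add_left φ s, add_zero]
    rw [h2] at h1
    exact h1)
  intro t ht
  have h3 := hg (t - s) ⟨by linarith [ht.1], by linarith [ht.2]⟩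
  simp only [add_sub_cancel] at h3
  exact h3

lemma Wt.joint (hN : Noise P F b) {s : ℝ} {χ : Ω → ℝ} (hχ : Wt P F s χ) {g : ℝ → Ω → E}
    (hg : MemLp (fun p : ℝ × Ω => g p.1 p.2) 2 (muT T P)) :
    MemLp (fun p : ℝ × Ω => χ p.2 • g p.1 p.2) 2 (muT T P) := by
  have h1 : AEStronglyMeasurable (fun p : ℝ × Ω => χ p.2) (muT T P) := by
    unfold muT
    exact (hχ.ae hN).comp_snd
  refine MemLp.of_le hg (h1.smul hg.1) (Eventually.of_forall fun p => ?_)
  exact hχ.norm_le _ _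

/-- weighted estimate of a solution over `[s, τ]` -/
theorem loc_est (hN : Noise P F b) (hT : 0 < T) {D : ℝ → E →L[ℝ] E}
    (hcD : ContinuousOn D (Icc 0 T)) {a : ℝ} (ha : ∀ t ∈ Icc 0 T, ‖D t‖ ≤ a)
    {z I g : ℝ → Ω → E} (hz : MSC P T z) (hza : Adp P F T z)
    (hg : MemLp (fun p : ℝ × Ω => g p.1 p.2) 2 (muT T P))
    (hI : IsIto P b T (fun t ω => D t (z t ω)) I) {z0 : E}
    (heq : ∀ t ∈ Icc 0 T, ∀ᵐ ω ∂P, z t ω = z0 + (∫ r in (0 : ℝ)..t, g r ω) + I t ω)
    {s τ : ℝ} (hs : 0 ≤ s) (hsτ : s ≤ τ) (hτ : τ ≤ T) {χ : Ω → ℝ} (hχ : Wt P F s χ)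
    {K' : ℝ} {θ : ℝ → Ω → ℝ}
    (hθ : MemLp (fun p : ℝ × Ω => θ p.1 p.2) 2 (muT T P))
    (hb : ∀ r ∈ Ioc s τ, ∀ ω, ‖χ ω • g r ω‖ ≤ K' * (‖χ ω • z r ω‖ + ‖θ r ω‖)) :
    ∀ t ∈ Icc s τ, qn P (fun ω => χ ω • z t ω)
      ≤ (3 * qn P (fun ω => χ ω • z s ω) + 6 * K' ^ 2 * (τ - s) * ∫ r in s..τ, qn P (θ r))
        * Real.exp ((6 * T * K' ^ 2 + 3 * a ^ 2) * (t - s)) := by
  have hsT : s ∈ Icc 0 T := ⟨hs, hsτ.trans hτ⟩
  have ha0 : 0 ≤ a := (norm_nonneg _).trans (ha 0 ⟨le_rfl, hT.le⟩)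
  have hDz : MSC P T (fun t ω => D t (z t ω)) := hz.clm hcD
  have hDza : Adp P F T (fun t ω => D t (z t ω)) := hza.clm D
  have hzχ : MSC P T (fun t ω => χ ω • z t ω) := hχ.msc hN hz
  have jg := hχ.joint hN hg
  have hsub : Icc s τ ⊆ Icc 0 T := Icc_subset_Icc hs hτ
  have iθτ : IntervalIntegrable (fun r => qn P (θ r)) volume s τ := fub_qint hs hsτ hτ hθ
  set κ := ∫ r in s..τ, qn P (θ r) with hκ
  have hκ0 : 0 ≤ κ := intervalIntegral.integral_nonneg hsτ fun _ _ => qn_nonneg _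
  refine gronwall_st hsτ (hzχ.continuousOn_qn.mono hsub) (by positivity) fun t ht => ?_
  have htT : t ∈ Icc 0 T := hsub ht
  -- the equation from `s` to `t`
  have he : (fun ω => χ ω • z t ω) =ᵐ[P] fun ω => χ ω • z s ω + (∫ r in s..t, χ ω • g r ω)
      + χ ω • (I t ω - I s ω) := by
    filter_upwards [heq t htT, heq s hsT, fub_ae le_rfl htT.1 htT.2 hg,
      fub_ae le_rfl hsT.1 hsT.2 hg] with ω h1 h2 h3 h4
    rw [intervalIntegral.integral_smul, ← intervalIntegral.integral_interval_sub_left h3.1 h4.1,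
      h1, h2]
    rw [← smul_add, ← smul_add]
    congr 1
    abel
  have hdr := drift_est (g := fun r ω => χ ω • g r ω) hs ht.1 (ht.2.trans hτ) jg
  have m1 : MemLp (fun ω => χ ω • z s ω) 2 P := hχ.memLp hN (hz.memLp s hsT)
  have m3 : MemLp (fun ω => χ ω • (I t ω - I s ω)) 2 P :=
    hχ.memLp hN ((hI t htT).1.sub (hI s hsT).1)
  have h1 := qn_add3_le m1 hdr.1 m3
  rw [← qn_congr he] at h1
  have h2 := loc_iso0 hN hT hI hDz hDza hs ht.1 (ht.2.trans hτ) hχ
  have hq := hzχ.continuousOn_qn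
  have hst : Icc s t ⊆ Icc 0 T := Icc_subset_Icc hs htT.2
  have iw : IntervalIntegrable (fun r => qn P (fun ω => χ ω • z r ω)) volume s t := by
    refine ContinuousOn.intervalIntegrable ?_
    rw [uIcc_of_le ht.1]
    exact hq.mono hst
  have iD : IntervalIntegrable (fun r => qn P (fun ω => χ ω • D r (z r ω))) volume s t := by
    refine ContinuousOn.intervalIntegrable ?_
    rw [uIcc_of_le ht.1]
    exact (hχ.msc hN hDz).continuousOn_qn.mono hst
  have h3 : ∫ r in s..t, qn P (fun ω => χ ω • D r (z r ω))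
      ≤ a ^ 2 * ∫ r in s..t, qn P (fun ω => χ ω • z r ω) := by
    rw [← intervalIntegral.integral_const_mul]
    refine intervalIntegral.integral_mono_on ht.1 iD (iw.const_mul _) fun r hr => ?_
    have h5 := qn_clm_le (D r) (ha r (hst hr)) (hzχ.memLp r (hst hr))
    have e5 : (fun ω => χ ω • D r (z r ω)) = fun ω => D r (χ ω • z r ω) := by
      funext ω
      rw [map_smul]
    rw [e5]
    exact h5
  have iθ : IntervalIntegrable (fun r => qn P (θ r)) volume s t :=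
    fub_qint hs ht.1 (ht.2.trans hτ) hθ
  have ig : IntervalIntegrable (fun r => qn P (fun ω => χ ω • g r ω)) volume s t :=
    fub_qint hs ht.1 (ht.2.trans hτ) jg
  have hθ' := hθ.mono_measure (muT_mono (P := P) hs htT.2)
  have i5 : Integrable (fun p : ℝ × Ω => ‖θ p.1 p.2‖ ^ 2) ((volume.restrict (Ioc s t)).prod P) :=
    (memLp_two_iff_integrable_sq_norm hθ'.1).1 hθ'
  have hj' := jg.mono_measure (muT_mono (P := P) hs htT.2)
  have i6 : Integrable (fun p : ℝ × Ω => ‖χ p.2 • g p.1 p.2‖ ^ 2)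
      ((volume.restrict (Ioc s t)).prod P) := (memLp_two_iff_integrable_sq_norm hj'.1).1 hj'
  have h4 : ∫ r in s..t, qn P (fun ω => χ ω • g r ω)
      ≤ 2 * K' ^ 2 * ((∫ r in s..t, qn P (fun ω => χ ω • z r ω)) + ∫ r in s..t, qn P (θ r)) := by
    rw [← intervalIntegral.integral_add iw iθ, ← intervalIntegral.integral_const_mul]
    refine intervalIntegral.integral_mono_ae_restrict ht.1 ig ((iw.add iθ).const_mul _) ?_
    have hae1 : ∀ᵐ r ∂(volume.restrict (Ioc s t)), Integrable (fun ω => ‖θ r ω‖ ^ 2) P :=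
      i5.prod_right_ae
    have hae2 : ∀ᵐ r ∂(volume.restrict (Ioc s t)), Integrable (fun ω => ‖χ ω • g r ω‖ ^ 2) P :=
      i6.prod_right_ae
    have hr : volume.restrict (Icc (s : ℝ) t) = volume.restrict (Ioc s t) :=
      Measure.restrict_congr_set Ioc_ae_eq_Icc.symm
    rw [hr]
    filter_upwards [hae1, hae2, ae_restrict_mem measurableSet_Ioc] with r hr1 hr2 hr3
    have hrT : r ∈ Icc 0 T := hst ⟨hr3.1.le, hr3.2⟩
    have i7 := sq_integrable (hzχ.memLp r hrT)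
    have h6 : qn P (fun ω => χ ω • g r ω)
        ≤ ∫ ω, 2 * K' ^ 2 * (‖χ ω • z r ω‖ ^ 2 + ‖θ r ω‖ ^ 2) ∂P := by
      refine integral_mono hr2 ((i7.add hr1).const_mul _) fun ω => ?_
      have h7 := pow_le_pow_left₀ (norm_nonneg _) (hb r ⟨hr3.1, hr3.2.trans ht.2⟩ ω) 2
      simp only [Pi.add_apply]
      nlinarith [mul_nonneg (sq_nonneg K') (sq_nonneg (‖χ ω • z r ω‖ - ‖θ r ω‖))]
    rw [integral_const_mul, integral_add i7 hr1] at h6
    exact h6
  have h8 : ∫ r in s..t, qn P (θ r) ≤ κ := by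
    have h9 := intervalIntegral.integral_add_adjacent_intervals iθ
      (fub_qint htT.1 ht.2 hτ hθ)
    have h10 : 0 ≤ ∫ r in t..τ, qn P (θ r) :=
      intervalIntegral.integral_nonneg ht.2 fun _ _ => qn_nonneg _
    rw [hκ, ← h9]
    linarith
  have hW0 : 0 ≤ ∫ r in s..t, qn P (fun ω => χ ω • z r ω) :=
    intervalIntegral.integral_nonneg ht.1 fun _ _ => qn_nonneg _
  set W := ∫ r in s..t, qn P (fun ω => χ ω • z r ω) with hW
  set Θ := ∫ r in s..t, qn P (θ r) with hΘ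
  have h11 : (t - s) * ∫ r in s..t, qn P (fun ω => χ ω • g r ω)
      ≤ 2 * K' ^ 2 * (T * W + (τ - s) * κ) := by
    have hts0 : 0 ≤ t - s := by linarith [ht.1]
    have b1 : (t - s) * ∫ r in s..t, qn P (fun ω => χ ω • g r ω)
        ≤ (t - s) * (2 * K' ^ 2 * (W + Θ)) := mul_le_mul_of_nonneg_left h4 hts0
    have b2 : (t - s) * W ≤ T * W := mul_le_mul_of_nonneg_right (by linarith [htT.2]) hW0
    have b3 : (t - s) * Θ ≤ (τ - s) * κ := by
      have hΘ0 : 0 ≤ Θ := intervalIntegral.integral_nonneg ht.1 fun _ _ => qn_nonneg _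
      calc (t - s) * Θ ≤ (τ - s) * Θ := mul_le_mul_of_nonneg_right (by linarith [ht.2]) hΘ0
        _ ≤ (τ - s) * κ := mul_le_mul_of_nonneg_left h8 (by linarith)
    have b4 : 0 ≤ 2 * K' ^ 2 := by positivity
    nlinarith [mul_le_mul_of_nonneg_left (add_le_add b2 b3) b4]
  have h12 := hdr.2
  rw [h2] at h1
  nlinarith

end Pool.Agent.ACF
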