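import Pool.Agent.ACF.Sums

set_option autoImplicit false
set_option linter.unusedSectionVars false
open MeasureTheory ProbabilityTheory Set Filter Topology
open scoped NNReal ENNReal

namespace Pool.Agent.ACF

variable {E : Type*} [NormedAddCommGroup E] [InnerProductSpace ℝ E]
variable {G : Type*} [NormedAddCommGroup G] [InnerProductSpace ℝ G]
variable {Ω : Type*} {mΩ : MeasurableSpace Ω} {P : Measure Ω} [IsProbabilityMeasure P]
  {F : ℝ → MeasurableSpace Ω} {b : ℝ → Ω → ℝ} {T : ℝ}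

/-- mean square -/
noncomputable def qn (P : Measure Ω) (f : Ω → E) : ℝ := ∫ ω, ‖f ω‖ ^ 2 ∂P

lemma qn_nonneg (f : Ω → E) : 0 ≤ qn P f := integral_nonneg fun _ => sq_nonneg _

lemma qn_const (c : E) : qn P (fun _ => c) = ‖c‖ ^ 2 := by
  simp [qn]

lemma qn_add_le {f g : Ω → E} (hf : MemLp f 2 P) (hg : MemLp g 2 P) :
    qn P (fun ω => f ω + g ω) ≤ 2 * qn P f + 2 * qn P g := by
  unfold qn
  rw [← integral_const_mul, ← integral_const_mul, ← integral_add
    ((sq_integrable hf).const_mul 2) ((sq_integrable hg).const_mul 2)]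
  refine integral_mono (sq_integrable (hf.add hg))
    (((sq_integrable hf).const_mul 2).add ((sq_integrable hg).const_mul 2)) fun ω => ?_
  have h1 := norm_add_le (f ω) (g ω)
  have h2 := norm_nonneg (f ω + g ω)
  have h3 : ‖f ω + g ω‖ ^ 2 ≤ (‖f ω‖ + ‖g ω‖) ^ 2 := pow_le_pow_left₀ h2 h1 2
  simp only
  nlinarith [sq_nonneg (‖f ω‖ - ‖g ω‖)]

lemma qn_neg (f : Ω → E) : qn P (fun ω => -f ω) = qn P f := by
  simp [qn]

lemma qn_sub_le {f g : Ω → E} (hf : MemLp f 2 P) (hg : MemLp g 2 P) :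
    qn P (fun ω => f ω - g ω) ≤ 2 * qn P f + 2 * qn P g := by
  have := qn_add_le hf hg.neg
  have h2 : qn P (-g) = qn P g := qn_neg g
  rw [h2] at this
  refine le_trans (le_of_eq ?_) this
  unfold qn
  refine integral_congr_ae (Eventually.of_forall fun ω => ?_)
  simp [sub_eq_add_neg]

lemma qn_add3_le {f g h : Ω → E} (hf : MemLp f 2 P) (hg : MemLp g 2 P) (hh : MemLp h 2 P) :
    qn P (fun ω => f ω + g ω + h ω) ≤ 3 * qn P f + 3 * qn P g + 3 * qn P h := by
  have i1 := (sq_integrable hf).const_mul 3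
  have i2 := (sq_integrable hg).const_mul 3
  have i3 := (sq_integrable hh).const_mul 3
  have i12 : Integrable (fun ω => 3 * ‖f ω‖ ^ 2 + 3 * ‖g ω‖ ^ 2) P := i1.add i2
  have i123 : Integrable (fun ω => 3 * ‖f ω‖ ^ 2 + 3 * ‖g ω‖ ^ 2 + 3 * ‖h ω‖ ^ 2) P := i12.add i3
  unfold qn
  rw [← integral_const_mul, ← integral_const_mul, ← integral_const_mul, ← integral_add i1 i2,
    ← integral_add i12 i3]
  refine integral_mono (sq_integrable ((hf.add hg).add hh)) i123 fun ω => ?_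
  have h1 : ‖f ω + g ω + h ω‖ ≤ ‖f ω‖ + ‖g ω‖ + ‖h ω‖ := norm_add₃_le
  have h3 : ‖f ω + g ω + h ω‖ ^ 2 ≤ (‖f ω‖ + ‖g ω‖ + ‖h ω‖) ^ 2 :=
    pow_le_pow_left₀ (norm_nonneg _) h1 2
  simp only
  nlinarith [sq_nonneg (‖f ω‖ - ‖g ω‖), sq_nonneg (‖f ω‖ - ‖h ω‖), sq_nonneg (‖g ω‖ - ‖h ω‖)]

lemma memLp_clm (L : E →L[ℝ] G) {f : Ω → E} (hf : MemLp f 2 P) :
    MemLp (fun ω => L (f ω)) 2 P := L.comp_memLp' hf

lemma qn_clm_le (L : E →L[ℝ] G) {K : ℝ} (hK : ‖L‖ ≤ K) {f : Ω → E} (hf : MemLp f 2 P) :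
    qn P (fun ω => L (f ω)) ≤ K ^ 2 * qn P f := by
  unfold qn
  rw [← integral_const_mul]
  refine integral_mono (sq_integrable (memLp_clm L hf)) ((sq_integrable hf).const_mul _) fun ω => ?_
  simp only
  rw [← mul_pow]
  exact pow_le_pow_left₀ (norm_nonneg _) ((L.le_opNorm _).trans
    (mul_le_mul_of_nonneg_right hK (norm_nonneg _))) 2

lemma memLp_psum (g : ℕ → ℝ) {Z : ℕ → Ω → E} (hZ : ∀ k, MemLp (Z k) 2 P) (n : ℕ) :
    MemLp (fun ω => psum g (fun k => Z k ω) n) 2 P := by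
  unfold psum
  exact memLp_finsetSum _ fun k _ => (hZ k).const_smul (g (k + 1) - g k)

lemma qn_psum (g : ℕ → ℝ) (hg : ∀ k, g k ≤ g (k + 1)) {Z : ℕ → Ω → E}
    (hZ : ∀ k, MemLp (Z k) 2 P) (n : ℕ) :
    qn P (fun ω => psum g (fun k => Z k ω) n)
      ≤ (g n - g 0) * ∑ k ∈ Finset.range n, (g (k + 1) - g k) * qn P (Z k) := by
  unfold qn
  have hi : Integrable (fun ω => (g n - g 0) *
      ∑ k ∈ Finset.range n, (g (k + 1) - g k) * ‖Z k ω‖ ^ 2) P :=
    (integrable_finsetSum _ fun k _ => (sq_integrable (hZ k)).const_mul _).const_mul _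
  calc ∫ ω, ‖psum g (fun k => Z k ω) n‖ ^ 2 ∂P
      ≤ ∫ ω, (g n - g 0) * ∑ k ∈ Finset.range n, (g (k + 1) - g k) * ‖Z k ω‖ ^ 2 ∂P :=
        integral_mono (sq_integrable (memLp_psum g hZ n)) hi fun ω => psum_norm_sq g hg _ n
    _ = (g n - g 0) * ∑ k ∈ Finset.range n, (g (k + 1) - g k) * ∫ ω, ‖Z k ω‖ ^ 2 ∂P := by
        rw [integral_const_mul, integral_finsetSum _
          fun k _ => (sq_integrable (hZ k)).const_mul _]
        congr 1
        refine Finset.sum_congr rfl fun k _ => ?_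
        rw [integral_const_mul]

lemma key_sum (hN : Noise P F b) {τ : ℕ → ℝ} {Z W : ℕ → Ω → E} (hG : Good P F τ W)
    (hZ : ∀ k, MemLp (Z k) 2 P) (n : ℕ) :
    MemLp (fun ω => psum τ (fun k => Z k ω) n + esum b τ W n ω) 2 P ∧
    qn P (fun ω => psum τ (fun k => Z k ω) n + esum b τ W n ω)
      ≤ 2 * (τ n - τ 0) * ∑ k ∈ Finset.range n, (τ (k + 1) - τ k) * qn P (Z k)
        + 2 * ∑ k ∈ Finset.range n, (τ (k + 1) - τ k) * qn P (W k) := by
  have h1 := iso_aux hN hG n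
  have h2 := memLp_psum τ hZ n
  refine ⟨h2.add h1.1, (qn_add_le h2 h1.1).trans ?_⟩
  have h3 := qn_psum τ hG.mono hZ n
  have h4 : qn P (esum b τ W n) = ∑ k ∈ Finset.range n, (τ (k + 1) - τ k) * qn P (W k) := h1.2.2
  rw [h4]
  linarith

/-- the Euler scheme on the grid with `N` steps -/
noncomputable def eul (b : ℝ → Ω → ℝ) (A D : ℝ → E →L[ℝ] E) (T : ℝ) (N : ℕ) (ξ : E) :
    ℕ → Ω → E
  | 0 => fun _ => ξ
  | k + 1 => fun ω => eul b A D T N ξ k ω
      + (gp T N (k + 1) - gp T N k) • A (gp T N k) (eul b A D T N ξ k ω)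
      + (b (gp T N (k + 1)) ω - b (gp T N k) ω) • D (gp T N k) (eul b A D T N ξ k ω)

variable {A D : ℝ → E →L[ℝ] E} {N : ℕ} {ξ : E}

/-- drift terms -/
noncomputable def eA (b : ℝ → Ω → ℝ) (A D : ℝ → E →L[ℝ] E) (T : ℝ) (N : ℕ) (ξ : E)
    (k : ℕ) (ω : Ω) : E := A (gp T N k) (eul b A D T N ξ k ω)

/-- diffusion terms -/
noncomputable def eD (b : ℝ → Ω → ℝ) (A D : ℝ → E →L[ℝ] E) (T : ℝ) (N : ℕ) (ξ : E)
    (k : ℕ) (ω : Ω) : E := D (gp T N k) (eul b A D T N ξ k ω)

lemma eul_eq (n : ℕ) (ω : Ω) : eul b A D T N ξ n ω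
    = ξ + (psum (gp T N) (fun k => eA b A D T N ξ k ω) n
      + esum b (gp T N) (eD b A D T N ξ) n ω) := by
  induction n with
  | zero => simp [eul, psum, esum]
  | succ n ih =>
    have h1 : eul b A D T N ξ (n + 1) ω = eul b A D T N ξ n ω
      + (gp T N (n + 1) - gp T N n) • eA b A D T N ξ n ω
      + (b (gp T N (n + 1)) ω - b (gp T N n) ω) • eD b A D T N ξ n ω := rfl
    rw [h1, ih, esum_succ]
    unfold psum
    rw [Finset.sum_range_succ]
    beta_reduce
    generalize (gp T N (n + 1) - gp T N n) • eA b A D T N ξ n ω = x1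
    generalize (b (gp T N (n + 1)) ω - b (gp T N n) ω) • eD b A D T N ξ n ω = x2
    generalize ∑ k ∈ Finset.range n, (gp T N (k + 1) - gp T N k) • eA b A D T N ξ k ω = x3
    generalize esum b (gp T N) (eD b A D T N ξ) n ω = x4
    abel

lemma eul_meas (hN : Noise P F b) (hT : 0 < T) (k : ℕ) :
    StronglyMeasurable[F (gp T N k)] (eul b A D T N ξ k) := by
  induction k with
  | zero => exact @stronglyMeasurable_const _ _ (F (gp T N 0)) _ ξ
  | succ k ih =>
    have hle := hN.mono _ _ (gp_mono hT N (Nat.le_succ k))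
    have h1 := ih.mono hle
    have h2 : StronglyMeasurable[F (gp T N (k + 1))] (fun ω => A (gp T N k) (eul b A D T N ξ k ω)) :=
      (A (gp T N k)).continuous.comp_stronglyMeasurable h1
    have h3 : StronglyMeasurable[F (gp T N (k + 1))] (fun ω => D (gp T N k) (eul b A D T N ξ k ω)) :=
      (D (gp T N k)).continuous.comp_stronglyMeasurable h1
    have h4 : StronglyMeasurable[F (gp T N (k + 1))]
        (fun ω => b (gp T N (k + 1)) ω - b (gp T N k) ω) :=
      (hN.adapt _).sub ((hN.adapt _).mono hle)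
    exact (h1.add (h2.const_smul _)).add (h4.smul h3)

lemma eul_memLp (hN : Noise P F b) (hT : 0 < T) (k : ℕ) :
    MemLp (eul b A D T N ξ k) 2 P := by
  induction k with
  | zero => exact memLp_const ξ
  | succ k ih =>
    have h3 : StronglyMeasurable[F (gp T N k)] (fun ω => D (gp T N k) (eul b A D T N ξ k ω)) :=
      (D (gp T N k)).continuous.comp_stronglyMeasurable (eul_meas hN hT k)
    have h4 := hN.smul (gp_nonneg hT N k) (gp_mono hT N (Nat.le_succ k))
      h3.aestronglyMeasurable (memLp_clm (D (gp T N k)) ih)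
    exact (ih.add ((memLp_clm (A (gp T N k)) ih).const_smul _)).add h4.1

lemma eA_memLp (hN : Noise P F b) (hT : 0 < T) (k : ℕ) : MemLp (eA b A D T N ξ k) 2 P :=
  memLp_clm _ (eul_memLp hN hT k)

lemma eD_memLp (hN : Noise P F b) (hT : 0 < T) (k : ℕ) : MemLp (eD b A D T N ξ k) 2 P :=
  memLp_clm _ (eul_memLp hN hT k)

lemma eD_meas (hN : Noise P F b) (hT : 0 < T) (k : ℕ) :
    AEStronglyMeasurable[F (gp T N k)] (eD b A D T N ξ k) P :=
  ((D (gp T N k)).continuous.comp_stronglyMeasurable (eul_meas hN hT k)).aestronglyMeasurable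

/-- summed discrete Gronwall inequality -/
lemma dgron {u w : ℕ → ℝ} {a c : ℝ} (hc : 0 ≤ c) (ha : 0 ≤ a) {N : ℕ} (hw : ∀ k, 0 ≤ w k)
    (hu : ∀ n, n ≤ N → u n ≤ a + c * ∑ k ∈ Finset.range n, w k * u k) :
    ∀ n, n ≤ N → u n ≤ a * Real.exp (c * ∑ k ∈ Finset.range n, w k) := by
  have h1 : ∀ n, n ≤ N → a + c * ∑ k ∈ Finset.range n, w k * u k
      ≤ a * Real.exp (c * ∑ k ∈ Finset.range n, w k) := by
    intro n
    induction n with
    | zero => intro _; simp
    | succ n ih =>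
      intro hn
      have h2 := ih (by omega)
      have h3 := hu n (by omega)
      rw [Finset.sum_range_succ, Finset.sum_range_succ, mul_add, mul_add, Real.exp_add]
      have h4 : w n * u n ≤ w n * (a * Real.exp (c * ∑ k ∈ Finset.range n, w k)) :=
        mul_le_mul_of_nonneg_left (h3.trans h2) (hw n)
      have h5 : c * w n + 1 ≤ Real.exp (c * w n) := Real.add_one_le_exp _
      have h6 : 0 ≤ a * Real.exp (c * ∑ k ∈ Finset.range n, w k) := by positivity
      nlinarith [mul_le_mul_of_nonneg_left h4 hc, mul_le_mul_of_nonneg_left h5 h6]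
  exact fun n hn => (hu n hn).trans (h1 n hn)

/-- bounded coefficients -/
structure Coef (T : ℝ) (A D : ℝ → E →L[ℝ] E) (K : ℝ) : Prop where
  nn : 0 ≤ K
  hA : ∀ t ∈ Icc 0 T, ‖A t‖ ≤ K
  hD : ∀ t ∈ Icc 0 T, ‖D t‖ ≤ K

/-- the moment bound -/
noncomputable def M0 (T K : ℝ) (ξ : E) : ℝ := 3 * ‖ξ‖ ^ 2 * Real.exp (3 * (T + 1) * K ^ 2 * T)

lemma M0_nonneg (T K : ℝ) (ξ : E) : 0 ≤ M0 T K ξ := by
  unfold M0; positivity

lemma eul_bound (hN : Noise P F b) (hT : 0 < T) {K : ℝ} (hK : Coef T A D K) (hNp : 0 < N)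
    {n : ℕ} (hn : n ≤ N) : qn P (eul b A D T N ξ n) ≤ M0 T K ξ := by
  have key : ∀ n, n ≤ N → qn P (eul b A D T N ξ n) ≤ 3 * ‖ξ‖ ^ 2 + (3 * (T + 1) * K ^ 2) *
      ∑ k ∈ Finset.range n, (gp T N (k + 1) - gp T N k) * qn P (eul b A D T N ξ k) := by
    intro n hn
    have hG : Good P F (gp T N) (eD b A D T N ξ) :=
      good_gp hN hT N (fun k => eD_memLp hN hT k) (fun k => eD_meas hN hT k)
    have e1 : eul b A D T N ξ n = fun ω => ξ + psum (gp T N) (fun k => eA b A D T N ξ k ω) n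
        + esum b (gp T N) (eD b A D T N ξ) n ω := by
      funext ω
      rw [eul_eq, add_assoc]
    have i1 := memLp_psum (P := P) (gp T N) (fun k => eA_memLp (A := A) (D := D) (N := N) (ξ := ξ) hN hT k) n
    have i2 := iso_aux hN hG n
    have h1 : qn P (eul b A D T N ξ n) ≤ 3 * qn P (fun _ : Ω => ξ)
        + 3 * qn P (fun ω => psum (gp T N) (fun k => eA b A D T N ξ k ω) n)
        + 3 * qn P (esum b (gp T N) (eD b A D T N ξ) n) := by
      rw [e1]
      exact qn_add3_le (memLp_const ξ) i1 i2.1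
    have h2 := qn_psum (P := P) (gp T N) (fun k => gp_mono hT N (Nat.le_succ k))
      (fun k => eA_memLp (A := A) (D := D) (N := N) (ξ := ξ) hN hT k) n
    have h3 : qn P (esum b (gp T N) (eD b A D T N ξ) n) = _ := i2.2.2
    rw [qn_const, h3] at h1
    rw [gp_zero, sub_zero] at h2
    have hgn : gp T N n ≤ T := gp_le hT hNp hn
    have hgn0 : 0 ≤ gp T N n := gp_nonneg hT N n
    have h4 : ∀ k ∈ Finset.range n, (gp T N (k + 1) - gp T N k) * qn P (eA b A D T N ξ k)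
        ≤ K ^ 2 * ((gp T N (k + 1) - gp T N k) * qn P (eul b A D T N ξ k)) := by
      intro k hk
      have hk' : gp T N k ∈ Icc 0 T := ⟨gp_nonneg hT N k, gp_le hT hNp
        ((Finset.mem_range.1 hk).le.trans hn)⟩
      have h5 := qn_clm_le (P := P) (A (gp T N k)) (hK.hA _ hk') (eul_memLp (A := A) (D := D) (N := N) (ξ := ξ) hN hT k)
      have h6 : 0 ≤ gp T N (k + 1) - gp T N k := by linarith [gp_mono hT N (Nat.le_succ k)]
      calc (gp T N (k + 1) - gp T N k) * qn P (eA b A D T N ξ k)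
          ≤ (gp T N (k + 1) - gp T N k) * (K ^ 2 * qn P (eul b A D T N ξ k)) :=
            mul_le_mul_of_nonneg_left h5 h6
        _ = _ := by ring
    have h4' : ∀ k ∈ Finset.range n, (gp T N (k + 1) - gp T N k) * qn P (eD b A D T N ξ k)
        ≤ K ^ 2 * ((gp T N (k + 1) - gp T N k) * qn P (eul b A D T N ξ k)) := by
      intro k hk
      have hk' : gp T N k ∈ Icc 0 T := ⟨gp_nonneg hT N k, gp_le hT hNp
        ((Finset.mem_range.1 hk).le.trans hn)⟩
      have h5 := qn_clm_le (P := P) (D (gp T N k)) (hK.hD _ hk') (eul_memLp (A := A) (D := D) (N := N) (ξ := ξ) hN hT k)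
      have h6 : 0 ≤ gp T N (k + 1) - gp T N k := by linarith [gp_mono hT N (Nat.le_succ k)]
      calc (gp T N (k + 1) - gp T N k) * qn P (eD b A D T N ξ k)
          ≤ (gp T N (k + 1) - gp T N k) * (K ^ 2 * qn P (eul b A D T N ξ k)) :=
            mul_le_mul_of_nonneg_left h5 h6
        _ = _ := by ring
    have h7 := Finset.sum_le_sum h4
    have h8 := Finset.sum_le_sum h4'
    rw [← Finset.mul_sum] at h7 h8
    have h9 : 0 ≤ ∑ k ∈ Finset.range n, (gp T N (k + 1) - gp T N k) * qn P (eA b A D T N ξ k) :=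
      Finset.sum_nonneg fun k _ => mul_nonneg
        (by linarith [gp_mono hT N (Nat.le_succ k)]) (qn_nonneg _)
    have h10 := mul_le_mul_of_nonneg_right hgn h9
    have h11 := mul_le_mul_of_nonneg_left h7 hT.le
    have h12 : ∑ k ∈ Finset.range n, (gp T N (k + 1) - gp T N k) * ∫ ω, ‖eD b A D T N ξ k ω‖ ^ 2 ∂P
      = ∑ k ∈ Finset.range n, (gp T N (k + 1) - gp T N k) * qn P (eD b A D T N ξ k) := rfl
    rw [h12] at h1
    nlinarith
  have h := dgron (N := N) (by have := hK.nn; positivity : 0 ≤ 3 * (T + 1) * K ^ 2) (by positivity)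
    (fun k => by linarith [gp_mono hT N (Nat.le_succ k)]) key n hn
  refine h.trans ?_
  unfold M0
  rw [Finset.sum_range_sub, gp_zero, sub_zero]
  have hgn : gp T N n ≤ T := gp_le hT hNp hn
  have := hK.nn
  gcongr

end Pool.Agent.ACF
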