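import Pool.Agent.ACF.Euler

set_option autoImplicit false
set_option linter.unusedSectionVars false
open MeasureTheory ProbabilityTheory Set Filter Topology
open scoped NNReal ENNReal

namespace Pool.Agent.ACF

variable {E : Type*} [NormedAddCommGroup E] [InnerProductSpace ℝ E]
variable {Ω : Type*} {mΩ : MeasurableSpace Ω} {P : Measure Ω} [IsProbabilityMeasure P]
  {F : ℝ → MeasurableSpace Ω} {b : ℝ → Ω → ℝ} {T : ℝ}
  {A D : ℝ → E →L[ℝ] E} {N : ℕ} {ξ : E}

/-- time interpolation of the Euler scheme -/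
noncomputable def yI (b : ℝ → Ω → ℝ) (A D : ℝ → E →L[ℝ] E) (T : ℝ) (N : ℕ) (ξ : E)
    (t : ℝ) (ω : Ω) : E :=
  ξ + (psum (tau T N 0 t) (fun k => eA b A D T N ξ k ω) N
    + esum b (tau T N 0 t) (eD b A D T N ξ) N ω)

lemma yI_gp (hT : 0 < T) {n : ℕ} (hn : n ≤ N) :
    yI b A D T N ξ (gp T N n) = eul b A D T N ξ n := by
  funext ω
  rw [eul_eq]
  unfold yI
  congr 2
  · exact psum_trunc _ _ _ hn (fun k hk => tau_gp hT hk) (fun k hk => tau_gp' hT hk)
  · exact psum_trunc (fun k => b (tau T N 0 (gp T N n) k) ω) (fun k => b (gp T N k) ω) _ hn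
      (fun k hk => by simp only [tau_gp hT hk]) (fun k hk => by simp only [tau_gp' hT hk])

lemma psum_congr_diff {g h : ℕ → ℝ} (z : ℕ → E) (n : ℕ)
    (H : ∀ k, g (k + 1) - g k = h (k + 1) - h k) : psum g z n = psum h z n := by
  unfold psum
  simp_rw [H]

lemma tau_diff (hT : 0 < T) (f : ℝ → ℝ) {s t : ℝ} (hs : 0 ≤ s) (hst : s ≤ t) (k : ℕ) :
    f (tau T N 0 t k) - f (tau T N 0 s k) = f (tau T N s t k) - f s := by
  have h0 := gp_nonneg hT N k
  unfold tau
  rcases le_total (gp T N k) s with h1 | h1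
  · rw [min_eq_left h1, min_eq_left (h1.trans hst), max_eq_left h1]
    ring
  · rcases le_total (gp T N k) t with h2 | h2
    · rw [min_eq_left h2, min_eq_right h1, max_eq_right h0, max_eq_right hs, max_eq_right h1]
    · rw [min_eq_right h2, min_eq_right h1, max_eq_right hs, max_eq_right (hs.trans hst),
        max_eq_right hst]

lemma yI_sub (hT : 0 < T) {s t : ℝ} (hs : 0 ≤ s) (hst : s ≤ t) (ω : Ω) :
    yI b A D T N ξ t ω - yI b A D T N ξ s ω
      = psum (tau T N s t) (fun k => eA b A D T N ξ k ω) N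
        + esum b (tau T N s t) (eD b A D T N ξ) N ω := by
  have h1 : psum (tau T N 0 t) (fun k => eA b A D T N ξ k ω) N
      - psum (tau T N 0 s) (fun k => eA b A D T N ξ k ω) N
      = psum (tau T N s t) (fun k => eA b A D T N ξ k ω) N := by
    rw [psum_sub_right]
    refine psum_congr_diff _ _ fun k => ?_
    have e1 := tau_diff (N := N) hT id hs hst k
    have e2 := tau_diff (N := N) hT id hs hst (k + 1)
    simp only [id] at e1 e2
    rw [e1, e2]
    ring
  have h2 : esum b (tau T N 0 t) (eD b A D T N ξ) N ω - esum b (tau T N 0 s) (eD b A D T N ξ) N ω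
      = esum b (tau T N s t) (eD b A D T N ξ) N ω := by
    have := psum_sub_right (fun k => b (tau T N 0 t k) ω) (fun k => b (tau T N 0 s k) ω)
      (fun k => eD b A D T N ξ k ω) N
    refine Eq.trans this ?_
    change _ = psum (fun k => b (tau T N s t k) ω) (fun k => eD b A D T N ξ k ω) N
    refine psum_congr_diff (fun k => eD b A D T N ξ k ω) N fun k => ?_
    have e1 := tau_diff (N := N) hT (fun r => b r ω) hs hst k
    have e2 := tau_diff (N := N) hT (fun r => b r ω) hs hst (k + 1)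
    linarith
  rw [← h1, ← h2]
  unfold yI
  abel

lemma yI_memLp (hN : Noise P F b) (hT : 0 < T) {t : ℝ} (ht : 0 ≤ t) :
    MemLp (yI b A D T N ξ t) 2 P := by
  have hG : Good P F (tau T N 0 t) (eD b A D T N ξ) :=
    good_tau hN hT N le_rfl ht (fun k => eD_memLp hN hT k) (fun k => eD_meas hN hT k)
  exact (memLp_const ξ).add (key_sum hN hG (fun k => eA_memLp hN hT k) N).1

lemma yI_meas (hN : Noise P F b) (hT : 0 < T) {t : ℝ} (ht : 0 ≤ t) :
    StronglyMeasurable[F t] (yI b A D T N ξ t) := by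
  have key : ∀ k, StronglyMeasurable[F t] (fun ω =>
      (tau T N 0 t (k + 1) - tau T N 0 t k) • eA b A D T N ξ k ω) ∧
      StronglyMeasurable[F t] (fun ω =>
      (b (tau T N 0 t (k + 1)) ω - b (tau T N 0 t k) ω) • eD b A D T N ξ k ω) := by
    intro k
    rcases le_total (gp T N k) t with h | h
    · have hle := hN.mono _ _ h
      have h1 := (eul_meas (A := A) (D := D) (N := N) (ξ := ξ) hN hT k).mono hle
      have h2 : ∀ j, tau T N 0 t j ≤ t := by
        intro j
        unfold tau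
        exact max_le ht (min_le_right _ _)
      have h3 : StronglyMeasurable[F t] (fun ω => A (gp T N k) (eul b A D T N ξ k ω)) :=
        (A (gp T N k)).continuous.comp_stronglyMeasurable h1
      have h4 : StronglyMeasurable[F t] (fun ω => D (gp T N k) (eul b A D T N ξ k ω)) :=
        (D (gp T N k)).continuous.comp_stronglyMeasurable h1
      refine ⟨h3.const_smul _, ?_⟩
      exact (((hN.adapt _).mono (hN.mono _ _ (h2 _))).sub
        ((hN.adapt _).mono (hN.mono _ _ (h2 _)))).smul h4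
    · have h2 : t ≤ gp T N (k + 1) := h.trans (gp_mono hT N (Nat.le_succ k))
      have h3 : tau T N 0 t (k + 1) = tau T N 0 t k := by
        unfold tau
        rw [min_eq_right h, min_eq_right h2]
      rw [h3]
      simp only [sub_self, zero_smul]
      exact ⟨@stronglyMeasurable_const _ _ (F t) _ 0, @stronglyMeasurable_const _ _ (F t) _ 0⟩
  have h5 : StronglyMeasurable[F t] (fun ω => psum (tau T N 0 t)
      (fun k => eA b A D T N ξ k ω) N) := by
    unfold psum
    exact Finset.stronglyMeasurable_fun_sum _ fun k _ => (key k).1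
  have h6 : StronglyMeasurable[F t] (esum b (tau T N 0 t) (eD b A D T N ξ) N) := by
    unfold esum
    exact Finset.stronglyMeasurable_fun_sum _ fun k _ => (key k).2
  have h7 : StronglyMeasurable[F t] (fun _ : Ω => ξ) := @stronglyMeasurable_const _ _ (F t) _ ξ
  exact h7.add (h5.add h6)

/-- constant for the time regularity -/
noncomputable def C1 (T K : ℝ) (ξ : E) : ℝ := 2 * (T + 1) * K ^ 2 * M0 T K ξ

lemma C1_nonneg (hT : 0 < T) (K : ℝ) (ξ : E) : 0 ≤ C1 T K ξ := by
  unfold C1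
  have := M0_nonneg T K ξ
  positivity

lemma eA_bound (hN : Noise P F b) (hT : 0 < T) {K : ℝ} (hK : Coef T A D K) (hNp : 0 < N)
    {k : ℕ} (hk : k ≤ N) : qn P (eA b A D T N ξ k) ≤ K ^ 2 * M0 T K ξ := by
  have hk' : gp T N k ∈ Icc 0 T := ⟨gp_nonneg hT N k, gp_le hT hNp hk⟩
  refine (qn_clm_le (A (gp T N k)) (hK.hA _ hk') (eul_memLp hN hT k)).trans ?_
  exact mul_le_mul_of_nonneg_left (eul_bound hN hT hK hNp hk) (sq_nonneg _)

lemma eD_bound (hN : Noise P F b) (hT : 0 < T) {K : ℝ} (hK : Coef T A D K) (hNp : 0 < N)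
    {k : ℕ} (hk : k ≤ N) : qn P (eD b A D T N ξ k) ≤ K ^ 2 * M0 T K ξ := by
  have hk' : gp T N k ∈ Icc 0 T := ⟨gp_nonneg hT N k, gp_le hT hNp hk⟩
  refine (qn_clm_le (D (gp T N k)) (hK.hD _ hk') (eul_memLp hN hT k)).trans ?_
  exact mul_le_mul_of_nonneg_left (eul_bound hN hT hK hNp hk) (sq_nonneg _)

lemma yI_reg (hN : Noise P F b) (hT : 0 < T) {K : ℝ} (hK : Coef T A D K) (hNp : 0 < N)
    {s t : ℝ} (hs : 0 ≤ s) (hst : s ≤ t) (htT : t ≤ T) :
    qn P (fun ω => yI b A D T N ξ t ω - yI b A D T N ξ s ω) ≤ C1 T K ξ * (t - s) := by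
  have hG : Good P F (tau T N s t) (eD b A D T N ξ) :=
    good_tau hN hT N hs hst (fun k => eD_memLp hN hT k) (fun k => eD_meas hN hT k)
  have h1 := (key_sum hN hG (fun k => eA_memLp (A := A) (D := D) (N := N) (ξ := ξ) hN hT k) N).2
  simp_rw [yI_sub hT hs hst]
  refine h1.trans ?_
  rw [tau_zero hs hst, tau_self hst htT hNp]
  have hnn : ∀ k, 0 ≤ tau T N s t (k + 1) - tau T N s t k := fun k => by
    linarith [tau_mono hT N s t (Nat.le_succ k)]
  have hsum : ∑ k ∈ Finset.range N, (tau T N s t (k + 1) - tau T N s t k) = t - s := by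
    rw [Finset.sum_range_sub, tau_zero hs hst, tau_self hst htT hNp]
  have h2 : ∑ k ∈ Finset.range N, (tau T N s t (k + 1) - tau T N s t k) * qn P (eA b A D T N ξ k)
      ≤ (t - s) * (K ^ 2 * M0 T K ξ) := by
    rw [← hsum, Finset.sum_mul]
    exact Finset.sum_le_sum fun k hk => mul_le_mul_of_nonneg_left
      (eA_bound hN hT hK hNp (Finset.mem_range.1 hk).le) (hnn k)
  have h3 : ∑ k ∈ Finset.range N, (tau T N s t (k + 1) - tau T N s t k) * qn P (eD b A D T N ξ k)
      ≤ (t - s) * (K ^ 2 * M0 T K ξ) := by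
    rw [← hsum, Finset.sum_mul]
    exact Finset.sum_le_sum fun k hk => mul_le_mul_of_nonneg_left
      (eD_bound hN hT hK hNp (Finset.mem_range.1 hk).le) (hnn k)
  have h4 : 0 ≤ t - s := by linarith
  have h5 : t - s ≤ T := by linarith
  have h6 : 0 ≤ K ^ 2 * M0 T K ξ := mul_nonneg (sq_nonneg _) (M0_nonneg _ _ _)
  have h7 : 2 * (t - s) * ∑ k ∈ Finset.range N, (tau T N s t (k + 1) - tau T N s t k)
      * qn P (eA b A D T N ξ k) ≤ 2 * T * ((t - s) * (K ^ 2 * M0 T K ξ)) := by
    calc _ ≤ 2 * (t - s) * ((t - s) * (K ^ 2 * M0 T K ξ)) := by gcongr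
      _ ≤ _ := by gcongr
  unfold C1
  nlinarith

end Pool.Agent.ACF
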