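import Pool.Agent.ACF.Noise

set_option autoImplicit false
set_option linter.unusedSectionVars false
open MeasureTheory ProbabilityTheory Set Filter Topology
open scoped NNReal ENNReal

namespace Pool.Agent.ACF

variable {Ω : Type*} {mΩ : MeasurableSpace Ω} {P : Measure Ω} [IsProbabilityMeasure P]
  {F : ℝ → MeasurableSpace Ω} {b : ℝ → Ω → ℝ}
variable {E : Type*} [NormedAddCommGroup E] [InnerProductSpace ℝ E]

lemma sq_integrable {f : Ω → E} (hf : MemLp f 2 P) : Integrable (fun ω => ‖f ω‖ ^ 2) P :=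
  (memLp_two_iff_integrable_sq_norm hf.1).1 hf

lemma inner_integrable {f g : Ω → E} (hf : MemLp f 2 P) (hg : MemLp g 2 P) :
    Integrable (fun ω => inner ℝ (f ω) (g ω)) P := by
  refine Integrable.mono' ((sq_integrable hf).add (sq_integrable hg))
    (hf.1.inner hg.1) (Eventually.of_forall fun ω => ?_)
  have h1 := norm_inner_le_norm (𝕜 := ℝ) (f ω) (g ω)
  have h2 := sq_nonneg (‖f ω‖ - ‖g ω‖)
  simp only [Pi.add_apply]
  nlinarith [sq_nonneg (‖f ω‖), sq_nonneg (‖g ω‖)]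

section incr

variable (hN : Noise P F b)
include hN

lemma Noise.incr_memLp (s t : ℝ) : MemLp (fun ω => b t ω - b s ω) 2 P :=
  (hN.memLp t).sub (hN.memLp s)

lemma Noise.cross {s t : ℝ} (hs : 0 ≤ s) (hst : s ≤ t) {f : Ω → ℝ}
    (hf : AEStronglyMeasurable[F s] f P) (hfi : Integrable f P) :
    Integrable (fun ω => (b t ω - b s ω) * f ω) P ∧ ∫ ω, (b t ω - b s ω) * f ω ∂P = 0 := by
  obtain ⟨g, hg, hfg⟩ := hf
  have hgi : Integrable g P := hfi.congr hfg
  have hI := hN.indep s t hs hst g hg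
  have hΔ : Integrable (fun ω => b t ω - b s ω) P := (hN.incr_memLp s t).integrable (by norm_num)
  have h1 : Integrable (fun ω => (b t ω - b s ω) * g ω) P := hI.integrable_mul hΔ hgi
  have he : (fun ω => (b t ω - b s ω) * g ω) =ᵐ[P] fun ω => (b t ω - b s ω) * f ω := by
    filter_upwards [hfg] with ω hω
    rw [hω]
  refine ⟨h1.congr he, ?_⟩
  rw [← integral_congr_ae he]
  have h2 := hI.integral_fun_comp_mul_comp (f := id) (g := id) hΔ.aemeasurable hgi.aemeasurable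
    aestronglyMeasurable_id aestronglyMeasurable_id
  simp only [id] at h2
  rw [h2, hN.mean s t hs hst, zero_mul]

lemma Noise.sq {s t : ℝ} (hs : 0 ≤ s) (hst : s ≤ t) {f : Ω → ℝ}
    (hf : AEStronglyMeasurable[F s] f P) (hfi : Integrable f P) :
    Integrable (fun ω => (b t ω - b s ω) ^ 2 * f ω) P ∧
      ∫ ω, (b t ω - b s ω) ^ 2 * f ω ∂P = (t - s) * ∫ ω, f ω ∂P := by
  obtain ⟨g, hg, hfg⟩ := hf
  have hgi : Integrable g P := hfi.congr hfg
  have hI := hN.indep s t hs hst g hg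
  have hΔ : MemLp (fun ω => b t ω - b s ω) 2 P := hN.incr_memLp s t
  have hΔ2 : Integrable (fun ω => (b t ω - b s ω) ^ 2) P := hΔ.integrable_sq
  have hI2 : IndepFun (fun ω => (b t ω - b s ω) ^ 2) g P :=
    hI.comp (φ := fun x : ℝ => x ^ 2) (ψ := id) (by fun_prop) measurable_id
  have h1 : Integrable (fun ω => (b t ω - b s ω) ^ 2 * g ω) P := hI2.integrable_mul hΔ2 hgi
  have he : (fun ω => (b t ω - b s ω) ^ 2 * g ω) =ᵐ[P] fun ω => (b t ω - b s ω) ^ 2 * f ω := by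
    filter_upwards [hfg] with ω hω
    rw [hω]
  refine ⟨h1.congr he, ?_⟩
  rw [← integral_congr_ae he, integral_congr_ae hfg]
  have h2 := hI2.integral_fun_comp_mul_comp (f := id) (g := id) hΔ2.aemeasurable hgi.aemeasurable
    aestronglyMeasurable_id aestronglyMeasurable_id
  simp only [id] at h2
  rw [h2, hN.var s t hs hst]

lemma Noise.smul {s t : ℝ} (hs : 0 ≤ s) (hst : s ≤ t) {Z : Ω → E}
    (hZ : AEStronglyMeasurable[F s] Z P) (hZ2 : MemLp Z 2 P) :
    MemLp (fun ω => (b t ω - b s ω) • Z ω) 2 P ∧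
      ∫ ω, ‖(b t ω - b s ω) • Z ω‖ ^ 2 ∂P = (t - s) * ∫ ω, ‖Z ω‖ ^ 2 ∂P := by
  have h0 : AEStronglyMeasurable[F s] (fun ω => ‖Z ω‖ ^ 2) P := by
    obtain ⟨g, hg, hfg⟩ := hZ
    exact ⟨fun ω => ‖g ω‖ ^ 2, hg.norm.pow 2, by
      filter_upwards [hfg] with ω hω
      rw [hω]⟩
  have h1 := hN.sq hs hst h0 (sq_integrable hZ2)
  have he : ∀ ω, ‖(b t ω - b s ω) • Z ω‖ ^ 2 = (b t ω - b s ω) ^ 2 * ‖Z ω‖ ^ 2 := by
    intro ω
    rw [norm_smul, mul_pow, Real.norm_eq_abs, sq_abs]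
  refine ⟨?_, ?_⟩
  · refine (memLp_two_iff_integrable_sq_norm ((hN.incr_memLp s t).1.smul hZ2.1)).2 ?_
    exact h1.1.congr (Eventually.of_forall fun ω => (he ω).symm)
  · simp_rw [he]
    exact h1.2

lemma Noise.orth {s t : ℝ} (hs : 0 ≤ s) (hst : s ≤ t) {Z W : Ω → E}
    (hZ : AEStronglyMeasurable[F s] Z P) (hZ2 : MemLp Z 2 P)
    (hW : AEStronglyMeasurable[F s] W P) (hW2 : MemLp W 2 P) :
    ∫ ω, inner ℝ (W ω) ((b t ω - b s ω) • Z ω) ∂P = 0 := by
  have h0 : AEStronglyMeasurable[F s] (fun ω => inner ℝ (W ω) (Z ω)) P := by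
    obtain ⟨g, hg, hfg⟩ := hZ
    obtain ⟨g', hg', hfg'⟩ := hW
    exact ⟨fun ω => inner ℝ (g' ω) (g ω), hg'.inner hg, by
      filter_upwards [hfg, hfg'] with ω hω hω'
      rw [hω, hω']⟩
  have h1 := hN.cross hs hst h0 (inner_integrable hW2 hZ2)
  simp_rw [real_inner_smul_right]
  exact h1.2

end incr

/-- the elementary stochastic sum along the times `τ` -/
def esum (b : ℝ → Ω → ℝ) (τ : ℕ → ℝ) (Z : ℕ → Ω → E) (n : ℕ) (ω : Ω) : E :=
  ∑ k ∈ Finset.range n, (b (τ (k + 1)) ω - b (τ k) ω) • Z k ω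

lemma esum_succ (τ : ℕ → ℝ) (Z : ℕ → Ω → E) (n : ℕ) :
    esum b τ Z (n + 1) = fun ω => esum b τ Z n ω + (b (τ (n + 1)) ω - b (τ n) ω) • Z n ω := by
  funext ω
  simp [esum, Finset.sum_range_succ]

/-- admissible data for an elementary sum -/
structure Good (P : Measure Ω) (F : ℝ → MeasurableSpace Ω) (τ : ℕ → ℝ) (Z : ℕ → Ω → E) : Prop where
  nonneg : ∀ k, 0 ≤ τ k
  mono : ∀ k, τ k ≤ τ (k + 1)
  memLp : ∀ k, MemLp (Z k) 2 P
  meas : ∀ k, τ k = τ (k + 1) ∨ AEStronglyMeasurable[F (τ k)] (Z k) P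

lemma iso_aux (hN : Noise P F b) {τ : ℕ → ℝ} {Z : ℕ → Ω → E} (hG : Good P F τ Z) (n : ℕ) :
    MemLp (esum b τ Z n) 2 P ∧ AEStronglyMeasurable[F (τ n)] (esum b τ Z n) P ∧
      ∫ ω, ‖esum b τ Z n ω‖ ^ 2 ∂P
        = ∑ k ∈ Finset.range n, (τ (k + 1) - τ k) * ∫ ω, ‖Z k ω‖ ^ 2 ∂P := by
  induction n with
  | zero =>
    have h0 : esum b τ Z 0 = fun _ => (0 : E) := by
      funext ω
      simp [esum]
    rw [h0]
    refine ⟨MemLp.zero, ?_, by simp⟩
    exact ⟨fun _ => 0, @stronglyMeasurable_const _ _ (F (τ 0)) _ _, Filter.EventuallyEq.rfl⟩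
  | succ n ih =>
    obtain ⟨h1, h2, h3⟩ := ih
    rw [esum_succ, Finset.sum_range_succ]
    rcases hG.meas n with h | h
    · have he : (fun ω => esum b τ Z n ω + (b (τ (n + 1)) ω - b (τ n) ω) • Z n ω)
          = esum b τ Z n := by
        funext ω
        rw [h, sub_self, zero_smul, add_zero]
      rw [he, ← h, h3]
      exact ⟨h1, h2, by ring⟩
    · have h4 := hN.smul (hG.nonneg n) (hG.mono n) h (hG.memLp n)
      have h5 := hN.orth (hG.nonneg n) (hG.mono n) h (hG.memLp n) h2 h1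
      refine ⟨h1.add h4.1, ?_, ?_⟩
      · obtain ⟨g, hg, hfg⟩ := h2
        obtain ⟨g', hg', hfg'⟩ := h
        have hle := hN.mono _ _ (hG.mono n)
        refine ⟨fun ω => g ω + (b (τ (n + 1)) ω - b (τ n) ω) • g' ω, ?_, ?_⟩
        · exact (hg.mono hle).add (((hN.adapt _).sub ((hN.adapt _).mono hle)).smul (hg'.mono hle))
        · filter_upwards [hfg, hfg'] with ω hω hω'
          rw [hω, hω']
      · have he : ∀ ω, ‖esum b τ Z n ω + (b (τ (n + 1)) ω - b (τ n) ω) • Z n ω‖ ^ 2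
            = ‖esum b τ Z n ω‖ ^ 2 + 2 * inner ℝ (esum b τ Z n ω)
              ((b (τ (n + 1)) ω - b (τ n) ω) • Z n ω)
              + ‖(b (τ (n + 1)) ω - b (τ n) ω) • Z n ω‖ ^ 2 := fun ω => norm_add_sq_real _ _
        simp_rw [he]
        have i1 := sq_integrable h1
        have i2 := inner_integrable h1 h4.1
        have i3 := sq_integrable h4.1
        have i12 : Integrable (fun ω => ‖esum b τ Z n ω‖ ^ 2 + 2 * inner ℝ (esum b τ Z n ω)
              ((b (τ (n + 1)) ω - b (τ n) ω) • Z n ω)) P := i1.add (i2.const_mul 2)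
        rw [integral_add i12 i3, integral_add i1 (i2.const_mul 2),
          integral_const_mul, h5, h4.2, h3]
        ring

end Pool.Agent.ACF
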