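import Pool.Agent.ACF.Time

set_option autoImplicit false
set_option linter.unusedSectionVars false
open MeasureTheory ProbabilityTheory Set Filter Topology
open scoped NNReal ENNReal

namespace Pool.Agent.ACF

variable {E : Type*} [NormedAddCommGroup E] [InnerProductSpace ℝ E]
variable {G : Type*} [NormedAddCommGroup G] [InnerProductSpace ℝ G]
variable {Ω : Type*} {mΩ : MeasurableSpace Ω} {P : Measure Ω} [IsProbabilityMeasure P]
  {F : ℝ → MeasurableSpace Ω} {b : ℝ → Ω → ℝ} {T : ℝ}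

/-- root mean square -/
noncomputable def sn (P : Measure Ω) (f : Ω → E) : ℝ := Real.sqrt (qn P f)

lemma sn_nonneg (f : Ω → E) : 0 ≤ sn P f := Real.sqrt_nonneg _

lemma sn_sq (f : Ω → E) : sn P f ^ 2 = qn P f := Real.sq_sqrt (qn_nonneg f)

lemma sn_eq_norm {f : Ω → E} (hf : MemLp f 2 P) : sn P f = ‖hf.toLp f‖ := by
  rw [Lp.norm_toLp, eLpNorm_eq_qn hf, ENNReal.toReal_ofReal (Real.sqrt_nonneg _)]
  rfl

lemma sn_toReal {f : Ω → E} (hf : MemLp f 2 P) : sn P f = (eLpNorm f 2 P).toReal := by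
  rw [sn_eq_norm hf, Lp.norm_toLp]

lemma sn_congr {f g : Ω → E} (h : f =ᵐ[P] g) : sn P f = sn P g := by
  unfold sn qn
  congr 1
  refine integral_congr_ae ?_
  filter_upwards [h] with ω hω
  rw [hω]

lemma sn_add_le {f g : Ω → E} (hf : MemLp f 2 P) (hg : MemLp g 2 P) :
    sn P (fun ω => f ω + g ω) ≤ sn P f + sn P g := by
  have h1 : sn P (fun ω => f ω + g ω) = ‖(hf.add hg).toLp (f + g)‖ := sn_eq_norm (hf.add hg)
  rw [h1, MemLp.toLp_add, sn_eq_norm hf, sn_eq_norm hg]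
  exact norm_add_le _ _

lemma sn_sub_rev (f g : Ω → E) : sn P (fun ω => f ω - g ω) = sn P (fun ω => g ω - f ω) := by
  unfold sn qn
  simp_rw [norm_sub_rev]

lemma sn_abs_sub {f g : Ω → E} (hf : MemLp f 2 P) (hg : MemLp g 2 P) :
    |sn P f - sn P g| ≤ sn P (fun ω => f ω - g ω) := by
  have h1 : sn P (fun ω => f ω - g ω) = ‖(hf.sub hg).toLp (f - g)‖ := sn_eq_norm (hf.sub hg)
  rw [h1, MemLp.toLp_sub, sn_eq_norm hf, sn_eq_norm hg]
  exact abs_norm_sub_norm_le _ _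

lemma sn_smul (c : ℝ) (f : Ω → E) : sn P (fun ω => c • f ω) = |c| * sn P f := by
  unfold sn qn
  simp_rw [norm_smul, mul_pow]
  rw [integral_const_mul, Real.sqrt_mul (by positivity), Real.sqrt_sq (norm_nonneg _),
    Real.norm_eq_abs]

lemma qn_smul (c : ℝ) (f : Ω → E) : qn P (fun ω => c • f ω) = c ^ 2 * qn P f := by
  unfold qn
  simp_rw [norm_smul, mul_pow]
  rw [integral_const_mul, Real.norm_eq_abs, sq_abs]

lemma qn_congr {f g : Ω → E} (h : f =ᵐ[P] g) : qn P f = qn P g := by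
  unfold qn
  refine integral_congr_ae ?_
  filter_upwards [h] with ω hω
  rw [hω]

/-- mean square continuity on `[0,T]` -/
structure MSC (P : Measure Ω) (T : ℝ) (X : ℝ → Ω → E) : Prop where
  memLp : ∀ t ∈ Icc 0 T, MemLp (X t) 2 P
  cont : ∀ s ∈ Icc 0 T, Tendsto (fun t => eLpNorm (fun ω => X t ω - X s ω) 2 P)
    (𝓝[Icc 0 T] s) (𝓝 0)

/-- adaptedness, up to null sets -/
def Adp (P : Measure Ω) (F : ℝ → MeasurableSpace Ω) (T : ℝ) (X : ℝ → Ω → E) : Prop :=
  ∀ t ∈ Icc 0 T, AEStronglyMeasurable[F t] (X t) P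

lemma MSC.tendsto_sn {X : ℝ → Ω → E} (hX : MSC P T X) {s : ℝ} (hs : s ∈ Icc 0 T) :
    Tendsto (fun t => sn P (fun ω => X t ω - X s ω)) (𝓝[Icc 0 T] s) (𝓝 0) := by
  have h1 := (ENNReal.tendsto_toReal ENNReal.zero_ne_top).comp (hX.cont s hs)
  rw [ENNReal.toReal_zero] at h1
  refine h1.congr' ?_
  filter_upwards [self_mem_nhdsWithin] with t ht
  exact (sn_toReal ((hX.memLp t ht).sub (hX.memLp s hs))).symm

lemma MSC.of_sn {X : ℝ → Ω → E} (h1 : ∀ t ∈ Icc 0 T, MemLp (X t) 2 P)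
    (h2 : ∀ s ∈ Icc 0 T, Tendsto (fun t => sn P (fun ω => X t ω - X s ω)) (𝓝[Icc 0 T] s) (𝓝 0)) :
    MSC P T X := by
  refine ⟨h1, fun s hs => ?_⟩
  have h3 := ENNReal.tendsto_ofReal (h2 s hs)
  rw [ENNReal.ofReal_zero] at h3
  refine h3.congr' ?_
  filter_upwards [self_mem_nhdsWithin] with t ht
  exact (eLpNorm_eq_qn ((h1 t ht).sub (h1 s hs))).symm

lemma MSC.continuousOn_sn {X : ℝ → Ω → E} (hX : MSC P T X) :
    ContinuousOn (fun t => sn P (X t)) (Icc 0 T) := by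
  intro s hs
  have h1 := hX.tendsto_sn hs
  rw [ContinuousWithinAt, tendsto_iff_dist_tendsto_zero]
  refine squeeze_zero' (Eventually.of_forall fun _ => dist_nonneg) ?_ h1
  filter_upwards [self_mem_nhdsWithin] with t ht
  rw [Real.dist_eq]
  exact sn_abs_sub (hX.memLp t ht) (hX.memLp s hs)

lemma MSC.continuousOn_qn {X : ℝ → Ω → E} (hX : MSC P T X) :
    ContinuousOn (fun t => qn P (X t)) (Icc 0 T) := by
  have := hX.continuousOn_sn.pow 2
  refine this.congr fun t _ => ?_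
  exact (sn_sq _).symm

/-- left Riemann sums for the stochastic integral of `H` over `[0,t]` -/
noncomputable def itoSum (b : ℝ → Ω → ℝ) (T : ℝ) (N : ℕ) (t : ℝ) (H : ℝ → Ω → E) (ω : Ω) : E :=
  ∑ k ∈ Finset.range N, (b (min (T * (k + 1) / N) t) ω - b (min (T * k / N) t) ω)
    • H (T * k / N) ω

lemma itoSum_eq (hT : 0 < T) {N : ℕ} {t : ℝ} (ht : 0 ≤ t) {H : ℝ → Ω → E} {Z : ℕ → Ω → E}
    (hZ : ∀ k < N, Z k = H (gp T N k)) :
    itoSum b T N t H = esum b (tau T N 0 t) Z N := by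
  funext ω
  unfold itoSum esum
  refine Finset.sum_congr rfl fun k hk => ?_
  rw [hZ k (Finset.mem_range.1 hk)]
  have h1 : ∀ j, tau T N 0 t j = min (gp T N j) t := fun j => by
    unfold tau
    exact max_eq_right (le_min (gp_nonneg hT N j) ht)
  rw [h1, h1]
  unfold gp
  push_cast
  rfl

/-- `I` is the Ito integral of `H`: at each time it is the mean square limit of the left
Riemann sums -/
def IsIto (P : Measure Ω) (b : ℝ → Ω → ℝ) (T : ℝ) (H I : ℝ → Ω → E) : Prop :=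
  ∀ t ∈ Icc 0 T, MemLp (I t) 2 P ∧
    Tendsto (fun N : ℕ => eLpNorm (fun ω => itoSum b T N t H ω - I t ω) 2 P) atTop (𝓝 0)

/-- truncated values on the grid -/
noncomputable def gz (T : ℝ) (N : ℕ) (H : ℝ → Ω → E) (k : ℕ) : Ω → E :=
  if k < N then H (gp T N k) else fun _ => 0

lemma gz_eq (N : ℕ) (H : ℝ → Ω → E) {k : ℕ} (hk : k < N) : gz T N H k = H (gp T N k) := by
  simp [gz, hk]

lemma gz_good (hN : Noise P F b) (hT : 0 < T) {N : ℕ} {t : ℝ} (ht : 0 ≤ t) {H : ℝ → Ω → E}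
    (hH : ∀ t ∈ Icc 0 T, MemLp (H t) 2 P) (hA : Adp P F T H) :
    Good P F (tau T N 0 t) (gz T N H) := by
  refine good_tau hN hT N le_rfl ht (fun k => ?_) (fun k => ?_)
  · by_cases hk : k < N
    · rw [gz_eq N H hk]
      exact hH _ ⟨gp_nonneg hT N k, gp_le hT (by omega) hk.le⟩
    · simp [gz, hk]
  · by_cases hk : k < N
    · rw [gz_eq N H hk]
      exact hA _ ⟨gp_nonneg hT N k, gp_le hT (by omega) hk.le⟩
    · simp only [gz, hk, if_false]
      exact ⟨fun _ => 0, @stronglyMeasurable_const _ _ (F _) _ _, Filter.EventuallyEq.rfl⟩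

lemma itoSum_iso (hN : Noise P F b) (hT : 0 < T) {N : ℕ} {t : ℝ} (ht : 0 ≤ t) {H : ℝ → Ω → E}
    (hH : ∀ t ∈ Icc 0 T, MemLp (H t) 2 P) (hA : Adp P F T H) :
    MemLp (itoSum b T N t H) 2 P ∧ qn P (itoSum b T N t H)
      = ∑ k ∈ Finset.range N, (tau T N 0 t (k + 1) - tau T N 0 t k) * qn P (H (gp T N k)) := by
  rw [itoSum_eq hT ht (fun k hk => gz_eq N H hk)]
  have h1 := iso_aux hN (gz_good (N := N) hN hT ht hH hA) N
  refine ⟨h1.1, ?_⟩
  have h2 : qn P (esum b (tau T N 0 t) (gz T N H) N) = _ := h1.2.2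
  rw [h2]
  refine Finset.sum_congr rfl fun k hk => ?_
  rw [gz_eq N H (Finset.mem_range.1 hk)]
  rfl

lemma IsIto.tendsto_sn (hN : Noise P F b) (hT : 0 < T) {H I : ℝ → Ω → E}
    (hI : IsIto P b T H I) (hH : ∀ t ∈ Icc 0 T, MemLp (H t) 2 P) (hA : Adp P F T H) {t : ℝ}
    (ht : t ∈ Icc 0 T) :
    Tendsto (fun N : ℕ => sn P (fun ω => itoSum b T N t H ω - I t ω)) atTop (𝓝 0) := by
  have h1 := (ENNReal.tendsto_toReal ENNReal.zero_ne_top).comp (hI t ht).2
  rw [ENNReal.toReal_zero] at h1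
  refine h1.congr fun N => ?_
  exact (sn_toReal ((itoSum_iso hN hT ht.1 hH hA).1.sub (hI t ht).1)).symm

/-- the Ito isometry -/
lemma IsIto.iso (hN : Noise P F b) (hT : 0 < T) {H I : ℝ → Ω → E}
    (hI : IsIto P b T H I) (hH : MSC P T H) (hA : Adp P F T H) {t : ℝ} (ht : t ∈ Icc 0 T) :
    qn P (I t) = ∫ s in (0 : ℝ)..t, qn P (H s) := by
  have h1 := hI.tendsto_sn hN hT hH.memLp hA ht
  have h2 : Tendsto (fun N : ℕ => sn P (itoSum b T N t H)) atTop (𝓝 (sn P (I t))) := by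
    rw [tendsto_iff_dist_tendsto_zero]
    refine squeeze_zero (fun _ => dist_nonneg) (fun N => ?_) h1
    rw [Real.dist_eq]
    exact sn_abs_sub (itoSum_iso hN hT ht.1 hH.memLp hA).1 (hI t ht).1
  have h3 : Tendsto (fun N : ℕ => qn P (itoSum b T N t H)) atTop (𝓝 (qn P (I t))) := by
    have := h2.pow 2
    rw [sn_sq] at this
    refine this.congr fun N => sn_sq _
  have h4 := riemann hT hH.continuousOn_qn ht.1 ht.2
  refine tendsto_nhds_unique h3 (h4.congr fun N => ?_)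
  rw [(itoSum_iso hN hT ht.1 hH.memLp hA).2]
  simp [smul_eq_mul]

lemma IsIto.lincomb (hN : Noise P F b) (hT : 0 < T) {H I H' I' : ℝ → Ω → E}
    (hI : IsIto P b T H I) (hH : ∀ t ∈ Icc 0 T, MemLp (H t) 2 P) (hA : Adp P F T H)
    (hI' : IsIto P b T H' I') (hH' : ∀ t ∈ Icc 0 T, MemLp (H' t) 2 P) (hA' : Adp P F T H')
    (c : ℝ) :
    IsIto P b T (fun t ω => c • H t ω - H' t ω) (fun t ω => c • I t ω - I' t ω) := by
  intro t ht
  have m1 := (hI t ht).1
  have m2 := (hI' t ht).1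
  refine ⟨(m1.const_smul c).sub m2, ?_⟩
  have h1 := hI.tendsto_sn hN hT hH hA ht
  have h2 := hI'.tendsto_sn hN hT hH' hA' ht
  have h3 : Tendsto (fun N : ℕ => |c| * sn P (fun ω => itoSum b T N t H ω - I t ω)
      + sn P (fun ω => itoSum b T N t H' ω - I' t ω)) atTop (𝓝 0) := by
    simpa using (h1.const_mul |c|).add h2
  have h4 : ∀ N : ℕ, (fun ω => itoSum b T N t (fun t ω => c • H t ω - H' t ω) ω
      - (c • I t ω - I' t ω))
      = fun ω => c • (itoSum b T N t H ω - I t ω) + (I' t ω - itoSum b T N t H' ω) := by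
    intro N
    funext ω
    have : itoSum b T N t (fun t ω => c • H t ω - H' t ω) ω
        = c • itoSum b T N t H ω - itoSum b T N t H' ω := by
      unfold itoSum
      rw [Finset.smul_sum, ← Finset.sum_sub_distrib]
      refine Finset.sum_congr rfl fun k _ => ?_
      rw [smul_sub, smul_comm]
    rw [this, smul_sub]
    abel
  have h5 := fun N : ℕ => (itoSum_iso (N := N) hN hT ht.1 hH hA).1
  have h6 := fun N : ℕ => (itoSum_iso (N := N) hN hT ht.1 hH' hA').1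
  have hm : ∀ N : ℕ, MemLp (fun ω => itoSum b T N t (fun t ω => c • H t ω - H' t ω) ω
      - (c • I t ω - I' t ω)) 2 P := by
    intro N
    rw [h4 N]
    exact (((h5 N).sub m1).const_smul c).add (m2.sub (h6 N))
  have h7 : Tendsto (fun N : ℕ => sn P (fun ω => itoSum b T N t (fun t ω => c • H t ω - H' t ω) ω
      - (c • I t ω - I' t ω))) atTop (𝓝 0) := by
    refine squeeze_zero (fun N => sn_nonneg _) (fun N => ?_) h3
    rw [h4 N]
    refine (sn_add_le (((h5 N).sub m1).const_smul c) (m2.sub (h6 N))).trans ?_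
    have e1 : sn P (c • (itoSum b T N t H - I t)) = |c| * sn P (fun ω => itoSum b T N t H ω - I t ω) :=
      sn_smul c _
    have e2 : sn P (I' t - itoSum b T N t H') = sn P (fun ω => itoSum b T N t H' ω - I' t ω) :=
      sn_sub_rev _ _
    rw [e1, e2]
  have h8 := ENNReal.tendsto_ofReal h7
  rw [ENNReal.ofReal_zero] at h8
  exact h8.congr fun N => (eLpNorm_eq_qn (hm N)).symm

/-- a time dependent linear map of a process -/
lemma MSC.clm {X : ℝ → Ω → E} (hX : MSC P T X) {L : ℝ → E →L[ℝ] G}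
    (hL : ContinuousOn L (Icc 0 T)) : MSC P T (fun t ω => L t (X t ω)) := by
  refine MSC.of_sn (fun t ht => memLp_clm (L t) (hX.memLp t ht)) fun s hs => ?_
  obtain ⟨K, hK⟩ := isCompact_Icc.exists_bound_of_continuousOn (s := Icc (0 : ℝ) T) hL
  have hK0 : 0 ≤ K := (norm_nonneg _).trans (hK s hs)
  have h1 := hX.tendsto_sn hs
  have h2 : Tendsto (fun t => ‖L t - L s‖) (𝓝[Icc 0 T] s) (𝓝 0) := by
    have := tendsto_iff_norm_sub_tendsto_zero.1 (hL s hs)
    exact this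
  have h3 : Tendsto (fun t => K * sn P (fun ω => X t ω - X s ω) + ‖L t - L s‖ * sn P (X s))
      (𝓝[Icc 0 T] s) (𝓝 0) := by
    simpa using (h1.const_mul K).add (h2.mul_const (sn P (X s)))
  refine squeeze_zero' (Eventually.of_forall fun _ => sn_nonneg _) ?_ h3
  filter_upwards [self_mem_nhdsWithin] with t ht
  have m1 := (hX.memLp t ht).sub (hX.memLp s hs)
  have e : (fun ω => L t (X t ω) - L s (X s ω))
      = fun ω => L t (X t ω - X s ω) + (L t - L s) (X s ω) := by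
    funext ω
    simp only [map_sub, ContinuousLinearMap.sub_apply]
    abel
  have bnd : ∀ (M : E →L[ℝ] G) (c : ℝ), ‖M‖ ≤ c → ∀ f : Ω → E, MemLp f 2 P →
      sn P (fun ω => M (f ω)) ≤ c * sn P f := by
    intro M c hc f hf
    have hc0 : 0 ≤ c := (norm_nonneg _).trans hc
    have h5 := qn_clm_le M hc hf
    unfold sn
    rw [← Real.sqrt_sq hc0, ← Real.sqrt_mul (sq_nonneg _)]
    exact Real.sqrt_le_sqrt h5
  rw [e]
  refine (sn_add_le (memLp_clm (L t) m1) (memLp_clm (L t - L s) (hX.memLp s hs))).trans ?_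
  exact add_le_add (bnd (L t) K (hK t ht) _ m1) (bnd (L t - L s) _ le_rfl _ (hX.memLp s hs))

lemma Adp.clm {X : ℝ → Ω → E} (hX : Adp P F T X) (L : ℝ → E →L[ℝ] G) :
    Adp P F T (fun t ω => L t (X t ω)) := by
  intro t ht
  obtain ⟨g, hg, hfg⟩ := hX t ht
  exact ⟨fun ω => L t (g ω), (L t).continuous.comp_stronglyMeasurable hg, by
    filter_upwards [hfg] with ω hω
    rw [hω]⟩

lemma MSC.sub {X Y : ℝ → Ω → E} (hX : MSC P T X) (hY : MSC P T Y) (c : ℝ) :
    MSC P T (fun t ω => c • X t ω - Y t ω) := by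
  refine MSC.of_sn (fun t ht => ((hX.memLp t ht).const_smul c).sub (hY.memLp t ht))
    fun s hs => ?_
  have h1 : Tendsto (fun t => |c| * sn P (fun ω => X t ω - X s ω)
      + sn P (fun ω => Y t ω - Y s ω)) (𝓝[Icc 0 T] s) (𝓝 0) := by
    simpa using ((hX.tendsto_sn hs).const_mul |c|).add (hY.tendsto_sn hs)
  refine squeeze_zero' (Eventually.of_forall fun _ => sn_nonneg _) ?_ h1
  filter_upwards [self_mem_nhdsWithin] with t ht
  have e : (fun ω => c • X t ω - Y t ω - (c • X s ω - Y s ω))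
      = fun ω => c • (X t ω - X s ω) + (Y s ω - Y t ω) := by
    funext ω
    rw [smul_sub]
    abel
  rw [e]
  refine (sn_add_le (((hX.memLp t ht).sub (hX.memLp s hs)).const_smul c)
    ((hY.memLp s hs).sub (hY.memLp t ht))).trans ?_
  have e1 : sn P (c • (X t - X s)) = |c| * sn P (fun ω => X t ω - X s ω) := sn_smul c _
  have e2 : sn P (Y s - Y t) = sn P (fun ω => Y t ω - Y s ω) := sn_sub_rev _ _
  rw [e1, e2]

lemma Adp.sub {X Y : ℝ → Ω → E} (hX : Adp P F T X) (hY : Adp P F T Y) (c : ℝ) :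
    Adp P F T (fun t ω => c • X t ω - Y t ω) := by
  intro t ht
  obtain ⟨g, hg, hfg⟩ := hX t ht
  obtain ⟨g', hg', hfg'⟩ := hY t ht
  exact ⟨fun ω => c • g ω - g' ω, (hg.const_smul c).sub hg', by
    filter_upwards [hfg, hfg'] with ω hω hω'
    rw [hω, hω']⟩

end Pool.Agent.ACF
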