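import Mathlib

set_option autoImplicit false
set_option linter.unusedSectionVars false
open MeasureTheory Set Filter Topology Module
open scoped NNReal ENNReal

namespace Pool.Agent.ACF

variable {E : Type*} [NormedAddCommGroup E] [InnerProductSpace ℝ E] [FiniteDimensional ℝ E]
  [MeasurableSpace E] [BorelSpace E]

/-- Hausdorff measure of full dimension, an additive Haar measure -/
noncomputable def hm (E : Type*) [NormedAddCommGroup E] [InnerProductSpace ℝ E]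
    [FiniteDimensional ℝ E] [MeasurableSpace E] [BorelSpace E] : Measure E :=
  Measure.hausdorffMeasure (finrank ℝ E : ℝ)

instance : (hm E).IsAddHaarMeasure := by
  unfold hm
  infer_instance

lemma hm_lip {f : E → E} {K : ℝ≥0} (hf : LipschitzWith K f) (S : Set E) :
    hm E (f '' S) ≤ (K : ℝ≥0∞) ^ (finrank ℝ E) * hm E S := by
  have h := hf.hausdorffMeasure_image_le (d := (finrank ℝ E : ℝ)) (Nat.cast_nonneg _) S
  rw [ENNReal.rpow_natCast] at h
  exact h

/-- the determinant is at most the norm to the dimension -/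
lemma det_le {M : E →L[ℝ] E} {c : ℝ} (hM : ‖M‖ ≤ c) :
    |LinearMap.det (M : E →ₗ[ℝ] E)| ≤ c ^ (finrank ℝ E) := by
  have hc : 0 ≤ c := (norm_nonneg _).trans hM
  have h1 := Measure.addHaar_image_continuousLinearMap (hm E) M (Metric.ball 0 1)
  have hl : LipschitzWith (Real.toNNReal c) M := by
    refine LipschitzWith.of_dist_le_mul fun x y => ?_
    rw [dist_eq_norm, dist_eq_norm, ← map_sub, Real.coe_toNNReal _ hc]
    exact M.le_of_opNorm_le hM _
  have h2 := hm_lip hl (Metric.ball (0 : E) 1)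
  rw [h1] at h2
  have hb0 : hm E (Metric.ball (0 : E) 1) ≠ 0 := (Metric.measure_ball_pos _ _ one_pos).ne'
  have hb1 : hm E (Metric.ball (0 : E) 1) ≠ ⊤ := measure_ball_lt_top.ne
  have h3 := (ENNReal.mul_le_mul_iff_left hb0 hb1).1 h2
  have h4 : ((Real.toNNReal c : ℝ≥0) : ℝ≥0∞) ^ (finrank ℝ E)
      = ENNReal.ofReal (c ^ (finrank ℝ E)) := by
    rw [ENNReal.ofReal_pow hc]
    rfl
  rw [h4] at h3
  exact (ENNReal.ofReal_le_ofReal_iff (by positivity)).1 h3

/-- one step of the splitting scheme -/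
noncomputable def stp (f : E → E) (σ : E →L[ℝ] E) (h β : ℝ) (x : E) : E :=
  (x + h • f x) + β • σ (x + h • f x)

section step

variable {f : E → E} {σ : E →L[ℝ] E} {h β L a : ℝ}

lemma stp_approx (hL : 0 ≤ L) (hf : ∀ x y, ‖f x - f y‖ ≤ L * ‖x - y‖) (hσ : ‖σ‖ ≤ a)
    (hh : 0 ≤ h) (hhL : h * L ≤ 1 / 8) (hβ : |β| * a ≤ 1 / 4) (x y : E) :
    ‖stp f σ h β x - stp f σ h β y - (x - y)‖ ≤ 1 / 2 * ‖x - y‖ := by
  have ha0 : 0 ≤ a := (norm_nonneg _).trans hσ
  have e : stp f σ h β x - stp f σ h β y - (x - y)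
      = h • (f x - f y) + β • σ ((x - y) + h • (f x - f y)) := by
    unfold stp
    simp only [smul_sub, map_add, map_sub, smul_add]
    abel
  have h1 : ‖h • (f x - f y)‖ ≤ 1 / 8 * ‖x - y‖ := by
    rw [norm_smul, Real.norm_eq_abs, abs_of_nonneg hh]
    have h2 := mul_le_mul_of_nonneg_left (hf x y) hh
    have h3 := mul_le_mul_of_nonneg_right hhL (norm_nonneg (x - y))
    linarith
  have h2 : ‖(x - y) + h • (f x - f y)‖ ≤ 9 / 8 * ‖x - y‖ := by
    have := norm_add_le (x - y) (h • (f x - f y))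
    linarith
  have h3 : ‖β • σ ((x - y) + h • (f x - f y))‖ ≤ 9 / 32 * ‖x - y‖ := by
    rw [norm_smul, Real.norm_eq_abs]
    have h4 : ‖σ ((x - y) + h • (f x - f y))‖ ≤ a * (9 / 8 * ‖x - y‖) :=
      (σ.le_of_opNorm_le hσ _).trans (mul_le_mul_of_nonneg_left h2 ha0)
    have h5 := mul_le_mul_of_nonneg_left h4 (abs_nonneg β)
    have h6 := mul_le_mul_of_nonneg_right hβ (norm_nonneg (x - y))
    nlinarith
  rw [e]
  have h7 := norm_add_le (h • (f x - f y)) (β • σ ((x - y) + h • (f x - f y)))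
  have h8 := norm_nonneg (x - y)
  linarith

lemma id_nnnorm : (Subsingleton E ∨ (1 / 2 : ℝ≥0)
    < ‖((ContinuousLinearEquiv.refl ℝ E).symm : E →L[ℝ] E)‖₊⁻¹) := by
  rcases subsingleton_or_nontrivial E with h | h
  · exact Or.inl h
  · right
    have : ‖((ContinuousLinearEquiv.refl ℝ E).symm : E →L[ℝ] E)‖₊ = 1 := by
      have h1 : ((ContinuousLinearEquiv.refl ℝ E).symm : E →L[ℝ] E)
          = ContinuousLinearMap.id ℝ E := rfl
      rw [h1]
      exact ContinuousLinearMap.nnnorm_id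
    rw [this, inv_one]
    norm_num

/-- a map close to the identity is a homeomorphism -/
noncomputable def homeo {φ : E → E} (hφ : ∀ x y, ‖φ x - φ y - (x - y)‖ ≤ 1 / 2 * ‖x - y‖) :
    E ≃ₜ E :=
  ApproximatesLinearOn.toHomeomorph (𝕜 := ℝ) φ (f' := ContinuousLinearEquiv.refl ℝ E)
    (c := 1 / 2) (fun x _ y _ => by
      have := hφ x y
      simpa using this) id_nnnorm

lemma homeo_apply {φ : E → E} (hφ : ∀ x y, ‖φ x - φ y - (x - y)‖ ≤ 1 / 2 * ‖x - y‖) (x : E) :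
    homeo hφ x = φ x := rfl

lemma drift_lip (hL : 0 ≤ L) (hf : ∀ x y, ‖f x - f y‖ ≤ L * ‖x - y‖) (hh : 0 ≤ h) :
    LipschitzWith (Real.toNNReal (1 + h * L)) (fun x => x + h • f x) := by
  refine LipschitzWith.of_dist_le_mul fun x y => ?_
  rw [dist_eq_norm, dist_eq_norm, Real.coe_toNNReal _ (by positivity)]
  have e : x + h • f x - (y + h • f y) = (x - y) + h • (f x - f y) := by
    rw [smul_sub]
    abel
  rw [e]
  refine (norm_add_le _ _).trans ?_
  rw [norm_smul, Real.norm_eq_abs, abs_of_nonneg hh]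
  have h2 := mul_le_mul_of_nonneg_left (hf x y) hh
  linarith

/-- the noise part of a step -/
noncomputable def Mb (σ : E →L[ℝ] E) (β : ℝ) : E →L[ℝ] E := ContinuousLinearMap.id ℝ E + β • σ

lemma Mb_apply (σ : E →L[ℝ] E) (β : ℝ) (z : E) : Mb σ β z = z + β • σ z := rfl

/-- the distortion constant of a step -/
noncomputable def Kb (σ : E →L[ℝ] E) (h β L : ℝ) : ℝ :=
  |LinearMap.det (Mb σ β : E →ₗ[ℝ] E)| * (1 + h * L) ^ (finrank ℝ E)

lemma det_ne (hσ : ‖σ‖ ≤ a) (hβ : |β| * a ≤ 1 / 4) :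
    LinearMap.det (Mb σ β : E →ₗ[ℝ] E) ≠ 0 := by
  have hinj : LinearMap.ker (Mb σ β : E →ₗ[ℝ] E) = ⊥ := by
    rw [LinearMap.ker_eq_bot']
    intro z hz
    have hz' : z + β • σ z = 0 := hz
    have h1 : ‖z‖ ≤ 1 / 4 * ‖z‖ := by
      have e : z = -(β • σ z) := eq_neg_of_add_eq_zero_left hz'
      calc ‖z‖ = ‖β • σ z‖ := by rw [← norm_neg (β • σ z), ← e]
        _ = |β| * ‖σ z‖ := by rw [norm_smul, Real.norm_eq_abs]
        _ ≤ |β| * (a * ‖z‖) := mul_le_mul_of_nonneg_left (σ.le_of_opNorm_le hσ z) (abs_nonneg _)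
        _ ≤ 1 / 4 * ‖z‖ := by
            have := mul_le_mul_of_nonneg_right hβ (norm_nonneg z)
            linarith
    have h2 := norm_nonneg z
    exact norm_eq_zero.1 (by linarith)
  have h1 : IsUnit (Mb σ β : E →ₗ[ℝ] E) := (LinearMap.isUnit_iff_ker_eq_bot _).2 hinj
  exact (LinearMap.isUnit_det _ h1).ne_zero

lemma Kb_pos (hL : 0 ≤ L) (hh : 0 ≤ h) (hσ : ‖σ‖ ≤ a) (hβ : |β| * a ≤ 1 / 4) :
    0 < Kb σ h β L := by
  unfold Kb
  have := abs_pos.2 (det_ne hσ hβ)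
  positivity

/-- the product of the distortion constants of opposite noises -/
lemma Kb_mul (hL : 0 ≤ L) (hh : 0 ≤ h) (hσ : ‖σ‖ ≤ a) :
    Kb σ h β L * Kb σ h (-β) L
      ≤ (1 + β ^ 2 * a ^ 2) ^ (finrank ℝ E) * ((1 + h * L) ^ (finrank ℝ E)) ^ 2 := by
  have ha0 : 0 ≤ a := (norm_nonneg _).trans hσ
  have e : Kb σ h β L * Kb σ h (-β) L
      = |LinearMap.det ((Mb σ β ∘L Mb σ (-β) : E →L[ℝ] E) : E →ₗ[ℝ] E)|
        * ((1 + h * L) ^ (finrank ℝ E)) ^ 2 := by
    unfold Kb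
    have e1 : ((Mb σ β ∘L Mb σ (-β) : E →L[ℝ] E) : E →ₗ[ℝ] E)
        = (Mb σ β : E →ₗ[ℝ] E) ∘ₗ (Mb σ (-β) : E →ₗ[ℝ] E) := rfl
    rw [e1, LinearMap.det_comp, abs_mul]
    ring
  rw [e]
  refine mul_le_mul_of_nonneg_right (det_le ?_) (by positivity)
  have e2 : Mb σ β ∘L Mb σ (-β) = ContinuousLinearMap.id ℝ E - (β ^ 2) • (σ ∘L σ) := by
    ext z
    simp only [ContinuousLinearMap.comp_apply, Mb_apply, sub_apply, ContinuousLinearMap.id_apply,
      smul_apply, map_add, map_smul, smul_add, smul_smul, neg_smul, map_neg]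
    rw [pow_two]
    module
  rw [e2]
  refine (norm_sub_le _ _).trans ?_
  have h1 : ‖ContinuousLinearMap.id ℝ E‖ ≤ 1 := ContinuousLinearMap.norm_id_le
  have h2 : ‖(β ^ 2) • (σ ∘L σ)‖ ≤ β ^ 2 * a ^ 2 := by
    rw [norm_smul, Real.norm_eq_abs, abs_of_nonneg (sq_nonneg β)]
    refine mul_le_mul_of_nonneg_left ?_ (sq_nonneg β)
    refine (ContinuousLinearMap.opNorm_comp_le _ _).trans ?_
    rw [pow_two]
    exact mul_le_mul hσ hσ (norm_nonneg _) ha0
  linarith

/-- a step expands the measure by at most its distortion constant -/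
lemma stp_measure (hL : 0 ≤ L) (hf : ∀ x y, ‖f x - f y‖ ≤ L * ‖x - y‖) (hσ : ‖σ‖ ≤ a)
    (hh : 0 ≤ h) (hhL : h * L ≤ 1 / 8) (hβ : |β| * a ≤ 1 / 4) (S : Set E) :
    hm E S ≤ ENNReal.ofReal (Kb σ h β L) * hm E (stp f σ h β ⁻¹' S) := by
  have hφ := stp_approx (f := f) hL hf hσ hh hhL hβ
  have hsurj : Function.Surjective (stp f σ h β) := (homeo hφ).surjective
  have e : S = Mb σ β '' ((fun x => x + h • f x) '' (stp f σ h β ⁻¹' S)) := by
    rw [← image_comp]
    have : (Mb σ β : E → E) ∘ (fun x => x + h • f x) = stp f σ h β := rfl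
    rw [this, image_preimage_eq S hsurj]
  have h1 : hm E S = ENNReal.ofReal |LinearMap.det (Mb σ β : E →ₗ[ℝ] E)|
      * hm E ((fun x => x + h • f x) '' (stp f σ h β ⁻¹' S)) := by
    conv_lhs => rw [e]
    exact Measure.addHaar_image_continuousLinearMap (hm E) (Mb σ β) _
  have h2 := hm_lip (drift_lip hL hf hh) (stp f σ h β ⁻¹' S)
  have h3 : ((Real.toNNReal (1 + h * L) : ℝ≥0) : ℝ≥0∞) ^ (finrank ℝ E)
      = ENNReal.ofReal ((1 + h * L) ^ (finrank ℝ E)) := by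
    rw [ENNReal.ofReal_pow (by positivity)]
    rfl
  rw [h3] at h2
  rw [h1]
  unfold Kb
  rw [ENNReal.ofReal_mul (abs_nonneg _), mul_assoc]
  gcongr

end step

end Pool.Agent.ACF
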