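import Pool.Agent.ACF.ConvL

set_option autoImplicit false
set_option linter.unusedSectionVars false
open MeasureTheory ProbabilityTheory Set Filter Topology
open scoped NNReal ENNReal

namespace Pool.Agent.ACF

variable {E : Type*} [NormedAddCommGroup E] [InnerProductSpace ℝ E] [CompleteSpace E]
variable {G : Type*} [NormedAddCommGroup G] [InnerProductSpace ℝ G] [CompleteSpace G]
variable {H : Type*} [NormedAddCommGroup H] [InnerProductSpace ℝ H] [CompleteSpace H]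
variable {Ω : Type*} {mΩ : MeasurableSpace Ω} {P : Measure Ω} [IsProbabilityMeasure P]
  {F : ℝ → MeasurableSpace Ω} {b : ℝ → Ω → ℝ} {T : ℝ}

/-- a Lipschitz law which vanishes at the origin and is differentiable there at each time -/
structure LawL (T : ℝ) (f : ℝ → E → G) (K : ℝ → E →L[ℝ] G) : Prop where
  cont : ContinuousOn K (Icc 0 T)
  zero : ∀ t ∈ Icc 0 T, f t 0 = 0
  lip : ∃ κ : ℝ, 0 ≤ κ ∧ ∀ t ∈ Icc 0 T, ∀ x y, ‖f t x - f t y‖ ≤ κ * ‖x - y‖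
  time : ∀ x, ContinuousOn (fun t => f t x) (Icc 0 T)
  diff : ∀ t ∈ Icc 0 T, ∀ η > 0, ∃ δ > 0, ∀ x, ‖x‖ ≤ δ → ‖f t x - K t x‖ ≤ η * ‖x‖

/-- joint continuity of a Lipschitz law, extended in time -/
lemma lip_joint (hT : 0 ≤ T) {κ : ℝ} (hκ : 0 ≤ κ) {f : ℝ → E → G}
    (hl : ∀ t ∈ Icc 0 T, ∀ x y, ‖f t x - f t y‖ ≤ κ * ‖x - y‖)
    (ht : ∀ x, ContinuousOn (fun t => f t x) (Icc 0 T)) :
    Continuous (fun q : E × ℝ => f (projIcc 0 T hT q.2) q.1) := by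
  refine continuous_prod_of_continuous_lipschitzWith _ (Real.toNNReal κ) (fun x => ?_)
    (fun t => ?_)
  · exact (continuousOn_iff_continuous_domRestrict.1 (ht x)).comp continuous_projIcc
  · refine LipschitzWith.of_dist_le_mul fun x y => ?_
    rw [dist_eq_norm, dist_eq_norm, Real.coe_toNNReal _ hκ]
    exact hl _ (projIcc 0 T hT t).2 x y

/-- measurability of a Lipschitz law along a process -/
lemma lip_aesm (hT : 0 ≤ T) {κ : ℝ} (hκ : 0 ≤ κ) {f : ℝ → E → G}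
    (hl : ∀ t ∈ Icc 0 T, ∀ x y, ‖f t x - f t y‖ ≤ κ * ‖x - y‖)
    (ht : ∀ x, ContinuousOn (fun t => f t x) (Icc 0 T)) {z : ℝ → Ω → E}
    (hz : AEStronglyMeasurable (fun p : ℝ × Ω => z p.1 p.2) (muT T P)) :
    AEStronglyMeasurable (fun p : ℝ × Ω => f p.1 (z p.1 p.2)) (muT T P) := by
  have h1 : AEStronglyMeasurable (fun p : ℝ × Ω => (z p.1 p.2, p.1)) (muT T P) :=
    hz.prodMk measurable_fst.aestronglyMeasurable
  have h2 := (lip_joint hT hκ hl ht).comp_aestronglyMeasurable h1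
  refine h2.congr ?_
  filter_upwards [muT_ae (P := P) T] with p hp
  rw [projIcc_of_mem hT hp]

/-- the error term -/
noncomputable def thf (f : ℝ → E → G) (K : ℝ → E →L[ℝ] G) (ε : ℕ → ℝ) (y : ℝ → Ω → E)
    (n : ℕ) (t : ℝ) (ω : Ω) : ℝ := ‖(ε n)⁻¹ • f t (ε n • y t ω) - K t (y t ω)‖

lemma thf_nonneg (f : ℝ → E → G) (K : ℝ → E →L[ℝ] G) (ε : ℕ → ℝ) (y : ℝ → Ω → E)
    (n : ℕ) (t : ℝ) (ω : Ω) : 0 ≤ thf f K ε y n t ω := norm_nonneg _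

lemma lip_zero {κ : ℝ} {f : E → G} (hl : ∀ x y, ‖f x - f y‖ ≤ κ * ‖x - y‖) (h0 : f 0 = 0)
    (x : E) : ‖f x‖ ≤ κ * ‖x‖ := by
  have h := hl x 0
  rwa [h0, sub_zero, sub_zero] at h

lemma thf_bound {f : E → G} {K : E →L[ℝ] G} {κ k : ℝ}
    (hl : ∀ x y, ‖f x - f y‖ ≤ κ * ‖x - y‖) (h0 : f 0 = 0) (hk : ‖K‖ ≤ k) {e : ℝ}
    (he : 0 < e) (y : E) : ‖e⁻¹ • f (e • y) - K y‖ ≤ (κ + k) * ‖y‖ := by
  have h1 := lip_zero hl h0 (e • y)
  have h2 : ‖e⁻¹ • f (e • y)‖ ≤ κ * ‖y‖ := by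
    rw [norm_smul, Real.norm_eq_abs, abs_of_pos (inv_pos.2 he)]
    rw [norm_smul, Real.norm_eq_abs, abs_of_pos he] at h1
    calc e⁻¹ * ‖f (e • y)‖ ≤ e⁻¹ * (κ * (e * ‖y‖)) :=
          mul_le_mul_of_nonneg_left h1 (inv_pos.2 he).le
      _ = κ * ‖y‖ := by field_simp
  have h3 : ‖K y‖ ≤ k * ‖y‖ := K.le_of_opNorm_le hk y
  refine (norm_sub_le _ _).trans ?_
  linarith

lemma thf_le {f : E → G} {K : E →L[ℝ] G} {κ : ℝ} (hl : ∀ x y, ‖f x - f y‖ ≤ κ * ‖x - y‖)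
    {e : ℝ} (he : 0 < e) (x y : E) : ‖e⁻¹ • f x - K y‖
      ≤ κ * ‖e⁻¹ • x - y‖ + ‖e⁻¹ • f (e • y) - K y‖ := by
  have e1 : e⁻¹ • f x - K y = e⁻¹ • (f x - f (e • y)) + (e⁻¹ • f (e • y) - K y) := by
    rw [smul_sub]
    abel
  rw [e1]
  refine (norm_add_le _ _).trans (add_le_add ?_ le_rfl)
  rw [norm_smul, Real.norm_eq_abs, abs_of_pos (inv_pos.2 he)]
  have h1 := hl x (e • y)
  have e2 : x - e • y = e • (e⁻¹ • x - y) := by
    rw [smul_sub, smul_smul, mul_inv_cancel₀ he.ne', one_smul]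
  rw [e2, norm_smul, Real.norm_eq_abs, abs_of_pos he] at h1
  calc e⁻¹ * ‖f x - f (e • y)‖ ≤ e⁻¹ * (κ * (e * ‖e⁻¹ • x - y‖)) :=
        mul_le_mul_of_nonneg_left h1 (inv_pos.2 he).le
    _ = κ * ‖e⁻¹ • x - y‖ := by field_simp

lemma thf_ptw {f : E → G} {K : E →L[ℝ] G}
    (hd : ∀ η > 0, ∃ δ > 0, ∀ x, ‖x‖ ≤ δ → ‖f x - K x‖ ≤ η * ‖x‖) {ε : ℕ → ℝ}
    (hε : ∀ n, 0 < ε n) (hε0 : Tendsto ε atTop (𝓝 0)) (y : E) :
    Tendsto (fun n => ‖(ε n)⁻¹ • f (ε n • y) - K y‖) atTop (𝓝 0) := by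
  rw [Metric.tendsto_atTop]
  intro e he
  obtain ⟨δ, hδ, h1⟩ := hd (e / (2 * (‖y‖ + 1))) (by positivity)
  have h2 : Tendsto (fun n => ε n * ‖y‖) atTop (𝓝 0) := by
    have := hε0.mul_const ‖y‖
    rwa [zero_mul] at this
  obtain ⟨n0, hn0⟩ := (Metric.tendsto_atTop.1 h2) δ hδ
  refine ⟨n0, fun n hn => ?_⟩
  have h3 := hn0 n hn
  have hy0 := norm_nonneg y
  rw [Real.dist_eq, sub_zero, abs_of_nonneg (mul_nonneg (hε n).le hy0)] at h3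
  rw [Real.dist_eq, sub_zero, abs_of_nonneg (norm_nonneg _)]
  have h4 : ‖ε n • y‖ = ε n * ‖y‖ := by
    rw [norm_smul, Real.norm_eq_abs, abs_of_pos (hε n)]
  have h5 := h1 (ε n • y) (by rw [h4]; exact h3.le)
  have e1 : (ε n)⁻¹ • f (ε n • y) - K y = (ε n)⁻¹ • (f (ε n • y) - K (ε n • y)) := by
    rw [smul_sub, map_smul, smul_smul (ε n)⁻¹, inv_mul_cancel₀ (hε n).ne', one_smul]
  rw [e1, norm_smul, Real.norm_eq_abs, abs_of_pos (inv_pos.2 (hε n))]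
  have h6 : (ε n)⁻¹ * ‖f (ε n • y) - K (ε n • y)‖ ≤ e / (2 * (‖y‖ + 1)) * ‖y‖ := by
    rw [h4] at h5
    calc (ε n)⁻¹ * ‖f (ε n • y) - K (ε n • y)‖
        ≤ (ε n)⁻¹ * (e / (2 * (‖y‖ + 1)) * (ε n * ‖y‖)) :=
          mul_le_mul_of_nonneg_left h5 (inv_pos.2 (hε n)).le
      _ = e / (2 * (‖y‖ + 1)) * ‖y‖ := by
          have := (hε n).ne'
          field_simp
  refine h6.trans_lt ?_
  have h7 : e / (2 * (‖y‖ + 1)) * ‖y‖ ≤ e / 2 := by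
    have h8 : e / (2 * (‖y‖ + 1)) * ‖y‖ = e / 2 * (‖y‖ / (‖y‖ + 1)) := by field_simp
    rw [h8]
    have h9 : ‖y‖ / (‖y‖ + 1) ≤ 1 := by
      rw [div_le_one (by positivity)]
      linarith
    calc e / 2 * (‖y‖ / (‖y‖ + 1)) ≤ e / 2 * 1 := by gcongr
      _ = e / 2 := mul_one _
  linarith

/-- the error term is square integrable and vanishes in mean square -/
lemma thf_all (hT : 0 ≤ T) {f : ℝ → E → G} {K : ℝ → E →L[ℝ] G} (hf : LawL T f K)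
    {y : ℝ → Ω → E} (hy : MemLp (fun p : ℝ × Ω => y p.1 p.2) 2 (muT T P)) {ε : ℕ → ℝ}
    (hε : ∀ n, 0 < ε n) (hε0 : Tendsto ε atTop (𝓝 0)) :
    (∀ n, MemLp (fun p : ℝ × Ω => thf f K ε y n p.1 p.2) 2 (muT T P)) ∧
    Tendsto (fun n => ∫ p, ‖thf f K ε y n p.1 p.2‖ ^ 2 ∂(muT T P)) atTop (𝓝 0) := by
  obtain ⟨κ, hκ, hl⟩ := hf.lip
  obtain ⟨k, hk⟩ := isCompact_Icc.exists_bound_of_continuousOn (s := Icc (0 : ℝ) T) hf.cont
  have hm : ∀ n, MemLp (fun p : ℝ × Ω => thf f K ε y n p.1 p.2) 2 (muT T P) := by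
    intro n
    have h1 : AEStronglyMeasurable (fun p : ℝ × Ω => f p.1 (ε n • y p.1 p.2)) (muT T P) :=
      lip_aesm (z := fun t ω => ε n • y t ω) hT hκ hl hf.time (hy.1.const_smul (ε n))
    have h2 : AEStronglyMeasurable (fun p : ℝ × Ω => thf f K ε y n p.1 p.2) (muT T P) :=
      ((h1.const_smul (ε n)⁻¹).sub (clm_memLp hT hf.cont hy).1).norm
    refine MemLp.of_le_mul hy h2 (c := κ + k) ?_
    filter_upwards [muT_ae (P := P) T] with p hp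
    rw [Real.norm_eq_abs, abs_of_nonneg (thf_nonneg _ _ _ _ _ _ _)]
    exact thf_bound (hl _ hp) (hf.zero _ hp) (hk _ hp) (hε n) _
  refine ⟨hm, ?_⟩
  suffices key : Tendsto (fun n => ∫ p, ‖thf f K ε y n p.1 p.2‖ ^ 2 ∂(muT T P)) atTop
      (𝓝 (∫ _p : ℝ × Ω, (0 : ℝ) ∂(muT T P))) by
    rwa [integral_zero] at key
  have iy := int_sq hy
  refine tendsto_integral_of_dominated_convergence
    (fun p => (κ + k) ^ 2 * ‖y p.1 p.2‖ ^ 2) (fun n => ((hm n).1.norm.pow 2))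
    (iy.const_mul _) (fun n => ?_) ?_
  · filter_upwards [muT_ae (P := P) T] with p hp
    have h3 := thf_bound (hl _ hp) (hf.zero _ hp) (hk _ hp) (hε n) (y p.1 p.2)
    rw [Real.norm_eq_abs, abs_of_nonneg (sq_nonneg _), ← mul_pow, Real.norm_eq_abs,
      abs_of_nonneg (thf_nonneg _ _ _ _ _ _ _)]
    exact pow_le_pow_left₀ (thf_nonneg _ _ _ _ _ _ _) h3 2
  · filter_upwards [muT_ae (P := P) T] with p hp
    have h4 := (thf_ptw (hf.diff _ hp) hε hε0 (y p.1 p.2)).norm.pow 2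
    simpa [thf] using h4

end Pool.Agent.ACF
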