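import Pool.Agent.ACF.Nest

set_option autoImplicit false
set_option linter.unusedSectionVars false
open MeasureTheory ProbabilityTheory Set Filter Topology
open scoped NNReal ENNReal

namespace Pool.Agent.ACF

variable {E : Type*} [NormedAddCommGroup E] [InnerProductSpace ℝ E]
variable {Ω : Type*} {mΩ : MeasurableSpace Ω} {P : Measure Ω} [IsProbabilityMeasure P]
  {F : ℝ → MeasurableSpace Ω} {b : ℝ → Ω → ℝ} {T : ℝ}
  {A D : ℝ → E →L[ℝ] E} {N M : ℕ} {ξ : E}

lemma eLpNorm_eq_qn {f : Ω → E} (hf : MemLp f 2 P) :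
    eLpNorm f 2 P = ENNReal.ofReal (Real.sqrt (qn P f)) := by
  rw [hf.eLpNorm_eq_integral_rpow_norm two_ne_zero ENNReal.ofNat_ne_top]
  unfold qn
  rw [Real.sqrt_eq_rpow]
  simp only [ENNReal.toReal_ofNat, Real.rpow_ofNat, one_div]

lemma qn_le_of_eLpNorm {f : Ω → E} (hf : MemLp f 2 P) {r : ℝ} (hr : 0 ≤ r)
    (h : eLpNorm f 2 P ≤ ENNReal.ofReal r) : qn P f ≤ r ^ 2 := by
  rw [eLpNorm_eq_qn hf, ENNReal.ofReal_le_ofReal_iff hr, Real.sqrt_le_left hr] at h
  exact h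

/-- there is a jointly measurable version of the noise, equal to it along almost every path -/
def JM (P : Measure Ω) (b : ℝ → Ω → ℝ) : Prop :=
  ∃ b' : ℝ → Ω → ℝ, StronglyMeasurable (fun p : ℝ × Ω => b' p.1 p.2) ∧
    ∀ᵐ ω ∂P, ∀ t, b t ω = b' t ω

lemma eul_congr {b' : ℝ → Ω → ℝ} {ω : Ω} (h : ∀ t, b t ω = b' t ω) (k : ℕ) :
    eul b A D T N ξ k ω = eul b' A D T N ξ k ω := by
  induction k with
  | zero => rfl
  | succ k ih =>
    simp only [eul]
    rw [ih, h, h]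

lemma yI_congr {b' : ℝ → Ω → ℝ} {ω : Ω} (h : ∀ t, b t ω = b' t ω) (t : ℝ) :
    yI b A D T N ξ t ω = yI b' A D T N ξ t ω := by
  unfold yI eA eD esum
  simp_rw [h, eul_congr h]

lemma eul_joint {b' : ℝ → Ω → ℝ} (hb : StronglyMeasurable (fun p : ℝ × Ω => b' p.1 p.2)) (k : ℕ) :
    StronglyMeasurable (eul b' A D T N ξ k) := by
  have hs : ∀ t, StronglyMeasurable (b' t) := fun t =>
    hb.comp_measurable (measurable_prodMk_left (x := t))
  induction k with
  | zero => exact stronglyMeasurable_const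
  | succ k ih =>
    have h2 : StronglyMeasurable (fun ω => A (gp T N k) (eul b' A D T N ξ k ω)) :=
      (A (gp T N k)).continuous.comp_stronglyMeasurable ih
    have h3 : StronglyMeasurable (fun ω => D (gp T N k) (eul b' A D T N ξ k ω)) :=
      (D (gp T N k)).continuous.comp_stronglyMeasurable ih
    exact (ih.add (h2.const_smul _)).add (((hs _).sub (hs _)).smul h3)

lemma yI_joint {b' : ℝ → Ω → ℝ} (hb : StronglyMeasurable (fun p : ℝ × Ω => b' p.1 p.2)) :
    StronglyMeasurable (fun p : ℝ × Ω => yI b' A D T N ξ p.1 p.2) := by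
  have htau : ∀ k, Measurable (fun t : ℝ => tau T N 0 t k) := by
    intro k
    unfold tau
    fun_prop
  have hbt : ∀ k, StronglyMeasurable (fun p : ℝ × Ω => b' (tau T N 0 p.1 k) p.2) := by
    intro k
    have h1 : Measurable (fun p : ℝ × Ω => ((tau T N 0 p.1 k, p.2) : ℝ × Ω)) :=
      ((htau k).comp measurable_fst).prodMk measurable_snd
    exact hb.comp_measurable h1
  have hA : ∀ k, StronglyMeasurable (fun p : ℝ × Ω => eA b' A D T N ξ k p.2) := fun k =>
    ((A (gp T N k)).continuous.comp_stronglyMeasurable (eul_joint hb k)).comp_measurable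
      measurable_snd
  have hD : ∀ k, StronglyMeasurable (fun p : ℝ × Ω => eD b' A D T N ξ k p.2) := fun k =>
    ((D (gp T N k)).continuous.comp_stronglyMeasurable (eul_joint hb k)).comp_measurable
      measurable_snd
  have ht : ∀ k, StronglyMeasurable (fun p : ℝ × Ω => tau T N 0 p.1 k) := fun k =>
    ((htau k).comp measurable_fst).stronglyMeasurable
  unfold yI psum esum
  refine stronglyMeasurable_const.add ((Finset.stronglyMeasurable_fun_sum _ fun k _ => ?_).add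
    (Finset.stronglyMeasurable_fun_sum _ fun k _ => ?_))
  · exact ((ht (k + 1)).sub (ht k)).smul (hA k)
  · exact ((hbt (k + 1)).sub (hbt k)).smul (hD k)

lemma osc_of_cont (hc : ContinuousOn A (Icc 0 T)) {e : ℝ} (he : 0 < e) :
    ∃ δ > 0, ∀ h ≤ δ, Osc T A h e := by
  have h1 := isCompact_Icc.uniformContinuousOn_of_continuous hc
  rw [Metric.uniformContinuousOn_iff_le] at h1
  obtain ⟨δ, hδ, h2⟩ := h1 e he
  refine ⟨δ, hδ, fun h hh s hs t ht hst => ?_⟩
  have := h2 s hs t ht (by rw [Real.dist_eq]; exact hst.trans hh)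
  rwa [dist_eq_norm] at this

lemma cauchy_nest (hN : Noise P F b) (hT : 0 < T) {K : ℝ} (hK : Coef T A D K)
    (hcA : ContinuousOn A (Icc 0 T)) (hcD : ContinuousOn D (Icc 0 T)) {ε : ℝ} (hε : 0 < ε) :
    ∃ N0 : ℕ, 0 < N0 ∧ ∀ N, N0 ≤ N → ∀ M, 0 < M → ∀ t ∈ Icc 0 T,
      qn P (fun ω => yI b A D T N ξ t ω - yI b A D T (N * M) ξ t ω) ≤ ε := by
  set c : ℝ := 2 * (T + 1) * T * (1 + 3 * K ^ 2 * Gm T K) with hc
  have hG0 : 0 ≤ Gm T K := by unfold Gm; positivity
  have hc0 : 0 ≤ c := by positivity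
  have hM0 := M0_nonneg T K ξ
  have hC1 := C1_nonneg hT K ξ
  set q : ℝ := c * 3 * M0 T K ξ + 1 with hq
  have hq0 : 0 < q := by positivity
  set e : ℝ := min 1 (ε / (2 * q)) with he
  have he0 : 0 < e := lt_min one_pos (by positivity)
  have he1 : e ≤ 1 := min_le_left _ _
  have he2 : e ≤ ε / (2 * q) := min_le_right _ _
  obtain ⟨δ1, hδ1, hA⟩ := osc_of_cont hcA he0
  obtain ⟨δ2, hδ2, hD⟩ := osc_of_cont hcD he0
  set q' : ℝ := c * (3 * K ^ 2 * C1 T K ξ) + 1 with hq'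
  have hq'0 : 0 < q' := by positivity
  set η : ℝ := min (min δ1 δ2) (ε / (2 * q')) with hη
  have hη0 : 0 < η := lt_min (lt_min hδ1 hδ2) (by positivity)
  obtain ⟨n, hn⟩ := exists_nat_gt (T / η)
  refine ⟨n + 1, Nat.succ_pos _, fun N hNn M hM t ht => ?_⟩
  have hNp : 0 < N := by omega
  have hNr : (0 : ℝ) < N := Nat.cast_pos.2 hNp
  have hTN : T / N ≤ η := by
    rw [div_le_iff₀ hNr]
    have h1 : (n : ℝ) ≤ N := Nat.cast_le.2 (by omega)
    rw [div_lt_iff₀ hη0] at hn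
    nlinarith
  have h1 := nest (A := A) (D := D) (N := N) (M := M) (ξ := ξ) hN hT hK hNp hM
    (hA (T / N) (hTN.trans ((min_le_left _ _).trans (min_le_left _ _))))
    (hD (T / N) (hTN.trans ((min_le_left _ _).trans (min_le_right _ _)))) rfl ht.1 ht.2
  refine h1.trans ?_
  rw [← hc]
  have h2 : e ^ 2 ≤ e := by nlinarith
  have h3 : e * (2 * q) ≤ ε := by
    rwa [le_div_iff₀ (by positivity)] at he2
  have h4 : (T / N) * (2 * q') ≤ ε := by
    have := hTN.trans (min_le_right _ _)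
    rwa [le_div_iff₀ (by positivity)] at this
  have h5 : c * 3 * M0 T K ξ * e ^ 2 ≤ c * 3 * M0 T K ξ * e := by gcongr
  have h6 : 0 ≤ T / N := by positivity
  have h7 : c * (3 * e ^ 2 * M0 T K ξ + 3 * K ^ 2 * (C1 T K ξ * (T / N)))
      = c * 3 * M0 T K ξ * e ^ 2 + (q' - 1) * (T / N) := by rw [hq']; ring
  rw [h7]
  have h8 : c * 3 * M0 T K ξ * e = (q - 1) * e := by rw [hq]; ring
  rw [h8] at h5
  nlinarith

lemma cauchy_all (hN : Noise P F b) (hT : 0 < T) {K : ℝ} (hK : Coef T A D K)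
    (hcA : ContinuousOn A (Icc 0 T)) (hcD : ContinuousOn D (Icc 0 T)) {ε : ℝ} (hε : 0 < ε) :
    ∃ N0 : ℕ, 0 < N0 ∧ ∀ N, N0 ≤ N → ∀ M, N0 ≤ M → ∀ t ∈ Icc 0 T,
      qn P (fun ω => yI b A D T N ξ t ω - yI b A D T M ξ t ω) ≤ ε := by
  obtain ⟨N0, h0, h⟩ := cauchy_nest (P := P) (F := F) (b := b) (ξ := ξ) hN hT hK hcA hcD
    (by positivity : 0 < ε / 4)
  refine ⟨N0, h0, fun N hNN M hMM t ht => ?_⟩
  have h1 := h N hNN M (by omega) t ht
  have h2 := h M hMM N (by omega) t ht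
  rw [Nat.mul_comm M N] at h2
  have m1 : MemLp (yI b A D T N ξ t) 2 P := yI_memLp hN hT ht.1
  have m2 : MemLp (yI b A D T M ξ t) 2 P := yI_memLp hN hT ht.1
  have m3 : MemLp (yI b A D T (N * M) ξ t) 2 P := yI_memLp hN hT ht.1
  have h3 := qn_sub_le (m1.sub m3) (m2.sub m3)
  have e1 : qn P (yI b A D T N ξ t - yI b A D T (N * M) ξ t) ≤ ε / 4 := h1
  have e2 : qn P (yI b A D T M ξ t - yI b A D T (N * M) ξ t) ≤ ε / 4 := h2
  have e3 : (fun ω => (yI b A D T N ξ t - yI b A D T (N * M) ξ t) ω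
      - (yI b A D T M ξ t - yI b A D T (N * M) ξ t) ω)
      = fun ω => yI b A D T N ξ t ω - yI b A D T M ξ t ω := by
    funext ω
    simp only [Pi.sub_apply]
    abel
  rw [e3] at h3
  linarith

theorem exists_limit [CompleteSpace E] (hN : Noise P F b) (hJ : JM P b) (hT : 0 < T) {K : ℝ}
    (hK : Coef T A D K) (hcA : ContinuousOn A (Icc 0 T)) (hcD : ContinuousOn D (Icc 0 T)) (ξ : E) :
    ∃ y : ℝ → Ω → E,
      (∀ t ∈ Icc 0 T, MemLp (y t) 2 P ∧ AEStronglyMeasurable[F t] (y t) P) ∧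
      StronglyMeasurable (fun p : ℝ × Ω => y p.1 p.2) ∧
      (∀ ε > 0, ∃ N0 : ℕ, 0 < N0 ∧ ∀ N, N0 ≤ N → ∀ t ∈ Icc 0 T,
        qn P (fun ω => yI b A D T N ξ t ω - y t ω) ≤ ε) := by
  obtain ⟨b', hb', hbb⟩ := hJ
  have hc := fun j : ℕ => cauchy_all (P := P) (F := F) (b := b) (ξ := ξ) hN hT hK hcA hcD
    (by positivity : (0 : ℝ) < ((1 / 2) ^ (j + 1)) ^ 2)
  choose ν0 hν0 hν using hc
  -- make the sequence monotone
  set ν : ℕ → ℕ := fun j => ∑ i ∈ Finset.range (j + 1), ν0 i with hνdef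
  have hν1 : ∀ j, ν0 j ≤ ν j := fun j =>
    Finset.single_le_sum (f := ν0) (fun i _ => Nat.zero_le _) (Finset.mem_range.2 (by omega))
  have hν2 : ∀ J j, J ≤ j → ν J ≤ ν j := fun J j h =>
    Finset.sum_le_sum_of_subset_of_nonneg (Finset.range_mono (by omega))
      (fun i _ _ => Nat.zero_le _)
  have hcau : ∀ t ∈ Icc 0 T, ∀ J n m : ℕ, J ≤ n → J ≤ m →
      eLpNorm (yI b A D T (ν n) ξ t - yI b A D T (ν m) ξ t) 2 P < ENNReal.ofReal ((1 / 2) ^ J) := by
    intro t ht J n m hn hm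
    have h1 := hν J (ν n) ((hν1 J).trans (hν2 J n hn)) (ν m) ((hν1 J).trans (hν2 J m hm)) t ht
    have m1 : MemLp (yI b A D T (ν n) ξ t) 2 P := yI_memLp hN hT ht.1
    have m2 : MemLp (yI b A D T (ν m) ξ t) 2 P := yI_memLp hN hT ht.1
    rw [eLpNorm_eq_qn (m1.sub m2), ENNReal.ofReal_lt_ofReal_iff (by positivity)]
    have h2 : Real.sqrt (qn P (yI b A D T (ν n) ξ t - yI b A D T (ν m) ξ t)) ≤ (1 / 2) ^ (J + 1) := by
      rw [Real.sqrt_le_left (by positivity)]
      exact h1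
    refine h2.trans_lt ?_
    exact pow_lt_pow_right_of_lt_one₀ (by norm_num) (by norm_num) (by omega)
  have hB : ∑' i : ℕ, ENNReal.ofReal ((1 / 2 : ℝ) ^ i) ≠ ⊤ := by
    rw [← ENNReal.ofReal_tsum_of_nonneg (fun n => by positivity)
      (summable_geometric_of_lt_one (by norm_num) (by norm_num))]
    exact ENNReal.ofReal_ne_top
  have hmb : ∀ t ∈ Icc 0 T, ∀ j, AEStronglyMeasurable (yI b A D T (ν j) ξ t) P := fun t ht j =>
    (yI_memLp hN hT ht.1).1
  have hlim : ∀ t ∈ Icc 0 T, ∀ᵐ ω ∂P, Tendsto (fun j => yI b A D T (ν j) ξ t ω) atTop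
      (𝓝 (limUnder atTop (fun j => yI b A D T (ν j) ξ t ω))) := by
    intro t ht
    have h1 := Lp.ae_tendsto_of_cauchy_eLpNorm (hmb t ht) (by norm_num) hB (hcau t ht)
    filter_upwards [h1] with ω hω
    exact tendsto_nhds_limUnder hω
  refine ⟨fun t ω => limUnder atTop (fun j => yI b' A D T (ν j) ξ t ω), ?_, ?_, ?_⟩
  · intro t ht
    have hyg : (fun ω => limUnder atTop (fun j => yI b A D T (ν j) ξ t ω)) =ᵐ[P]
        fun ω => limUnder atTop (fun j => yI b' A D T (ν j) ξ t ω) := by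
      filter_upwards [hbb] with ω hω
      simp_rw [yI_congr hω]
    have hg : StronglyMeasurable[F t] (fun ω => limUnder atTop
        (fun j => yI b A D T (ν j) ξ t ω)) :=
      @StronglyMeasurable.limUnder _ _ _ (F t) _ _ _ _ _ _ _ (fun j => yI_meas hN hT ht.1)
    have hmem : MemLp (fun ω => limUnder atTop (fun j => yI b A D T (ν j) ξ t ω)) 2 P := by
      have h2 := Lp.cauchy_tendsto_of_tendsto (p := 2) (hmb t ht) _ hB (hcau t ht) (hlim t ht)
      have h3 : ∃ j, eLpNorm (yI b A D T (ν j) ξ t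
          - fun ω => limUnder atTop (fun j => yI b A D T (ν j) ξ t ω)) 2 P < 1 := by
        have := h2.eventually (gt_mem_nhds (zero_lt_one' ℝ≥0∞))
        exact this.exists
      obtain ⟨j, hj⟩ := h3
      have h4 : MemLp (yI b A D T (ν j) ξ t
          - fun ω => limUnder atTop (fun j => yI b A D T (ν j) ξ t ω)) 2 P :=
        ⟨(hmb t ht j).sub (hg.mono (hN.le t)).aestronglyMeasurable, hj.trans ENNReal.one_lt_top⟩
      have h5 := (yI_memLp (A := A) (D := D) (N := ν j) (ξ := ξ) hN hT ht.1).sub h4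
      simpa using h5
    exact ⟨hmem.ae_eq hyg, ⟨_, hg, hyg.symm⟩⟩
  · exact StronglyMeasurable.limUnder fun j => yI_joint hb'
  · intro ε hε
    obtain ⟨N0, h0, h1⟩ := cauchy_all (P := P) (F := F) (b := b) (ξ := ξ) hN hT hK hcA hcD
      (by positivity : 0 < ε / 4)
    refine ⟨N0, h0, fun N hNN t ht => ?_⟩
    have hyg : (fun ω => limUnder atTop (fun j => yI b A D T (ν j) ξ t ω)) =ᵐ[P]
        fun ω => limUnder atTop (fun j => yI b' A D T (ν j) ξ t ω) := by
      filter_upwards [hbb] with ω hω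
      simp_rw [yI_congr hω]
    have hg : StronglyMeasurable[F t] (fun ω => limUnder atTop
        (fun j => yI b A D T (ν j) ξ t ω)) :=
      @StronglyMeasurable.limUnder _ _ _ (F t) _ _ _ _ _ _ _ (fun j => yI_meas hN hT ht.1)
    have h2 := Lp.cauchy_tendsto_of_tendsto (p := 2) (hmb t ht) _ hB (hcau t ht) (hlim t ht)
    set g : Ω → E := fun ω => limUnder atTop (fun j => yI b A D T (ν j) ξ t ω) with hgdef
    have h3 : ∀ᶠ j in atTop, eLpNorm (yI b A D T (ν j) ξ t - g) 2 P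
        < ENNReal.ofReal (Real.sqrt (ε / 4)) :=
      h2.eventually (gt_mem_nhds (ENNReal.ofReal_pos.2 (Real.sqrt_pos.2 (by positivity))))
    have hνt : ∀ j, j ≤ ν j := by
      intro j
      have : ∑ i ∈ Finset.range (j + 1), 1 ≤ ν j :=
        Finset.sum_le_sum fun i _ => hν0 i
      simp at this
      omega
    obtain ⟨j, hj1, hj2⟩ := (h3.and (eventually_ge_atTop N0)).exists
    have hj3 : N0 ≤ ν j := hj2.trans (hνt j)
    have m1 : MemLp (yI b A D T N ξ t) 2 P := yI_memLp hN hT ht.1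
    have m2 : MemLp (yI b A D T (ν j) ξ t) 2 P := yI_memLp hN hT ht.1
    have m3 : MemLp (yI b A D T (ν j) ξ t - g) 2 P :=
      ⟨(hmb t ht j).sub (hg.mono (hN.le t)).aestronglyMeasurable, hj1.trans ENNReal.ofReal_lt_top⟩
    have h4 := h1 N hNN (ν j) hj3 t ht
    have h5 := qn_le_of_eLpNorm m3 (Real.sqrt_nonneg _) hj1.le
    rw [Real.sq_sqrt (by positivity)] at h5
    have h6 := qn_add_le (m1.sub m2) m3
    have e3 : qn P (fun ω => (yI b A D T N ξ t - yI b A D T (ν j) ξ t) ω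
      + (yI b A D T (ν j) ξ t - g) ω)
      = qn P (fun ω => yI b A D T N ξ t ω - limUnder atTop (fun j => yI b' A D T (ν j) ξ t ω)) := by
      unfold qn
      refine integral_congr_ae ?_
      filter_upwards [hyg] with ω hω
      rw [← hω]
      simp only [Pi.sub_apply]
      congr 2
      abel
    rw [e3] at h6
    have e4 : qn P (yI b A D T N ξ t - yI b A D T (ν j) ξ t) ≤ ε / 4 := h4
    linarith

end Pool.Agent.ACF
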