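import Pool.Agent.ACF.Sde

set_option autoImplicit false
set_option linter.unusedSectionVars false
open MeasureTheory ProbabilityTheory Set Filter Topology
open scoped NNReal ENNReal

namespace Pool.Agent.ACF

variable {E : Type*} [NormedAddCommGroup E] [InnerProductSpace ℝ E]
variable {Ω : Type*} {mΩ : MeasurableSpace Ω} {P : Measure Ω} [IsProbabilityMeasure P]
  {F : ℝ → MeasurableSpace Ω} {b : ℝ → Ω → ℝ} {T : ℝ}

/-- a bounded weight known at time `s` -/
structure Wt (P : Measure Ω) (F : ℝ → MeasurableSpace Ω) (s : ℝ) (χ : Ω → ℝ) : Prop where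
  meas : AEStronglyMeasurable[F s] χ P
  le : ∀ ω, |χ ω| ≤ 1

lemma Wt.ae (hN : Noise P F b) {s : ℝ} {χ : Ω → ℝ} (hχ : Wt P F s χ) :
    AEStronglyMeasurable χ P := by
  obtain ⟨g, hg, hfg⟩ := hχ.meas
  exact ⟨g, hg.mono (hN.le s), hfg⟩

lemma Wt.memLp (hN : Noise P F b) {s : ℝ} {χ : Ω → ℝ} (hχ : Wt P F s χ) {f : Ω → E}
    (hf : MemLp f 2 P) : MemLp (fun ω => χ ω • f ω) 2 P := by
  refine MemLp.of_le hf ((hχ.ae hN).smul hf.1) (Eventually.of_forall fun ω => ?_)
  rw [norm_smul, Real.norm_eq_abs]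
  have := hχ.le ω
  have h0 := norm_nonneg (f ω)
  nlinarith

lemma Wt.norm_le {s : ℝ} {χ : Ω → ℝ} (hχ : Wt P F s χ) (ω : Ω) (v : E) : ‖χ ω • v‖ ≤ ‖v‖ := by
  rw [norm_smul, Real.norm_eq_abs]
  have := hχ.le ω
  have h0 := norm_nonneg v
  nlinarith

lemma sn_mono {f g : Ω → E} (hf : MemLp f 2 P) (hg : MemLp g 2 P) (h : ∀ ω, ‖f ω‖ ≤ ‖g ω‖) :
    sn P f ≤ sn P g := by
  unfold sn qn
  refine Real.sqrt_le_sqrt (integral_mono (sq_integrable hf) (sq_integrable hg) fun ω => ?_)
  exact pow_le_pow_left₀ (norm_nonneg _) (h ω) 2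

lemma Wt.sn_le (hN : Noise P F b) {s : ℝ} {χ : Ω → ℝ} (hχ : Wt P F s χ) {f : Ω → E}
    (hf : MemLp f 2 P) : sn P (fun ω => χ ω • f ω) ≤ sn P f :=
  sn_mono (hχ.memLp hN hf) hf fun ω => hχ.norm_le ω _

lemma Wt.aem {s r : ℝ} (hN : Noise P F b) (hsr : s ≤ r) {χ : Ω → ℝ} (hχ : Wt P F s χ)
    {f : Ω → E} (hf : AEStronglyMeasurable[F r] f P) :
    AEStronglyMeasurable[F r] (fun ω => χ ω • f ω) P := by
  obtain ⟨g, hg, hfg⟩ := hχ.meas
  obtain ⟨g', hg', hfg'⟩ := hf
  exact ⟨fun ω => g ω • g' ω, (hg.mono (hN.mono _ _ hsr)).smul hg', by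
    filter_upwards [hfg, hfg'] with ω h1 h2
    rw [h1, h2]⟩

/-- a weighted mean square continuous process -/
lemma Wt.msc (hN : Noise P F b) {s : ℝ} {χ : Ω → ℝ} (hχ : Wt P F s χ) {X : ℝ → Ω → E}
    (hX : MSC P T X) : MSC P T (fun t ω => χ ω • X t ω) := by
  refine MSC.of_sn (fun t ht => hχ.memLp hN (hX.memLp t ht)) fun r hr => ?_
  refine squeeze_zero' (Eventually.of_forall fun _ => sn_nonneg _) ?_ (hX.tendsto_sn hr)
  filter_upwards [self_mem_nhdsWithin] with t ht
  have e : (fun ω => χ ω • X t ω - χ ω • X r ω) = fun ω => χ ω • (X t ω - X r ω) := by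
    funext ω
    rw [smul_sub]
  rw [e]
  exact hχ.sn_le hN ((hX.memLp t ht).sub (hX.memLp r hr))

/-- subtract a process from a fixed variable -/
lemma MSC.const_sub {X : ℝ → Ω → E} (hX : MSC P T X) {Z : Ω → E} (hZ : MemLp Z 2 P) :
    MSC P T (fun t ω => Z ω - X t ω) := by
  refine MSC.of_sn (fun t ht => hZ.sub (hX.memLp t ht)) fun r hr => ?_
  refine squeeze_zero' (Eventually.of_forall fun _ => sn_nonneg _) ?_ (hX.tendsto_sn hr)
  filter_upwards [self_mem_nhdsWithin] with t ht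
  have e : (fun ω => Z ω - X t ω - (Z ω - X r ω)) = fun ω => X r ω - X t ω := by
    funext ω
    abel
  rw [e, sn_sub_rev]

lemma tau_split {V : Type*} [AddCommGroup V] (f : ℝ → V) (hT : 0 < T) {s t : ℝ} (hs : 0 ≤ s)
    (hst : s ≤ t) (N j : ℕ) :
    f (tau T N 0 t j) - f (tau T N 0 s j) = f (tau T N s t j) - f s := by
  have hg := gp_nonneg hT N j
  unfold tau
  rcases le_total (gp T N j) s with h | h
  · rw [min_eq_left (h.trans hst), min_eq_left h, max_eq_right hg, max_eq_left h, sub_self,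
      sub_self]
  · rw [min_eq_right h, max_eq_right hs, max_eq_right (le_min hg (hs.trans hst)),
      max_eq_right (le_min h hst)]

lemma riemann_st {G : Type*} [NormedAddCommGroup G] [NormedSpace ℝ G] [CompleteSpace G]
    (hT : 0 < T) {φ : ℝ → G} (hφ : ContinuousOn φ (Icc 0 T)) {s t : ℝ} (hs : 0 ≤ s)
    (hst : s ≤ t) (htT : t ≤ T) : Tendsto (fun N : ℕ => ∑ k ∈ Finset.range N,
      (tau T N s t (k + 1) - tau T N s t k) • φ (gp T N k)) atTop
      (𝓝 (∫ r in s..t, φ r)) := by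
  have h1 := riemann hT hφ (hs.trans hst) htT
  have h2 := riemann hT hφ hs (hst.trans htT)
  have h3 := h1.sub h2
  have ii : ∀ r ∈ Icc 0 T, IntervalIntegrable φ volume 0 r := by
    intro r hr
    refine (hφ.mono ?_).intervalIntegrable
    rw [uIcc_of_le hr.1]
    exact Icc_subset_Icc le_rfl hr.2
  rw [intervalIntegral.integral_interval_sub_left (ii t ⟨hs.trans hst, htT⟩)
    (ii s ⟨hs, hst.trans htT⟩)] at h3
  refine h3.congr fun N => ?_
  rw [← Finset.sum_sub_distrib]
  refine Finset.sum_congr rfl fun k _ => ?_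
  have e1 := tau_split (fun x : ℝ => x) hT hs hst N (k + 1)
  have e2 := tau_split (fun x : ℝ => x) hT hs hst N k
  rw [← sub_smul]
  congr 1
  linarith

lemma itoSum_sub (hT : 0 < T) {N : ℕ} {s t : ℝ} (hs : 0 ≤ s) (hst : s ≤ t) {H : ℝ → Ω → E}
    (ω : Ω) :
    itoSum b T N t H ω - itoSum b T N s H ω = esum b (tau T N s t) (gz T N H) N ω := by
  rw [itoSum_eq hT (hs.trans hst) (fun k hk => gz_eq N H hk),
    itoSum_eq hT hs (fun k hk => gz_eq N H hk)]
  unfold esum
  rw [← Finset.sum_sub_distrib]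
  refine Finset.sum_congr rfl fun k _ => ?_
  have e1 := tau_split (fun x : ℝ => b x ω) hT hs hst N (k + 1)
  have e2 := tau_split (fun x : ℝ => b x ω) hT hs hst N k
  rw [← sub_smul]
  congr 1
  linarith

/-- orthogonality of an elementary sum to the past -/
lemma esum_orth (hN : Noise P F b) {τ : ℕ → ℝ} {Z : ℕ → Ω → E} (hG : Good P F τ Z) {Y : Ω → E}
    (hY : AEStronglyMeasurable[F (τ 0)] Y P) (hY2 : MemLp Y 2 P) (n : ℕ) :
    ∫ ω, inner ℝ (Y ω) (esum b τ Z n ω) ∂P = 0 := by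
  induction n with
  | zero => simp [esum]
  | succ n ih =>
    have h0 : τ 0 ≤ τ n := monotone_nat_of_le_succ hG.mono (Nat.zero_le n)
    rw [esum_succ]
    simp_rw [inner_add_right]
    have h1 := (iso_aux hN hG n).1
    rcases hG.meas n with h | h
    · have e : ∀ ω, (b (τ (n + 1)) ω - b (τ n) ω) • Z n ω = 0 := by
        intro ω
        rw [h, sub_self, zero_smul]
      simp_rw [e, inner_zero_right, add_zero]
      exact ih
    · have h4 := hN.smul (hG.nonneg n) (hG.mono n) h (hG.memLp n)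
      have h5 := hN.orth (hG.nonneg n) (hG.mono n) h (hG.memLp n) (hY.mono (hN.mono _ _ h0)) hY2
      rw [integral_add (inner_integrable hY2 h1) (inner_integrable hY2 h4.1), ih, h5, add_zero]

/-- telescoping of the constant integrand -/
lemma esum_const {s t : ℝ} (hs : 0 ≤ s) (hst : s ≤ t) (htT : t ≤ T) {N : ℕ} (hN : 0 < N)
    (Z : Ω → E) (ω : Ω) :
    esum b (tau T N s t) (fun _ => Z) N ω = (b t ω - b s ω) • Z ω := by
  unfold esum
  rw [← Finset.sum_smul, Finset.sum_range_sub (fun k => b (tau T N s t k) ω),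
    tau_zero hs hst, tau_self hst htT hN]

lemma tendsto_inner {Y : Ω → E} (hY : MemLp Y 2 P) {f : ℕ → Ω → E} {g : Ω → E}
    (hf : ∀ n, MemLp (f n) 2 P) (hg : MemLp g 2 P)
    (h : Tendsto (fun n => sn P (fun ω => f n ω - g ω)) atTop (𝓝 0)) :
    Tendsto (fun n => ∫ ω, inner ℝ (Y ω) (f n ω) ∂P) atTop (𝓝 (∫ ω, inner ℝ (Y ω) (g ω) ∂P)) := by
  rw [tendsto_iff_dist_tendsto_zero]
  have h2 : Tendsto (fun n => sn P Y * sn P (fun ω => f n ω - g ω)) atTop (𝓝 0) := by
    simpa using h.const_mul (sn P Y)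
  refine squeeze_zero (fun _ => dist_nonneg) (fun n => ?_) h2
  have hd : MemLp (fun ω => f n ω - g ω) 2 P := (hf n).sub hg
  have e : ∫ ω, inner ℝ (Y ω) (f n ω) ∂P - ∫ ω, inner ℝ (Y ω) (g ω) ∂P
      = ∫ ω, inner ℝ (Y ω) (f n ω - g ω) ∂P := by
    rw [← integral_sub (inner_integrable hY (hf n)) (inner_integrable hY hg)]
    refine integral_congr_ae (Eventually.of_forall fun ω => ?_)
    simp only [inner_sub_right]
  rw [Real.dist_eq, e]
  -- Cauchy-Schwarz through the Hilbert space of square integrable variables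
  have h3 : inner ℝ (hY.toLp Y) (hd.toLp (fun ω => f n ω - g ω))
      = ∫ ω, inner ℝ (Y ω) (f n ω - g ω) ∂P := by
    rw [L2.inner_def]
    refine integral_congr_ae ?_
    filter_upwards [hY.coeFn_toLp, hd.coeFn_toLp] with ω h1 h2
    rw [h1, h2]
  rw [← h3, sn_eq_norm hY, sn_eq_norm hd]
  exact abs_real_inner_le_norm _ _

/-- the Ito isometry and orthogonality over `[s,t]`, with a weight known at time `s` -/
theorem loc_iso (hN : Noise P F b) (hT : 0 < T) {H I : ℝ → Ω → E}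
    (hI : IsIto P b T H I) (hH : MSC P T H) (hA : Adp P F T H) {s t : ℝ} (hs : 0 ≤ s)
    (hst : s ≤ t) (htT : t ≤ T) {χ : Ω → ℝ} (hχ : Wt P F s χ) {Z : Ω → E}
    (hZ : AEStronglyMeasurable[F s] Z P) (hZ2 : MemLp Z 2 P) :
    MemLp (fun ω => χ ω • ((b t ω - b s ω) • Z ω - (I t ω - I s ω))) 2 P ∧
      qn P (fun ω => χ ω • ((b t ω - b s ω) • Z ω - (I t ω - I s ω)))
        = ∫ r in s..t, qn P (fun ω => χ ω • (Z ω - H r ω)) ∧
      ∀ Y : Ω → E, AEStronglyMeasurable[F s] Y P → MemLp Y 2 P →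
        ∫ ω, inner ℝ (Y ω) (χ ω • ((b t ω - b s ω) • Z ω - (I t ω - I s ω))) ∂P = 0 := by
  have htm : t ∈ Icc 0 T := ⟨hs.trans hst, htT⟩
  have hsm : s ∈ Icc 0 T := ⟨hs, hst.trans htT⟩
  -- the data of the sums
  set W : ℕ → ℕ → Ω → E := fun N k ω => χ ω • (Z ω - gz T N H k ω) with hW
  have hgz : ∀ N k, MemLp (gz T N H k) 2 P := by
    intro N k
    by_cases hk : k < N
    · rw [gz_eq N H hk]
      exact hH.memLp _ ⟨gp_nonneg hT N k, gp_le hT (by omega) hk.le⟩
    · simp [gz, hk]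
  have hgzm : ∀ N k, AEStronglyMeasurable[F (gp T N k)] (gz T N H k) P := by
    intro N k
    by_cases hk : k < N
    · rw [gz_eq N H hk]
      exact hA _ ⟨gp_nonneg hT N k, gp_le hT (by omega) hk.le⟩
    · simp only [gz, hk, if_false]
      exact ⟨fun _ => 0, @stronglyMeasurable_const _ _ (F _) _ _, Filter.EventuallyEq.rfl⟩
  have hG : ∀ N, Good P F (tau T N s t) (W N) := by
    intro N
    refine ⟨tau_nonneg hs N t, fun k => tau_mono hT N s t (Nat.le_succ k), fun k =>
      hχ.memLp hN (hZ2.sub (hgz N k)), fun k => ?_⟩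
    rcases le_total (gp T N k) t with h | h
    · right
      have h1 : gp T N k ≤ tau T N s t k := by
        unfold tau
        rw [min_eq_left h]
        exact le_max_right _ _
      have h2 : s ≤ tau T N s t k := le_max_left _ _
      refine hχ.aem hN h2 ?_
      obtain ⟨g, hg, hfg⟩ := hZ
      obtain ⟨g', hg', hfg'⟩ := hgzm N k
      exact ⟨fun ω => g ω - g' ω, (hg.mono (hN.mono _ _ h2)).sub (hg'.mono (hN.mono _ _ h1)), by
        filter_upwards [hfg, hfg'] with ω a1 a2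
        rw [a1, a2]⟩
    · left
      have h2 : t ≤ gp T N (k + 1) := h.trans (gp_mono hT N (Nat.le_succ k))
      unfold tau
      rw [min_eq_right h, min_eq_right h2]
  have hes : ∀ N, 0 < N → ∀ ω, esum b (tau T N s t) (W N) N ω
      = χ ω • ((b t ω - b s ω) • Z ω - (itoSum b T N t H ω - itoSum b T N s H ω)) := by
    intro N hNp ω
    rw [itoSum_sub hT hs hst, ← esum_const (b := b) hs hst htT hNp Z ω]
    unfold esum
    rw [← Finset.sum_sub_distrib, Finset.smul_sum]
    refine Finset.sum_congr rfl fun k _ => ?_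
    simp only [hW]
    rw [smul_comm, smul_sub (b (tau T N s t (k + 1)) ω - b (tau T N s t k) ω)]
  -- limits
  have m0 : MemLp (fun ω => (b t ω - b s ω) • Z ω) 2 P := (hN.smul hs hst hZ hZ2).1
  have mI : MemLp (fun ω => I t ω - I s ω) 2 P := (hI t htm).1.sub (hI s hsm).1
  have mL : MemLp (fun ω => χ ω • ((b t ω - b s ω) • Z ω - (I t ω - I s ω))) 2 P :=
    hχ.memLp hN (m0.sub mI)
  have mN : ∀ N, MemLp (esum b (tau T N s t) (W N) N) 2 P := fun N => (iso_aux hN (hG N) N).1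
  have l1 := hI.tendsto_sn hN hT hH.memLp hA htm
  have l2 := hI.tendsto_sn hN hT hH.memLp hA hsm
  have hlim : Tendsto (fun N : ℕ => sn P (fun ω => esum b (tau T N s t) (W N) N ω
      - χ ω • ((b t ω - b s ω) • Z ω - (I t ω - I s ω)))) atTop (𝓝 0) := by
    have l3 : Tendsto (fun N : ℕ => sn P (fun ω => itoSum b T N t H ω - I t ω)
        + sn P (fun ω => itoSum b T N s H ω - I s ω)) atTop (𝓝 0) := by
      simpa using l1.add l2
    refine squeeze_zero' (Eventually.of_forall fun _ => sn_nonneg _) ?_ l3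
    filter_upwards [eventually_gt_atTop 0] with N hNp
    have a1 : MemLp (fun ω => itoSum b T N t H ω - I t ω) 2 P :=
      (itoSum_iso hN hT htm.1 hH.memLp hA).1.sub (hI t htm).1
    have a2 : MemLp (fun ω => itoSum b T N s H ω - I s ω) 2 P :=
      (itoSum_iso hN hT hsm.1 hH.memLp hA).1.sub (hI s hsm).1
    have e : (fun ω => esum b (tau T N s t) (W N) N ω
        - χ ω • ((b t ω - b s ω) • Z ω - (I t ω - I s ω)))
        = fun ω => χ ω • ((itoSum b T N s H ω - I s ω) - (itoSum b T N t H ω - I t ω)) := by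
      funext ω
      rw [hes N hNp ω, ← smul_sub]
      congr 1
      abel
    rw [e]
    have h7 : sn P (fun ω => χ ω • ((itoSum b T N s H ω - I s ω) - (itoSum b T N t H ω - I t ω)))
        ≤ sn P (fun ω => (itoSum b T N s H ω - I s ω) - (itoSum b T N t H ω - I t ω)) :=
      hχ.sn_le hN (a2.sub a1)
    refine h7.trans ?_
    have h6 := sn_add_le a2 a1.neg
    have e2 : sn P (-fun ω => itoSum b T N t H ω - I t ω)
        = sn P (fun ω => itoSum b T N t H ω - I t ω) := by
      unfold sn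
      congr 1
      exact qn_neg _
    rw [e2] at h6
    have e3 : (fun ω => (itoSum b T N s H ω - I s ω) - (itoSum b T N t H ω - I t ω))
        = fun ω => (itoSum b T N s H ω - I s ω) + (-fun ω => itoSum b T N t H ω - I t ω) ω := by
      funext ω
      simp only [Pi.neg_apply]
      abel
    rw [e3]
    linarith
  refine ⟨mL, ?_, fun Y hY hY2 => ?_⟩
  · have h3 : Tendsto (fun N : ℕ => sn P (esum b (tau T N s t) (W N) N)) atTop
        (𝓝 (sn P (fun ω => χ ω • ((b t ω - b s ω) • Z ω - (I t ω - I s ω))))) := by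
      rw [tendsto_iff_dist_tendsto_zero]
      refine squeeze_zero (fun _ => dist_nonneg) (fun N => ?_) hlim
      rw [Real.dist_eq]
      exact sn_abs_sub (mN N) mL
    have h4 := h3.pow 2
    rw [sn_sq] at h4
    have hφ : ContinuousOn (fun r => qn P (fun ω => χ ω • (Z ω - H r ω))) (Icc 0 T) :=
      (hχ.msc hN (hH.const_sub hZ2)).continuousOn_qn
    have h5 := riemann_st hT hφ hs hst htT
    refine tendsto_nhds_unique h4 (h5.congr fun N => ?_)
    rw [sn_sq]
    have h6 : qn P (esum b (tau T N s t) (W N) N) = _ := (iso_aux hN (hG N) N).2.2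
    rw [h6]
    refine Finset.sum_congr rfl fun k hk => ?_
    simp only [hW, smul_eq_mul]
    rw [gz_eq N H (Finset.mem_range.1 hk)]
    rfl
  · have h1 := tendsto_inner hY2 mN mL hlim
    have h2 : ∀ N, ∫ ω, inner ℝ (Y ω) (esum b (tau T N s t) (W N) N ω) ∂P = 0 := by
      intro N
      refine esum_orth hN (hG N) ?_ hY2 N
      rw [tau_zero hs hst]
      exact hY
    simp_rw [h2] at h1
    exact tendsto_nhds_unique h1 tendsto_const_nhds

/-- the plain isometry over `[s,t]` with a weight -/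
lemma loc_iso0 (hN : Noise P F b) (hT : 0 < T) {H I : ℝ → Ω → E}
    (hI : IsIto P b T H I) (hH : MSC P T H) (hA : Adp P F T H) {s t : ℝ} (hs : 0 ≤ s)
    (hst : s ≤ t) (htT : t ≤ T) {χ : Ω → ℝ} (hχ : Wt P F s χ) :
    qn P (fun ω => χ ω • (I t ω - I s ω)) = ∫ r in s..t, qn P (fun ω => χ ω • H r ω) := by
  have h := (loc_iso hN hT hI hH hA hs hst htT hχ (Z := fun _ => 0)
    ⟨fun _ => 0, @stronglyMeasurable_const _ _ (F _) _ _, Filter.EventuallyEq.rfl⟩
    MemLp.zero).2.1
  have e1 : qn P (fun ω => χ ω • ((b t ω - b s ω) • (0 : E) - (I t ω - I s ω)))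
      = qn P (fun ω => χ ω • (I t ω - I s ω)) := by
    rw [← qn_neg]
    congr 1
    funext ω
    rw [smul_zero, zero_sub, smul_neg, neg_neg]
  have e2 : ∀ r, qn P (fun ω => χ ω • ((0 : E) - H r ω)) = qn P (fun ω => χ ω • H r ω) := by
    intro r
    rw [← qn_neg]
    congr 1
    funext ω
    rw [zero_sub, smul_neg, neg_neg]
  rw [e1] at h
  simp_rw [e2] at h
  exact h

end Pool.Agent.ACF
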