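import Mathlib

set_option autoImplicit false
set_option linter.unusedSectionVars false
open Set Filter Topology Metric
open scoped NNReal

namespace Pool.Agent.ACF

variable {V : Type*} [NormedAddCommGroup V] [NormedSpace ℝ V] [CompleteSpace V]

/-- local solutions of a linear equation, on an interval of a length that does not depend on the
initial point -/
lemma lin_local {L : ℝ → V →L[ℝ] V} {f : ℝ → V} (hL : Continuous L) (hf : Continuous f)
    {K c : ℝ} (hK0 : 0 ≤ K) (hc0 : 0 ≤ c) (hK : ∀ t, ‖L t‖ ≤ K) (hc : ∀ t, ‖f t‖ ≤ c)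
    (t0 : ℝ) (x : V) :
    ∃ α : ℝ → V, α t0 = x ∧ ∀ t ∈ Icc t0 (t0 + 1 / (2 * (K + 1))),
      HasDerivWithinAt α (L t (α t) + f t) (Icc t0 (t0 + 1 / (2 * (K + 1)))) t := by
  set h : ℝ := 1 / (2 * (K + 1)) with hh
  have hpos : 0 < h := by positivity
  have hKh : K * h ≤ 1 / 2 := by
    rw [hh, mul_one_div, div_le_div_iff₀ (by positivity) (by norm_num)]
    nlinarith
  set a : ℝ := 2 * h * (K * ‖x‖ + c) with ha
  have ha0 : 0 ≤ a := by positivity
  have hmem : t0 ∈ Icc t0 (t0 + h) := ⟨le_rfl, by linarith⟩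
  have hp : IsPicardLindelof (fun t y => L t y + f t) (⟨t0, hmem⟩ : Icc t0 (t0 + h)) x
      ⟨a, ha0⟩ 0 ⟨2 * (K * ‖x‖ + c), by positivity⟩ ⟨K, hK0⟩ :=
    { lipschitzOnWith := by
        intro t _
        refine LipschitzWith.lipschitzOnWith (LipschitzWith.of_dist_le_mul fun y z => ?_)
        rw [dist_eq_norm, dist_eq_norm]
        have e : L t y + f t - (L t z + f t) = L t (y - z) := by rw [map_sub]; abel
        rw [e]
        exact (L t).le_of_opNorm_le (hK t) _
      continuousOn := by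
        intro y _
        exact ((hL.clm_apply continuous_const).add hf).continuousOn
      norm_le := by
        intro t _ y hy
        have h1 : ‖y - x‖ ≤ a := by
          rw [mem_closedBall_iff_norm] at hy
          exact hy
        have h2 : ‖y‖ ≤ ‖x‖ + a := by
          have := norm_le_norm_add_norm_sub' y x
          linarith
        have h3 : ‖L t y‖ ≤ K * ‖y‖ := (L t).le_of_opNorm_le (hK t) _
        have h4 : ‖L t y + f t‖ ≤ K * (‖x‖ + a) + c := by
          refine (norm_add_le _ _).trans ?_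
          have := mul_le_mul_of_nonneg_left h2 hK0
          linarith [hc t]
        have h5 : K * a ≤ K * ‖x‖ + c := by
          have : K * a = 2 * (K * h) * (K * ‖x‖ + c) := by rw [ha]; ring
          rw [this]
          have h6 : 0 ≤ K * ‖x‖ + c := by positivity
          nlinarith
        change ‖L t y + f t‖ ≤ 2 * (K * ‖x‖ + c)
        linarith
      mul_max_le := by
        change (2 * (K * ‖x‖ + c)) * max (t0 + h - t0) (t0 - t0) ≤ a - 0
        rw [add_sub_cancel_left, sub_self, max_eq_left hpos.le, sub_zero, ha]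
        apply le_of_eq
        ring }
  obtain ⟨α, h1, h2⟩ := hp.exists_eq_forall_mem_Icc_hasDerivWithinAt₀
  exact ⟨α, h1, h2⟩

lemma lin_steps {L : ℝ → V →L[ℝ] V} {f : ℝ → V} (hL : Continuous L) (hf : Continuous f)
    {K c : ℝ} (hK0 : 0 ≤ K) (hc0 : 0 ≤ c) (hK : ∀ t, ‖L t‖ ≤ K) (hc : ∀ t, ‖f t‖ ≤ c)
    (x : V) (n : ℕ) :
    ∃ α : ℝ → V, α 0 = x ∧ ∀ t ∈ Icc 0 ((n + 1 : ℝ) * (1 / (2 * (K + 1)))),
      HasDerivWithinAt α (L t (α t) + f t) (Icc 0 ((n + 1 : ℝ) * (1 / (2 * (K + 1))))) t := by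
  set h : ℝ := 1 / (2 * (K + 1)) with hh
  have hpos : 0 < h := by positivity
  induction n with
  | zero =>
    obtain ⟨α, h1, h2⟩ := lin_local hL hf hK0 hc0 hK hc 0 x
    refine ⟨α, h1, ?_⟩
    simpa [← hh] using h2
  | succ n ih =>
    obtain ⟨α, h1, h2⟩ := ih
    set s : ℝ := (n + 1 : ℝ) * h with hs
    have hs0 : 0 < s := by positivity
    obtain ⟨β, h3, h4⟩ := lin_local hL hf hK0 hc0 hK hc s (α s)
    rw [← hh] at h4
    have hend : ((n + 1 : ℕ) + 1 : ℝ) * h = s + h := by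
      rw [hs]; push_cast; ring
    rw [hend]
    set γ : ℝ → V := fun t => if t ≤ s then α t else β t with hγ
    have e1 : ∀ t, t ≤ s → γ t = α t := fun t ht => by simp [hγ, ht]
    have e2 : ∀ t, s ≤ t → γ t = β t := by
      intro t ht
      rcases eq_or_lt_of_le ht with h | h
      · rw [← h, e1 s le_rfl, h3]
      · simp [hγ, not_le.2 h]
    refine ⟨γ, by rw [e1 0 hs0.le, h1], fun t ht => ?_⟩
    have hunion : Icc 0 (s + h) = Icc 0 s ∪ Icc s (s + h) :=
      (Icc_union_Icc_eq_Icc hs0.le (by linarith)).symm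
    have d1 : t ≤ s → HasDerivWithinAt γ (L t (γ t) + f t) (Icc 0 s) t := by
      intro hts
      rw [e1 t hts]
      exact (h2 t ⟨ht.1, hts⟩).congr (fun r hr => e1 r hr.2) (e1 t hts)
    have d2 : s ≤ t → HasDerivWithinAt γ (L t (γ t) + f t) (Icc s (s + h)) t := by
      intro hts
      rw [e2 t hts]
      exact (h4 t ⟨hts, ht.2⟩).congr (fun r hr => e2 r hr.1) (e2 t hts)
    rcases lt_trichotomy t s with hlt | heq | hgt
    · refine (d1 hlt.le).mono_of_mem_nhdsWithin ?_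
      rw [mem_nhdsWithin]
      exact ⟨Iio s, isOpen_Iio, hlt, fun r hr => ⟨hr.2.1, le_of_lt hr.1⟩⟩
    · rw [hunion]
      exact (d1 heq.le).union (d2 heq.ge)
    · refine (d2 hgt.le).mono_of_mem_nhdsWithin ?_
      rw [mem_nhdsWithin]
      exact ⟨Ioi s, isOpen_Ioi, hgt, fun r hr => ⟨le_of_lt hr.1, hr.2.2⟩⟩

/-- forward existence for linear equations on `[0,S]` -/
theorem lin_forward {L : ℝ → V →L[ℝ] V} {f : ℝ → V} {S : ℝ} (hS : 0 ≤ S)
    (hL : ContinuousOn L (Icc 0 S)) (hf : ContinuousOn f (Icc 0 S)) (x : V) :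
    ∃ α : ℝ → V, α 0 = x ∧ ∀ t ∈ Icc 0 S, HasDerivWithinAt α (L t (α t) + f t) (Icc 0 S) t := by
  set L' : ℝ → V →L[ℝ] V := IccExtend hS ((Icc 0 S).restrict L) with hL'
  set f' : ℝ → V := IccExtend hS ((Icc 0 S).restrict f) with hf'
  have cL : Continuous L' := (continuousOn_iff_continuous_restrict.1 hL).Icc_extend'
  have cf : Continuous f' := (continuousOn_iff_continuous_restrict.1 hf).Icc_extend'
  obtain ⟨K, hK⟩ := isCompact_Icc.exists_bound_of_continuousOn (s := Icc (0 : ℝ) S) hL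
  obtain ⟨c, hc⟩ := isCompact_Icc.exists_bound_of_continuousOn (s := Icc (0 : ℝ) S) hf
  have h0 : (0 : ℝ) ∈ Icc 0 S := ⟨le_rfl, hS⟩
  have hK0 : 0 ≤ K := (norm_nonneg _).trans (hK 0 h0)
  have hc0 : 0 ≤ c := (norm_nonneg _).trans (hc 0 h0)
  have bL : ∀ t, ‖L' t‖ ≤ K := fun t => hK _ (projIcc 0 S hS t).2
  have bf : ∀ t, ‖f' t‖ ≤ c := fun t => hc _ (projIcc 0 S hS t).2
  obtain ⟨n, hn⟩ := exists_nat_gt (S / (1 / (2 * (K + 1))))
  obtain ⟨α, h1, h2⟩ := lin_steps cL cf hK0 hc0 bL bf x n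
  have hsub : Icc 0 S ⊆ Icc 0 ((n + 1 : ℝ) * (1 / (2 * (K + 1)))) := by
    refine Icc_subset_Icc le_rfl ?_
    rw [div_lt_iff₀ (by positivity)] at hn
    have : (0 : ℝ) < 1 / (2 * (K + 1)) := by positivity
    linarith
  refine ⟨α, h1, fun t ht => ?_⟩
  have h3 := (h2 t (hsub ht)).mono hsub
  have e1 : L' t = L t := by
    rw [hL', IccExtend_of_mem _ _ ht]; rfl
  have e2 : f' t = f t := by
    rw [hf', IccExtend_of_mem _ _ ht]; rfl
  rwa [e1, e2] at h3

/-- backward existence for linear equations on `[0,S]` -/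
theorem lin_backward {L : ℝ → V →L[ℝ] V} {f : ℝ → V} {S : ℝ} (hS : 0 ≤ S)
    (hL : ContinuousOn L (Icc 0 S)) (hf : ContinuousOn f (Icc 0 S)) (x : V) :
    ∃ α : ℝ → V, α S = x ∧ ∀ t ∈ Icc 0 S, HasDerivWithinAt α (L t (α t) + f t) (Icc 0 S) t := by
  have hm : MapsTo (fun t => S - t) (Icc 0 S) (Icc 0 S) := fun t ht =>
    ⟨by linarith [ht.2], by linarith [ht.1]⟩
  have c1 : ContinuousOn (fun t => -L (S - t)) (Icc 0 S) :=
    (hL.comp (by fun_prop) hm).neg
  have c2 : ContinuousOn (fun t => -f (S - t)) (Icc 0 S) :=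
    (hf.comp (by fun_prop) hm).neg
  obtain ⟨α, h1, h2⟩ := lin_forward hS c1 c2 x
  refine ⟨fun t => α (S - t), by simp [h1], fun t ht => ?_⟩
  have h3 := h2 (S - t) (hm ht)
  have h4 : HasDerivWithinAt (fun t => S - t) (-1) (Icc 0 S) t := by
    simpa using (hasDerivWithinAt_id t (Icc 0 S)).const_sub S
  have h5 := h3.scomp t h4 hm
  have e : (-1 : ℝ) • ((-L (S - (S - t))) (α (S - t)) + -f (S - (S - t)))
      = L t (α (S - t)) + f t := by
    rw [sub_sub_cancel]
    simp [add_comm]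
  rw [e] at h5
  exact h5

end Pool.Agent.ACF
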