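import Pool.Agent.ACF.Sde
import Pool.Agent.ACF.Ode

set_option autoImplicit false
set_option linter.unusedSectionVars false
open MeasureTheory ProbabilityTheory Set Filter Topology
open scoped NNReal ENNReal

namespace Pool.Agent.ACF

variable {E : Type*} [NormedAddCommGroup E] [InnerProductSpace ℝ E] [CompleteSpace E]
variable {Ω : Type*} {mΩ : MeasurableSpace Ω} {P : Measure Ω} [IsProbabilityMeasure P]
  {F : ℝ → MeasurableSpace Ω} {b : ℝ → Ω → ℝ} {T : ℝ} {A D : ℝ → E →L[ℝ] E} {ξ : E}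

lemma norm_integral_le_sn {f : Ω → E} (hf : MemLp f 2 P) : ‖∫ ω, f ω ∂P‖ ≤ sn P f := by
  have h1 : ‖∫ ω, f ω ∂P‖ ≤ ∫ ω, ‖f ω‖ ∂P := norm_integral_le_integral_norm _
  have hi : Integrable (fun ω => ‖f ω‖) P := (hf.integrable (by norm_num)).norm
  set c := ∫ ω, ‖f ω‖ ∂P with hc
  have h2 : 0 ≤ ∫ ω, (‖f ω‖ - c) ^ 2 ∂P := integral_nonneg fun _ => sq_nonneg _
  have h3 : ∫ ω, (‖f ω‖ - c) ^ 2 ∂P = qn P f - c ^ 2 := by
    have e : ∀ ω, (‖f ω‖ - c) ^ 2 = ‖f ω‖ ^ 2 - 2 * c * ‖f ω‖ + c ^ 2 := fun ω => by ring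
    simp_rw [e]
    have i1 : Integrable (fun ω => ‖f ω‖ ^ 2 - 2 * c * ‖f ω‖) P :=
      (sq_integrable hf).sub (hi.const_mul _)
    rw [integral_add i1 (integrable_const _), integral_sub (sq_integrable hf) (hi.const_mul _),
      integral_const_mul, ← hc]
    simp only [integral_const, probReal_univ, one_smul]
    unfold qn
    ring
  rw [h3] at h2
  refine h1.trans ?_
  unfold sn
  exact Real.le_sqrt_of_sq_le (by linarith)

lemma itoSum_mean (hN : Noise P F b) (hT : 0 < T) {N : ℕ} {t : ℝ} (ht : 0 ≤ t) {H : ℝ → Ω → E}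
    (hH : ∀ t ∈ Icc 0 T, MemLp (H t) 2 P) (hA : Adp P F T H) :
    ∫ ω, itoSum b T N t H ω ∂P = 0 := by
  have hG := gz_good (N := N) hN hT ht hH hA
  rw [itoSum_eq hT ht (fun k hk => gz_eq N H hk)]
  have hterm : ∀ k, Integrable (fun ω => (b (tau T N 0 t (k + 1)) ω - b (tau T N 0 t k) ω)
      • gz T N H k ω) P ∧ ∫ ω, (b (tau T N 0 t (k + 1)) ω - b (tau T N 0 t k) ω)
      • gz T N H k ω ∂P = 0 := by
    intro k
    rcases hG.meas k with h | h
    · rw [← h]
      simp
    · have h1 := hN.smul (hG.nonneg k) (hG.mono k) h (hG.memLp k)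
      have hi := h1.1.integrable (by norm_num : (1 : ℝ≥0∞) ≤ 2)
      refine ⟨hi, ?_⟩
      refine ext_inner_left ℝ fun q => ?_
      rw [inner_zero_right, ← integral_inner hi]
      simp_rw [real_inner_smul_right]
      have hm : AEStronglyMeasurable[F (tau T N 0 t k)] (fun ω => inner ℝ q (gz T N H k ω)) P := by
        obtain ⟨g, hg, hfg⟩ := h
        exact ⟨fun ω => inner ℝ q (g ω),
          (@stronglyMeasurable_const _ _ (F (tau T N 0 t k)) _ q).inner hg, by
          filter_upwards [hfg] with ω hω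
          rw [hω]⟩
      have hii : Integrable (fun ω => inner ℝ q (gz T N H k ω)) P :=
        inner_integrable (memLp_const q) (hG.memLp k)
      exact (hN.cross (hG.nonneg k) (hG.mono k) hm hii).2
  unfold esum
  rw [integral_finsetSum _ fun k _ => (hterm k).1]
  exact Finset.sum_eq_zero fun k _ => (hterm k).2

lemma IsIto.mean (hN : Noise P F b) (hT : 0 < T) {H I : ℝ → Ω → E}
    (hI : IsIto P b T H I) (hH : ∀ t ∈ Icc 0 T, MemLp (H t) 2 P) (hA : Adp P F T H) {t : ℝ}
    (ht : t ∈ Icc 0 T) : ∫ ω, I t ω ∂P = 0 := by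
  have h1 := hI.tendsto_sn hN hT hH hA ht
  have h2 : ∀ N : ℕ, ‖∫ ω, I t ω ∂P‖ ≤ sn P (fun ω => itoSum b T N t H ω - I t ω) := by
    intro N
    have m1 := (itoSum_iso (N := N) hN hT ht.1 hH hA).1
    have m2 := (hI t ht).1
    have h3 := norm_integral_le_sn (m1.sub m2)
    have h4 : ∫ ω, (itoSum b T N t H - I t) ω ∂P = - ∫ ω, I t ω ∂P := by
      have := integral_sub (m1.integrable (by norm_num)) (m2.integrable (by norm_num))
      rw [itoSum_mean hN hT ht.1 hH hA, zero_sub] at this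
      exact this
    rw [h4, norm_neg] at h3
    exact h3
  have h5 := ge_of_tendsto' h1 h2
  exact norm_le_zero_iff.1 h5

lemma LinSol.mean (hN : Noise P F b) (hT : 0 < T) (hcA : ContinuousOn A (Icc 0 T))
    (hcD : ContinuousOn D (Icc 0 T)) {y : ℝ → Ω → E} (hy : LinSol P F b T A D ξ y) {t : ℝ}
    (ht : t ∈ Icc 0 T) :
    ∫ ω, y t ω ∂P = ξ + ∫ s in (0 : ℝ)..t, A s (∫ ω, y s ω ∂P) := by
  obtain ⟨I, hI, heq⟩ := hy.eq
  have hDm : MSC P T (fun t ω => D t (y t ω)) := hy.msc.clm hcD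
  have hDa : Adp P F T (fun t ω => D t (y t ω)) := hy.adp.clm D
  have hgm : MSC P T (fun t ω => A t (y t ω)) := hy.msc.clm hcA
  have hgj : MemLp (fun p : ℝ × Ω => A p.1 (y p.1 p.2)) 2 (muT T P) :=
    hgm.joint (clm_joint hy.joint.aestronglyMeasurable hT.le hcA)
  have hdr := drift_est (g := fun s ω => A s (y s ω)) le_rfl ht.1 ht.2 hgj
  have h0 := hI.mean hN hT hDm.memLp hDa ht
  rw [integral_congr_ae (heq t ht)]
  have i1 : Integrable (fun ω => ∫ s in (0 : ℝ)..t, A s (y s ω)) P :=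
    hdr.1.integrable (by norm_num)
  have i0 : Integrable (fun ω => ξ + ∫ s in (0 : ℝ)..t, A s (y s ω)) P :=
    (integrable_const ξ).add i1
  rw [integral_add i0 ((hI t ht).1.integrable (by norm_num)), h0, add_zero,
    integral_add (integrable_const ξ) i1]
  simp only [integral_const, probReal_univ, one_smul]
  congr 1
  have hg' := hgj.mono_measure (muT_mono (P := P) le_rfl ht.2)
  have i3 : Integrable (fun p : ℝ × Ω => A p.1 (y p.1 p.2))
    ((volume.restrict (Ioc 0 t)).prod P) := hg'.integrable (by norm_num)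
  rw [intervalIntegral.integral_of_le ht.1]
  simp_rw [intervalIntegral.integral_of_le ht.1]
  rw [← integral_integral_swap i3]
  refine setIntegral_congr_fun measurableSet_Ioc fun s hs => ?_
  have hsT : s ∈ Icc 0 T := ⟨hs.1.le, hs.2.trans ht.2⟩
  exact ContinuousLinearMap.integral_comp_comm (A s)
    ((hy.msc.memLp s hsT).integrable (by norm_num))

lemma LinSol.mean_cont (hT : 0 < T) {y : ℝ → Ω → E} (hy : LinSol P F b T A D ξ y) :
    ContinuousOn (fun t => ∫ ω, y t ω ∂P) (Icc 0 T) := by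
  intro s hs
  rw [ContinuousWithinAt, tendsto_iff_norm_sub_tendsto_zero]
  refine squeeze_zero' (Eventually.of_forall fun _ => norm_nonneg _) ?_ (hy.msc.tendsto_sn hs)
  filter_upwards [self_mem_nhdsWithin] with t ht
  have m1 := hy.msc.memLp t ht
  have m2 := hy.msc.memLp s hs
  rw [← integral_sub (m1.integrable (by norm_num)) (m2.integrable (by norm_num))]
  exact norm_integral_le_sn (m1.sub m2)

/-- the mean of the solution can be steered to any vector -/
theorem mean_target (hN : Noise P F b) (hT : 0 < T) (hcA : ContinuousOn A (Icc 0 T))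
    (hcD : ContinuousOn D (Icc 0 T)) {t0 : ℝ} (ht0 : t0 ∈ Icc 0 T) (q : E) :
    ∃ ξ : E, ∀ y : ℝ → Ω → E, LinSol P F b T A D ξ y → ∫ ω, y t0 ω ∂P = q := by
  have hsub : Icc 0 t0 ⊆ Icc 0 T := Icc_subset_Icc le_rfl ht0.2
  obtain ⟨m, hm1, hm2⟩ := lin_backward (f := fun _ => (0 : E)) ht0.1 (hcA.mono hsub)
    continuousOn_const q
  simp only [add_zero] at hm2
  have hmc : ContinuousOn m (Icc 0 t0) := fun t ht => (hm2 t ht).continuousWithinAt
  refine ⟨m 0, fun y hy => ?_⟩
  have hAm : ContinuousOn (fun s => A s (m s)) (Icc 0 t0) := (hcA.mono hsub).clm_apply hmc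
  have hmint : ∀ t ∈ Icc 0 t0, m t = m 0 + ∫ s in (0 : ℝ)..t, A s (m s) := by
    intro t ht
    have hs2 : Icc 0 t ⊆ Icc 0 t0 := Icc_subset_Icc le_rfl ht.2
    have h1 : ∫ s in (0 : ℝ)..t, A s (m s) = m t - m 0 := by
      refine intervalIntegral.integral_eq_sub_of_hasDeriv_right (by
        rw [uIcc_of_le ht.1]; exact hmc.mono hs2) ?_ ?_
      · intro s hs
        rw [min_eq_left ht.1, max_eq_right ht.1] at hs
        have h3 := hm2 s (hs2 (Ioo_subset_Icc_self hs))
        refine h3.mono_of_mem_nhdsWithin ?_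
        rw [mem_nhdsWithin]
        exact ⟨Ioo 0 t0, isOpen_Ioo, ⟨hs.1, hs.2.trans_le ht.2⟩,
          fun r hr => Ioo_subset_Icc_self hr.1⟩
      · refine ContinuousOn.intervalIntegrable ?_
        rw [uIcc_of_le ht.1]
        exact hAm.mono hs2
    rw [h1]
    abel
  rcases eq_or_lt_of_le ht0.1 with h0 | hpos
  · have h1 := hy.mean hN hT hcA hcD ht0
    rw [← h0] at h1 hm1 ⊢
    rw [h1]
    simpa using hm1
  set M : ℝ → E := fun t => ∫ ω, y t ω ∂P with hM
  have hMc : ContinuousOn M (Icc 0 t0) := (hy.mean_cont hT).mono hsub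
  have hAM : ContinuousOn (fun s => A s (M s)) (Icc 0 t0) := (hcA.mono hsub).clm_apply hMc
  obtain ⟨K, hK⟩ := isCompact_Icc.exists_bound_of_continuousOn (s := Icc (0 : ℝ) T) hcA
  have hK0 : 0 ≤ K := (norm_nonneg _).trans (hK t0 ht0)
  have hφ : ContinuousOn (fun t => ‖M t - m t‖) (Icc 0 t0) := (hMc.sub hmc).norm
  have hgr := gronwall_int hpos hφ (a := 0) hK0 (by
    intro t ht
    have hs2 : Icc 0 t ⊆ Icc 0 t0 := Icc_subset_Icc le_rfl ht.2
    have e1 : M t = m 0 + ∫ s in (0 : ℝ)..t, A s (M s) := hy.mean hN hT hcA hcD (hsub ht)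
    have i1 : IntervalIntegrable (fun s => A s (M s)) volume 0 t := by
      refine ContinuousOn.intervalIntegrable ?_
      rw [uIcc_of_le ht.1]
      exact hAM.mono hs2
    have i2 : IntervalIntegrable (fun s => A s (m s)) volume 0 t := by
      refine ContinuousOn.intervalIntegrable ?_
      rw [uIcc_of_le ht.1]
      exact hAm.mono hs2
    have i3 : IntervalIntegrable (fun s => K * ‖M s - m s‖) volume 0 t := by
      refine ContinuousOn.intervalIntegrable ?_
      rw [uIcc_of_le ht.1]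
      exact continuousOn_const.mul (hφ.mono hs2)
    have e2 : M t - m t = ∫ s in (0 : ℝ)..t, (A s (M s) - A s (m s)) := by
      rw [intervalIntegral.integral_sub i1 i2, e1, hmint t ht]
      abel
    rw [e2, zero_add, ← intervalIntegral.integral_const_mul]
    refine intervalIntegral.norm_integral_le_of_norm_le ht.1 ?_ i3
    filter_upwards with s hs
    rw [← map_sub]
    exact (A s).le_of_opNorm_le (hK s (hsub (hs2 ⟨hs.1.le, hs.2⟩))) _)
  have h2 := hgr t0 ⟨hpos.le, le_rfl⟩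
  rw [zero_mul] at h2
  have h3 : M t0 - m t0 = 0 := norm_le_zero_iff.1 h2
  rw [sub_eq_zero] at h3
  change M t0 = q
  rw [h3, hm1]

end Pool.Agent.ACF
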