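import Pool.Agent.ACF.Mean

set_option autoImplicit false
set_option linter.unusedSectionVars false
open MeasureTheory ProbabilityTheory Set Filter Topology
open scoped NNReal ENNReal

namespace Pool.Agent.ACF

variable {E : Type*} [NormedAddCommGroup E] [InnerProductSpace ℝ E] [CompleteSpace E]
variable {Ω : Type*} {mΩ : MeasurableSpace Ω} {P : Measure Ω} [IsProbabilityMeasure P]
  {F : ℝ → MeasurableSpace Ω} {b : ℝ → Ω → ℝ} {T : ℝ} {A D : ℝ → E →L[ℝ] E} {ξ : E}

/-- expected inner product -/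
noncomputable def ei (P : Measure Ω) (X Y : Ω → E) : ℝ := ∫ ω, inner ℝ (X ω) (Y ω) ∂P

lemma ei_abs {X Y : Ω → E} (hX : MemLp X 2 P) (hY : MemLp Y 2 P) :
    |ei P X Y| ≤ sn P X * sn P Y := by
  have h1 : ei P X Y = inner ℝ (hX.toLp X) (hY.toLp Y) := by
    rw [L2.inner_def]
    unfold ei
    refine integral_congr_ae ?_
    filter_upwards [hX.coeFn_toLp, hY.coeFn_toLp] with ω h1 h2
    rw [h1, h2]
  rw [h1, sn_eq_norm hX, sn_eq_norm hY]
  exact abs_real_inner_le_norm _ _

lemma ei_bound {X Y : Ω → E} (hX : MemLp X 2 P) (hY : MemLp Y 2 P) (M : E →L[ℝ] E) {a c d : ℝ}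
    (ha : ‖M‖ ≤ a) (hc : sn P X ≤ c) (hd : sn P Y ≤ d) :
    |ei P (fun ω => M (X ω)) Y| ≤ a * c * d := by
  have h1 := ei_abs (memLp_clm M hX) hY
  have h2 := sn_clm_le M ha hX
  have ha0 : 0 ≤ a := (norm_nonneg _).trans ha
  refine h1.trans ?_
  have h3 : sn P (fun ω => M (X ω)) ≤ a * c := h2.trans (mul_le_mul_of_nonneg_left hc ha0)
  exact mul_le_mul h3 hd (sn_nonneg _) (by
    have := sn_nonneg (P := P) X
    have : 0 ≤ c := this.trans hc
    positivity)

lemma ei_add_left {X X' Y : Ω → E} (hX : MemLp X 2 P) (hX' : MemLp X' 2 P) (hY : MemLp Y 2 P) :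
    ei P (fun ω => X ω + X' ω) Y = ei P X Y + ei P X' Y := by
  unfold ei
  simp_rw [inner_add_left]
  exact integral_add (inner_integrable hX hY) (inner_integrable hX' hY)

lemma ei_add_right {X Y Y' : Ω → E} (hX : MemLp X 2 P) (hY : MemLp Y 2 P) (hY' : MemLp Y' 2 P) :
    ei P X (fun ω => Y ω + Y' ω) = ei P X Y + ei P X Y' := by
  unfold ei
  simp_rw [inner_add_right]
  exact integral_add (inner_integrable hX hY) (inner_integrable hX hY')

lemma ei_smul_left (c : ℝ) (X Y : Ω → E) : ei P (fun ω => c • X ω) Y = c * ei P X Y := by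
  unfold ei
  simp_rw [real_inner_smul_left]
  exact integral_const_mul _ _

lemma ei_smul_right (c : ℝ) (X Y : Ω → E) : ei P X (fun ω => c • Y ω) = c * ei P X Y := by
  unfold ei
  simp_rw [real_inner_smul_right]
  exact integral_const_mul _ _

/-- one step of the quadratic form along the scheme -/
lemma step_exact (hN : Noise P F b) {s t : ℝ} (hs : 0 ≤ s) (hst : s ≤ t) {u w : Ω → E}
    (hu : AEStronglyMeasurable[F s] u P) (hu2 : MemLp u 2 P)
    (hw : AEStronglyMeasurable[F s] w P) (hw2 : MemLp w 2 P) (R : E →L[ℝ] E) :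
    ei P (fun ω => R (u ω + (b t ω - b s ω) • w ω)) (fun ω => u ω + (b t ω - b s ω) • w ω)
      = ei P (fun ω => R (u ω)) u + (t - s) * ei P (fun ω => R (w ω)) w := by
  have hRu : AEStronglyMeasurable[F s] (fun ω => R (u ω)) P := by
    obtain ⟨g, hg, hfg⟩ := hu
    exact ⟨fun ω => R (g ω), R.continuous.comp_stronglyMeasurable hg, by
      filter_upwards [hfg] with ω hω
      rw [hω]⟩
  have hRw : AEStronglyMeasurable[F s] (fun ω => R (w ω)) P := by
    obtain ⟨g, hg, hfg⟩ := hw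
    exact ⟨fun ω => R (g ω), R.continuous.comp_stronglyMeasurable hg, by
      filter_upwards [hfg] with ω hω
      rw [hω]⟩
  have hin : ∀ {f g : Ω → E}, AEStronglyMeasurable[F s] f P → AEStronglyMeasurable[F s] g P →
      AEStronglyMeasurable[F s] (fun ω => inner ℝ (f ω) (g ω)) P := by
    intro f g hf hg
    obtain ⟨f', hf', hff⟩ := hf
    obtain ⟨g', hg', hgg⟩ := hg
    exact ⟨fun ω => inner ℝ (f' ω) (g' ω), hf'.inner hg', by
      filter_upwards [hff, hgg] with ω h1 h2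
      rw [h1, h2]⟩
  have c1 := hN.cross hs hst (hin hRu hw) (inner_integrable (memLp_clm R hu2) hw2)
  have c2 := hN.cross hs hst (hin hRw hu) (inner_integrable (memLp_clm R hw2) hu2)
  have c3 := hN.sq hs hst (hin hRw hw) (inner_integrable (memLp_clm R hw2) hw2)
  have i0 := inner_integrable (memLp_clm R hu2) hu2
  have e : ∀ ω, inner ℝ (R (u ω + (b t ω - b s ω) • w ω)) (u ω + (b t ω - b s ω) • w ω)
      = inner ℝ (R (u ω)) (u ω) + (b t ω - b s ω) * inner ℝ (R (u ω)) (w ω)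
        + ((b t ω - b s ω) * inner ℝ (R (w ω)) (u ω)
        + (b t ω - b s ω) ^ 2 * inner ℝ (R (w ω)) (w ω)) := by
    intro ω
    rw [map_add, map_smul, inner_add_left, inner_add_right, inner_add_right,
      real_inner_smul_right, real_inner_smul_left, real_inner_smul_left, real_inner_smul_right]
    ring
  unfold ei
  simp_rw [e]
  have j1 : Integrable (fun ω => inner ℝ (R (u ω)) (u ω)
    + (b t ω - b s ω) * inner ℝ (R (u ω)) (w ω)) P := i0.add c1.1
  have j2 : Integrable (fun ω => (b t ω - b s ω) * inner ℝ (R (w ω)) (u ω)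
    + (b t ω - b s ω) ^ 2 * inner ℝ (R (w ω)) (w ω)) P := c2.1.add c3.1
  rw [integral_add j1 j2, integral_add i0 c1.1, integral_add c2.1 c3.1, c1.2, c2.2, c3.2]
  ring

/-- the generator applied to a quadratic form -/
noncomputable def gen (Q' Q A D : E →L[ℝ] E) : E →L[ℝ] E :=
  Q' + (ContinuousLinearMap.adjoint A) ∘L Q + Q ∘L A + (ContinuousLinearMap.adjoint D) ∘L Q ∘L D

lemma ei_gen {X : Ω → E} (hX : MemLp X 2 P) (Q' Q A D : E →L[ℝ] E) :
    ei P (fun ω => gen Q' Q A D (X ω)) X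
      = ei P (fun ω => Q' (X ω)) X + ei P (fun ω => Q (X ω)) (fun ω => A (X ω))
        + ei P (fun ω => Q (A (X ω))) X + ei P (fun ω => Q (D (X ω))) (fun ω => D (X ω)) := by
  have e : ∀ ω, inner ℝ (gen Q' Q A D (X ω)) (X ω)
      = inner ℝ (Q' (X ω)) (X ω) + inner ℝ (Q (X ω)) (A (X ω))
        + inner ℝ (Q (A (X ω))) (X ω) + inner ℝ (Q (D (X ω))) (D (X ω)) := by
    intro ω
    unfold gen
    simp only [ContinuousLinearMap.add_apply, ContinuousLinearMap.comp_apply, inner_add_left,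
      ContinuousLinearMap.adjoint_inner_left]
  have i1 := inner_integrable (memLp_clm Q' hX) hX
  have i2 := inner_integrable (memLp_clm Q hX) (memLp_clm A hX)
  have i3 := inner_integrable (memLp_clm Q (memLp_clm A hX)) hX
  have i4 := inner_integrable (memLp_clm Q (memLp_clm D hX)) (memLp_clm D hX)
  have i12 : Integrable (fun ω => inner ℝ (Q' (X ω)) (X ω) + inner ℝ (Q (X ω)) (A (X ω))) P :=
    i1.add i2
  have i123 : Integrable (fun ω => inner ℝ (Q' (X ω)) (X ω) + inner ℝ (Q (X ω)) (A (X ω))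
    + inner ℝ (Q (A (X ω))) (X ω)) P := i12.add i3
  unfold ei
  simp_rw [e]
  rw [integral_add i123 i4, integral_add i12 i3, integral_add i1 i2]

/-- one step, approximately -/
lemma step_approx (hN : Noise P F b) (hT : 0 < T) {K : ℝ} (hK : Coef T A D K) {N : ℕ}
    (hNp : 0 < N) {k : ℕ} (hk : k < N) {Q Q' : ℝ → E →L[ℝ] E} {cq cp e : ℝ}
    (hcq : ∀ t ∈ Icc 0 T, ‖Q t‖ ≤ cq)
    (h1 : ‖Q (gp T N (k + 1)) - Q (gp T N k)‖ ≤ (T / N) * cp)
    (h2 : ‖Q (gp T N (k + 1)) - Q (gp T N k) - (T / N) • Q' (gp T N k)‖ ≤ (T / N) * e) :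
    |ei P (fun ω => Q (gp T N (k + 1)) (eul b A D T N ξ (k + 1) ω)) (eul b A D T N ξ (k + 1))
      - ei P (fun ω => Q (gp T N k) (eul b A D T N ξ k ω)) (eul b A D T N ξ k)
      - (T / N) * ei P (fun ω => gen (Q' (gp T N k)) (Q (gp T N k)) (A (gp T N k)) (D (gp T N k))
          (eul b A D T N ξ k ω)) (eul b A D T N ξ k)|
      ≤ (T / N) * ((e + (T / N) * (cp * (2 * K + K ^ 2) + cq * K ^ 2)) * M0 T K ξ) := by
  set h : ℝ := T / N with hh
  have hNr : (0 : ℝ) < N := Nat.cast_pos.2 hNp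
  have hh0 : 0 ≤ h := by positivity
  set r := gp T N k with hr
  have hrI : r ∈ Icc 0 T := ⟨gp_nonneg hT N k, gp_le hT hNp hk.le⟩
  have hr1 : gp T N (k + 1) ∈ Icc 0 T := ⟨gp_nonneg hT N _, gp_le hT hNp hk⟩
  have hK0 := hK.nn
  set X := eul b A D T N ξ k with hX
  have mX : MemLp X 2 P := eul_memLp hN hT k
  set R := Q (gp T N (k + 1)) with hR
  set Q0 := Q r with hQ0
  set Ar := A r with hAr
  set Dr := D r with hDr
  have hgs : gp T N (k + 1) - r = h := by rw [gp_succ]; ring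
  have hXm : AEStronglyMeasurable[F r] X P := (eul_meas hN hT k).aestronglyMeasurable
  have mA : MemLp (fun ω => Ar (X ω)) 2 P := memLp_clm Ar mX
  have mD : MemLp (fun ω => Dr (X ω)) 2 P := memLp_clm Dr mX
  set u : Ω → E := fun ω => X ω + h • Ar (X ω) with hu
  have mu : MemLp u 2 P := mX.add (mA.const_smul h)
  have hum : AEStronglyMeasurable[F r] u P := by
    obtain ⟨g, hg, hfg⟩ := hXm
    exact ⟨fun ω => g ω + h • Ar (g ω),
      hg.add ((Ar.continuous.comp_stronglyMeasurable hg).const_smul h), by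
      filter_upwards [hfg] with ω hω
      simp only [hu]
      rw [hω]⟩
  have hDm : AEStronglyMeasurable[F r] (fun ω => Dr (X ω)) P := by
    obtain ⟨g, hg, hfg⟩ := hXm
    exact ⟨fun ω => Dr (g ω), Dr.continuous.comp_stronglyMeasurable hg, by
      filter_upwards [hfg] with ω hω
      rw [hω]⟩
  have hstep : eul b A D T N ξ (k + 1)
      = fun ω => u ω + (b (gp T N (k + 1)) ω - b r ω) • Dr (X ω) := by
    funext ω
    have : eul b A D T N ξ (k + 1) ω = X ω + (gp T N (k + 1) - gp T N k) • A (gp T N k) (X ω)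
      + (b (gp T N (k + 1)) ω - b (gp T N k) ω) • D (gp T N k) (X ω) := rfl
    rw [this]
    simp only [hu]
    rw [← hr, hgs]
  have hex := step_exact hN (gp_nonneg hT N k) (gp_mono hT N (Nat.le_succ k)) hum mu hDm mD R
  rw [← hr] at hex
  have ex1 : ei P (fun ω => R (eul b A D T N ξ (k + 1) ω)) (eul b A D T N ξ (k + 1))
      = ei P (fun ω => R (u ω)) u + h * ei P (fun ω => R (Dr (X ω))) (fun ω => Dr (X ω)) := by
    rw [hstep, ← hgs]
    exact hex
  -- expand the quadratic form of `u`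
  have mRX : MemLp (fun ω => R (X ω)) 2 P := memLp_clm R mX
  have mRA : MemLp (fun ω => R (Ar (X ω))) 2 P := memLp_clm R mA
  have ex2 : ei P (fun ω => R (u ω)) u = ei P (fun ω => R (X ω)) X
      + h * ei P (fun ω => R (X ω)) (fun ω => Ar (X ω))
      + h * ei P (fun ω => R (Ar (X ω))) X
      + h ^ 2 * ei P (fun ω => R (Ar (X ω))) (fun ω => Ar (X ω)) := by
    have e1 : (fun ω => R (u ω)) = fun ω => R (X ω) + h • R (Ar (X ω)) := by
      funext ω
      simp only [hu, map_add, map_smul]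
    rw [e1]
    have e2 := ei_add_left mRX (mRA.const_smul h) mu
    have e3 := ei_add_right mRX mX (mA.const_smul h)
    have e4 := ei_add_right (mRA.const_smul h) mX (mA.const_smul h)
    have e5 : ei P (fun ω => R (X ω) + h • R (Ar (X ω))) u
      = ei P (fun ω => R (X ω)) u + ei P (fun ω => h • R (Ar (X ω))) u := e2
    have e6 : ei P (fun ω => R (X ω)) u = ei P (fun ω => R (X ω)) X
      + ei P (fun ω => R (X ω)) (fun ω => h • Ar (X ω)) := e3
    have e7 : ei P (fun ω => h • R (Ar (X ω))) u = ei P (fun ω => h • R (Ar (X ω))) X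
      + ei P (fun ω => h • R (Ar (X ω))) (fun ω => h • Ar (X ω)) := e4
    rw [e5, e6, e7, ei_smul_right, ei_smul_left, ei_smul_left, ei_smul_right]
    ring
  have ex3 := ei_gen mX (Q' r) Q0 Ar Dr
  -- differences
  have sub_l : ∀ (M M' : E →L[ℝ] E) {Y Z : Ω → E}, MemLp Y 2 P → MemLp Z 2 P →
      ei P (fun ω => M (Y ω)) Z - ei P (fun ω => M' (Y ω)) Z
        = ei P (fun ω => (M - M') (Y ω)) Z := by
    intro M M' Y Z hY hZ
    unfold ei
    rw [← integral_sub (inner_integrable (memLp_clm M hY) hZ)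
      (inner_integrable (memLp_clm M' hY) hZ)]
    refine integral_congr_ae (Eventually.of_forall fun ω => ?_)
    simp only [ContinuousLinearMap.sub_apply, inner_sub_left]
  have d1 := sub_l R Q0 mX mX
  have d2 := sub_l R Q0 mX mA
  have d3 := sub_l R Q0 mA mX
  have d4 := sub_l R Q0 mD mD
  have d5 : ei P (fun ω => (R - Q0) (X ω)) X - h * ei P (fun ω => Q' r (X ω)) X
      = ei P (fun ω => (R - Q0 - h • Q' r) (X ω)) X := by
    rw [← sub_l (R - Q0) (h • Q' r) mX mX]
    congr 1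
    have : (fun ω => (h • Q' r) (X ω)) = fun ω => h • (Q' r) (X ω) := rfl
    rw [this, ei_smul_left]
  have hm : sn P X ≤ Real.sqrt (M0 T K ξ) := Real.sqrt_le_sqrt (eul_bound hN hT hK hNp hk.le)
  set m := Real.sqrt (M0 T K ξ) with hmdef
  have hm0 : 0 ≤ m := Real.sqrt_nonneg _
  have hmm : m * m = M0 T K ξ := Real.mul_self_sqrt (M0_nonneg _ _ _)
  have hsA : sn P (fun ω => Ar (X ω)) ≤ K * m :=
    (sn_clm_le Ar (hK.hA r hrI) mX).trans (mul_le_mul_of_nonneg_left hm hK0)
  have hsD : sn P (fun ω => Dr (X ω)) ≤ K * m :=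
    (sn_clm_le Dr (hK.hD r hrI) mX).trans (mul_le_mul_of_nonneg_left hm hK0)
  have b1 := ei_bound mX mX (R - Q0 - h • Q' r) h2 hm hm
  have b2 := ei_bound mX mA (R - Q0) h1 hm hsA
  have b3 := ei_bound mA mX (R - Q0) h1 hsA hm
  have b4 := ei_bound mD mD (R - Q0) h1 hsD hsD
  have b5 := ei_bound mA mA R (hcq _ hr1) hsA hsA
  have hfinal : ei P (fun ω => R (eul b A D T N ξ (k + 1) ω)) (eul b A D T N ξ (k + 1))
      - ei P (fun ω => Q0 (X ω)) X
      - h * ei P (fun ω => gen (Q' r) Q0 Ar Dr (X ω)) X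
      = ei P (fun ω => (R - Q0 - h • Q' r) (X ω)) X
        + h * (ei P (fun ω => (R - Q0) (X ω)) (fun ω => Ar (X ω))
        + ei P (fun ω => (R - Q0) (Ar (X ω))) X
        + ei P (fun ω => (R - Q0) (Dr (X ω))) (fun ω => Dr (X ω)))
        + h ^ 2 * ei P (fun ω => R (Ar (X ω))) (fun ω => Ar (X ω)) := by
    rw [ex1, ex2, ex3, ← d5, ← d1, ← d2, ← d3, ← d4]
    ring
  rw [hfinal]
  set x1 := ei P (fun ω => (R - Q0 - h • Q' r) (X ω)) X
  set x2 := ei P (fun ω => (R - Q0) (X ω)) (fun ω => Ar (X ω))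
  set x3 := ei P (fun ω => (R - Q0) (Ar (X ω))) X
  set x4 := ei P (fun ω => (R - Q0) (Dr (X ω))) (fun ω => Dr (X ω))
  set x5 := ei P (fun ω => R (Ar (X ω))) (fun ω => Ar (X ω))
  have t1 : |x1 + h * (x2 + x3 + x4) + h ^ 2 * x5|
      ≤ |x1| + h * (|x2| + |x3| + |x4|) + h ^ 2 * |x5| := by
    have a1 := abs_add_le (x1 + h * (x2 + x3 + x4)) (h ^ 2 * x5)
    have a2 := abs_add_le x1 (h * (x2 + x3 + x4))
    have a3 : |h * (x2 + x3 + x4)| = h * |x2 + x3 + x4| := by
      rw [abs_mul, abs_of_nonneg hh0]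
    have a4 := abs_add_three x2 x3 x4
    have a5 : |h ^ 2 * x5| = h ^ 2 * |x5| := by rw [abs_mul, abs_of_nonneg (sq_nonneg h)]
    have a6 := mul_le_mul_of_nonneg_left a4 hh0
    linarith
  refine t1.trans ?_
  have s1 : h * (|x2| + |x3| + |x4|) ≤ h * (h * cp * m * (K * m) + h * cp * (K * m) * m
      + h * cp * (K * m) * (K * m)) :=
    mul_le_mul_of_nonneg_left (by linarith) hh0
  have s2 : h ^ 2 * |x5| ≤ h ^ 2 * (cq * (K * m) * (K * m)) :=
    mul_le_mul_of_nonneg_left b5 (sq_nonneg h)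
  have s3 : h * e * m * m + h * (h * cp * m * (K * m) + h * cp * (K * m) * m
      + h * cp * (K * m) * (K * m)) + h ^ 2 * (cq * (K * m) * (K * m))
      = h * ((e + h * (cp * (2 * K + K ^ 2) + cq * K ^ 2)) * (m * m)) := by ring
  rw [← hmm, ← s3]
  linarith

end Pool.Agent.ACF
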