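import Pool.Agent.ACF.NEul
import Pool.Agent.ACF.DevA

set_option autoImplicit false
set_option linter.unusedSectionVars false
open MeasureTheory ProbabilityTheory Set Filter Topology
open scoped NNReal ENNReal

namespace Pool.Agent.ACF

variable {E : Type*} [NormedAddCommGroup E] [InnerProductSpace ℝ E] [CompleteSpace E]
variable {Ω : Type*} {mΩ : MeasurableSpace Ω} {P : Measure Ω} [IsProbabilityMeasure P]
  {F : ℝ → MeasurableSpace Ω} {b : ℝ → Ω → ℝ} {T : ℝ}

lemma gp_mem {s : ℝ} (hs : 0 < s) (hsT : s ≤ T) {N k : ℕ} (hN : 0 < N) (hk : k ≤ N) :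
    gp s N k ∈ Icc 0 T := ⟨gp_nonneg hs N k, (gp_le hs hN hk).trans hsT⟩

/-- measurability and square integrability of the scheme -/
lemma nl_good (hN : Noise P F b) {D : ℝ → E →L[ℝ] E} {L : ℝ} {f : ℝ → E → E}
    (hf : Drift T L f) {s : ℝ} (hs : 0 < s) (hsT : s ≤ T) {N : ℕ} (hNp : 0 < N) (x0 : E) :
    ∀ k, k ≤ N → StronglyMeasurable[F (gp s N k)] (nl b D f s N x0 k) ∧
      MemLp (nl b D f s N x0 k) 2 P := by
  intro k
  induction k with
  | zero =>
    intro _
    exact ⟨@stronglyMeasurable_const _ _ (F _) _ _, memLp_const _⟩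
  | succ k ih =>
    intro hk
    obtain ⟨h1, h2⟩ := ih (by omega)
    have ht := gp_mem (T := T) hs hsT hNp (by omega : k ≤ N)
    have hmono : gp s N k ≤ gp s N (k + 1) := gp_mono hs N (Nat.le_succ k)
    have hy : StronglyMeasurable[F (gp s N k)] (fun ω => nl b D f s N x0 k ω
        + (s / N) • f (gp s N k) (nl b D f s N x0 k ω)) :=
      h1.add (((hf.continuous ht).comp_stronglyMeasurable h1).const_smul (s / N))
    have hy2 : MemLp (fun ω => nl b D f s N x0 k ω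
        + (s / N) • f (gp s N k) (nl b D f s N x0 k ω)) 2 P :=
      h2.add ((hf.memLp ht h2).const_smul (s / N))
    have hD : StronglyMeasurable[F (gp s N k)] (fun ω => D (gp s N k) (nl b D f s N x0 k ω
        + (s / N) • f (gp s N k) (nl b D f s N x0 k ω))) :=
      (D (gp s N k)).continuous.comp_stronglyMeasurable hy
    have hD2 := memLp_clm (D (gp s N k)) hy2
    constructor
    · exact (hy.mono (hN.mono _ _ hmono)).add
        (((hN.adapt _).sub ((hN.adapt _).mono (hN.mono _ _ hmono))).smul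
          (hD.mono (hN.mono _ _ hmono)))
    · exact hy2.add (hN.smul ht.1 hmono hD.aestronglyMeasurable hD2).1

/-- one step of the error recursion -/
lemma nl_step (hN : Noise P F b) (hT : 0 < T) {D : ℝ → E →L[ℝ] E}
    (hcD : ContinuousOn D (Icc 0 T)) {a : ℝ} (ha : ∀ t ∈ Icc 0 T, ‖D t‖ ≤ a) {L : ℝ}
    {f : ℝ → E → E} (hf : Drift T L f) {X I : ℝ → Ω → E} (hX : MSC P T X) (hXa : Adp P F T X)
    (hg : MemLp (fun p : ℝ × Ω => f p.1 (X p.1 p.2)) 2 (muT T P))
    (hI : IsIto P b T (fun t ω => D t (X t ω)) I) {x0 : E}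
    (heq : ∀ t ∈ Icc 0 T, ∀ᵐ ω ∂P, X t ω = x0 + (∫ r in (0 : ℝ)..t, f r (X r ω)) + I t ω)
    {s : ℝ} (hs : 0 < s) (hsT : s ≤ T) {N : ℕ} (hNp : 0 < N) {k : ℕ} (hk : k < N) {w cf : ℝ}
    (hw1 : ∀ r ∈ Icc (gp s N k) (gp s N (k + 1)),
      qn P (fun ω => f (gp s N k) (X (gp s N k) ω) - f r (X r ω)) ≤ w)
    (hw2 : ∀ r ∈ Icc (gp s N k) (gp s N (k + 1)),
      qn P (fun ω => D (gp s N k) (X (gp s N k) ω) - D r (X r ω)) ≤ w)
    (hcf : qn P (fun ω => f (gp s N k) (X (gp s N k) ω)) ≤ cf) :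
    qn P (fun ω => nl b D f s N x0 (k + 1) ω - X (gp s N (k + 1)) ω)
      ≤ (1 + s / N) * ((1 + 3 * a ^ 2 * (s / N)) * (1 + s / N * L) ^ 2
          * qn P (fun ω => nl b D f s N x0 k ω - X (gp s N k) ω)
          + 3 * (s / N) * (a ^ 2 * (s / N) ^ 2 * cf + w))
        + (1 + (s / N)⁻¹) * ((s / N) ^ 2 * w) := by
  have hNr : (0 : ℝ) < N := Nat.cast_pos.2 hNp
  set h : ℝ := s / N with hh
  have hh0 : 0 < h := by positivity
  set t0 := gp s N k with ht0
  set t1 := gp s N (k + 1) with ht1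
  have m0 : t0 ∈ Icc 0 T := gp_mem hs hsT hNp hk.le
  have m1 : t1 ∈ Icc 0 T := gp_mem hs hsT hNp hk
  have h01 : t0 ≤ t1 := gp_mono hs N (Nat.le_succ k)
  have hstep : t1 = t0 + h := gp_succ N k
  obtain ⟨gm, gl⟩ := nl_good hN (D := D) hf hs hsT hNp x0 k hk.le
  set n0 := nl b D f s N x0 k with hn0
  have hX0 := hX.memLp t0 m0
  have hX1 := hX.memLp t1 m1
  have ha0 : 0 ≤ a := (norm_nonneg _).trans (ha t0 m0)
  -- the three parts of the error
  set p : Ω → E := fun ω => (n0 ω - X t0 ω) + h • (f t0 (n0 ω) - f t0 (X t0 ω)) with hp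
  set y : Ω → E := fun ω => n0 ω + h • f t0 (n0 ω) with hy
  set q : Ω → E := fun ω => (b t1 ω - b t0 ω) • D t0 (y ω) - (I t1 ω - I t0 ω) with hq
  set d : Ω → E := fun ω => ∫ r in t0..t1, (f t0 (X t0 ω) - f r (X r ω)) with hd
  have mfn := hf.memLp m0 gl
  have mfX := hf.memLp m0 hX0
  have mp : MemLp p 2 P := (gl.sub hX0).add ((mfn.sub mfX).const_smul h)
  have my : MemLp y 2 P := gl.add (mfn.const_smul h)
  have mDy : MemLp (fun ω => D t0 (y ω)) 2 P := memLp_clm _ my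
  have ym : AEStronglyMeasurable[F t0] (fun ω => D t0 (y ω)) P :=
    ((D t0).continuous.comp_stronglyMeasurable
      (gm.add (((hf.continuous m0).comp_stronglyMeasurable gm).const_smul h))).aestronglyMeasurable
  have pm : AEStronglyMeasurable[F t0] p P := by
    obtain ⟨x, hx, hxe⟩ := hXa t0 m0
    refine ⟨fun ω => (n0 ω - x ω) + h • (f t0 (n0 ω) - f t0 (x ω)), ?_, ?_⟩
    · exact (gm.sub hx).add ((((hf.continuous m0).comp_stronglyMeasurable gm).sub
        ((hf.continuous m0).comp_stronglyMeasurable hx)).const_smul h)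
    · filter_upwards [hxe] with ω hω
      simp only [hp, hω]
  have hDX : MSC P T (fun t ω => D t (X t ω)) := hX.clm hcD
  have hiso := loc_iso hN hT hI hDX (hXa.clm D) m0.1 h01 m1.2 (wt_one (P := P) (F := F) t0)
    (Z := fun ω => D t0 (y ω)) ym mDy
  obtain ⟨mq', hq', ho'⟩ := hiso
  simp only [one_smul] at mq' hq' ho'
  have mq : MemLp q 2 P := mq'
  have horth : ∫ ω, inner ℝ (p ω) (q ω) ∂P = 0 := ho' p pm mp
  have jd : MemLp (fun z : ℝ × Ω => f t0 (X t0 z.2) - f z.1 (X z.1 z.2)) 2 (muT T P) :=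
    (mfX.comp_snd _).sub hg
  have hdr := drift_est (g := fun r ω => f t0 (X t0 ω) - f r (X r ω)) m0.1 h01 m1.2 jd
  have md : MemLp d 2 P := hdr.1
  have hsum : (fun ω => nl b D f s N x0 (k + 1) ω - X t1 ω) =ᵐ[P] fun ω => (p ω + q ω) + d ω := by
    filter_upwards [heq t0 m0, heq t1 m1,
      fub_ae (g := fun r ω => f r (X r ω)) le_rfl m0.1 m0.2 hg,
      fub_ae (g := fun r ω => f r (X r ω)) le_rfl m1.1 m1.2 hg,
      fub_ae (g := fun r ω => f r (X r ω)) m0.1 h01 m1.2 hg] with ω e0 e1 i0 i1 i01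
    have e2 : nl b D f s N x0 (k + 1) ω = y ω + (b t1 ω - b t0 ω) • D t0 (y ω) := rfl
    have e3 : d ω = h • f t0 (X t0 ω) - ∫ r in t0..t1, f r (X r ω) := by
      simp only [hd]
      rw [intervalIntegral.integral_sub intervalIntegrable_const i01.1,
        intervalIntegral.integral_const, hstep, add_sub_cancel_left]
    have e4 : X t1 ω - X t0 ω = (∫ r in t0..t1, f r (X r ω)) + (I t1 ω - I t0 ω) := by
      rw [e0, e1, ← intervalIntegral.integral_interval_sub_left i1.1 i0.1]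
      abel
    have e5 : X t1 ω = X t0 ω + ((∫ r in t0..t1, f r (X r ω)) + (I t1 ω - I t0 ω)) := by
      rw [← e4]
      abel
    rw [e2, e3, e5]
    simp only [hp, hq, hy, smul_sub]
    abel
  -- bounds
  have bp : qn P p ≤ (1 + h * L) ^ 2 * qn P (fun ω => n0 ω - X t0 ω) := by
    unfold qn
    rw [← integral_const_mul]
    refine integral_mono (sq_integrable mp) ((sq_integrable (gl.sub hX0)).const_mul _) fun ω => ?_
    simp only
    rw [← mul_pow]
    refine pow_le_pow_left₀ (norm_nonneg _) ?_ 2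
    simp only [hp]
    refine (norm_add_le _ _).trans ?_
    rw [norm_smul, Real.norm_eq_abs, abs_of_pos hh0]
    have := mul_le_mul_of_nonneg_left (hf.lip t0 m0 (n0 ω) (X t0 ω)) hh0.le
    linarith
  have bd : qn P d ≤ h ^ 2 * w := by
    refine hdr.2.trans ?_
    have h1 : ∀ r ∈ uIoc t0 t1, ‖qn P (fun ω => f t0 (X t0 ω) - f r (X r ω))‖ ≤ w := by
      intro r hr
      rw [uIoc_of_le h01] at hr
      rw [Real.norm_eq_abs, abs_of_nonneg (qn_nonneg _)]
      exact hw1 r ⟨hr.1.le, hr.2⟩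
    have h2 := intervalIntegral.norm_integral_le_of_norm_le_const h1
    have h3 : t1 - t0 = h := by linarith
    rw [h3, abs_of_pos hh0] at h2
    rw [h3]
    have h4 := (Real.le_norm_self _).trans h2
    calc h * ∫ r in t0..t1, qn P (fun ω => f t0 (X t0 ω) - f r (X r ω)) ≤ h * (w * h) :=
          mul_le_mul_of_nonneg_left h4 hh0.le
      _ = h ^ 2 * w := by ring
  have bq : qn P q ≤ h * (3 * a ^ 2 * qn P p + 3 * a ^ 2 * h ^ 2 * cf + 3 * w) := by
    have e : qn P q = ∫ r in t0..t1, qn P (fun ω => D t0 (y ω) - D r (X r ω)) := hq'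
    rw [e]
    have h1 : ∀ r ∈ uIoc t0 t1, ‖qn P (fun ω => D t0 (y ω) - D r (X r ω))‖
        ≤ 3 * a ^ 2 * qn P p + 3 * a ^ 2 * h ^ 2 * cf + 3 * w := by
      intro r hr
      rw [uIoc_of_le h01] at hr
      rw [Real.norm_eq_abs, abs_of_nonneg (qn_nonneg _)]
      have hrT : r ∈ Icc 0 T := ⟨m0.1.trans hr.1.le, hr.2.trans m1.2⟩
      have mh : MemLp (fun ω => h • f t0 (X t0 ω)) 2 P := mfX.const_smul h
      have e2 : (fun ω => D t0 (y ω) - D r (X r ω)) = fun ω => D t0 (p ω)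
          + D t0 (h • f t0 (X t0 ω)) + (D t0 (X t0 ω) - D r (X r ω)) := by
        funext ω
        have e3 : y ω = p ω + h • f t0 (X t0 ω) + X t0 ω := by
          simp only [hy, hp, smul_sub]
          abel
        rw [e3, map_add, map_add]
        abel
      rw [e2]
      refine (qn_add3_le (memLp_clm _ mp) (memLp_clm _ mh)
        ((memLp_clm _ hX0).sub (memLp_clm _ (hX.memLp r hrT)))).trans ?_
      have b1 := qn_clm_le (D t0) (ha t0 m0) mp
      have b2 := qn_clm_le (D t0) (ha t0 m0) mh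
      have b3 : qn P (fun ω => h • f t0 (X t0 ω)) = h ^ 2 * qn P (fun ω => f t0 (X t0 ω)) :=
        qn_smul h _
      rw [b3] at b2
      have b4 : a ^ 2 * (h ^ 2 * qn P (fun ω => f t0 (X t0 ω))) ≤ a ^ 2 * (h ^ 2 * cf) :=
        mul_le_mul_of_nonneg_left (mul_le_mul_of_nonneg_left hcf (sq_nonneg _)) (sq_nonneg _)
      have b5 := hw2 r ⟨hr.1.le, hr.2⟩
      have b6 : qn P ((fun ω => D t0 (X t0 ω)) - fun ω => D r (X r ω)) ≤ w := b5
      linarith
    have h2 := intervalIntegral.norm_integral_le_of_norm_le_const h1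
    have h3 : t1 - t0 = h := by linarith
    rw [h3, abs_of_pos hh0] at h2
    have h4 := (Real.le_norm_self _).trans h2
    linarith
  rw [qn_congr hsum]
  have c1 := qn_add_wt (mp.add mq) md hh0
  have c2 : qn P (p + q) = qn P p + qn P q := qn_add_orth mp mq horth
  rw [c2] at c1
  refine c1.trans ?_
  set u0 := qn P (fun ω => n0 ω - X t0 ω) with hu0
  have hu00 : 0 ≤ u0 := qn_nonneg _
  have c3 : qn P p + qn P q ≤ (1 + 3 * a ^ 2 * h) * (1 + h * L) ^ 2 * u0
      + 3 * h * (a ^ 2 * h ^ 2 * cf + w) := by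
    have c4 : qn P p + qn P q ≤ (1 + 3 * a ^ 2 * h) * qn P p
        + 3 * h * (a ^ 2 * h ^ 2 * cf + w) := by linarith
    have c5 : (1 + 3 * a ^ 2 * h) * qn P p ≤ (1 + 3 * a ^ 2 * h) * ((1 + h * L) ^ 2 * u0) :=
      mul_le_mul_of_nonneg_left bp (by positivity)
    linarith
  have c6 : 0 ≤ 1 + h⁻¹ := by positivity
  have c7 : (1 + h) * (qn P p + qn P q) ≤ (1 + h) * ((1 + 3 * a ^ 2 * h) * (1 + h * L) ^ 2 * u0
      + 3 * h * (a ^ 2 * h ^ 2 * cf + w)) := mul_le_mul_of_nonneg_left c3 (by positivity)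
  have c8 : (1 + h⁻¹) * qn P d ≤ (1 + h⁻¹) * (h ^ 2 * w) := mul_le_mul_of_nonneg_left bd c6
  exact add_le_add c7 c8

end Pool.Agent.ACF
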