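import Pool.Agent.ACF.DevC

set_option autoImplicit false
set_option linter.unusedSectionVars false
open MeasureTheory ProbabilityTheory Set Filter Topology
open scoped NNReal ENNReal

namespace Pool.Agent.ACF

variable {E : Type*} [NormedAddCommGroup E] [InnerProductSpace ℝ E] [CompleteSpace E]
variable {Ω : Type*} {mΩ : MeasurableSpace Ω} {P : Measure Ω} [IsProbabilityMeasure P]
  {F : ℝ → MeasurableSpace Ω} {b : ℝ → Ω → ℝ} {T : ℝ}

/-- a drift, Lipschitz in the state and continuous in time -/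
structure Drift (T L : ℝ) (f : ℝ → E → E) : Prop where
  nn : 0 ≤ L
  lip : ∀ t ∈ Icc 0 T, ∀ x y, ‖f t x - f t y‖ ≤ L * ‖x - y‖
  cont : ∀ x, ContinuousOn (fun t => f t x) (Icc 0 T)

lemma Drift.continuous {L : ℝ} {f : ℝ → E → E} (hf : Drift T L f) {t : ℝ} (ht : t ∈ Icc 0 T) :
    Continuous (f t) := by
  have h : LipschitzWith (Real.toNNReal L) (f t) := by
    refine LipschitzWith.of_dist_le_mul fun x y => ?_
    rw [dist_eq_norm, dist_eq_norm, Real.coe_toNNReal _ hf.nn]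
    exact hf.lip t ht x y
  exact h.continuous

lemma Drift.bound {L : ℝ} {f : ℝ → E → E} (hf : Drift T L f) :
    ∃ c : ℝ, 0 ≤ c ∧ ∀ t ∈ Icc 0 T, ∀ x, ‖f t x‖ ≤ c + L * ‖x‖ := by
  obtain ⟨c, hc⟩ := isCompact_Icc.exists_bound_of_continuousOn (s := Icc (0 : ℝ) T) (hf.cont 0)
  refine ⟨|c|, abs_nonneg c, fun t ht x => ?_⟩
  have h1 := hf.lip t ht x 0
  rw [sub_zero] at h1
  have h2 := norm_sub_norm_le (f t x) (f t 0)
  have h3 := (hc t ht).trans (le_abs_self c)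
  linarith

lemma Drift.memLp {L : ℝ} {f : ℝ → E → E} (hf : Drift T L f) {t : ℝ} (ht : t ∈ Icc 0 T)
    {Z : Ω → E} (hZ : MemLp Z 2 P) : MemLp (fun ω => f t (Z ω)) 2 P := by
  obtain ⟨c, hc0, hc⟩ := hf.bound
  have h1 : MemLp (fun ω => c + L * ‖Z ω‖) 2 P := (memLp_const c).add (hZ.norm.const_mul L)
  refine MemLp.of_le h1 ((hf.continuous ht).comp_aestronglyMeasurable hZ.1)
    (Eventually.of_forall fun ω => ?_)
  have h2 := hc t ht (Z ω)
  exact h2.trans (Real.le_norm_self _)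

lemma sn_lip {f : E → E} {L : ℝ} (hL : 0 ≤ L) (hf : ∀ x y, ‖f x - f y‖ ≤ L * ‖x - y‖)
    {Z W : Ω → E} (hZ : MemLp Z 2 P) (hW : MemLp W 2 P)
    (hm : MemLp (fun ω => f (Z ω) - f (W ω)) 2 P) :
    qn P (fun ω => f (Z ω) - f (W ω)) ≤ L ^ 2 * qn P (fun ω => Z ω - W ω) := by
  unfold qn
  rw [← integral_const_mul]
  refine integral_mono (sq_integrable hm) ((sq_integrable (hZ.sub hW)).const_mul _) fun ω => ?_
  simp only
  rw [← mul_pow]
  exact pow_le_pow_left₀ (norm_nonneg _) (hf _ _) 2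

/-- the drift along a mean square continuous process -/
lemma Drift.msc {L : ℝ} {f : ℝ → E → E} (hf : Drift T L f) {X : ℝ → Ω → E} (hX : MSC P T X) :
    MSC P T (fun t ω => f t (X t ω)) := by
  refine MSC.of_sn (fun t ht => hf.memLp ht (hX.memLp t ht)) fun s hs => ?_
  obtain ⟨c, hc0, hc⟩ := hf.bound
  have hXs := hX.memLp s hs
  have h2 : Tendsto (fun t => qn P (fun ω => f t (X s ω) - f s (X s ω))) (𝓝[Icc 0 T] s)
      (𝓝 0) := by
    unfold qn
    have h3 : ∫ _ : Ω, (0 : ℝ) ∂P = 0 := by simp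
    suffices key : Tendsto (fun t => ∫ ω, ‖f t (X s ω) - f s (X s ω)‖ ^ 2 ∂P)
        (𝓝[Icc 0 T] s) (𝓝 (∫ _ : Ω, (0 : ℝ) ∂P)) by
      rw [h3] at key
      exact key
    refine tendsto_integral_filter_of_dominated_convergence
      (fun ω => (2 * (c + L * ‖X s ω‖)) ^ 2) ?_ ?_ ?_ ?_
    · filter_upwards [self_mem_nhdsWithin] with t ht
      exact (((hf.memLp ht hXs).sub (hf.memLp hs hXs)).1.norm.pow 2)
    · filter_upwards [self_mem_nhdsWithin] with t ht
      refine Eventually.of_forall fun ω => ?_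
      rw [Real.norm_eq_abs, abs_of_nonneg (sq_nonneg _)]
      refine pow_le_pow_left₀ (norm_nonneg _) ?_ 2
      have a1 := norm_sub_le (f t (X s ω)) (f s (X s ω))
      linarith [hc t ht (X s ω), hc s hs (X s ω)]
    · have h1 : MemLp (fun ω => 2 * (c + L * ‖X s ω‖)) 2 P :=
        ((memLp_const c).add (hXs.norm.const_mul L)).const_mul 2
      exact h1.integrable_sq
    · refine Eventually.of_forall fun ω => ?_
      have h4 := (hf.cont (X s ω)) s hs
      have h5 := tendsto_iff_norm_sub_tendsto_zero.1 h4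
      have h6 := h5.pow 2
      simpa using h6
  have h3 : Tendsto (fun t => L * sn P (fun ω => X t ω - X s ω)
      + Real.sqrt (qn P (fun ω => f t (X s ω) - f s (X s ω)))) (𝓝[Icc 0 T] s) (𝓝 0) := by
    have h4 := (hX.tendsto_sn hs).const_mul L
    have h5 := (Real.continuous_sqrt.tendsto 0).comp h2
    rw [Real.sqrt_zero] at h5
    simpa using h4.add h5
  refine squeeze_zero' (Eventually.of_forall fun _ => sn_nonneg _) ?_ h3
  filter_upwards [self_mem_nhdsWithin] with t ht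
  have hXt := hX.memLp t ht
  have m1 : MemLp (fun ω => f t (X t ω) - f t (X s ω)) 2 P :=
    (hf.memLp ht hXt).sub (hf.memLp ht hXs)
  have m2 : MemLp (fun ω => f t (X s ω) - f s (X s ω)) 2 P :=
    (hf.memLp ht hXs).sub (hf.memLp hs hXs)
  have e : (fun ω => f t (X t ω) - f s (X s ω))
      = fun ω => (f t (X t ω) - f t (X s ω)) + (f t (X s ω) - f s (X s ω)) := by
    funext ω
    abel
  rw [e]
  refine (sn_add_le m1 m2).trans (add_le_add ?_ le_rfl)
  unfold sn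
  rw [← Real.sqrt_sq hf.nn, ← Real.sqrt_mul (sq_nonneg _)]
  exact Real.sqrt_le_sqrt (sn_lip hf.nn (hf.lip t ht) hXt hXs m1)

/-- uniform mean square continuity -/
lemma MSC.unif {Z : ℝ → Ω → E} (hZ : MSC P T Z) {ε : ℝ} (hε : 0 < ε) :
    ∃ δ > 0, ∀ r ∈ Icc 0 T, ∀ r' ∈ Icc 0 T, |r - r'| ≤ δ →
      qn P (fun ω => Z r ω - Z r' ω) ≤ ε := by
  classical
  set Φ : ℝ → Lp E 2 P := fun t => if h : t ∈ Icc 0 T then (hZ.memLp t h).toLp (Z t) else 0
    with hΦ
  have hd : ∀ r ∈ Icc 0 T, ∀ r' ∈ Icc 0 T, dist (Φ r) (Φ r') = sn P (fun ω => Z r ω - Z r' ω) := by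
    intro r hr r' hr'
    have h1 : sn P (fun ω => Z r ω - Z r' ω) = _ :=
      sn_eq_norm (f := fun ω => Z r ω - Z r' ω) ((hZ.memLp r hr).sub (hZ.memLp r' hr'))
    rw [h1, dist_eq_norm]
    simp only [hΦ, hr, hr', dif_pos]
    rfl
  have hc : ContinuousOn Φ (Icc 0 T) := by
    intro s hs
    rw [ContinuousWithinAt, tendsto_iff_dist_tendsto_zero]
    refine (hZ.tendsto_sn hs).congr' ?_
    filter_upwards [self_mem_nhdsWithin] with t ht
    exact (hd t ht s hs).symm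
  have h1 := isCompact_Icc.uniformContinuousOn_of_continuous hc
  rw [Metric.uniformContinuousOn_iff_le] at h1
  obtain ⟨δ, hδ, h2⟩ := h1 (Real.sqrt ε) (Real.sqrt_pos.2 hε)
  refine ⟨δ, hδ, fun r hr r' hr' h => ?_⟩
  have h3 := h2 r hr r' hr' (by rw [Real.dist_eq]; exact h)
  rw [hd r hr r' hr'] at h3
  rw [← sn_sq]
  calc sn P (fun ω => Z r ω - Z r' ω) ^ 2 ≤ Real.sqrt ε ^ 2 :=
        pow_le_pow_left₀ (sn_nonneg _) h3 2
    _ = ε := Real.sq_sqrt hε.le

/-- weighted inequality for the mean square of a sum -/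
lemma qn_add_wt {f g : Ω → E} (hf : MemLp f 2 P) (hg : MemLp g 2 P) {h : ℝ} (hh : 0 < h) :
    qn P (fun ω => f ω + g ω) ≤ (1 + h) * qn P f + (1 + h⁻¹) * qn P g := by
  unfold qn
  rw [← integral_const_mul, ← integral_const_mul, ← integral_add
    ((sq_integrable hf).const_mul _) ((sq_integrable hg).const_mul _)]
  refine integral_mono (sq_integrable (hf.add hg))
    (((sq_integrable hf).const_mul _).add ((sq_integrable hg).const_mul _)) fun ω => ?_
  simp only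
  have h1 := norm_add_le (f ω) (g ω)
  have h3 : ‖f ω + g ω‖ ^ 2 ≤ (‖f ω‖ + ‖g ω‖) ^ 2 := pow_le_pow_left₀ (norm_nonneg _) h1 2
  have h4 : 2 * (‖f ω‖ * ‖g ω‖) ≤ h * ‖f ω‖ ^ 2 + h⁻¹ * ‖g ω‖ ^ 2 := by
    have e : h * ‖f ω‖ ^ 2 + h⁻¹ * ‖g ω‖ ^ 2 - 2 * (‖f ω‖ * ‖g ω‖)
        = h * (‖f ω‖ - h⁻¹ * ‖g ω‖) ^ 2 := by
      field_simp
      ring
    have h5 : 0 ≤ h * (‖f ω‖ - h⁻¹ * ‖g ω‖) ^ 2 := by positivity
    linarith
  nlinarith

/-- mean square of a sum of orthogonal variables -/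
lemma qn_add_orth {f g : Ω → E} (hf : MemLp f 2 P) (hg : MemLp g 2 P)
    (h : ∫ ω, inner ℝ (f ω) (g ω) ∂P = 0) :
    qn P (fun ω => f ω + g ω) = qn P f + qn P g := by
  unfold qn
  have e : ∀ ω, ‖f ω + g ω‖ ^ 2 = ‖f ω‖ ^ 2 + 2 * inner ℝ (f ω) (g ω) + ‖g ω‖ ^ 2 :=
    fun ω => norm_add_sq_real _ _
  simp_rw [e]
  have i1 := sq_integrable hf
  have i2 := (inner_integrable hf hg).const_mul 2
  have i3 := sq_integrable hg
  have i12 : Integrable (fun ω => ‖f ω‖ ^ 2 + 2 * inner ℝ (f ω) (g ω)) P := i1.add i2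
  rw [integral_add i12 i3, integral_add i1 i2, integral_const_mul, h]
  ring

/-- the splitting scheme on `[0, s]` with `N` steps -/
noncomputable def nl (b : ℝ → Ω → ℝ) (D : ℝ → E →L[ℝ] E) (f : ℝ → E → E) (s : ℝ) (N : ℕ)
    (x0 : E) : ℕ → Ω → E
  | 0, _ => x0
  | k + 1, ω =>
    let y := nl b D f s N x0 k ω + (s / N) • f (gp s N k) (nl b D f s N x0 k ω)
    y + (b (gp s N (k + 1)) ω - b (gp s N k) ω) • D (gp s N k) y

end Pool.Agent.ACF
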