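import Pool.Agent.ACF.Interp

set_option autoImplicit false
set_option linter.unusedSectionVars false
open MeasureTheory ProbabilityTheory Set Filter Topology
open scoped NNReal ENNReal

namespace Pool.Agent.ACF

variable {E : Type*} [NormedAddCommGroup E] [InnerProductSpace ℝ E]
variable {Ω : Type*} {mΩ : MeasurableSpace Ω} {P : Measure Ω} [IsProbabilityMeasure P]
  {F : ℝ → MeasurableSpace Ω} {b : ℝ → Ω → ℝ} {T : ℝ}
  {A D : ℝ → E →L[ℝ] E} {N M : ℕ} {ξ : E}

lemma yI_sub_nest (hM : 0 < M) (t : ℝ) (ω : Ω) :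
    yI b A D T N ξ t ω - yI b A D T (N * M) ξ t ω
      = psum (tau T (N * M) 0 t) (fun i => eA b A D T N ξ (i / M) ω
          - eA b A D T (N * M) ξ i ω) (N * M)
        + esum b (tau T (N * M) 0 t) (fun i ω => eD b A D T N ξ (i / M) ω
          - eD b A D T (N * M) ξ i ω) (N * M) ω := by
  have h1 : psum (tau T N 0 t) (fun k => eA b A D T N ξ k ω) N
      = psum (tau T (N * M) 0 t) (fun i => eA b A D T N ξ (i / M) ω) (N * M) := by
    rw [psum_refine (tau T (N * M) 0 t) (fun k => eA b A D T N ξ k ω) N M hM]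
    simp_rw [tau_mul N M _ hM]
  have h2 : psum (fun k => b (tau T N 0 t k) ω) (fun k => eD b A D T N ξ k ω) N
      = psum (fun k => b (tau T (N * M) 0 t k) ω) (fun i => eD b A D T N ξ (i / M) ω) (N * M) := by
    rw [psum_refine (fun k => b (tau T (N * M) 0 t k) ω) (fun k => eD b A D T N ξ k ω) N M hM]
    simp_rw [tau_mul N M _ hM]
  change ξ + (psum (tau T N 0 t) (fun k => eA b A D T N ξ k ω) N
      + psum (fun k => b (tau T N 0 t k) ω) (fun k => eD b A D T N ξ k ω) N)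
    - (ξ + (psum (tau T (N * M) 0 t) (fun k => eA b A D T (N * M) ξ k ω) (N * M)
      + psum (fun k => b (tau T (N * M) 0 t k) ω) (fun k => eD b A D T (N * M) ξ k ω) (N * M)))
    = psum (tau T (N * M) 0 t) (fun i => eA b A D T N ξ (i / M) ω
          - eA b A D T (N * M) ξ i ω) (N * M)
      + psum (fun k => b (tau T (N * M) 0 t k) ω) (fun i => eD b A D T N ξ (i / M) ω
          - eD b A D T (N * M) ξ i ω) (N * M)
  rw [h1, h2, ← psum_sub_left, ← psum_sub_left]
  abel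

/-- oscillation of the coefficients at scale `h` -/
def Osc (T : ℝ) (A : ℝ → E →L[ℝ] E) (h ε : ℝ) : Prop :=
  ∀ s ∈ Icc 0 T, ∀ t ∈ Icc 0 T, |s - t| ≤ h → ‖A s - A t‖ ≤ ε

lemma term_bound (hN : Noise P F b) (hT : 0 < T) {K : ℝ} (hK : Coef T A D K) (hNp : 0 < N)
    (hM : 0 < M) {ε : ℝ} {L : ℝ → E →L[ℝ] E} (hL : ∀ t ∈ Icc 0 T, ‖L t‖ ≤ K)
    (hO : Osc T L (T / N) ε) {i : ℕ} (hi : i < N * M) :
    qn P (fun ω => L (gp T N (i / M)) (eul b A D T N ξ (i / M) ω)
        - L (gp T (N * M) i) (eul b A D T (N * M) ξ i ω))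
      ≤ 3 * ε ^ 2 * M0 T K ξ + 3 * K ^ 2 * (C1 T K ξ * (T / N))
        + 3 * K ^ 2 * qn P (fun ω => yI b A D T N ξ (gp T (N * M) i) ω
          - yI b A D T (N * M) ξ (gp T (N * M) i) ω) := by
  have hNM : 0 < N * M := Nat.mul_pos hNp hM
  have hiM : i / M < N := Nat.div_lt_of_lt_mul (by rwa [Nat.mul_comm] at hi)
  set r := gp T N (i / M) with hr
  set s := gp T (N * M) i with hs
  have hrs : r ≤ s := by
    rw [hr, ← gp_mul N M (i / M) hM]
    exact gp_mono hT _ (Nat.div_mul_le_self i M)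
  have hsr : s - r ≤ T / N := by
    have h1 : gp T (N * M) i ≤ gp T (N * M) ((i / M + 1) * M) := by
      refine gp_mono hT _ ?_
      have := Nat.lt_div_mul_add hM (a := i)
      nlinarith
    rw [gp_mul N M _ hM, gp_succ] at h1
    rw [hs, hr]
    linarith
  have hrT : r ∈ Icc 0 T := ⟨gp_nonneg hT _ _, gp_le hT hNp hiM.le⟩
  have hsT : s ∈ Icc 0 T := ⟨gp_nonneg hT _ _, gp_le hT hNM hi.le⟩
  have e1 : eul b A D T N ξ (i / M) = yI b A D T N ξ r := (yI_gp hT hiM.le).symm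
  have e2 : eul b A D T (N * M) ξ i = yI b A D T (N * M) ξ s := (yI_gp hT hi.le).symm
  have m1 : MemLp (yI b A D T N ξ r) 2 P := yI_memLp hN hT hrT.1
  have m2 : MemLp (yI b A D T N ξ s) 2 P := yI_memLp hN hT hsT.1
  have m3 : MemLp (yI b A D T (N * M) ξ s) 2 P := yI_memLp hN hT hsT.1
  have hsplit : (fun ω => L r (eul b A D T N ξ (i / M) ω) - L s (eul b A D T (N * M) ξ i ω))
      = fun ω => (L r - L s) (yI b A D T N ξ r ω)
        + (L s) (yI b A D T N ξ r ω - yI b A D T N ξ s ω)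
        + (L s) (yI b A D T N ξ s ω - yI b A D T (N * M) ξ s ω) := by
    funext ω
    rw [e1, e2]
    simp only [ContinuousLinearMap.sub_apply, map_sub]
    abel
  rw [hsplit]
  have hrs' : |r - s| ≤ T / N := by
    rw [abs_sub_comm, abs_of_nonneg (by linarith)]
    exact hsr
  have b1 := qn_clm_le (P := P) (L r - L s) (hO r hrT s hsT hrs') m1
  have b2 := qn_clm_le (P := P) (L s) (hL s hsT) (m1.sub m2)
  have b3 := qn_clm_le (P := P) (L s) (hL s hsT) (m2.sub m3)
  have b0 := qn_add3_le (memLp_clm (L r - L s) m1) (memLp_clm (L s) (m1.sub m2))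
    (memLp_clm (L s) (m2.sub m3))
  have b4 : qn P (yI b A D T N ξ r) ≤ M0 T K ξ := by
    rw [← e1]
    exact eul_bound hN hT hK hNp hiM.le
  have b5 : qn P (yI b A D T N ξ r - yI b A D T N ξ s) ≤ C1 T K ξ * (T / N) := by
    have h1 := yI_reg (A := A) (D := D) (N := N) (ξ := ξ) hN hT hK hNp hrT.1 hrs hsT.2
    have h2 : qn P (yI b A D T N ξ r - yI b A D T N ξ s)
        = qn P (fun ω => yI b A D T N ξ s ω - yI b A D T N ξ r ω) := by
      unfold qn
      refine integral_congr_ae (Eventually.of_forall fun ω => ?_)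
      simp only [Pi.sub_apply]
      rw [norm_sub_rev]
    rw [h2]
    exact h1.trans (mul_le_mul_of_nonneg_left hsr (C1_nonneg hT _ _))
  have hK2 : 0 ≤ K ^ 2 := sq_nonneg _
  have hε2 : 0 ≤ ε ^ 2 := sq_nonneg _
  have c1 := mul_le_mul_of_nonneg_left b4 hε2
  have c2 := mul_le_mul_of_nonneg_left b5 hK2
  simp only [Pi.sub_apply] at b0 b2 b3
  have c3 : qn P (yI b A D T N ξ s - yI b A D T (N * M) ξ s)
    = qn P (fun ω => yI b A D T N ξ s ω - yI b A D T (N * M) ξ s ω) := rfl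
  rw [c3] at b3
  nlinarith

/-- the Gronwall factor -/
noncomputable def Gm (T K : ℝ) : ℝ := 2 * (T + 1) * T * Real.exp (6 * (T + 1) * K ^ 2 * T)

lemma nest (hN : Noise P F b) (hT : 0 < T) {K : ℝ} (hK : Coef T A D K) (hNp : 0 < N)
    (hM : 0 < M) {ε : ℝ} (hOA : Osc T A (T / N) ε) (hOD : Osc T D (T / N) ε)
    {κ : ℝ} (hκ : κ = 3 * ε ^ 2 * M0 T K ξ + 3 * K ^ 2 * (C1 T K ξ * (T / N)))
    {t : ℝ} (ht0 : 0 ≤ t) (htT : t ≤ T) :
    qn P (fun ω => yI b A D T N ξ t ω - yI b A D T (N * M) ξ t ω)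
      ≤ 2 * (T + 1) * T * (1 + 3 * K ^ 2 * Gm T K) * κ := by
  have hNM : 0 < N * M := Nat.mul_pos hNp hM
  set φ : ℕ → ℝ := fun i => qn P (fun ω => yI b A D T N ξ (gp T (N * M) i) ω
          - yI b A D T (N * M) ξ (gp T (N * M) i) ω) with hφ
  have hκ0 : 0 ≤ κ := by
    rw [hκ]
    have h1 := M0_nonneg T K ξ
    have h2 := C1_nonneg hT K ξ
    positivity
  have hφ0 : ∀ i, 0 ≤ φ i := fun i => qn_nonneg _
  have hK2 : 0 ≤ K ^ 2 := sq_nonneg _
  -- the general estimate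
  have gen : ∀ t, 0 ≤ t → t ≤ T → qn P (fun ω => yI b A D T N ξ t ω - yI b A D T (N * M) ξ t ω)
      ≤ 2 * (T + 1) * ∑ i ∈ Finset.range (N * M),
        (tau T (N * M) 0 t (i + 1) - tau T (N * M) 0 t i) * (κ + 3 * K ^ 2 * φ i) := by
    intro t ht0 htT
    have mA : ∀ i, MemLp (fun ω => eA b A D T N ξ (i / M) ω - eA b A D T (N * M) ξ i ω) 2 P :=
      fun i => (eA_memLp hN hT _).sub (eA_memLp hN hT _)
    have mD : ∀ i, MemLp (fun ω => eD b A D T N ξ (i / M) ω - eD b A D T (N * M) ξ i ω) 2 P :=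
      fun i => (eD_memLp hN hT _).sub (eD_memLp hN hT _)
    have hG : Good P F (tau T (N * M) 0 t) (fun i ω => eD b A D T N ξ (i / M) ω
          - eD b A D T (N * M) ξ i ω) := by
      refine good_tau hN hT (N * M) le_rfl ht0 mD fun i => ?_
      have h1 : gp T N (i / M) ≤ gp T (N * M) i := by
        rw [← gp_mul N M (i / M) hM]
        exact gp_mono hT _ (Nat.div_mul_le_self i M)
      exact ((eD_meas hN hT _).mono (hN.mono _ _ h1)).sub (eD_meas hN hT _)
    have h1 := (key_sum hN hG mA (N * M)).2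
    simp_rw [yI_sub_nest hM]
    refine h1.trans ?_
    rw [tau_zero le_rfl ht0, tau_self ht0 htT hNM, sub_zero]
    have hnn : ∀ k, 0 ≤ tau T (N * M) 0 t (k + 1) - tau T (N * M) 0 t k := fun k => by
      linarith [tau_mono hT (N * M) 0 t (Nat.le_succ k)]
    set S := ∑ i ∈ Finset.range (N * M),
        (tau T (N * M) 0 t (i + 1) - tau T (N * M) 0 t i) * (κ + 3 * K ^ 2 * φ i) with hS
    have h2 : ∑ k ∈ Finset.range (N * M), (tau T (N * M) 0 t (k + 1) - tau T (N * M) 0 t k)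
        * qn P (fun ω => eA b A D T N ξ (k / M) ω - eA b A D T (N * M) ξ k ω) ≤ S := by
      refine Finset.sum_le_sum fun k hk => mul_le_mul_of_nonneg_left ?_ (hnn k)
      rw [hκ]
      exact term_bound hN hT hK hNp hM hK.hA hOA (Finset.mem_range.1 hk)
    have h3 : ∑ k ∈ Finset.range (N * M), (tau T (N * M) 0 t (k + 1) - tau T (N * M) 0 t k)
        * qn P (fun ω => eD b A D T N ξ (k / M) ω - eD b A D T (N * M) ξ k ω) ≤ S := by
      refine Finset.sum_le_sum fun k hk => mul_le_mul_of_nonneg_left ?_ (hnn k)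
      rw [hκ]
      exact term_bound hN hT hK hNp hM hK.hD hOD (Finset.mem_range.1 hk)
    have hS0 : 0 ≤ S := Finset.sum_nonneg fun k _ => mul_nonneg (hnn k)
      (add_nonneg hκ0 (mul_nonneg (by positivity) (hφ0 k)))
    have h4 : 2 * t * ∑ k ∈ Finset.range (N * M), (tau T (N * M) 0 t (k + 1)
        - tau T (N * M) 0 t k)
        * qn P (fun ω => eA b A D T N ξ (k / M) ω - eA b A D T (N * M) ξ k ω) ≤ 2 * T * S := by
      calc _ ≤ 2 * t * S := by gcongr
        _ ≤ 2 * T * S := by gcongr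
    linarith
  -- at the fine grid points
  have grid : ∀ n, n ≤ N * M → φ n ≤ 2 * (T + 1) * T * κ + (6 * (T + 1) * K ^ 2) *
      ∑ i ∈ Finset.range n, (gp T (N * M) (i + 1) - gp T (N * M) i) * φ i := by
    intro n hn
    have h1 := gen (gp T (N * M) n) (gp_nonneg hT _ _) (gp_le hT hNM hn)
    refine h1.trans ?_
    have h2 : ∑ i ∈ Finset.range (N * M), (tau T (N * M) 0 (gp T (N * M) n) (i + 1)
        - tau T (N * M) 0 (gp T (N * M) n) i) * (κ + 3 * K ^ 2 * φ i)
        = ∑ i ∈ Finset.range n, (gp T (N * M) (i + 1) - gp T (N * M) i)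
          * (κ + 3 * K ^ 2 * φ i) := by
      have := psum_trunc (E := ℝ) (tau T (N * M) 0 (gp T (N * M) n)) (gp T (N * M))
        (fun i => κ + 3 * K ^ 2 * φ i) hn (fun k hk => tau_gp hT hk) (fun k hk => tau_gp' hT hk)
      unfold psum at this
      simpa [smul_eq_mul] using this
    rw [h2]
    simp_rw [mul_add]
    rw [Finset.sum_add_distrib, ← Finset.sum_mul, Finset.sum_range_sub, gp_zero, sub_zero]
    have h3 : gp T (N * M) n ≤ T := gp_le hT hNM hn
    have h4 : ∑ i ∈ Finset.range n, (gp T (N * M) (i + 1) - gp T (N * M) i) * (3 * K ^ 2 * φ i)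
        = 3 * K ^ 2 * ∑ i ∈ Finset.range n, (gp T (N * M) (i + 1) - gp T (N * M) i) * φ i := by
      rw [Finset.mul_sum]
      exact Finset.sum_congr rfl fun _ _ => by ring
    rw [h4]
    have h5 := mul_le_mul_of_nonneg_right h3 hκ0
    nlinarith
  have hbd : ∀ n, n ≤ N * M → φ n ≤ Gm T K * κ := by
    intro n hn
    have h := dgron (N := N * M) (by positivity : 0 ≤ 6 * (T + 1) * K ^ 2) (by positivity)
      (fun k => by linarith [gp_mono hT (N * M) (Nat.le_succ k)]) grid n hn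
    refine h.trans ?_
    rw [Finset.sum_range_sub, gp_zero, sub_zero]
    have hgn : gp T (N * M) n ≤ T := gp_le hT hNM hn
    unfold Gm
    calc 2 * (T + 1) * T * κ * Real.exp (6 * (T + 1) * K ^ 2 * gp T (N * M) n)
        ≤ 2 * (T + 1) * T * κ * Real.exp (6 * (T + 1) * K ^ 2 * T) := by gcongr
      _ = _ := by ring
  refine (gen t ht0 htT).trans ?_
  have hnn : ∀ k, 0 ≤ tau T (N * M) 0 t (k + 1) - tau T (N * M) 0 t k := fun k => by
      linarith [tau_mono hT (N * M) 0 t (Nat.le_succ k)]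
  have h1 : ∑ i ∈ Finset.range (N * M),
        (tau T (N * M) 0 t (i + 1) - tau T (N * M) 0 t i) * (κ + 3 * K ^ 2 * φ i)
        ≤ ∑ i ∈ Finset.range (N * M),
        (tau T (N * M) 0 t (i + 1) - tau T (N * M) 0 t i) * ((1 + 3 * K ^ 2 * Gm T K) * κ) := by
    refine Finset.sum_le_sum fun i hi => mul_le_mul_of_nonneg_left ?_ (hnn i)
    have := mul_le_mul_of_nonneg_left (hbd i (Finset.mem_range.1 hi).le)
      (by positivity : 0 ≤ 3 * K ^ 2)
    linarith
  rw [← Finset.sum_mul, Finset.sum_range_sub, tau_zero le_rfl ht0, tau_self ht0 htT hNM,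
    sub_zero] at h1
  have hG0 : 0 ≤ Gm T K := by unfold Gm; positivity
  have h2 : t * ((1 + 3 * K ^ 2 * Gm T K) * κ) ≤ T * ((1 + 3 * K ^ 2 * Gm T K) * κ) := by
    gcongr
  have h3 := mul_le_mul_of_nonneg_left (h1.trans h2) (by positivity : 0 ≤ 2 * (T + 1))
  linarith

end Pool.Agent.ACF
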