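import Mathlib

set_option autoImplicit false
open MeasureTheory ProbabilityTheory Set Filter Topology
open scoped NNReal ENNReal

namespace Pool.Agent.ACF

variable {Ω : Type*} {mΩ : MeasurableSpace Ω}

/-- The driving noise, seen abstractly: adapted, with increments of mean zero and variance
`t - s`, both conditionally on the past. -/
structure Noise (P : Measure Ω) (F : ℝ → MeasurableSpace Ω) (b : ℝ → Ω → ℝ) : Prop where
  le : ∀ t, F t ≤ mΩ
  mono : ∀ s t, s ≤ t → F s ≤ F t
  adapt : ∀ t, StronglyMeasurable[F t] (b t)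
  memLp : ∀ t, MemLp (b t) 2 P
  indep : ∀ s t, 0 ≤ s → s ≤ t → ∀ f : Ω → ℝ, StronglyMeasurable[F s] f →
    IndepFun (fun ω => b t ω - b s ω) f P
  mean : ∀ s t, 0 ≤ s → s ≤ t → ∫ ω, (b t ω - b s ω) ∂P = 0
  var : ∀ s t, 0 ≤ s → s ≤ t → ∫ ω, (b t ω - b s ω) ^ 2 ∂P = t - s

section natural

variable {P : Measure Ω} {B : ℝ≥0 → Ω → ℝ}

/-- the natural filtration of `B` read on the real line -/
def natF (B : ℝ≥0 → Ω → ℝ) (hm : ∀ t, StronglyMeasurable (B t)) (t : ℝ) : MeasurableSpace Ω :=
  (Filtration.natural B hm) t.toNNReal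

lemma noise_of_brownian (hB : IsPreBrownianReal B P) (hm : ∀ t, StronglyMeasurable (B t)) :
    Noise P (natF B hm) (fun t => B t.toNNReal) where
  le t := (Filtration.natural B hm).le _
  mono s t hst := (Filtration.natural B hm).mono (Real.toNNReal_le_toNNReal hst)
  adapt t := by
    have := Filtration.stronglyAdapted_natural hm t.toNNReal
    exact this
  memLp t := (hB.isGaussianProcess.hasGaussianLaw_eval _).memLp_two
  indep s t hs hst f hf := by
    have h1 := hB.indepFun_shift s.toNNReal
    rw [IndepFun_iff_Indep] at h1 ⊢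
    refine indep_of_indep_of_le h1 ?_ ?_
    · have h2 : (fun ω => B t.toNNReal ω - B s.toNNReal ω)
          = (fun x : ℝ≥0 → ℝ => x (t.toNNReal - s.toNNReal)) ∘
            (fun ω r => B (s.toNNReal + r) ω - B s.toNNReal ω) := by
        funext ω
        simp only [Function.comp]
        rw [add_tsub_cancel_of_le (Real.toNNReal_le_toNNReal hst)]
      rw [h2, ← MeasurableSpace.comap_comp]
      exact MeasurableSpace.comap_mono (measurable_pi_apply _).comap_le
    · have h3 := Filtration.natural_eq_comap B hm s.toNNReal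
      rw [← h3]
      exact hf.measurable.comap_le
  mean s t hs hst := by
    rw [integral_sub (hB.integrable_eval _) (hB.integrable_eval _), hB.integral_eval,
      hB.integral_eval, sub_zero]
  var s t hs hst := by
    have := hB.isGaussianProcess.isProbabilityMeasure
    have h1 := hB.hasLaw_sub t.toNNReal s.toNNReal
    have h2 := h1.variance_eq
    rw [variance_id_gaussianReal] at h2
    have h3 : ∫ ω, (B t.toNNReal - B s.toNNReal) ω ∂P = 0 := by
      rw [h1.integral_eq, integral_id_gaussianReal]
    rw [variance_of_integral_eq_zero h1.aemeasurable h3] at h2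
    have h4 : ((nndist (t.toNNReal : ℝ) (s.toNNReal : ℝ) : ℝ≥0) : ℝ) = t - s := by
      rw [coe_nndist, Real.coe_toNNReal _ (hs.trans hst), Real.coe_toNNReal _ hs, Real.dist_eq,
        abs_of_nonneg (by linarith)]
    exact h2.trans h4

end natural

end Pool.Agent.ACF
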