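import Pool.Agent.ACF.Wts

set_option autoImplicit false
set_option linter.unusedSectionVars false
open MeasureTheory Set Filter Topology Module
open scoped NNReal ENNReal

namespace Pool.Agent.ACF

variable {E : Type*} [NormedAddCommGroup E] [InnerProductSpace ℝ E] [FiniteDimensional ℝ E]
  [MeasurableSpace E] [BorelSpace E]

/-- weighted integral of a function after one step -/
noncomputable def stA (m : ℕ) (f : E → E) (σ : E →L[ℝ] E) (h : ℝ) (g : E → ℝ≥0∞) (β : ℝ) :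
    ℝ≥0∞ :=
  ∫⁻ x, ENNReal.ofReal (wgt m x) * g (stp f σ h β x) ∂(hm E)

lemma stp_cont {f : E → E} (hf : Continuous f) (σ : E →L[ℝ] E) (h : ℝ) :
    Continuous (fun p : ℝ × E => stp f σ h p.1 p.2) := by
  unfold stp
  fun_prop

lemma stA_ge {f : E → E} {σ : E →L[ℝ] E} {h β L a : ℝ} (hL : 0 ≤ L)
    (hf : ∀ x y, ‖f x - f y‖ ≤ L * ‖x - y‖) (hfc : Continuous f) (hσ : ‖σ‖ ≤ a)
    (hh : 0 ≤ h) (hhL : h * L ≤ 1 / 8) (hβ : |β| * a ≤ 1 / 4) (m : ℕ) {g : E → ℝ≥0∞}
    (hg : Measurable g) :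
    ∫⁻ y, ENNReal.ofReal (wgt m ((homeo (stp_approx (f := f) hL hf hσ hh hhL hβ)).symm y)
        / Kb σ h β L) * g y ∂(hm E) ≤ stA m f σ h g β := by
  set Φ := homeo (stp_approx (f := f) hL hf hσ hh hhL hβ) with hΦ
  have hΦa : ∀ x, Φ x = stp f σ h β x := fun x => rfl
  have hk := Kb_pos hL hh hσ hβ
  have hmeas : Measurable (stp f σ h β) := (Φ.continuous).measurable
  have hle : hm E ≤ ENNReal.ofReal (Kb σ h β L) • (hm E).map (stp f σ h β) := by
    refine Measure.le_iff.2 fun S hS => ?_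
    rw [Measure.smul_apply, Measure.map_apply hmeas hS, smul_eq_mul]
    exact stp_measure hL hf hσ hh hhL hβ S
  have hφ : Measurable (fun y => ENNReal.ofReal (wgt m (Φ.symm y) / Kb σ h β L) * g y) := by
    refine Measurable.mul ?_ hg
    exact ENNReal.measurable_ofReal.comp
      ((((wgt_cont m).comp Φ.symm.continuous).measurable).div_const _)
  refine (lintegral_mono' hle le_rfl).trans ?_
  have hφ' : Measurable (fun x => ENNReal.ofReal (wgt m (Φ.symm (stp f σ h β x)) / Kb σ h β L)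
      * g (stp f σ h β x)) := hφ.comp hmeas
  rw [lintegral_smul_measure, lintegral_map hφ hmeas, smul_eq_mul,
    ← lintegral_const_mul _ hφ']
  unfold stA
  refine lintegral_mono fun x => ?_
  have e : Φ.symm (stp f σ h β x) = x := by
    rw [← hΦa x]
    exact Φ.symm_apply_apply x
  simp only
  rw [e, ← mul_assoc, ← ENNReal.ofReal_mul hk.le, mul_div_cancel₀ _ hk.ne']

lemma stA_pair {f : E → E} {σ : E →L[ℝ] E} {h β L a c : ℝ} (hL : 0 ≤ L) (hc : 0 ≤ c)
    (hf : ∀ x y, ‖f x - f y‖ ≤ L * ‖x - y‖) (hfc : Continuous f)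
    (hfb : ∀ x, ‖f x‖ ≤ c + L * ‖x‖) (hσ : ‖σ‖ ≤ a)
    (hh : 0 ≤ h) (hh1 : h ≤ 1) (hhL : h * L ≤ 1 / 8) (hβ : |β| * a ≤ 1 / 4) (m : ℕ)
    {g : E → ℝ≥0∞} (hg : Measurable g) {C3 : ℝ}
    (hC3 : (finrank ℝ E : ℝ) * L + m * (1 + 4 * c ^ 2 * (1 + 2 * L) ^ 2 + 16 * L ^ 2)
      + (finrank ℝ E : ℝ) * a ^ 2 + 5 * m * a ^ 2 ≤ C3) :
    ENNReal.ofReal (2 * Real.exp (-(C3 * (h + β ^ 2))))
        * ∫⁻ y, ENNReal.ofReal (wgt m y) * g y ∂(hm E)
      ≤ stA m f σ h g β + stA m f σ h g (-β) := by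
  have hβ' : |(-β)| * a ≤ 1 / 4 := by rwa [abs_neg]
  have h1 := stA_ge hL hf hfc hσ hh hhL hβ m hg
  have h2 := stA_ge hL hf hfc hσ hh hhL hβ' m hg
  refine le_trans ?_ (add_le_add h1 h2)
  set Φ := homeo (stp_approx (f := f) hL hf hσ hh hhL hβ) with hΦ
  set Φ' := homeo (stp_approx (f := f) hL hf hσ hh hhL hβ') with hΦ'
  have k1 := Kb_pos hL hh hσ hβ
  have k2 := Kb_pos hL hh hσ hβ'
  have hφ : Measurable (fun y => ENNReal.ofReal (wgt m (Φ.symm y) / Kb σ h β L) * g y) := by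
    refine Measurable.mul ?_ hg
    exact ENNReal.measurable_ofReal.comp
      ((((wgt_cont m).comp Φ.symm.continuous).measurable).div_const _)
  have hw : Measurable (fun y : E => ENNReal.ofReal (wgt m y) * g y) :=
    (ENNReal.measurable_ofReal.comp (wgt_cont m).measurable).mul hg
  rw [← lintegral_add_left hφ, ← lintegral_const_mul _ hw]
  refine lintegral_mono fun y => ?_
  simp only
  rw [← mul_assoc, ← ENNReal.ofReal_mul (by positivity), ← add_mul,
    ← ENNReal.ofReal_add (div_pos (wgt_pos m _) k1).le (div_pos (wgt_pos m _) k2).le]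
  gcongr
  have hx : stp f σ h β (Φ.symm y) = y := Φ.apply_symm_apply y
  have hx' : stp f σ h (-β) (Φ'.symm y) = y := Φ'.apply_symm_apply y
  have h3 := pair_ineq hL hc hfb hσ hh hh1 hhL hβ m hx hx' hC3
  linarith

variable {Ω : Type*} {mΩ : MeasurableSpace Ω} {P : Measure Ω} [IsProbabilityMeasure P]

/-- the expected one step inequality -/
theorem one_step {f : E → E} {σ : E →L[ℝ] E} {h L a c : ℝ} (hL : 0 ≤ L) (hc : 0 ≤ c)
    (hf : ∀ x y, ‖f x - f y‖ ≤ L * ‖x - y‖) (hfc : Continuous f)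
    (hfb : ∀ x, ‖f x‖ ≤ c + L * ‖x‖) (hσ : ‖σ‖ ≤ a)
    (hh : 0 ≤ h) (hh1 : h ≤ 1) (hhL : h * L ≤ 1 / 8) (m : ℕ)
    {g : E → ℝ≥0∞} (hg : Measurable g) {C3 : ℝ}
    (hC3 : (finrank ℝ E : ℝ) * L + m * (1 + 4 * c ^ 2 * (1 + 2 * L) ^ 2 + 16 * L ^ 2)
      + (finrank ℝ E : ℝ) * a ^ 2 + 5 * m * a ^ 2 ≤ C3) {β : Ω → ℝ} (hβm : Measurable β)
    (hβ : ∀ ω, |β ω| * a ≤ 1 / 4)
    (hsym : ∀ φ : ℝ → ℝ≥0∞, Measurable φ → ∫⁻ ω, φ (β ω) ∂P = ∫⁻ ω, φ (-(β ω)) ∂P)
    (hβi : Integrable (fun ω => β ω ^ 2) P) (hβ2 : ∫ ω, β ω ^ 2 ∂P ≤ h) :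
    ENNReal.ofReal (Real.exp (-(2 * C3 * h))) * ∫⁻ y, ENNReal.ofReal (wgt m y) * g y ∂(hm E)
      ≤ ∫⁻ x, ENNReal.ofReal (wgt m x) * (∫⁻ ω, g (stp f σ h (β ω) x) ∂P) ∂(hm E) := by
  have hC30 : 0 ≤ C3 := by
    refine le_trans ?_ hC3
    positivity
  have hwm : Measurable (fun x : E => ENNReal.ofReal (wgt m x)) :=
    ENNReal.measurable_ofReal.comp (wgt_cont m).measurable
  have hst : Measurable (fun p : ℝ × E => stp f σ h p.1 p.2) := (stp_cont hfc σ h).measurable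
  -- exchange the integrals
  have hjoint : Measurable (fun p : E × Ω => ENNReal.ofReal (wgt m p.1)
      * g (stp f σ h (β p.2) p.1)) := by
    refine (hwm.comp measurable_fst).mul (hg.comp ?_)
    exact hst.comp ((hβm.comp measurable_snd).prodMk measurable_fst)
  have e1 : ∫⁻ x, ENNReal.ofReal (wgt m x) * (∫⁻ ω, g (stp f σ h (β ω) x) ∂P) ∂(hm E)
      = ∫⁻ ω, stA m f σ h g (β ω) ∂P := by
    have h1 : ∀ x : E, ENNReal.ofReal (wgt m x) * (∫⁻ ω, g (stp f σ h (β ω) x) ∂P)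
        = ∫⁻ ω, ENNReal.ofReal (wgt m x) * g (stp f σ h (β ω) x) ∂P := by
      intro x
      rw [lintegral_const_mul]
      exact hg.comp (hst.comp (hβm.prodMk measurable_const))
    simp_rw [h1]
    rw [lintegral_lintegral_swap hjoint.aemeasurable]
    rfl
  have hAm : Measurable (stA m f σ h g) := by
    unfold stA
    refine Measurable.lintegral_prod_right' (f := fun p : ℝ × E =>
      ENNReal.ofReal (wgt m p.2) * g (stp f σ h p.1 p.2)) ?_
    exact (hwm.comp measurable_snd).mul (hg.comp hst)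
  have e2 := hsym _ hAm
  set W := ∫⁻ y, ENNReal.ofReal (wgt m y) * g y ∂(hm E) with hW
  have e3 : 2 * ∫⁻ ω, stA m f σ h g (β ω) ∂P
      = ∫⁻ ω, (stA m f σ h g (β ω) + stA m f σ h g (-(β ω))) ∂P := by
    have hAβ : Measurable (fun ω => stA m f σ h g (β ω)) := hAm.comp hβm
    rw [lintegral_add_left hAβ, ← e2, two_mul]
  have h4 : ∫⁻ ω, ENNReal.ofReal (2 * Real.exp (-(C3 * (h + β ω ^ 2)))) * W ∂P
      ≤ ∫⁻ ω, (stA m f σ h g (β ω) + stA m f σ h g (-(β ω))) ∂P :=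
    lintegral_mono fun ω => stA_pair hL hc hf hfc hfb hσ hh hh1 hhL (hβ ω) m hg hC3
  have hem : Measurable (fun ω => ENNReal.ofReal (2 * Real.exp (-(C3 * (h + β ω ^ 2))))) := by
    fun_prop
  rw [lintegral_mul_const _ hem, ← e3] at h4
  -- the expectation of the exponential
  have h5 : ENNReal.ofReal (2 * Real.exp (-(2 * C3 * h)))
      ≤ ∫⁻ ω, ENNReal.ofReal (2 * Real.exp (-(C3 * (h + β ω ^ 2)))) ∂P := by
    have hei : Integrable (fun ω => 2 * Real.exp (-(C3 * (h + β ω ^ 2)))) P := by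
      refine Integrable.mono' (integrable_const (2 : ℝ)) ?_ (Eventually.of_forall fun ω => ?_)
      · exact (by fun_prop : Measurable (fun ω => 2 * Real.exp (-(C3 * (h + β ω ^ 2))))).aestronglyMeasurable
      · rw [Real.norm_eq_abs, abs_of_pos (by positivity)]
        have : Real.exp (-(C3 * (h + β ω ^ 2))) ≤ 1 := by
          rw [Real.exp_le_one_iff]
          have : 0 ≤ C3 * (h + β ω ^ 2) := by positivity
          linarith
        linarith
    rw [← ofReal_integral_eq_lintegral_ofReal hei (Eventually.of_forall fun ω => by positivity)]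
    refine ENNReal.ofReal_le_ofReal ?_
    have hlow : ∀ ω, Real.exp (-(2 * C3 * h)) * (1 + C3 * h - C3 * β ω ^ 2)
        ≤ Real.exp (-(C3 * (h + β ω ^ 2))) := by
      intro ω
      have h1 := Real.add_one_le_exp (C3 * h - C3 * β ω ^ 2)
      have e : Real.exp (-(C3 * (h + β ω ^ 2)))
          = Real.exp (-(2 * C3 * h)) * Real.exp (C3 * h - C3 * β ω ^ 2) := by
        rw [← Real.exp_add]
        congr 1
        ring
      rw [e]
      exact mul_le_mul_of_nonneg_left (by linarith) (Real.exp_pos _).le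
    have hli : Integrable (fun ω => 2 * (Real.exp (-(2 * C3 * h))
        * (1 + C3 * h - C3 * β ω ^ 2))) P :=
      ((((integrable_const _).sub (hβi.const_mul C3)).const_mul _).const_mul 2)
    have h6 : ∫ ω, 2 * (Real.exp (-(2 * C3 * h)) * (1 + C3 * h - C3 * β ω ^ 2)) ∂P
        ≤ ∫ ω, 2 * Real.exp (-(C3 * (h + β ω ^ 2))) ∂P :=
      integral_mono hli hei fun ω => by
        have := hlow ω
        simp only
        linarith
    have h7 : ∫ ω, 2 * (Real.exp (-(2 * C3 * h)) * (1 + C3 * h - C3 * β ω ^ 2)) ∂P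
        = 2 * (Real.exp (-(2 * C3 * h)) * (1 + C3 * h - C3 * ∫ ω, β ω ^ 2 ∂P)) := by
      rw [integral_const_mul, integral_const_mul,
        integral_sub (integrable_const _) (hβi.const_mul C3), integral_const_mul,
        integral_const]
      simp
    rw [h7] at h6
    refine le_trans ?_ h6
    have h8 : C3 * ∫ ω, β ω ^ 2 ∂P ≤ C3 * h := mul_le_mul_of_nonneg_left hβ2 hC30
    have h9 := Real.exp_pos (-(2 * C3 * h))
    nlinarith
  rw [e1]
  have h10 := (mul_le_mul_left h5 W).trans h4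
  rw [ENNReal.ofReal_mul zero_le_two, mul_assoc] at h10
  have e4 : ENNReal.ofReal 2 = 2 := by norm_num
  rw [e4] at h10
  exact (ENNReal.mul_le_mul_iff_right two_ne_zero (by norm_num)).1 h10

end Pool.Agent.ACF
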