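import Pool.Agent.ACF.LinOpt

set_option autoImplicit false
set_option linter.unusedSectionVars false
open MeasureTheory ProbabilityTheory Set Filter Topology
open scoped NNReal ENNReal

namespace Pool.Agent.ACF

variable {E : Type*} [NormedAddCommGroup E] [InnerProductSpace ℝ E] [CompleteSpace E]
variable {G : Type*} [NormedAddCommGroup G] [InnerProductSpace ℝ G] [CompleteSpace G]
variable {H : Type*} [NormedAddCommGroup H] [InnerProductSpace ℝ H] [CompleteSpace H]
variable {Ω : Type*} {mΩ : MeasurableSpace Ω} {P : Measure Ω} [IsProbabilityMeasure P]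
  {F : ℝ → MeasurableSpace Ω} {b : ℝ → Ω → ℝ} {T : ℝ}

variable {A D : ℝ → E →L[ℝ] E} {B : ℝ → G →L[ℝ] E} {C : ℝ → H →L[ℝ] E}

/-- the generator along an improved gain -/
lemma gen_improve {r s : ℝ} {Q S : E →L[ℝ] E} (hS : ContinuousLinearMap.adjoint S = S) (K : E →L[ℝ] G)
    (C : H →L[ℝ] E) (KW L : E →L[ℝ] H) (A D : E →L[ℝ] E) (z : E) :
    inner ℝ ((gen (-(lyapOp A D S + costOp r s Q K KW)) S (A + C ∘L (L - KW)) D) z) z
      = -(inner ℝ (costOp r s Q K KW z) z) + 2 * inner ℝ (S z) (C ((L - KW) z)) := by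
  have hsym : ∀ u v : E, inner ℝ (S u) v = inner ℝ u (S v) := by
    intro u v
    conv_lhs => rw [← hS]
    exact ContinuousLinearMap.adjoint_inner_left _ _ _
  set M := L - KW
  have e1 : gen (-(lyapOp A D S + costOp r s Q K KW)) S (A + C ∘L M) D
      = -(costOp r s Q K KW) + (ContinuousLinearMap.adjoint (C ∘L M) ∘L S + S ∘L (C ∘L M)) := by
    unfold gen lyapOp
    rw [map_add, ContinuousLinearMap.add_comp, ContinuousLinearMap.comp_add]
    abel
  rw [e1]
  simp only [ContinuousLinearMap.add_apply, ContinuousLinearMap.neg_apply,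
    ContinuousLinearMap.comp_apply, inner_add_left, inner_neg_left,
    ContinuousLinearMap.adjoint_inner_left]
  have e3 : inner ℝ (S (C (M z))) z = inner ℝ (S z) (C (M z)) := by
    rw [hsym, real_inner_comm]
  rw [e3]
  ring

/-- the algebra of the policy improvement -/
lemma improve_alg {r s : ℝ} (hr : 0 < r) {Q S : E →L[ℝ] E} (hS : ContinuousLinearMap.adjoint S = S) (K : E →L[ℝ] G)
    (C : H →L[ℝ] E) (KW L : E →L[ℝ] H) (A D : E →L[ℝ] E)
    (hL : L = -(r⁻¹ • (ContinuousLinearMap.adjoint C ∘L S))) (z : E) :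
    inner ℝ ((gen (-(lyapOp A D S + costOp r s Q K KW)) S (A + C ∘L (L - KW)) D) z) z
      + inner ℝ (costOp r s Q K L z) z = - (r * ‖(L - KW) z‖ ^ 2) := by
  have hr' : r ≠ 0 := hr.ne'
  rw [gen_improve hS K C KW L A D z, costOp_inner, costOp_inner]
  have e2 : inner ℝ (S z) (C ((L - KW) z)) = -(r * inner ℝ (L z) ((L - KW) z)) := by
    have h1 : (ContinuousLinearMap.adjoint C) (S z) = -(r • L z) := by
      rw [hL]
      simp only [ContinuousLinearMap.neg_apply, ContinuousLinearMap.smul_apply,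
        ContinuousLinearMap.comp_apply]
      rw [smul_neg, smul_smul, mul_inv_cancel₀ hr', one_smul, neg_neg]
    rw [← ContinuousLinearMap.adjoint_inner_left, h1, inner_neg_left, real_inner_smul_left]
  rw [e2]
  have e4 : ‖(L - KW) z‖ ^ 2 = ‖L z‖ ^ 2 - 2 * inner ℝ (L z) (KW z) + ‖KW z‖ ^ 2 := by
    rw [ContinuousLinearMap.sub_apply]
    exact norm_sub_sq_real _ _
  have e5 : inner ℝ (L z) ((L - KW) z) = ‖L z‖ ^ 2 - inner ℝ (L z) (KW z) := by
    rw [ContinuousLinearMap.sub_apply, inner_sub_right, real_inner_self_eq_norm_sq]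
  rw [e4, e5]
  ring

/-- the one player theorem -/
theorem player (hN : Noise P F b) (hJ : JM P b) (hT : 0 < T) (hcA : ContinuousOn A (Icc 0 T))
    (hcD : ContinuousOn D (Icc 0 T)) (hcB : ContinuousOn B (Icc 0 T))
    (hcC : ContinuousOn C (Icc 0 T)) {r s : ℝ} (hr : 0 < r) {Q : ℝ → E →L[ℝ] E}
    (hQ : ContinuousOn Q (Icc 0 T)) (hQs : ∀ t ∈ Icc 0 T, ContinuousLinearMap.adjoint (Q t) = Q t)
    {o : ℝ → E → G} {w : ℝ → E → H} {KO : ℝ → E →L[ℝ] G}
    {KW : ℝ → E →L[ℝ] H} (ho : LawOK T o KO) (hw : LawOK T w KW)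
    (hopt : Opt P F b T A D B C r s Q o w) :
    ∃ S : ℝ → E →L[ℝ] E, S T = 0 ∧ (∀ t, ContinuousLinearMap.adjoint (S t) = S t) ∧
      (∀ t ∈ Icc 0 T, HasDerivWithinAt S
        (-(lyapOp (A t + B t ∘L KO t + C t ∘L KW t) (D t) (S t)
          + costOp r s (Q t) (KO t) (KW t))) (Icc 0 T) t) ∧
      ∀ t ∈ Icc 0 T, KW t = -(r⁻¹ • (ContinuousLinearMap.adjoint (C t) ∘L S t)) := by
  set As : ℝ → E →L[ℝ] E := fun t => A t + B t ∘L KO t + C t ∘L KW t with hAs
  have hcAs : ContinuousOn As (Icc 0 T) :=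
    (hcA.add (hcB.clm_comp ho.cont)).add (hcC.clm_comp hw.cont)
  have hcM : ContinuousOn (fun t => costOp r s (Q t) (KO t) (KW t)) (Icc 0 T) :=
    costOp_cont hQ ho.cont hw.cont
  obtain ⟨S, hS1, hS2, hS3⟩ := exists_lyap hT hcAs hcD hcM
    (fun t ht => costOp_adj (hQs t ht) _ _)
  refine ⟨S, hS1, hS2, hS3, ?_⟩
  have hSc : ContinuousOn S (Icc 0 T) := fun t ht => (hS3 t ht).continuousWithinAt
  set L : ℝ → E →L[ℝ] H := fun t => -(r⁻¹ • (ContinuousLinearMap.adjoint (C t) ∘L S t)) with hL
  have hcL : ContinuousOn L (Icc 0 T) := (((adj_cont hcC).clm_comp hSc).const_smul r⁻¹).neg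
  have hLK : ContinuousOn (fun t => L t - KW t) (Icc 0 T) := hcL.sub hw.cont
  set Al : ℝ → E →L[ℝ] E := fun t => A t + B t ∘L KO t + C t ∘L L t with hAl
  have hcAl : ContinuousOn Al (Icc 0 T) :=
    (hcA.add (hcB.clm_comp ho.cont)).add (hcC.clm_comp hcL)
  have hAl' : ∀ t, Al t = As t + C t ∘L (L t - KW t) := by
    intro t
    simp only [hAl, hAs, ContinuousLinearMap.comp_sub]
    abel
  set S' : ℝ → E →L[ℝ] E := fun t => -(lyapOp (As t) (D t) (S t)
    + costOp r s (Q t) (KO t) (KW t)) with hS'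
  have hcS' : ContinuousOn S' (Icc 0 T) := by
    have h1 : ContinuousOn (fun t => lyapOp (As t) (D t) (S t)) (Icc 0 T) := by
      have h2 := (lyapL_cont hcAs hcD).clm_apply hSc
      exact h2.congr fun t _ => (lyapL_apply _ _ _).symm
    exact (h1.add hcM).neg
  -- for every initial value, the improvement vanishes
  have key : ∀ ξ : E, ∀ z : ℝ → Ω → E, LinSol P F b T Al D ξ z → ∀ t ∈ Icc 0 T,
      qn P (fun ω => (L t - KW t) (z t ω)) = 0 := by
    intro ξ z hz
    obtain ⟨y, hy⟩ := exists_linSol (P := P) (F := F) (b := b) hN hJ hT hcAs hcD ξ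
    have jy : MemLp (fun p : ℝ × Ω => y p.1 p.2) 2 (muT T P) :=
      hy.msc.joint hy.joint.aestronglyMeasurable
    have jz : MemLp (fun p : ℝ × Ω => z p.1 p.2) 2 (muT T P) :=
      hz.msc.joint hz.joint.aestronglyMeasurable
    have hle := lin_opt hN hT hcA hcD hcB hcC hQ ho hw hcL hopt hy hz
    rw [cst_linear hT.le hQ ho.cont hw.cont jy, cst_linear hT.le hQ ho.cont hcL jz] at hle
    have iy := quad_identity (Q' := S') hN hT hcAs hcD hy hS3 hcS'
    have iz := quad_identity (Q' := S') hN hT hcAl hcD hz hS3 hcS'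
    have e0 : ∀ x : ℝ → Ω → E, ei P (fun ω => S T (x T ω)) (x T) = 0 := by
      intro x
      rw [hS1]
      simp [ei]
    rw [e0, zero_sub] at iy iz
    -- cost of the equilibrium gain
    have ey : ∫ t in (0 : ℝ)..T, ei P (fun ω => costOp r s (Q t) (KO t) (KW t) (y t ω)) (y t)
        = inner ℝ (S 0 ξ) ξ := by
      have h1 : ∀ t, ei P (fun ω => gen (S' t) (S t) (As t) (D t) (y t ω)) (y t)
          = - ei P (fun ω => costOp r s (Q t) (KO t) (KW t) (y t ω)) (y t) := by
        intro t
        unfold ei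
        rw [← integral_neg]
        refine integral_congr_ae (Eventually.of_forall fun ω => ?_)
        have h2 : gen (S' t) (S t) (As t) (D t) = - costOp r s (Q t) (KO t) (KW t) := by
          simp only [hS']
          unfold gen lyapOp
          abel
        simp only [h2, ContinuousLinearMap.neg_apply, inner_neg_left]
      rw [intervalIntegral.integral_congr (fun t _ => h1 t), intervalIntegral.integral_neg] at iy
      linarith
    -- cost of the improved gain
    have hcg : ContinuousOn (fun t => ei P (fun ω => gen (S' t) (S t) (Al t) (D t) (z t ω)) (z t))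
        (Icc 0 T) := ei_quad_cont hz.msc (gen_cont hSc hcS' hcAl hcD)
    have hcc : ContinuousOn (fun t => ei P (fun ω => costOp r s (Q t) (KO t) (L t) (z t ω)) (z t))
        (Icc 0 T) := ei_quad_cont hz.msc (costOp_cont hQ ho.cont hcL)
    have hcq : ContinuousOn (fun t => qn P (fun ω => (L t - KW t) (z t ω))) (Icc 0 T) :=
      (hz.msc.clm hLK).continuousOn_qn
    have ii : ∀ {φ : ℝ → ℝ}, ContinuousOn φ (Icc 0 T) → IntervalIntegrable φ volume 0 T := by
      intro φ hφ
      refine ContinuousOn.intervalIntegrable ?_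
      rwa [uIcc_of_le hT.le]
    have h3 : ∀ t ∈ Icc 0 T, ei P (fun ω => gen (S' t) (S t) (Al t) (D t) (z t ω)) (z t)
        + ei P (fun ω => costOp r s (Q t) (KO t) (L t) (z t ω)) (z t)
        = -(r * qn P (fun ω => (L t - KW t) (z t ω))) := by
      intro t ht
      have mz := hz.msc.memLp t ht
      unfold ei qn
      rw [← integral_add (inner_integrable (memLp_clm _ mz) mz)
        (inner_integrable (memLp_clm _ mz) mz), ← integral_const_mul, ← integral_neg]
      refine integral_congr_ae (Eventually.of_forall fun ω => ?_)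
      have h4 := improve_alg (s := s) hr (Q := Q t) (hS2 t) (KO t) (C t) (KW t) (L t) (As t) (D t)
        rfl (z t ω)
      simp only
      rw [hAl' t]
      exact h4
    have ez : (∫ t in (0 : ℝ)..T, ei P (fun ω => costOp r s (Q t) (KO t) (L t) (z t ω)) (z t))
        = inner ℝ (S 0 ξ) ξ - r * ∫ t in (0 : ℝ)..T, qn P (fun ω => (L t - KW t) (z t ω)) := by
      have h5 : ∫ t in (0 : ℝ)..T, (ei P (fun ω => gen (S' t) (S t) (Al t) (D t) (z t ω)) (z t)
          + ei P (fun ω => costOp r s (Q t) (KO t) (L t) (z t ω)) (z t))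
          = ∫ t in (0 : ℝ)..T, -(r * qn P (fun ω => (L t - KW t) (z t ω))) := by
        refine intervalIntegral.integral_congr fun t ht => ?_
        rw [uIcc_of_le hT.le] at ht
        exact h3 t ht
      rw [intervalIntegral.integral_add (ii hcg) (ii hcc), intervalIntegral.integral_neg,
        intervalIntegral.integral_const_mul, iz] at h5
      linarith
    rw [ey, ez] at hle
    have h6 : ∫ t in (0 : ℝ)..T, qn P (fun ω => (L t - KW t) (z t ω)) ≤ 0 := by
      by_contra h
      push Not at h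
      have := mul_pos hr h
      linarith
    -- a nonnegative continuous function with vanishing integral
    intro t ht
    by_contra hne
    have hpos : 0 < qn P (fun ω => (L t - KW t) (z t ω)) :=
      lt_of_le_of_ne (qn_nonneg _) (Ne.symm hne)
    have h7 : 0 < ∫ t in (0 : ℝ)..T, qn P (fun ω => (L t - KW t) (z t ω)) :=
      intervalIntegral.integral_pos hT hcq (fun s _ => qn_nonneg _) ⟨t, ht, hpos⟩
    linarith
  intro t ht
  have hzero : L t - KW t = 0 := by
    ext q
    obtain ⟨ξ, hξ⟩ := mean_target (P := P) (F := F) (b := b) hN hT hcAl hcD ht q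
    obtain ⟨z, hz⟩ := exists_linSol (P := P) (F := F) (b := b) hN hJ hT hcAl hcD ξ
    have h1 := hξ z hz
    have h2 := key ξ z hz t ht
    have mz := hz.msc.memLp t ht
    have h3 := norm_integral_le_sn (memLp_clm (L t - KW t) mz)
    have h4 : sn P (fun ω => (L t - KW t) (z t ω)) = 0 := by
      unfold sn
      rw [h2, Real.sqrt_zero]
    rw [h4] at h3
    have h5 : ∫ ω, (L t - KW t) (z t ω) ∂P = 0 := norm_le_zero_iff.1 h3
    rw [ContinuousLinearMap.integral_comp_comm _ (mz.integrable (by norm_num)), h1] at h5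
    rw [h5]
    rfl
  exact (sub_eq_zero.1 hzero).symm

end Pool.Agent.ACF
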