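import Pool.Agent.ACF.LawL
import Pool.Agent.ACF.Player

set_option autoImplicit false
set_option linter.unusedSectionVars false
open MeasureTheory ProbabilityTheory Set Filter Topology
open scoped NNReal ENNReal

namespace Pool.Agent.ACF

variable {E : Type*} [NormedAddCommGroup E] [InnerProductSpace ℝ E] [CompleteSpace E]
variable {G : Type*} [NormedAddCommGroup G] [InnerProductSpace ℝ G] [CompleteSpace G]
variable {H : Type*} [NormedAddCommGroup H] [InnerProductSpace ℝ H] [CompleteSpace H]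
variable {Ω : Type*} {mΩ : MeasurableSpace Ω} {P : Measure Ω} [IsProbabilityMeasure P]
  {F : ℝ → MeasurableSpace Ω} {b : ℝ → Ω → ℝ} {T : ℝ}

variable {A D : ℝ → E →L[ℝ] E} {B : ℝ → G →L[ℝ] E} {C : ℝ → H →L[ℝ] E}

lemma tend_add {α : Type*} {mα : MeasurableSpace α} {μ : Measure α} {p q : ℕ → α → ℝ}
    (hp : ∀ n, MemLp (p n) 2 μ) (hq : ∀ n, MemLp (q n) 2 μ)
    (hp0 : Tendsto (fun n => ∫ x, ‖p n x‖ ^ 2 ∂μ) atTop (𝓝 0))
    (hq0 : Tendsto (fun n => ∫ x, ‖q n x‖ ^ 2 ∂μ) atTop (𝓝 0)) :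
    Tendsto (fun n => ∫ x, ‖p n x + q n x‖ ^ 2 ∂μ) atTop (𝓝 0) := by
  have h0 := (hp0.const_mul 2).add (hq0.const_mul 2)
  rw [mul_zero, add_zero] at h0
  refine squeeze_zero (fun n => integral_nonneg fun _ => sq_nonneg _) (fun n => ?_) h0
  have ip : Integrable (fun x => ‖p n x‖ ^ 2) μ :=
    (memLp_two_iff_integrable_sq_norm (hp n).1).1 (hp n)
  have iq : Integrable (fun x => ‖q n x‖ ^ 2) μ :=
    (memLp_two_iff_integrable_sq_norm (hq n).1).1 (hq n)
  rw [← integral_const_mul, ← integral_const_mul, ← integral_add (ip.const_mul _)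
    (iq.const_mul _)]
  refine integral_mono_of_nonneg (Eventually.of_forall fun _ => sq_nonneg _)
    ((ip.const_mul _).add (iq.const_mul _)) (Eventually.of_forall fun x => ?_)
  simp only [Real.norm_eq_abs, sq_abs]
  nlinarith [sq_nonneg (p n x - q n x)]

/-- the linear parts inherit optimality among linear laws -/
theorem lin_optL (hN : Noise P F b) (hT : 0 < T) (hcA : ContinuousOn A (Icc 0 T))
    (hcD : ContinuousOn D (Icc 0 T)) (hcB : ContinuousOn B (Icc 0 T))
    (hcC : ContinuousOn C (Icc 0 T)) {r s : ℝ} {Q : ℝ → E →L[ℝ] E}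
    (hQ : ContinuousOn Q (Icc 0 T)) {o : ℝ → E → G} {w : ℝ → E → H} {KO : ℝ → E →L[ℝ] G}
    {KW L : ℝ → E →L[ℝ] H} (ho : LawL T o KO) (hw : LawL T w KW)
    (hcL : ContinuousOn L (Icc 0 T)) (hopt : Opt P F b T A D B C r s Q o w) {ξ : E}
    {y z : ℝ → Ω → E} (hy : LinSol P F b T (fun t => A t + B t ∘L KO t + C t ∘L KW t) D ξ y)
    (hz : LinSol P F b T (fun t => A t + B t ∘L KO t + C t ∘L L t) D ξ z) :
    cst r s Q T P y (fun t ω => KO t (y t ω)) (fun t ω => KW t (y t ω))
      ≤ cst r s Q T P z (fun t ω => KO t (z t ω)) (fun t ω => L t (z t ω)) := by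
  obtain ⟨ε, hε, hε0⟩ : ∃ ε : ℕ → ℝ, (∀ n, 0 < ε n) ∧ Tendsto ε atTop (𝓝 0) :=
    ⟨fun n : ℕ => 1 / ((n : ℝ) + 1), fun n => by positivity,
      tendsto_one_div_add_atTop_nhds_zero_nat⟩
  have jy : MemLp (fun p : ℝ × Ω => y p.1 p.2) 2 (muT T P) :=
    hy.msc.joint hy.joint.aestronglyMeasurable
  have jz : MemLp (fun p : ℝ × Ω => z p.1 p.2) 2 (muT T P) :=
    hz.msc.joint hz.joint.aestronglyMeasurable
  have hW : ∀ n, Ctl P F T (fun t ω => ε n • L t (z t ω)) := by
    intro n
    refine ⟨?_, (clm_memLp hT.le hcL jz).const_smul _⟩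
    intro t ht
    obtain ⟨g, hg, hfg⟩ := (hz.adp.clm L) t ht
    exact ⟨fun ω => ε n • g ω, hg.const_smul _, by
      filter_upwards [hfg] with ω hω
      rw [hω]⟩
  choose X hX1 hX2 hX3 hX4 using fun n => hopt (ε n • ξ)
  choose X' hX'1 hX'2 hX'3 using fun n => hX4 n (fun t ω => ε n • L t (z t ω)) (hW n)
  obtain ⟨κ1, hκ1, hl1⟩ := ho.lip
  obtain ⟨κ2, hκ2, hl2⟩ := hw.lip
  set κ := max κ1 κ2 with hκ
  have hκ0 : 0 ≤ κ := hκ1.trans (le_max_left _ _)
  have lO : ∀ t ∈ Icc 0 T, ∀ x y, ‖o t x - o t y‖ ≤ κ * ‖x - y‖ := fun t ht x y =>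
    (hl1 t ht x y).trans (mul_le_mul_of_nonneg_right (le_max_left _ _) (norm_nonneg _))
  have lW : ∀ t ∈ Icc 0 T, ∀ x y, ‖w t x - w t y‖ ≤ κ * ‖x - y‖ := fun t ht x y =>
    (hl2 t ht x y).trans (mul_le_mul_of_nonneg_right (le_max_right _ _) (norm_nonneg _))
  obtain ⟨mOy, tOy⟩ := thf_all hT.le ho jy hε hε0
  obtain ⟨mWy, tWy⟩ := thf_all hT.le hw jy hε hε0
  obtain ⟨mOz, tOz⟩ := thf_all hT.le ho jz hε hε0
  have lim1 := scale_conv' hN hT hcA hcD hcB hcC hκ0 ho.cont hw.cont hy hε hX1 hX2 hX3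
    (θ := fun n t ω => thf o KO ε y n t ω + thf w KW ε y n t ω)
    (fun n => (mOy n).add (mWy n)) (tend_add mOy mWy tOy tWy)
    (fun n t ht ω => by
      have h1 := thf_le (K := KO t) (lO t ht) (hε n) (X n t ω) (y t ω)
      have h2 := thf_nonneg w KW ε y n t ω
      unfold thf at h2 ⊢
      linarith)
    (fun n t ht ω => by
      have h1 := thf_le (K := KW t) (lW t ht) (hε n) (X n t ω) (y t ω)
      have h2 := thf_nonneg o KO ε y n t ω
      unfold thf at h2 ⊢
      linarith)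
  have lim2 := scale_conv' hN hT hcA hcD hcB hcC hκ0 ho.cont hcL hz hε hX'1 hW hX'2
    (θ := fun n t ω => thf o KO ε z n t ω) mOz tOz
    (fun n t ht ω => thf_le (K := KO t) (lO t ht) (hε n) (X' n t ω) (z t ω))
    (fun n t ht ω => by
      have e1 : (ε n)⁻¹ • ε n • L t (z t ω) - L t (z t ω) = 0 := by
        rw [smul_smul, inv_mul_cancel₀ (hε n).ne', one_smul, sub_self]
      rw [e1, norm_zero]
      have h2 := thf_nonneg o KO ε z n t ω
      positivity)
  have jX : ∀ n, MemLp (fun p : ℝ × Ω => X n p.1 p.2) 2 (muT T P) := fun n =>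
    (hX3 n).msc.joint (hX3 n).joint
  have jX' : ∀ n, MemLp (fun p : ℝ × Ω => X' n p.1 p.2) 2 (muT T P) := fun n =>
    (hX'2 n).msc.joint (hX'2 n).joint
  have c1 := cost_conv (r := r) (s := s) (K := KO) (L := KW) (y := y) (ε := ε)
    (U := fun n t ω => o t (X n t ω)) (V := fun n t ω => w t (X n t ω)) (x := X)
    hT.le hQ ho.cont hw.cont jy jX
    (fun n => (hX1 n).memLp) (fun n => (hX2 n).memLp) lim1
  have c2 := cost_conv (r := r) (s := s) (K := KO) (L := L) (y := z) (ε := ε)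
    (U := fun n t ω => o t (X' n t ω)) (V := fun n t ω => ε n • L t (z t ω)) (x := X')
    hT.le hQ ho.cont hcL jz jX'
    (fun n => (hX'1 n).memLp) (fun n => (hW n).memLp) lim2
  refine le_of_tendsto_of_tendsto' c1 c2 fun n => ?_
  exact mul_le_mul_of_nonneg_left (hX'3 n) (sq_nonneg _)

/-- the one player theorem -/
theorem playerL (hN : Noise P F b) (hJ : JM P b) (hT : 0 < T) (hcA : ContinuousOn A (Icc 0 T))
    (hcD : ContinuousOn D (Icc 0 T)) (hcB : ContinuousOn B (Icc 0 T))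
    (hcC : ContinuousOn C (Icc 0 T)) {r s : ℝ} (hr : 0 < r) {Q : ℝ → E →L[ℝ] E}
    (hQ : ContinuousOn Q (Icc 0 T)) (hQs : ∀ t ∈ Icc 0 T, ContinuousLinearMap.adjoint (Q t) = Q t)
    {o : ℝ → E → G} {w : ℝ → E → H} {KO : ℝ → E →L[ℝ] G}
    {KW : ℝ → E →L[ℝ] H} (ho : LawL T o KO) (hw : LawL T w KW)
    (hopt : Opt P F b T A D B C r s Q o w) :
    ∃ S : ℝ → E →L[ℝ] E, S T = 0 ∧ (∀ t, ContinuousLinearMap.adjoint (S t) = S t) ∧
      (∀ t ∈ Icc 0 T, HasDerivWithinAt S
        (-(lyapOp (A t + B t ∘L KO t + C t ∘L KW t) (D t) (S t)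
          + costOp r s (Q t) (KO t) (KW t))) (Icc 0 T) t) ∧
      ∀ t ∈ Icc 0 T, KW t = -(r⁻¹ • (ContinuousLinearMap.adjoint (C t) ∘L S t)) := by
  set As : ℝ → E →L[ℝ] E := fun t => A t + B t ∘L KO t + C t ∘L KW t with hAs
  have hcAs : ContinuousOn As (Icc 0 T) :=
    (hcA.add (hcB.clm_comp ho.cont)).add (hcC.clm_comp hw.cont)
  have hcM : ContinuousOn (fun t => costOp r s (Q t) (KO t) (KW t)) (Icc 0 T) :=
    costOp_cont hQ ho.cont hw.cont
  obtain ⟨S, hS1, hS2, hS3⟩ := exists_lyap hT hcAs hcD hcM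
    (fun t ht => costOp_adj (hQs t ht) _ _)
  refine ⟨S, hS1, hS2, hS3, ?_⟩
  have hSc : ContinuousOn S (Icc 0 T) := fun t ht => (hS3 t ht).continuousWithinAt
  set L : ℝ → E →L[ℝ] H := fun t => -(r⁻¹ • (ContinuousLinearMap.adjoint (C t) ∘L S t)) with hL
  have hcL : ContinuousOn L (Icc 0 T) := (((adj_cont hcC).clm_comp hSc).const_smul r⁻¹).neg
  have hLK : ContinuousOn (fun t => L t - KW t) (Icc 0 T) := hcL.sub hw.cont
  set Al : ℝ → E →L[ℝ] E := fun t => A t + B t ∘L KO t + C t ∘L L t with hAl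
  have hcAl : ContinuousOn Al (Icc 0 T) :=
    (hcA.add (hcB.clm_comp ho.cont)).add (hcC.clm_comp hcL)
  have hAl' : ∀ t, Al t = As t + C t ∘L (L t - KW t) := by
    intro t
    simp only [hAl, hAs, ContinuousLinearMap.comp_sub]
    abel
  set S' : ℝ → E →L[ℝ] E := fun t => -(lyapOp (As t) (D t) (S t)
    + costOp r s (Q t) (KO t) (KW t)) with hS'
  have hcS' : ContinuousOn S' (Icc 0 T) := by
    have h1 : ContinuousOn (fun t => lyapOp (As t) (D t) (S t)) (Icc 0 T) := by
      have h2 := (lyapL_cont hcAs hcD).clm_apply hSc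
      exact h2.congr fun t _ => (lyapL_apply _ _ _).symm
    exact (h1.add hcM).neg
  -- for every initial value, the improvement vanishes
  have key : ∀ ξ : E, ∀ z : ℝ → Ω → E, LinSol P F b T Al D ξ z → ∀ t ∈ Icc 0 T,
      qn P (fun ω => (L t - KW t) (z t ω)) = 0 := by
    intro ξ z hz
    obtain ⟨y, hy⟩ := exists_linSol (P := P) (F := F) (b := b) hN hJ hT hcAs hcD ξ
    have jy : MemLp (fun p : ℝ × Ω => y p.1 p.2) 2 (muT T P) :=
      hy.msc.joint hy.joint.aestronglyMeasurable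
    have jz : MemLp (fun p : ℝ × Ω => z p.1 p.2) 2 (muT T P) :=
      hz.msc.joint hz.joint.aestronglyMeasurable
    have hle := lin_optL hN hT hcA hcD hcB hcC hQ ho hw hcL hopt hy hz
    rw [cst_linear hT.le hQ ho.cont hw.cont jy, cst_linear hT.le hQ ho.cont hcL jz] at hle
    have iy := quad_identity (Q' := S') hN hT hcAs hcD hy hS3 hcS'
    have iz := quad_identity (Q' := S') hN hT hcAl hcD hz hS3 hcS'
    have e0 : ∀ x : ℝ → Ω → E, ei P (fun ω => S T (x T ω)) (x T) = 0 := by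
      intro x
      rw [hS1]
      simp [ei]
    rw [e0, zero_sub] at iy iz
    -- cost of the equilibrium gain
    have ey : ∫ t in (0 : ℝ)..T, ei P (fun ω => costOp r s (Q t) (KO t) (KW t) (y t ω)) (y t)
        = inner ℝ (S 0 ξ) ξ := by
      have h1 : ∀ t, ei P (fun ω => gen (S' t) (S t) (As t) (D t) (y t ω)) (y t)
          = - ei P (fun ω => costOp r s (Q t) (KO t) (KW t) (y t ω)) (y t) := by
        intro t
        unfold ei
        rw [← integral_neg]
        refine integral_congr_ae (Eventually.of_forall fun ω => ?_)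
        have h2 : gen (S' t) (S t) (As t) (D t) = - costOp r s (Q t) (KO t) (KW t) := by
          simp only [hS']
          unfold gen lyapOp
          abel
        simp only [h2, ContinuousLinearMap.neg_apply, inner_neg_left]
      rw [intervalIntegral.integral_congr (fun t _ => h1 t), intervalIntegral.integral_neg] at iy
      linarith
    -- cost of the improved gain
    have hcg : ContinuousOn (fun t => ei P (fun ω => gen (S' t) (S t) (Al t) (D t) (z t ω)) (z t))
        (Icc 0 T) := ei_quad_cont hz.msc (gen_cont hSc hcS' hcAl hcD)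
    have hcc : ContinuousOn (fun t => ei P (fun ω => costOp r s (Q t) (KO t) (L t) (z t ω)) (z t))
        (Icc 0 T) := ei_quad_cont hz.msc (costOp_cont hQ ho.cont hcL)
    have hcq : ContinuousOn (fun t => qn P (fun ω => (L t - KW t) (z t ω))) (Icc 0 T) :=
      (hz.msc.clm hLK).continuousOn_qn
    have ii : ∀ {φ : ℝ → ℝ}, ContinuousOn φ (Icc 0 T) → IntervalIntegrable φ volume 0 T := by
      intro φ hφ
      refine ContinuousOn.intervalIntegrable ?_
      rwa [uIcc_of_le hT.le]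
    have h3 : ∀ t ∈ Icc 0 T, ei P (fun ω => gen (S' t) (S t) (Al t) (D t) (z t ω)) (z t)
        + ei P (fun ω => costOp r s (Q t) (KO t) (L t) (z t ω)) (z t)
        = -(r * qn P (fun ω => (L t - KW t) (z t ω))) := by
      intro t ht
      have mz := hz.msc.memLp t ht
      unfold ei qn
      rw [← integral_add (inner_integrable (memLp_clm _ mz) mz)
        (inner_integrable (memLp_clm _ mz) mz), ← integral_const_mul, ← integral_neg]
      refine integral_congr_ae (Eventually.of_forall fun ω => ?_)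
      have h4 := improve_alg (s := s) hr (Q := Q t) (hS2 t) (KO t) (C t) (KW t) (L t) (As t) (D t)
        rfl (z t ω)
      simp only
      rw [hAl' t]
      exact h4
    have ez : (∫ t in (0 : ℝ)..T, ei P (fun ω => costOp r s (Q t) (KO t) (L t) (z t ω)) (z t))
        = inner ℝ (S 0 ξ) ξ - r * ∫ t in (0 : ℝ)..T, qn P (fun ω => (L t - KW t) (z t ω)) := by
      have h5 : ∫ t in (0 : ℝ)..T, (ei P (fun ω => gen (S' t) (S t) (Al t) (D t) (z t ω)) (z t)
          + ei P (fun ω => costOp r s (Q t) (KO t) (L t) (z t ω)) (z t))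
          = ∫ t in (0 : ℝ)..T, -(r * qn P (fun ω => (L t - KW t) (z t ω))) := by
        refine intervalIntegral.integral_congr fun t ht => ?_
        rw [uIcc_of_le hT.le] at ht
        exact h3 t ht
      rw [intervalIntegral.integral_add (ii hcg) (ii hcc), intervalIntegral.integral_neg,
        intervalIntegral.integral_const_mul, iz] at h5
      linarith
    rw [ey, ez] at hle
    have h6 : ∫ t in (0 : ℝ)..T, qn P (fun ω => (L t - KW t) (z t ω)) ≤ 0 := by
      by_contra h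
      push Not at h
      have := mul_pos hr h
      linarith
    -- a nonnegative continuous function with vanishing integral
    intro t ht
    by_contra hne
    have hpos : 0 < qn P (fun ω => (L t - KW t) (z t ω)) :=
      lt_of_le_of_ne (qn_nonneg _) (Ne.symm hne)
    have h7 : 0 < ∫ t in (0 : ℝ)..T, qn P (fun ω => (L t - KW t) (z t ω)) :=
      intervalIntegral.integral_pos hT hcq (fun s _ => qn_nonneg _) ⟨t, ht, hpos⟩
    linarith
  intro t ht
  have hzero : L t - KW t = 0 := by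
    ext q
    obtain ⟨ξ, hξ⟩ := mean_target (P := P) (F := F) (b := b) hN hT hcAl hcD ht q
    obtain ⟨z, hz⟩ := exists_linSol (P := P) (F := F) (b := b) hN hJ hT hcAl hcD ξ
    have h1 := hξ z hz
    have h2 := key ξ z hz t ht
    have mz := hz.msc.memLp t ht
    have h3 := norm_integral_le_sn (memLp_clm (L t - KW t) mz)
    have h4 : sn P (fun ω => (L t - KW t) (z t ω)) = 0 := by
      unfold sn
      rw [h2, Real.sqrt_zero]
    rw [h4] at h3
    have h5 : ∫ ω, (L t - KW t) (z t ω) ∂P = 0 := norm_le_zero_iff.1 h3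
    rw [ContinuousLinearMap.integral_comp_comm _ (mz.integrable (by norm_num)), h1] at h5
    rw [h5]
    rfl
  exact (sub_eq_zero.1 hzero).symm

end Pool.Agent.ACF
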