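import Pool.Agent.ACF.Mom

set_option autoImplicit false
set_option linter.unusedSectionVars false
open MeasureTheory ProbabilityTheory Set Filter Topology
open scoped NNReal ENNReal

namespace Pool.Agent.ACF

variable {E : Type*} [NormedAddCommGroup E] [InnerProductSpace ℝ E] [CompleteSpace E]
variable {Ω : Type*} {mΩ : MeasurableSpace Ω} {P : Measure Ω} [IsProbabilityMeasure P]
  {F : ℝ → MeasurableSpace Ω} {b : ℝ → Ω → ℝ} {T : ℝ} {A D : ℝ → E →L[ℝ] E} {ξ : E}

lemma ei_pair_diff {X Y : Ω → E} (hX : MemLp X 2 P) (hY : MemLp Y 2 P) (M : E →L[ℝ] E)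
    {c e m m' : ℝ} (hc : ‖M‖ ≤ c) (he : sn P (fun ω => X ω - Y ω) ≤ e)
    (hm : sn P X ≤ m) (hm' : sn P Y ≤ m') :
    |ei P (fun ω => M (X ω)) X - ei P (fun ω => M (Y ω)) Y| ≤ c * e * m + c * m' * e := by
  have mXY : MemLp (fun ω => X ω - Y ω) 2 P := hX.sub hY
  have b1 := ei_bound mXY hX M hc he hm
  have b2 := ei_bound hY mXY M hc hm' he
  have e1 : ei P (fun ω => M (X ω)) X - ei P (fun ω => M (Y ω)) Y
      = ei P (fun ω => M (X ω - Y ω)) X + ei P (fun ω => M (Y ω)) (fun ω => X ω - Y ω) := by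
    unfold ei
    rw [← integral_sub (inner_integrable (memLp_clm M hX) hX)
      (inner_integrable (memLp_clm M hY) hY),
      ← integral_add (inner_integrable (memLp_clm M mXY) hX)
      (inner_integrable (memLp_clm M hY) mXY)]
    refine integral_congr_ae (Eventually.of_forall fun ω => ?_)
    simp only [map_sub, inner_sub_left, inner_sub_right]
    ring
  rw [e1]
  exact (abs_add_le _ _).trans (add_le_add b1 b2)

lemma gen_cont {Q Q' : ℝ → E →L[ℝ] E} {s : Set ℝ} (hQ : ContinuousOn Q s)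
    (hQ' : ContinuousOn Q' s) (hA : ContinuousOn A s) (hD : ContinuousOn D s) :
    ContinuousOn (fun t => gen (Q' t) (Q t) (A t) (D t)) s := by
  have adj : Continuous (fun L : E →L[ℝ] E => ContinuousLinearMap.adjoint L) :=
    (ContinuousLinearMap.adjoint : (E →L[ℝ] E) ≃ₗᵢ⋆[ℝ] (E →L[ℝ] E)).continuous
  have a1 := adj.comp_continuousOn hA
  have a2 := adj.comp_continuousOn hD
  unfold gen
  exact ((hQ'.add (a1.clm_comp hQ)).add (hQ.clm_comp hA)).add (a2.clm_comp (hQ.clm_comp hD))

lemma ei_quad_cont {X : ℝ → Ω → E} (hX : MSC P T X) {M : ℝ → E →L[ℝ] E}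
    (hM : ContinuousOn M (Icc 0 T)) :
    ContinuousOn (fun t => ei P (fun ω => M t (X t ω)) (X t)) (Icc 0 T) := by
  have hMX := hX.clm hM
  intro s hs
  rw [ContinuousWithinAt, tendsto_iff_dist_tendsto_zero]
  have c1 := hX.continuousOn_sn s hs
  have c2 := hMX.continuousOn_sn s hs
  have c3 : Tendsto (fun t => sn P (fun ω => M t (X t ω) - M s (X s ω)) * sn P (X t)
      + sn P (fun ω => M s (X s ω)) * sn P (fun ω => X t ω - X s ω)) (𝓝[Icc 0 T] s) (𝓝 0) := by
    have := ((hMX.tendsto_sn hs).mul c1).add ((hX.tendsto_sn hs).const_mul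
      (sn P (fun ω => M s (X s ω))))
    simpa using this
  refine squeeze_zero' (Eventually.of_forall fun _ => dist_nonneg) ?_ c3
  filter_upwards [self_mem_nhdsWithin] with t ht
  rw [Real.dist_eq]
  have m1 := hX.memLp t ht
  have m2 := hX.memLp s hs
  have m3 : MemLp (fun ω => M t (X t ω)) 2 P := memLp_clm _ m1
  have m4 : MemLp (fun ω => M s (X s ω)) 2 P := memLp_clm _ m2
  have b1 := ei_abs (m3.sub m4) m1
  have b2 := ei_abs m4 (m1.sub m2)
  have e1 : ei P (fun ω => M t (X t ω)) (X t) - ei P (fun ω => M s (X s ω)) (X s)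
      = ei P ((fun ω => M t (X t ω)) - fun ω => M s (X s ω)) (X t)
        + ei P (fun ω => M s (X s ω)) (X t - X s) := by
    unfold ei
    rw [← integral_sub (inner_integrable m3 m1) (inner_integrable m4 m2),
      ← integral_add (inner_integrable (m3.sub m4) m1) (inner_integrable m4 (m1.sub m2))]
    refine integral_congr_ae (Eventually.of_forall fun ω => ?_)
    simp only [Pi.sub_apply, inner_sub_left, inner_sub_right]
    ring
  rw [e1]
  exact (abs_add_le _ _).trans (add_le_add b1 b2)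

/-- the expected quadratic form along the linear equation (the Ito formula in the mean) -/
theorem quad_identity (hN : Noise P F b) (hT : 0 < T) (hcA : ContinuousOn A (Icc 0 T))
    (hcD : ContinuousOn D (Icc 0 T)) {y : ℝ → Ω → E} (hy : LinSol P F b T A D ξ y)
    {Q Q' : ℝ → E →L[ℝ] E} (hQ : ∀ t ∈ Icc 0 T, HasDerivWithinAt Q (Q' t) (Icc 0 T) t)
    (hQ' : ContinuousOn Q' (Icc 0 T)) :
    ∫ t in (0 : ℝ)..T, ei P (fun ω => gen (Q' t) (Q t) (A t) (D t) (y t ω)) (y t)
      = ei P (fun ω => Q T (y T ω)) (y T) - inner ℝ (Q 0 ξ) ξ := by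
  obtain ⟨K1, hK1⟩ := isCompact_Icc.exists_bound_of_continuousOn (s := Icc (0 : ℝ) T) hcA
  obtain ⟨K2, hK2⟩ := isCompact_Icc.exists_bound_of_continuousOn (s := Icc (0 : ℝ) T) hcD
  have h00 : (0 : ℝ) ∈ Icc 0 T := ⟨le_rfl, hT.le⟩
  have hTT : T ∈ Icc 0 T := ⟨hT.le, le_rfl⟩
  have hK10 : 0 ≤ K1 := (norm_nonneg _).trans (hK1 0 h00)
  set K := max K1 K2 with hKdef
  have hK : Coef T A D K := ⟨hK10.trans (le_max_left _ _),
    fun t ht => (hK1 t ht).trans (le_max_left _ _), fun t ht => (hK2 t ht).trans (le_max_right _ _)⟩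
  have hK0 := hK.nn
  have hQc : ContinuousOn Q (Icc 0 T) := fun t ht => (hQ t ht).continuousWithinAt
  have hGc := gen_cont hQc hQ' hcA hcD
  obtain ⟨cq, hcq⟩ := isCompact_Icc.exists_bound_of_continuousOn (s := Icc (0 : ℝ) T) hQc
  obtain ⟨cp, hcp⟩ := isCompact_Icc.exists_bound_of_continuousOn (s := Icc (0 : ℝ) T) hQ'
  obtain ⟨cg, hcg⟩ := isCompact_Icc.exists_bound_of_continuousOn (s := Icc (0 : ℝ) T) hGc
  obtain ⟨my, hmy⟩ := isCompact_Icc.exists_bound_of_continuousOn (s := Icc (0 : ℝ) T)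
    hy.msc.continuousOn_sn
  have hcq0 : 0 ≤ cq := (norm_nonneg _).trans (hcq 0 h00)
  have hcp0 : 0 ≤ cp := (norm_nonneg _).trans (hcp 0 h00)
  have hcg0 : 0 ≤ cg := (norm_nonneg _).trans (hcg 0 h00)
  have hmy0 : 0 ≤ my := (norm_nonneg _).trans (hmy 0 h00)
  have hmy' : ∀ t ∈ Icc 0 T, sn P (y t) ≤ my := fun t ht => by
    have := hmy t ht
    rwa [Real.norm_eq_abs, abs_of_nonneg (sn_nonneg _)] at this
  set m := Real.sqrt (M0 T K ξ) with hm
  have hm0 : 0 ≤ m := Real.sqrt_nonneg _
  have hM0 := M0_nonneg T K ξ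
  set ψ : ℝ → ℝ := fun t => ei P (fun ω => gen (Q' t) (Q t) (A t) (D t) (y t ω)) (y t) with hψ
  have hψc : ContinuousOn ψ (Icc 0 T) := ei_quad_cont hy.msc hGc
  have hriem := riemann hT hψc hT.le le_rfl
  -- it is enough to bound the difference by a multiple of every positive number
  set C : ℝ := 1 + T * (M0 T K ξ + M0 T K ξ) + (cq + T * cg) * (m + my) with hC
  have hCpos : 0 < C := by positivity
  have key : ∀ e : ℝ, 0 < e →
      |(∫ t in (0 : ℝ)..T, ψ t) - (ei P (fun ω => Q T (y T ω)) (y T) - inner ℝ (Q 0 ξ) ξ)|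
        ≤ C * e := by
    intro e he
    obtain ⟨N0, h0, hE⟩ := hy.euler e he
    obtain ⟨δ, hδ, hOsc⟩ := osc_of_cont hQ' he
    obtain ⟨n2, hn2⟩ := exists_nat_gt (T / δ)
    set qq : ℝ := cp * (2 * K + K ^ 2) + cq * K ^ 2 with hqq
    have hqq0 : 0 ≤ qq := by positivity
    obtain ⟨n3, hn3⟩ := exists_nat_gt (T * qq / e)
    obtain ⟨n4, hn4⟩ := (Metric.tendsto_atTop.1 hriem) e he
    set N := N0 + n2 + n3 + n4 + 1 with hNdef
    have hNp : 0 < N := by omega
    have hNr : (0 : ℝ) < N := Nat.cast_pos.2 hNp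
    have hTN : T / N ≤ δ := by
      rw [div_le_iff₀ hNr]
      have h1 : (n2 : ℝ) ≤ N := Nat.cast_le.2 (by omega)
      rw [div_lt_iff₀ hδ] at hn2
      nlinarith
    have hTN2 : (T / N) * qq ≤ e := by
      have h1 : (n3 : ℝ) ≤ N := Nat.cast_le.2 (by omega)
      rw [div_lt_iff₀ he] at hn3
      rw [div_mul_eq_mul_div, div_le_iff₀ hNr]
      nlinarith
    have hEN := hE N (by omega)
    have hR := hn4 N (by omega)
    rw [Real.dist_eq] at hR
    set X : ℕ → Ω → E := fun k => eul b A D T N ξ k with hX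
    have mX : ∀ k, MemLp (X k) 2 P := fun k => eul_memLp hN hT k
    have hgI : ∀ k, k ≤ N → gp T N k ∈ Icc 0 T := fun k hk => ⟨gp_nonneg hT N k, gp_le hT hNp hk⟩
    have hsX : ∀ k, k ≤ N → sn P (X k) ≤ m := fun k hk =>
      Real.sqrt_le_sqrt (eul_bound hN hT hK hNp hk)
    have hclose : ∀ k, k ≤ N → sn P (fun ω => X k ω - y (gp T N k) ω) ≤ e := by
      intro k hk
      have := hEN (gp T N k) (hgI k hk)
      rwa [yI_gp hT hk] at this
    set qk : ℕ → ℝ := fun k => ei P (fun ω => Q (gp T N k) (X k ω)) (X k) with hqk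
    set Gk : ℕ → ℝ := fun k => ei P (fun ω => gen (Q' (gp T N k)) (Q (gp T N k)) (A (gp T N k))
      (D (gp T N k)) (X k ω)) (X k) with hGk
    have hstep : ∀ k, k < N → |qk (k + 1) - qk k - (T / N) * Gk k|
        ≤ (T / N) * ((e + e) * M0 T K ξ) := by
      intro k hk
      have hk1 := hgI k hk.le
      have hk2 := hgI (k + 1) hk
      have hsub : Icc (gp T N k) (gp T N (k + 1)) ⊆ Icc 0 T :=
        Icc_subset_Icc hk1.1 hk2.2
      have hle := gp_mono hT N (Nat.le_succ k)
      have hl : gp T N k ∈ Icc (gp T N k) (gp T N (k + 1)) := ⟨le_rfl, hle⟩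
      have hr : gp T N (k + 1) ∈ Icc (gp T N k) (gp T N (k + 1)) := ⟨hle, le_rfl⟩
      have hlen : ‖gp T N (k + 1) - gp T N k‖ = T / N := by
        rw [gp_succ, add_sub_cancel_left, Real.norm_eq_abs, abs_of_nonneg (by positivity)]
      have g1 : ‖Q (gp T N (k + 1)) - Q (gp T N k)‖ ≤ (T / N) * cp := by
        have := (convex_Icc (gp T N k) (gp T N (k + 1))).norm_image_sub_le_of_norm_hasDerivWithin_le
          (f := Q) (f' := Q') (C := cp) (fun t ht => (hQ t (hsub ht)).mono hsub)
          (fun t ht => hcp t (hsub ht)) hl hr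
        rw [hlen] at this
        linarith
      have g2 : ‖Q (gp T N (k + 1)) - Q (gp T N k) - (T / N) • Q' (gp T N k)‖ ≤ (T / N) * e := by
        have := (convex_Icc (gp T N k) (gp T N (k + 1))).norm_image_sub_le_of_norm_hasDerivWithin_le
          (f := fun t => Q t - t • Q' (gp T N k)) (f' := fun t => Q' t - Q' (gp T N k)) (C := e)
          (fun t ht => by
            have h1 := (hQ t (hsub ht)).mono hsub
            have h2 := (hasDerivWithinAt_id t (Icc (gp T N k) (gp T N (k + 1)))).smul_const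
              (Q' (gp T N k))
            rw [one_smul] at h2
            exact h1.sub h2)
          (fun t ht => hOsc (T / N) hTN t (hsub ht) _ hk1 (by
            rw [abs_of_nonneg (by linarith [ht.1])]
            have := ht.2
            rw [gp_succ] at this
            linarith)) hl hr
        rw [hlen] at this
        have e2 : Q (gp T N (k + 1)) - gp T N (k + 1) • Q' (gp T N k)
            - (Q (gp T N k) - gp T N k • Q' (gp T N k))
            = Q (gp T N (k + 1)) - Q (gp T N k) - (T / N) • Q' (gp T N k) := by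
          have e3 : (T / N) • Q' (gp T N k)
              = gp T N (k + 1) • Q' (gp T N k) - gp T N k • Q' (gp T N k) := by
            rw [← sub_smul, gp_succ, add_sub_cancel_left]
          rw [e3]
          abel
        simp only [e2] at this
        linarith
      have h1 := step_approx (ξ := ξ) hN hT hK hNp hk hcq g1 g2
      refine h1.trans ?_
      refine mul_le_mul_of_nonneg_left (mul_le_mul_of_nonneg_right ?_ hM0) (by positivity)
      linarith
    have htel : qk N - qk 0 - ∑ k ∈ Finset.range N, (T / N) * Gk k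
        = ∑ k ∈ Finset.range N, (qk (k + 1) - qk k - (T / N) * Gk k) := by
      rw [Finset.sum_sub_distrib, Finset.sum_range_sub]
    have B1 : |qk N - qk 0 - ∑ k ∈ Finset.range N, (T / N) * Gk k|
        ≤ T * ((e + e) * M0 T K ξ) := by
      rw [htel]
      refine (Finset.abs_sum_le_sum_abs _ _).trans ?_
      refine (Finset.sum_le_sum fun k hk => hstep k (Finset.mem_range.1 hk)).trans ?_
      rw [Finset.sum_const, Finset.card_range, nsmul_eq_mul]
      apply le_of_eq
      field_simp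
    have B2 : |∑ k ∈ Finset.range N, (T / N) * Gk k
        - ∑ k ∈ Finset.range N, (T / N) * ψ (gp T N k)| ≤ T * (cg * e * m + cg * my * e) := by
      rw [← Finset.sum_sub_distrib]
      refine (Finset.abs_sum_le_sum_abs _ _).trans ?_
      have hterm : ∀ k ∈ Finset.range N, |T / N * Gk k - T / N * ψ (gp T N k)|
          ≤ (T / N) * (cg * e * m + cg * my * e) := by
        intro k hk
        have hk' := (Finset.mem_range.1 hk).le
        rw [← mul_sub, abs_mul, abs_of_nonneg (by positivity : 0 ≤ T / N)]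
        refine mul_le_mul_of_nonneg_left ?_ (by positivity)
        exact ei_pair_diff (mX k) (hy.msc.memLp _ (hgI k hk')) _ (hcg _ (hgI k hk'))
          (hclose k hk') (hsX k hk') (hmy' _ (hgI k hk'))
      refine (Finset.sum_le_sum hterm).trans ?_
      rw [Finset.sum_const, Finset.card_range, nsmul_eq_mul]
      apply le_of_eq
      field_simp
    have B3 : |∑ k ∈ Finset.range N, (T / N) * ψ (gp T N k) - ∫ t in (0 : ℝ)..T, ψ t| ≤ e := by
      have e1 : ∑ k ∈ Finset.range N, (tau T N 0 T (k + 1) - tau T N 0 T k) • ψ (gp T N k)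
          = ∑ k ∈ Finset.range N, (T / N) * ψ (gp T N k) := by
        refine Finset.sum_congr rfl fun k hk => ?_
        have hk' := Finset.mem_range.1 hk
        have t1 : tau T N 0 T k = gp T N k := by
          unfold tau
          rw [min_eq_left (gp_le hT hNp hk'.le), max_eq_right (gp_nonneg hT N k)]
        have t2 : tau T N 0 T (k + 1) = gp T N (k + 1) := by
          unfold tau
          rw [min_eq_left (gp_le hT hNp hk'), max_eq_right (gp_nonneg hT N _)]
        rw [t1, t2, gp_succ, add_sub_cancel_left, smul_eq_mul]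
      rw [e1] at hR
      exact hR.le
    have B4 : |qk N - ei P (fun ω => Q T (y T ω)) (y T)| ≤ cq * e * m + cq * my * e := by
      have h1 := ei_pair_diff (mX N) (hy.msc.memLp _ (hgI N le_rfl)) (Q (gp T N N))
        (hcq _ (hgI N le_rfl)) (hclose N le_rfl) (hsX N le_rfl) (hmy' _ (hgI N le_rfl))
      rw [gp_self hNp] at h1
      simp only [hqk]
      rw [gp_self hNp]
      exact h1
    have B5 : qk 0 = inner ℝ (Q 0 ξ) ξ := by
      simp only [hqk, hX, gp_zero]
      unfold ei
      simp [eul]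
    have hd : (∫ t in (0 : ℝ)..T, ψ t) - (ei P (fun ω => Q T (y T ω)) (y T) - inner ℝ (Q 0 ξ) ξ)
        = -(qk N - qk 0 - ∑ k ∈ Finset.range N, (T / N) * Gk k)
          - (∑ k ∈ Finset.range N, (T / N) * Gk k - ∑ k ∈ Finset.range N, (T / N) * ψ (gp T N k))
          - (∑ k ∈ Finset.range N, (T / N) * ψ (gp T N k) - ∫ t in (0 : ℝ)..T, ψ t)
          + (qk N - ei P (fun ω => Q T (y T ω)) (y T)) := by
      rw [B5]; ring
    rw [hd, abs_le]
    have a1 := abs_le.1 B1
    have a2 := abs_le.1 B2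
    have a3 := abs_le.1 B3
    have a4 := abs_le.1 B4
    have hCe : C * e = T * ((e + e) * M0 T K ξ) + T * (cg * e * m + cg * my * e) + e
        + (cq * e * m + cq * my * e) := by
      rw [hC]; ring
    rw [hCe]
    constructor
    · linarith [a1.1, a1.2, a2.1, a2.2, a3.1, a3.2, a4.1, a4.2]
    · linarith [a1.1, a1.2, a2.1, a2.2, a3.1, a3.2, a4.1, a4.2]
  have hzero : |(∫ t in (0 : ℝ)..T, ψ t) - (ei P (fun ω => Q T (y T ω)) (y T)
      - inner ℝ (Q 0 ξ) ξ)| ≤ 0 := by
    refine le_of_forall_pos_le_add fun ε hε => ?_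
    have := key (ε / C) (by positivity)
    rw [mul_div_cancel₀ _ hCpos.ne'] at this
    linarith
  have := abs_nonpos_iff.1 hzero
  linarith

end Pool.Agent.ACF
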