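import Pool.Agent.ACF.Chain

set_option autoImplicit false
set_option linter.unusedSectionVars false
open MeasureTheory ProbabilityTheory Set Filter Topology Module
open scoped NNReal ENNReal

namespace Pool.Agent.ACF

variable {E : Type*} [NormedAddCommGroup E] [InnerProductSpace ℝ E] [FiniteDimensional ℝ E]
  [MeasurableSpace E] [BorelSpace E]
variable {Ω : Type*} {mΩ : MeasurableSpace Ω} {P : Measure Ω} [IsProbabilityMeasure P]
  {F : ℝ → MeasurableSpace Ω} {b : ℝ → Ω → ℝ} {T : ℝ}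

lemma wgt_fin : ∫⁻ x, ENNReal.ofReal (wgt (finrank ℝ E + 1) x) ∂(hm E) ≠ ⊤ := by
  set m := finrank ℝ E + 1 with hmm
  have h1 : (finrank ℝ E : ℝ) < 2 * (m : ℝ) := by
    rw [hmm]
    push_cast
    have : (0 : ℝ) ≤ finrank ℝ E := Nat.cast_nonneg _
    linarith
  have h2 := integrable_rpow_neg_one_add_norm_sq (μ := hm E) h1
  have e : (fun x : E => ((1 : ℝ) + ‖x‖ ^ 2) ^ (-(2 * (m : ℝ)) / 2)) = wgt m := by
    funext x
    have e1 : -(2 * (m : ℝ)) / 2 = -(m : ℝ) := by ring
    unfold wgt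
    rw [e1, Real.rpow_neg (by positivity), Real.rpow_natCast]
  rw [e] at h2
  exact (h2.lintegral_lt_top).ne

/-- Chebyshev for the mean square -/
lemma cheb {f : Ω → E} (hf : MemLp f 2 P) {r : ℝ} (hr : 0 < r) :
    P {ω | r ≤ ‖f ω‖} ≤ ENNReal.ofReal ((r ^ 2)⁻¹ * qn P f) := by
  have h1 := mul_meas_ge_le_integral_of_nonneg (μ := P) (f := fun ω => ‖f ω‖ ^ 2)
    (Eventually.of_forall fun ω => sq_nonneg _) (sq_integrable hf) (r ^ 2)
  have e : {ω | r ^ 2 ≤ ‖f ω‖ ^ 2} = {ω | r ≤ ‖f ω‖} := by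
    ext ω
    exact pow_le_pow_iff_left₀ hr.le (norm_nonneg _) two_ne_zero
  rw [e] at h1
  have h2 : P.real {ω | r ≤ ‖f ω‖} ≤ (r ^ 2)⁻¹ * qn P f := by
    rw [inv_mul_eq_div, le_div_iff₀ (by positivity)]
    unfold qn
    linarith
  rw [← ENNReal.ofReal_toReal (measure_ne_top P {ω | r ≤ ‖f ω‖})]
  exact ENNReal.ofReal_le_ofReal h2

/-- no mass near the origin in the limit makes the scheme leave the origin -/
lemma up_tendsto (hN : Noise P F b) (hS : SymNoise P b) {D : ℝ → E →L[ℝ] E} {L : ℝ}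
    {f : ℝ → E → E} (hf : Drift T L f) {s : ℝ} (hs : 0 < s) (hsT : s ≤ T) {Z : Ω → E}
    (hZ : MemLp Z 2 P) {x : E}
    (hlim : Tendsto (fun N : ℕ => qn P (fun ω => nl b D f s N x N ω - Z ω)) atTop (𝓝 0))
    (hmem : ∀ N : ℕ, 0 < N → MemLp (fun ω => nl b D f s N x N ω) 2 P)
    {η r : ℝ} (hη : 0 < η) (hr : 0 < r) (hz : P {ω | ‖Z ω‖ < 2 * r} = 0) :
    Tendsto (fun N : ℕ => ∫⁻ ω, (Metric.ball (0 : E) r).indicator (fun _ => (1 : ℝ≥0∞))
      (ch b D f s N η N x ω) ∂P) atTop (𝓝 0) := by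
  obtain ⟨C, hC0, hC⟩ := hS.tail η hη
  have hlim1 : Tendsto (fun N : ℕ => C * s ^ 2 * ((N : ℝ))⁻¹) atTop (𝓝 0) := by
    have h := (tendsto_inv_atTop_nhds_zero_nat (𝕜 := ℝ)).const_mul (C * s ^ 2)
    rwa [mul_zero] at h
  have hlim2 : Tendsto (fun N : ℕ => (r ^ 2)⁻¹ * qn P (fun ω => nl b D f s N x N ω - Z ω))
      atTop (𝓝 0) := by
    have h := hlim.const_mul ((r ^ 2)⁻¹)
    rwa [mul_zero] at h
  have hlim3 : Tendsto (fun N : ℕ => ENNReal.ofReal (C * s ^ 2 * ((N : ℝ))⁻¹)
      + ENNReal.ofReal ((r ^ 2)⁻¹ * qn P (fun ω => nl b D f s N x N ω - Z ω)))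
      atTop (𝓝 0) := by
    have h1 := ENNReal.tendsto_ofReal hlim1
    have h2 := ENNReal.tendsto_ofReal hlim2
    have h3 := h1.add h2
    simpa using h3
  refine tendsto_of_tendsto_of_tendsto_of_le_of_le' tendsto_const_nhds hlim3
    (Eventually.of_forall fun N => zero_le) ?_
  filter_upwards [eventually_gt_atTop 0] with N hNp
  have hNR : (0 : ℝ) < N := Nat.cast_pos.2 hNp
  have hchm : Measurable (ch b D f s N η N x) :=
    ((ch_adapt hN (D := D) hf hs hsT hNp η x N le_rfl).mono (hN.le _)).measurable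
  have e1 : ∫⁻ ω, (Metric.ball (0 : E) r).indicator (fun _ => (1 : ℝ≥0∞))
      (ch b D f s N η N x ω) ∂P = P {ω | ‖ch b D f s N η N x ω‖ < r} := by
    have e2 : (fun ω => (Metric.ball (0 : E) r).indicator (fun _ => (1 : ℝ≥0∞))
        (ch b D f s N η N x ω))
        = {ω | ‖ch b D f s N η N x ω‖ < r}.indicator (fun _ => (1 : ℝ≥0∞)) := by
      funext ω
      by_cases h : ‖ch b D f s N η N x ω‖ < r
      · rw [indicator_of_mem (by simpa using h), indicator_of_mem (by exact h)]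
      · rw [indicator_of_notMem (by simpa using h), indicator_of_notMem (by exact h)]
    rw [e2, lintegral_indicator_const (measurableSet_lt hchm.norm measurable_const), one_mul]
  rw [e1]
  have hsub : {ω | ‖ch b D f s N η N x ω‖ < r} ⊆
      ((⋃ j ∈ Finset.range N, {ω | η < |b (gp s N (j + 1)) ω - b (gp s N j) ω|})
        ∪ {ω | r ≤ ‖nl b D f s N x N ω - Z ω‖}) ∪ {ω | ‖Z ω‖ < 2 * r} := by
    intro ω hω
    by_cases h1 : ω ∈ ⋃ j ∈ Finset.range N, {ω | η < |b (gp s N (j + 1)) ω - b (gp s N j) ω|}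
    · exact Or.inl (Or.inl h1)
    · by_cases h2 : r ≤ ‖nl b D f s N x N ω - Z ω‖
      · exact Or.inl (Or.inr h2)
      · refine Or.inr ?_
        have h3 : ch b D f s N η N x ω = nl b D f s N x N ω := by
          refine ch_eq_nl x ω N fun j hj => ?_
          by_contra hcon
          exact h1 (mem_biUnion (Finset.mem_range.2 hj) (not_le.1 hcon))
        have h4 : ‖nl b D f s N x N ω‖ < r := by
          rw [← h3]
          exact hω
        have h5 := norm_sub_norm_le (Z ω) (nl b D f s N x N ω)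
        rw [norm_sub_rev] at h5
        change ‖Z ω‖ < 2 * r
        linarith [not_le.1 h2]
  refine (measure_mono hsub).trans ((measure_union_le _ _).trans ?_)
  rw [hz, add_zero]
  refine (measure_union_le _ _).trans (add_le_add ?_ ?_)
  · refine (measure_biUnion_finset_le _ _).trans ?_
    have h6 : ∀ j ∈ Finset.range N, P {ω | η < |b (gp s N (j + 1)) ω - b (gp s N j) ω|}
        ≤ ENNReal.ofReal (C * (s / N) ^ 2) := by
      intro j hj
      have h7 := gp_mem (T := T) hs hsT hNp (by have := Finset.mem_range.1 hj; omega : j ≤ N)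
      have h8 : gp s N j ≤ gp s N (j + 1) := gp_mono hs N (Nat.le_succ j)
      have h9 := hC (gp s N j) (gp s N (j + 1)) h7.1 h8
      have e2 : gp s N (j + 1) - gp s N j = s / N := by
        rw [gp_succ]
        ring
      rw [e2] at h9
      rw [← ENNReal.ofReal_toReal (measure_ne_top P
        {ω | η < |b (gp s N (j + 1)) ω - b (gp s N j) ω|})]
      exact ENNReal.ofReal_le_ofReal h9
    refine (Finset.sum_le_sum h6).trans ?_
    rw [Finset.sum_const, Finset.card_range, nsmul_eq_mul, ← ENNReal.ofReal_natCast,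
      ← ENNReal.ofReal_mul (Nat.cast_nonneg _)]
    refine ENNReal.ofReal_le_ofReal (le_of_eq ?_)
    field_simp
  · exact cheb ((hmem N hNp).sub hZ) hr

/-- states near the origin are reached with positive probability -/
theorem reach (hN : Noise P F b) (hS : SymNoise P b) (hT : 0 < T) {D : ℝ → E →L[ℝ] E}
    (hcD : ContinuousOn D (Icc 0 T)) {L : ℝ} {f : ℝ → E → E} (hf : Drift T L f)
    {X : E → ℝ → Ω → E} (hX : ∀ x0, MSC P T (X x0)) (hXa : ∀ x0, Adp P F T (X x0))
    (hg : ∀ x0, MemLp (fun p : ℝ × Ω => f p.1 (X x0 p.1 p.2)) 2 (muT T P))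
    (hI : ∀ x0, ∃ I : ℝ → Ω → E, IsIto P b T (fun t ω => D t (X x0 t ω)) I ∧
      ∀ t ∈ Icc 0 T, ∀ᵐ ω ∂P, X x0 t ω = x0 + (∫ r in (0 : ℝ)..t, f r (X x0 r ω)) + I t ω)
    (h0 : ∀ x0, X x0 0 =ᵐ[P] fun _ => x0) {s : ℝ} (hs : s ∈ Icc 0 T) {ρ : ℝ} (hρ : 0 < ρ) :
    ∃ x0, 0 < P {ω | ‖X x0 s ω‖ < ρ} := by
  rcases eq_or_lt_of_le hs.1 with hs0 | hs0
  · refine ⟨0, ?_⟩
    rw [← hs0]
    have h1 : {ω | ‖X 0 0 ω‖ < ρ} =ᵐ[P] univ := by
      filter_upwards [h0 0] with ω hω
      refine propext ⟨fun _ => trivial, fun _ => ?_⟩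
      change ‖X 0 0 ω‖ < ρ
      rw [hω, norm_zero]
      exact hρ
    rw [measure_congr h1, measure_univ]
    exact one_pos
  · by_contra hcon
    push Not at hcon
    have hz : ∀ x0, P {ω | ‖X x0 s ω‖ < ρ} = 0 := fun x0 => le_antisymm (hcon x0) zero_le
    obtain ⟨a, ha⟩ := isCompact_Icc.exists_bound_of_continuousOn (s := Icc (0 : ℝ) T) hcD
    have h00 : (0 : ℝ) ∈ Icc 0 T := ⟨le_rfl, hT.le⟩
    have ha0 : 0 ≤ a := (norm_nonneg _).trans (ha 0 h00)
    obtain ⟨c, hc0, hc⟩ := hf.bound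
    set m := finrank ℝ E + 1 with hm1
    set η : ℝ := (4 * (a + 1))⁻¹ with hη1
    have hη : 0 < η := by positivity
    have hηa : η * a ≤ 1 / 4 := by
      rw [hη1, inv_mul_eq_div, div_le_div_iff₀ (by positivity) (by norm_num)]
      linarith
    set r := ρ / 2 with hr1
    have hr : 0 < r := by positivity
    have e2r : 2 * r = ρ := by rw [hr1]; ring
    set C3 := (finrank ℝ E : ℝ) * L + m * (1 + 4 * c ^ 2 * (1 + 2 * L) ^ 2 + 16 * L ^ 2)
      + (finrank ℝ E : ℝ) * a ^ 2 + 5 * m * a ^ 2 with hC3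
    set g : E → ℝ≥0∞ := (Metric.ball (0 : E) r).indicator (fun _ => (1 : ℝ≥0∞)) with hg1
    have hgm : Measurable g := measurable_const.indicator measurableSet_ball
    set lo : ℝ≥0∞ := ENNReal.ofReal (Real.exp (-(2 * C3 * s)))
      * ∫⁻ y, ENNReal.ofReal (wgt m y) * g y ∂(hm E) with hlo
    have hlop : 0 < lo := by
      refine ENNReal.mul_pos (ENNReal.ofReal_pos.2 (Real.exp_pos _)).ne' ?_
      intro h1
      have hgw : Measurable (fun y : E => ENNReal.ofReal (wgt m y) * g y) :=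
        (wgt_cont m).measurable.ennreal_ofReal.mul hgm
      have h1 := (lintegral_eq_zero_iff hgw).1 h1
      have h2 : (hm E) (Metric.ball (0 : E) r) = 0 := by
        have h3 : ∀ᵐ y ∂(hm E), y ∉ Metric.ball (0 : E) r := by
          filter_upwards [h1] with y hy hyb
          simp only [Pi.zero_apply, mul_eq_zero, ENNReal.ofReal_eq_zero, hg1] at hy
          rcases hy with hy | hy
          · exact absurd (wgt_pos m y) (not_lt.2 hy)
          · rw [indicator_of_mem hyb] at hy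
            exact one_ne_zero hy
        have h4 := measure_eq_zero_iff_ae_notMem.2 h3
        exact h4
      exact (Metric.measure_ball_pos (hm E) (0 : E) hr).ne' h2
    have hge : ∀ᶠ N : ℕ in atTop, lo ≤ ∫⁻ x, ENNReal.ofReal (wgt m x)
        * (∫⁻ ω, g (ch b D f s N η N x ω) ∂P) ∂(hm E) := by
      have hl1 : Tendsto (fun N : ℕ => s / (N : ℝ)) atTop (𝓝 0) :=
        tendsto_const_div_atTop_nhds_zero_nat s
      have hl2 : Tendsto (fun N : ℕ => s / (N : ℝ) * L) atTop (𝓝 0) := by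
        have h := hl1.mul_const L
        rwa [zero_mul] at h
      filter_upwards [eventually_gt_atTop 0, hl1.eventually (ge_mem_nhds (one_pos)),
        hl2.eventually (ge_mem_nhds (by norm_num : (0 : ℝ) < 1 / 8))] with N hNp hN1 hN2
      have hNR : (N : ℝ) ≠ 0 := (Nat.cast_pos.2 hNp).ne'
      have h1 := chain_ge (P := P) hN hS ha hf hc0 hc hs0 hs.2 hNp hN1 hN2 hη.le hηa m
        (C3 := C3) le_rfl N le_rfl g hgm
      have e3 : 2 * C3 * (s / N) * N = 2 * C3 * s := by
        field_simp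
      rw [e3] at h1
      exact h1
    have hlimup : Tendsto (fun N : ℕ => ∫⁻ x, ENNReal.ofReal (wgt m x)
        * (∫⁻ ω, g (ch b D f s N η N x ω) ∂P) ∂(hm E)) atTop (𝓝 0) := by
      have hpt : ∀ x : E, Tendsto (fun N : ℕ => ∫⁻ ω, g (ch b D f s N η N x ω) ∂P) atTop
          (𝓝 0) := by
        intro x
        obtain ⟨I, hI1, hI2⟩ := hI x
        have h1 := nl_tendsto hN hT hcD hf (hX x) (hXa x) (hg x) hI1 hI2 (h0 x) hs0 hs.2
        refine up_tendsto hN hS hf hs0 hs.2 ((hX x).memLp s hs) h1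
          (fun N hNp => (nl_good hN hf hs0 hs.2 hNp x N le_rfl).2) hη hr ?_
        rw [e2r]
        exact hz x
      have h3 : ∫⁻ _ : E, (0 : ℝ≥0∞) ∂(hm E) = 0 := lintegral_zero
      rw [← h3]
      refine tendsto_lintegral_filter_of_dominated_convergence
        (fun x => ENNReal.ofReal (wgt m x)) ?_ ?_ wgt_fin ?_
      · filter_upwards [eventually_gt_atTop 0] with N hNp
        have hj := ch_joint hN (D := D) hf hs0 hs.2 hNp η N le_rfl
        have h4 : Measurable (fun x : E => ∫⁻ ω, g (ch b D f s N η N x ω) ∂P) :=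
          Measurable.lintegral_prod_right' (f := fun p : E × Ω => g (ch b D f s N η N p.1 p.2))
            (hgm.comp hj)
        exact (wgt_cont m).measurable.ennreal_ofReal.mul h4
      · refine Eventually.of_forall fun N => Eventually.of_forall fun x => ?_
        have h5 : ∫⁻ ω, g (ch b D f s N η N x ω) ∂P ≤ 1 := by
          have h6 : ∫⁻ ω, g (ch b D f s N η N x ω) ∂P ≤ ∫⁻ _ : Ω, 1 ∂P := by
            refine lintegral_mono fun ω => ?_
            rw [hg1]
            by_cases h : ch b D f s N η N x ω ∈ Metric.ball (0 : E) r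
            · rw [indicator_of_mem h]
            · rw [indicator_of_notMem h]
              exact zero_le
          refine h6.trans ?_
          rw [lintegral_one, measure_univ]
        calc ENNReal.ofReal (wgt m x) * (∫⁻ ω, g (ch b D f s N η N x ω) ∂P)
            ≤ ENNReal.ofReal (wgt m x) * 1 := by gcongr
          _ = ENNReal.ofReal (wgt m x) := mul_one _
      · refine Eventually.of_forall fun x => ?_
        have h7 := ENNReal.Tendsto.const_mul (a := ENNReal.ofReal (wgt m x)) (hpt x)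
          (Or.inr ENNReal.ofReal_ne_top)
        rwa [mul_zero] at h7
    have h9 := ge_of_tendsto hlimup hge
    exact absurd hlop (not_lt.2 h9)

end Pool.Agent.ACF
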