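import Pool.Agent.ACF.Ito

set_option autoImplicit false
set_option linter.unusedSectionVars false
open MeasureTheory ProbabilityTheory Set Filter Topology
open scoped NNReal ENNReal

namespace Pool.Agent.ACF

variable {E : Type*} [NormedAddCommGroup E] [InnerProductSpace ℝ E]
variable {G : Type*} [NormedAddCommGroup G] [InnerProductSpace ℝ G]
variable {Ω : Type*} {mΩ : MeasurableSpace Ω} {P : Measure Ω} [IsProbabilityMeasure P]
  {F : ℝ → MeasurableSpace Ω} {b : ℝ → Ω → ℝ} {T : ℝ}

lemma muT_ae (T : ℝ) : ∀ᵐ p ∂(muT T P), p.1 ∈ Icc 0 T := by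
  unfold muT
  have e2 : (volume.restrict (Icc (0 : ℝ) T)).prod P
      = (volume.prod P).restrict (Icc 0 T ×ˢ univ) := by
    rw [← Measure.prod_restrict, Measure.restrict_univ]
  rw [e2]
  filter_upwards [ae_restrict_mem (measurableSet_Icc.prod MeasurableSet.univ)] with p hp
  exact hp.1

lemma clm_joint {X : ℝ → Ω → E}
    (hX : AEStronglyMeasurable (fun p : ℝ × Ω => X p.1 p.2) (muT T P)) (hT : 0 ≤ T)
    {L : ℝ → E →L[ℝ] G} (hL : ContinuousOn L (Icc 0 T)) :
    AEStronglyMeasurable (fun p : ℝ × Ω => L p.1 (X p.1 p.2)) (muT T P) := by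
  set L' : ℝ → E →L[ℝ] G := IccExtend hT ((Icc 0 T).restrict L) with hL'
  have cL : Continuous L' := (continuousOn_iff_continuous_restrict.1 hL).Icc_extend'
  have h1 : AEStronglyMeasurable (fun p : ℝ × Ω => L' p.1) (muT T P) :=
    (cL.stronglyMeasurable.comp_measurable measurable_fst).aestronglyMeasurable
  have h2 := (ContinuousLinearMap.id ℝ (E →L[ℝ] G)).aestronglyMeasurable_comp₂ h1 hX
  refine h2.congr ?_
  filter_upwards [muT_ae (P := P) T] with p hp
  have e1 : L' p.1 = L p.1 := by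
    rw [hL', IccExtend_of_mem _ _ hp]; rfl
  simp [e1]

lemma MSC.joint {X : ℝ → Ω → E} (hX : MSC P T X)
    (hm : AEStronglyMeasurable (fun p : ℝ × Ω => X p.1 p.2) (muT T P)) :
    MemLp (fun p : ℝ × Ω => X p.1 p.2) 2 (muT T P) := by
  refine (memLp_two_iff_integrable_sq_norm hm).2 ?_
  unfold muT at hm ⊢
  have hm2 : AEStronglyMeasurable (fun p : ℝ × Ω => ‖X p.1 p.2‖ ^ 2)
      ((volume.restrict (Icc 0 T)).prod P) := hm.norm.pow 2
  rw [integrable_prod_iff hm2]
  constructor
  · filter_upwards [ae_restrict_mem measurableSet_Icc] with s hs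
    exact sq_integrable (hX.memLp s hs)
  · have h1 : ContinuousOn (fun s => qn P (X s)) (Icc 0 T) := hX.continuousOn_qn
    have h2 : IntegrableOn (fun s => qn P (X s)) (Icc 0 T) := h1.integrableOn_Icc
    refine h2.congr ?_
    filter_upwards with s
    unfold qn
    refine integral_congr_ae (Eventually.of_forall fun ω => ?_)
    simp

lemma sn_clm_le (L : E →L[ℝ] G) {K : ℝ} (hK : ‖L‖ ≤ K) {f : Ω → E} (hf : MemLp f 2 P) :
    sn P (fun ω => L (f ω)) ≤ K * sn P f := by
  have hc0 : 0 ≤ K := (norm_nonneg _).trans hK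
  have h5 := qn_clm_le L hK hf
  unfold sn
  rw [← Real.sqrt_sq hc0, ← Real.sqrt_mul (sq_nonneg _)]
  exact Real.sqrt_le_sqrt h5

lemma drift_riemann [CompleteSpace E] (hT : 0 < T) {g : ℝ → Ω → E}
    (hg : MemLp (fun p : ℝ × Ω => g p.1 p.2) 2 (muT T P)) {Z : ℕ → Ω → E}
    (hZ : ∀ k, MemLp (Z k) 2 P) {t : ℝ} (ht : t ∈ Icc 0 T) {N : ℕ} (hNp : 0 < N) {η : ℝ}
    (hη : 0 ≤ η)
    (hb : ∀ k < N, ∀ s ∈ Ioc (tau T N 0 t k) (tau T N 0 t (k + 1)),
      sn P (fun ω => Z k ω - g s ω) ≤ η) :
    MemLp (fun ω => psum (tau T N 0 t) (fun k => Z k ω) N - ∫ s in (0 : ℝ)..t, g s ω) 2 P ∧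
    sn P (fun ω => psum (tau T N 0 t) (fun k => Z k ω) N - ∫ s in (0 : ℝ)..t, g s ω) ≤ t * η := by
  have hmono := tau_mono hT N 0 t
  have htau : ∀ k, tau T N 0 t k ∈ Icc 0 T := fun k =>
    ⟨tau_nonneg le_rfl N t k, (max_le ht.1 (min_le_right _ _)).trans ht.2⟩
  have key : ∀ n, n ≤ N →
      MemLp (fun ω => psum (tau T N 0 t) (fun k => Z k ω) n
        - ∫ s in (0 : ℝ)..(tau T N 0 t n), g s ω) 2 P ∧
      sn P (fun ω => psum (tau T N 0 t) (fun k => Z k ω) n
        - ∫ s in (0 : ℝ)..(tau T N 0 t n), g s ω) ≤ tau T N 0 t n * η := by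
    intro n
    induction n with
    | zero =>
      intro _
      rw [tau_zero le_rfl ht.1]
      simp only [intervalIntegral.integral_same, psum, Finset.range_zero, Finset.sum_empty,
        sub_zero, zero_mul]
      refine ⟨MemLp.zero, ?_⟩
      simp [sn, qn]
    | succ n ih =>
      intro hn
      obtain ⟨i1, i2⟩ := ih (by omega)
      set a := tau T N 0 t n with ha
      set c := tau T N 0 t (n + 1) with hc
      have hac : a ≤ c := hmono (Nat.le_succ n)
      have ha0 : 0 ≤ a := (htau n).1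
      have hcT : c ≤ T := (htau (n + 1)).2
      have hg' : MemLp (fun p : ℝ × Ω => Z n p.2 - g p.1 p.2) 2 (muT T P) :=
        ((hZ n).comp_snd _).sub hg
      have hd := drift_est (g := fun s ω => Z n ω - g s ω) ha0 hac hcT hg'
      have hae1 := fub_ae ha0 hac hcT hg
      have hae0 := fub_ae (a := 0) (t := a) le_rfl ha0 (htau n).2 hg
      have heq : (fun ω => psum (tau T N 0 t) (fun k => Z k ω) (n + 1)
          - ∫ s in (0 : ℝ)..c, g s ω) =ᵐ[P]
          fun ω => (psum (tau T N 0 t) (fun k => Z k ω) n - ∫ s in (0 : ℝ)..a, g s ω)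
            + ∫ s in a..c, (Z n ω - g s ω) := by
        filter_upwards [hae1, hae0] with ω h1 h0
        rw [intervalIntegral.integral_sub intervalIntegrable_const h1.1,
          intervalIntegral.integral_const,
          ← intervalIntegral.integral_add_adjacent_intervals h0.1 h1.1]
        unfold psum
        rw [Finset.sum_range_succ]
        abel
      have hq : sn P (fun ω => ∫ s in a..c, (Z n ω - g s ω)) ≤ (c - a) * η := by
        have h1 : ∫ s in a..c, qn P (fun ω => Z n ω - g s ω) ≤ η ^ 2 * (c - a) := by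
          have h2 : ∀ s ∈ uIoc a c, ‖qn P (fun ω => Z n ω - g s ω)‖ ≤ η ^ 2 := by
            intro s hs
            rw [uIoc_of_le hac] at hs
            rw [Real.norm_eq_abs, abs_of_nonneg (qn_nonneg _), ← sn_sq]
            exact pow_le_pow_left₀ (sn_nonneg _) (hb n (by omega) s hs) 2
          have h3 := intervalIntegral.norm_integral_le_of_norm_le_const h2
          rw [abs_of_nonneg (by linarith : 0 ≤ c - a)] at h3
          exact (Real.le_norm_self _).trans h3
        have h4 : qn P (fun ω => ∫ s in a..c, (Z n ω - g s ω)) ≤ ((c - a) * η) ^ 2 := by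
          refine hd.2.trans ?_
          have h5 := mul_le_mul_of_nonneg_left h1 (by linarith : 0 ≤ c - a)
          linarith
        unfold sn
        have h6 : 0 ≤ (c - a) * η := mul_nonneg (by linarith) hη
        rw [← Real.sqrt_sq h6]
        exact Real.sqrt_le_sqrt h4
      have hm : MemLp (fun ω => (psum (tau T N 0 t) (fun k => Z k ω) n
          - ∫ s in (0 : ℝ)..a, g s ω) + ∫ s in a..c, (Z n ω - g s ω)) 2 P := i1.add hd.1
      refine ⟨hm.ae_eq heq.symm, ?_⟩
      rw [sn_congr heq]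
      refine (sn_add_le i1 hd.1).trans ?_
      linarith
  have h := key N le_rfl
  rw [tau_self ht.1 ht.2 hNp] at h
  exact h

/-- a solution of `dy = A y dt + D y dB`, `y(0) = ξ`, in the mean square sense -/
structure LinSol (P : Measure Ω) (F : ℝ → MeasurableSpace Ω) (b : ℝ → Ω → ℝ) (T : ℝ)
    (A D : ℝ → E →L[ℝ] E) (ξ : E) (y : ℝ → Ω → E) : Prop where
  adp : Adp P F T y
  msc : MSC P T y
  joint : StronglyMeasurable (fun p : ℝ × Ω => y p.1 p.2)
  eq : ∃ I : ℝ → Ω → E, IsIto P b T (fun t ω => D t (y t ω)) I ∧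
    ∀ t ∈ Icc 0 T, ∀ᵐ ω ∂P, y t ω = ξ + (∫ s in (0 : ℝ)..t, A s (y s ω)) + I t ω
  euler : ∀ ε > 0, ∃ N0 : ℕ, 0 < N0 ∧ ∀ N, N0 ≤ N → ∀ t ∈ Icc 0 T,
    sn P (fun ω => yI b A D T N ξ t ω - y t ω) ≤ ε
  reg : ∃ C : ℝ, 0 ≤ C ∧ ∀ s ∈ Icc 0 T, ∀ t ∈ Icc 0 T,
    sn P (fun ω => y t ω - y s ω) ≤ Real.sqrt (C * |t - s|)

variable {A D : ℝ → E →L[ℝ] E}

lemma sn_yI (hN : Noise P F b) (hT : 0 < T) {K : ℝ} (hK : Coef T A D K) {N : ℕ} (hNp : 0 < N)
    {ξ : E} {s t : ℝ} (hs : s ∈ Icc 0 T) (ht : t ∈ Icc 0 T) :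
    sn P (fun ω => yI b A D T N ξ t ω - yI b A D T N ξ s ω)
      ≤ Real.sqrt (C1 T K ξ * |t - s|) := by
  rcases le_total s t with h | h
  · unfold sn
    rw [abs_of_nonneg (by linarith)]
    exact Real.sqrt_le_sqrt (yI_reg hN hT hK hNp hs.1 h ht.2)
  · rw [sn_sub_rev]
    unfold sn
    rw [abs_sub_comm, abs_of_nonneg (by linarith)]
    exact Real.sqrt_le_sqrt (yI_reg hN hT hK hNp ht.1 h hs.2)

theorem exists_linSol [CompleteSpace E] (hN : Noise P F b) (hJ : JM P b) (hT : 0 < T)
    (hcA : ContinuousOn A (Icc 0 T)) (hcD : ContinuousOn D (Icc 0 T)) (ξ : E) :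
    ∃ y : ℝ → Ω → E, LinSol P F b T A D ξ y := by
  obtain ⟨K1, hK1⟩ := isCompact_Icc.exists_bound_of_continuousOn (s := Icc (0 : ℝ) T) hcA
  obtain ⟨K2, hK2⟩ := isCompact_Icc.exists_bound_of_continuousOn (s := Icc (0 : ℝ) T) hcD
  have h00 : (0 : ℝ) ∈ Icc 0 T := ⟨le_rfl, hT.le⟩
  have hK10 : 0 ≤ K1 := (norm_nonneg _).trans (hK1 0 h00)
  set K := max K1 K2 with hKdef
  have hK : Coef T A D K := ⟨hK10.trans (le_max_left _ _),
    fun t ht => (hK1 t ht).trans (le_max_left _ _), fun t ht => (hK2 t ht).trans (le_max_right _ _)⟩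
  have hK0 := hK.nn
  obtain ⟨y, hy1, hy2, hy3⟩ := exists_limit hN hJ hT hK hcA hcD ξ
  have heul : ∀ ε > 0, ∃ N0 : ℕ, 0 < N0 ∧ ∀ N, N0 ≤ N → ∀ t ∈ Icc 0 T,
      sn P (fun ω => yI b A D T N ξ t ω - y t ω) ≤ ε := by
    intro ε hε
    obtain ⟨N0, h0, h⟩ := hy3 (ε ^ 2) (by positivity)
    refine ⟨N0, h0, fun N hNN t ht => ?_⟩
    have := Real.sqrt_le_sqrt (h N hNN t ht)
    rwa [Real.sqrt_sq hε.le] at this
  have hreg : ∀ s ∈ Icc 0 T, ∀ t ∈ Icc 0 T,
      sn P (fun ω => y t ω - y s ω) ≤ Real.sqrt (C1 T K ξ * |t - s|) := by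
    intro s hs t ht
    refine le_of_forall_pos_le_add fun ε hε => ?_
    obtain ⟨N0, h0, h⟩ := heul (ε / 2) (by positivity)
    have h1 := h N0 le_rfl t ht
    have h2 := h N0 le_rfl s hs
    have h3 := sn_yI (ξ := ξ) hN hT hK h0 hs ht
    have mt : MemLp (yI b A D T N0 ξ t) 2 P := yI_memLp hN hT ht.1
    have ms : MemLp (yI b A D T N0 ξ s) 2 P := yI_memLp hN hT hs.1
    have e : (fun ω => y t ω - y s ω) = fun ω => (y t ω - yI b A D T N0 ξ t ω)
        + ((yI b A D T N0 ξ t ω - yI b A D T N0 ξ s ω) + (yI b A D T N0 ξ s ω - y s ω)) := by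
      funext ω
      abel
    rw [e]
    refine (sn_add_le ((hy1 t ht).1.sub mt) ((mt.sub ms).add (ms.sub (hy1 s hs).1))).trans ?_
    have h4 := sn_add_le (mt.sub ms) (ms.sub (hy1 s hs).1)
    have h5 : sn P (y t - yI b A D T N0 ξ t) ≤ ε / 2 := by
      have : sn P (y t - yI b A D T N0 ξ t)
        = sn P (fun ω => yI b A D T N0 ξ t ω - y t ω) := sn_sub_rev _ _
      rw [this]
      exact h1
    have h6 : sn P (yI b A D T N0 ξ t - yI b A D T N0 ξ s)
      ≤ Real.sqrt (C1 T K ξ * |t - s|) := h3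
    have h7 : sn P (yI b A D T N0 ξ s - y s) ≤ ε / 2 := h2
    have h8 : sn P ((yI b A D T N0 ξ t - yI b A D T N0 ξ s) + (yI b A D T N0 ξ s - y s))
      ≤ sn P (yI b A D T N0 ξ t - yI b A D T N0 ξ s) + sn P (yI b A D T N0 ξ s - y s) := h4
    linarith
  have hC1 := C1_nonneg hT K ξ
  have hmsc : MSC P T y := by
    refine MSC.of_sn (fun t ht => (hy1 t ht).1) fun s hs => ?_
    have h1 : Tendsto (fun t => Real.sqrt (C1 T K ξ * |t - s|)) (𝓝[Icc 0 T] s) (𝓝 0) := by
      have hc : Continuous (fun t => Real.sqrt (C1 T K ξ * |t - s|)) := by fun_prop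
      have := hc.tendsto s
      simp only [sub_self, abs_zero, mul_zero, Real.sqrt_zero] at this
      exact this.mono_left nhdsWithin_le_nhds
    refine squeeze_zero' (Eventually.of_forall fun _ => sn_nonneg _) ?_ h1
    filter_upwards [self_mem_nhdsWithin] with t ht
    exact hreg s hs t ht
  have hadp : Adp P F T y := fun t ht => (hy1 t ht).2
  refine ⟨y, hadp, hmsc, hy2, ?_, heul, ⟨C1 T K ξ, hC1, hreg⟩⟩
  -- the equation
  have hgm : MSC P T (fun t ω => A t (y t ω)) := hmsc.clm hcA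
  have hgj : MemLp (fun p : ℝ × Ω => A p.1 (y p.1 p.2)) 2 (muT T P) :=
    hgm.joint (clm_joint hy2.aestronglyMeasurable hT.le hcA)
  have hDm : MSC P T (fun t ω => D t (y t ω)) := hmsc.clm hcD
  have hDa : Adp P F T (fun t ω => D t (y t ω)) := hadp.clm D
  refine ⟨fun t ω => y t ω - ξ - ∫ s in (0 : ℝ)..t, A s (y s ω), ?_, ?_⟩
  swap
  · intro t ht
    filter_upwards with ω
    abel
  intro t ht
  have hdr := drift_est (g := fun s ω => A s (y s ω)) le_rfl ht.1 ht.2 hgj
  have hIm : MemLp (fun ω => y t ω - ξ - ∫ s in (0 : ℝ)..t, A s (y s ω)) 2 P :=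
    ((hmsc.memLp t ht).sub (memLp_const ξ)).sub hdr.1
  refine ⟨hIm, ?_⟩
  have hlim : Tendsto (fun N : ℕ => sn P (fun ω => itoSum b T N t (fun t ω => D t (y t ω)) ω
      - (y t ω - ξ - ∫ s in (0 : ℝ)..t, A s (y s ω)))) atTop (𝓝 0) := by
    rw [Metric.tendsto_atTop]
    intro ε hε
    -- choose the parameters
    set q : ℝ := T * (Real.sqrt (M0 T K ξ) + K + K) + T * K + K + 1 with hq
    have hsM := Real.sqrt_nonneg (M0 T K ξ)
    have hq0 : 0 < q := by positivity
    set e : ℝ := ε / (4 * q) with he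
    have he0 : 0 < e := by positivity
    obtain ⟨N0, h0, hE⟩ := heul e he0
    obtain ⟨δ1, hδ1, hA⟩ := osc_of_cont hcA he0
    obtain ⟨n2, hn2⟩ := exists_nat_gt (T / δ1)
    obtain ⟨n3, hn3⟩ := exists_nat_gt (C1 T K ξ * T / e ^ 2)
    refine ⟨N0 + n2 + n3 + 1, fun N hNN => ?_⟩
    have hNp : 0 < N := by omega
    have hNr : (0 : ℝ) < N := Nat.cast_pos.2 hNp
    have hTN : T / N ≤ δ1 := by
      rw [div_le_iff₀ hNr]
      have h1 : (n2 : ℝ) ≤ N := Nat.cast_le.2 (by omega)
      rw [div_lt_iff₀ hδ1] at hn2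
      nlinarith
    have hCN : Real.sqrt (C1 T K ξ * (T / N)) ≤ e := by
      rw [Real.sqrt_le_left he0.le]
      have h1 : (n3 : ℝ) ≤ N := Nat.cast_le.2 (by omega)
      rw [div_lt_iff₀ (by positivity)] at hn3
      rw [← mul_div_assoc, div_le_iff₀ hNr]
      nlinarith [sq_nonneg e]
    have hEN := hE N (by omega)
    have hOsc := hA (T / N) hTN
    -- first bracket
    have m1 : MemLp (itoSum b T N t (fun t ω => D t (y t ω))) 2 P :=
      (itoSum_iso hN hT ht.1 hDm.memLp hDa).1
    set W : ℕ → Ω → E := fun k ω => gz T N (fun t ω => D t (y t ω)) k ω - eD b A D T N ξ k ω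
      with hW
    have hWm : ∀ k, MemLp (W k) 2 P := fun k =>
      ((gz_good (N := N) hN hT ht.1 hDm.memLp hDa).memLp k).sub (eD_memLp hN hT k)
    have hGW : Good P F (tau T N 0 t) W := by
      refine good_tau hN hT N le_rfl ht.1 hWm fun k => ?_
      have hgzm : AEStronglyMeasurable[F (gp T N k)] (gz T N (fun t ω => D t (y t ω)) k) P := by
        by_cases hk : k < N
        · rw [gz_eq N _ hk]
          exact hDa _ ⟨gp_nonneg hT N k, gp_le hT (by omega) hk.le⟩
        · simp only [gz, hk, if_false]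
          exact ⟨fun _ => 0, @stronglyMeasurable_const _ _ (F _) _ _, Filter.EventuallyEq.rfl⟩
      exact hgzm.sub (eD_meas hN hT k)
    have hbr1 := iso_aux hN hGW N
    have hWk : ∀ k < N, qn P (W k) ≤ (K * e) ^ 2 := by
      intro k hk
      have hkI : gp T N k ∈ Icc 0 T := ⟨gp_nonneg hT N k, gp_le hT hNp hk.le⟩
      have e1 : W k = fun ω => D (gp T N k) (y (gp T N k) ω - yI b A D T N ξ (gp T N k) ω) := by
        funext ω
        simp only [hW]
        rw [gz_eq N _ hk, yI_gp hT hk.le, map_sub]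
        rfl
      have m2 : MemLp (yI b A D T N ξ (gp T N k)) 2 P := yI_memLp hN hT hkI.1
      have h1 := sn_clm_le (P := P) (D (gp T N k)) (hK.hD _ hkI) ((hmsc.memLp _ hkI).sub m2)
      have h2 : sn P (y (gp T N k) - yI b A D T N ξ (gp T N k)) ≤ e := by
        have : sn P (y (gp T N k) - yI b A D T N ξ (gp T N k))
          = sn P (fun ω => yI b A D T N ξ (gp T N k) ω - y (gp T N k) ω) := sn_sub_rev _ _
        rw [this]
        exact hEN _ hkI
      rw [← sn_sq, e1]
      refine pow_le_pow_left₀ (sn_nonneg _) ?_ 2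
      exact h1.trans (mul_le_mul_of_nonneg_left h2 hK0)
    have hb1 : sn P (esum b (tau T N 0 t) W N) ≤ (T + 1) * (K * e) := by
      have h1 : qn P (esum b (tau T N 0 t) W N) ≤ T * (K * e) ^ 2 := by
        have h2 : qn P (esum b (tau T N 0 t) W N) = _ := hbr1.2.2
        rw [h2]
        have h3 : ∑ k ∈ Finset.range N, (tau T N 0 t (k + 1) - tau T N 0 t k)
            * ∫ ω, ‖W k ω‖ ^ 2 ∂P
            ≤ ∑ k ∈ Finset.range N, (tau T N 0 t (k + 1) - tau T N 0 t k) * (K * e) ^ 2 :=
          Finset.sum_le_sum fun k hk => mul_le_mul_of_nonneg_left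
            (hWk k (Finset.mem_range.1 hk)) (by linarith [tau_mono hT N 0 t (Nat.le_succ k)])
        refine h3.trans ?_
        rw [← Finset.sum_mul, Finset.sum_range_sub, tau_zero le_rfl ht.1,
          tau_self ht.1 ht.2 hNp, sub_zero]
        exact mul_le_mul_of_nonneg_right ht.2 (sq_nonneg _)
      have h4 : T * (K * e) ^ 2 ≤ ((T + 1) * (K * e)) ^ 2 := by
        have h5 : 0 ≤ (K * e) ^ 2 := sq_nonneg _
        nlinarith
      have h6 : 0 ≤ (T + 1) * (K * e) := by positivity
      unfold sn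
      rw [← Real.sqrt_sq h6]
      exact Real.sqrt_le_sqrt (h1.trans h4)
    -- drift bracket
    have hdrift := drift_riemann (η := e * Real.sqrt (M0 T K ξ) + K * (e + e)) hT hgj
      (fun k => eA_memLp (A := A) (D := D) (N := N) (ξ := ξ) hN hT k) ht hNp (by positivity)
      (by
        intro k hk s hs
        have hkI : gp T N k ∈ Icc 0 T := ⟨gp_nonneg hT N k, gp_le hT hNp hk.le⟩
        have hsT : s ∈ Icc 0 T := ⟨(tau_nonneg le_rfl N t k).trans hs.1.le,
          hs.2.trans ((max_le ht.1 (min_le_right _ _)).trans ht.2)⟩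
        have hgs : |gp T N k - s| ≤ T / N := by
          rcases le_total t (gp T N k) with h | h
          · exfalso
            have a1 : tau T N 0 t k = t := by
              unfold tau
              rw [min_eq_right h, max_eq_right ht.1]
            have a2 : tau T N 0 t (k + 1) ≤ t := max_le ht.1 (min_le_right _ _)
            linarith [hs.1, hs.2]
          · have a1 : tau T N 0 t k = gp T N k := by
              unfold tau
              rw [min_eq_left h, max_eq_right (gp_nonneg hT N k)]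
            have a2 : tau T N 0 t (k + 1) ≤ gp T N (k + 1) := by
              unfold tau
              exact max_le (gp_nonneg hT N _) (min_le_left _ _)
            rw [gp_succ] at a2
            rw [abs_sub_comm, abs_of_nonneg (by linarith [hs.1])]
            linarith [hs.2]
        have m2 : MemLp (yI b A D T N ξ (gp T N k)) 2 P := yI_memLp hN hT hkI.1
        have ms := hmsc.memLp s hsT
        have mk := hmsc.memLp _ hkI
        have e1 : (fun ω => eA b A D T N ξ k ω - A s (y s ω))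
            = fun ω => (A (gp T N k) - A s) (yI b A D T N ξ (gp T N k) ω)
              + A s (yI b A D T N ξ (gp T N k) ω - y s ω) := by
          funext ω
          unfold eA
          rw [← yI_gp hT hk.le]
          simp only [ContinuousLinearMap.sub_apply, map_sub]
          abel
        rw [e1]
        refine (sn_add_le (memLp_clm (A (gp T N k) - A s) m2) (memLp_clm (A s) (m2.sub ms))).trans ?_
        have b1 := sn_clm_le (P := P) (A (gp T N k) - A s) (hOsc _ hkI _ hsT hgs) m2
        have b2 := sn_clm_le (P := P) (A s) (hK.hA s hsT) (m2.sub ms)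
        have b3 : sn P (yI b A D T N ξ (gp T N k)) ≤ Real.sqrt (M0 T K ξ) := by
          unfold sn
          rw [yI_gp hT hk.le]
          exact Real.sqrt_le_sqrt (eul_bound hN hT hK hNp hk.le)
        have b4 : sn P (yI b A D T N ξ (gp T N k) - y s) ≤ e + e := by
          have e2 : (yI b A D T N ξ (gp T N k) - y s)
              = fun ω => (yI b A D T N ξ (gp T N k) ω - y (gp T N k) ω)
                + (y (gp T N k) ω - y s ω) := by
            funext ω
            simp only [Pi.sub_apply]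
            abel
          rw [e2]
          refine (sn_add_le (m2.sub mk) (mk.sub ms)).trans ?_
          have b5 : sn P (yI b A D T N ξ (gp T N k) - y (gp T N k)) ≤ e := hEN _ hkI
          have b6 : sn P (y (gp T N k) - y s) ≤ e := by
            refine (hreg s hsT _ hkI).trans (le_trans (Real.sqrt_le_sqrt ?_) hCN)
            exact mul_le_mul_of_nonneg_left hgs hC1
          linarith
        have b7 := mul_le_mul_of_nonneg_left b3 he0.le
        have b8 := mul_le_mul_of_nonneg_left b4 hK0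
        have b9 : sn P (fun ω => A s (yI b A D T N ξ (gp T N k) ω - y s ω))
          ≤ K * sn P (yI b A D T N ξ (gp T N k) - y s) := b2
        have b10 : sn P (fun ω => A s ((yI b A D T N ξ (gp T N k) - y s) ω))
          ≤ K * sn P (yI b A D T N ξ (gp T N k) - y s) := b2
        linarith)
    -- assembly
    have mY : MemLp (yI b A D T N ξ t) 2 P := yI_memLp hN hT ht.1
    have my := hmsc.memLp t ht
    have hsplit : (fun ω => itoSum b T N t (fun t ω => D t (y t ω)) ω
        - (y t ω - ξ - ∫ s in (0 : ℝ)..t, A s (y s ω)))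
        = fun ω => esum b (tau T N 0 t) W N ω + ((yI b A D T N ξ t ω - y t ω)
          - (psum (tau T N 0 t) (fun k => eA b A D T N ξ k ω) N
            - ∫ s in (0 : ℝ)..t, A s (y s ω))) := by
      funext ω
      have h1 : esum b (tau T N 0 t) W N ω = esum b (tau T N 0 t)
          (gz T N (fun t ω => D t (y t ω))) N ω - esum b (tau T N 0 t) (eD b A D T N ξ) N ω :=
        (psum_sub_left (fun k => b (tau T N 0 t k) ω)
          (fun k => gz T N (fun t ω => D t (y t ω)) k ω) (fun k => eD b A D T N ξ k ω) N).symm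
      rw [h1, itoSum_eq hT ht.1 (fun k hk => gz_eq N (fun t ω => D t (y t ω)) hk)]
      unfold yI
      abel
    rw [Real.dist_eq, sub_zero, abs_of_nonneg (sn_nonneg _), hsplit]
    have h1 := sn_add_le hbr1.1 ((mY.sub my).sub hdrift.1)
    have h2 : sn P ((yI b A D T N ξ t - y t) - (fun ω =>
        psum (tau T N 0 t) (fun k => eA b A D T N ξ k ω) N - ∫ s in (0 : ℝ)..t, A s (y s ω)))
        ≤ sn P (yI b A D T N ξ t - y t) + sn P (fun ω =>
        psum (tau T N 0 t) (fun k => eA b A D T N ξ k ω) N - ∫ s in (0 : ℝ)..t, A s (y s ω)) := by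
      have h3 := sn_add_le (mY.sub my) hdrift.1.neg
      have h4 : sn P (-(fun ω => psum (tau T N 0 t) (fun k => eA b A D T N ξ k ω) N
          - ∫ s in (0 : ℝ)..t, A s (y s ω))) = sn P (fun ω =>
          psum (tau T N 0 t) (fun k => eA b A D T N ξ k ω) N
            - ∫ s in (0 : ℝ)..t, A s (y s ω)) := by
        unfold sn
        congr 1
        exact qn_neg _
      rw [h4] at h3
      refine le_trans (le_of_eq ?_) h3
      refine sn_congr (Eventually.of_forall fun ω => ?_)
      simp only [Pi.sub_apply, Pi.neg_apply]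
      abel
    have h5 : sn P (yI b A D T N ξ t - y t) ≤ e := hEN t ht
    have h6 := hdrift.2
    have h7 : t * (e * Real.sqrt (M0 T K ξ) + K * (e + e))
        ≤ T * (e * Real.sqrt (M0 T K ξ) + K * (e + e)) := by
      have : 0 ≤ e * Real.sqrt (M0 T K ξ) + K * (e + e) := by positivity
      exact mul_le_mul_of_nonneg_right ht.2 this
    have h8 : (T + 1) * (K * e) + (e + T * (e * Real.sqrt (M0 T K ξ) + K * (e + e))) = q * e := by
      rw [hq]; ring
    have h9 : q * e = ε / 4 := by
      rw [he]; field_simp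
    refine lt_of_le_of_lt h1 ?_
    linarith
  have h8 := ENNReal.tendsto_ofReal hlim
  rw [ENNReal.ofReal_zero] at h8
  refine h8.congr fun N => ?_
  exact (eLpNorm_eq_qn ((itoSum_iso hN hT ht.1 hDm.memLp hDa).1.sub hIm)).symm

end Pool.Agent.ACF
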