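import Pool.Agent.ACF.Iso

set_option autoImplicit false
set_option linter.unusedSectionVars false
open MeasureTheory ProbabilityTheory Set Filter Topology
open scoped NNReal ENNReal

namespace Pool.Agent.ACF

variable {E : Type*} [NormedAddCommGroup E] [InnerProductSpace ℝ E]

/-- left Riemann sum of `z` against the real sequence `g` -/
def psum (g : ℕ → ℝ) (z : ℕ → E) (n : ℕ) : E :=
  ∑ k ∈ Finset.range n, (g (k + 1) - g k) • z k

lemma psum_refine (g : ℕ → ℝ) (z : ℕ → E) (N M : ℕ) (hM : 0 < M) :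
    psum g (fun i => z (i / M)) (N * M) = psum (fun k => g (k * M)) z N := by
  induction N with
  | zero => simp [psum]
  | succ N ih =>
    have h1 : (N + 1) * M = N * M + M := by ring
    rw [h1]
    unfold psum at ih ⊢
    rw [Finset.sum_range_add, ih, Finset.sum_range_succ]
    congr 1
    have h2 : ∀ r ∈ Finset.range M, (g (N * M + r + 1) - g (N * M + r)) • z ((N * M + r) / M)
        = (g (N * M + (r + 1)) - g (N * M + r)) • z N := by
      intro r hr
      have h3 : (N * M + r) / M = N := by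
        rw [Nat.mul_comm N M, Nat.mul_add_div hM, Nat.div_eq_of_lt (Finset.mem_range.1 hr)]
        rfl
      rw [h3]
      rfl
    rw [Finset.sum_congr rfl h2, ← Finset.sum_smul,
      Finset.sum_range_sub (fun r => g (N * M + r)), add_zero]
    simp only [h1]

lemma psum_trunc (g g' : ℕ → ℝ) (z : ℕ → E) {n N : ℕ} (hn : n ≤ N)
    (h1 : ∀ k, k ≤ n → g k = g' k) (h2 : ∀ k, n ≤ k → g k = g' n) :
    psum g z N = psum g' z n := by
  unfold psum
  rw [← Finset.sum_range_add_sum_Ico _ hn]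
  have h3 : ∑ k ∈ Finset.Ico n N, (g (k + 1) - g k) • z k = 0 := by
    refine Finset.sum_eq_zero fun k hk => ?_
    have hk' := (Finset.mem_Ico.1 hk).1
    rw [h2 k hk', h2 (k + 1) (by omega), sub_self, zero_smul]
  rw [h3, add_zero]
  refine Finset.sum_congr rfl fun k hk => ?_
  have hk' := Finset.mem_range.1 hk
  rw [h1 k (by omega), h1 (k + 1) (by omega)]

lemma psum_sub_left (g : ℕ → ℝ) (z w : ℕ → E) (n : ℕ) :
    psum g z n - psum g w n = psum g (fun k => z k - w k) n := by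
  unfold psum
  rw [← Finset.sum_sub_distrib]
  simp_rw [smul_sub]

lemma psum_sub_right (g h : ℕ → ℝ) (z : ℕ → E) (n : ℕ) :
    psum g z n - psum h z n = psum (fun k => g k - h k) z n := by
  unfold psum
  rw [← Finset.sum_sub_distrib]
  refine Finset.sum_congr rfl fun k _ => ?_
  rw [← sub_smul]
  congr 1
  ring

lemma psum_norm_sq (g : ℕ → ℝ) (hg : ∀ k, g k ≤ g (k + 1)) (z : ℕ → E) (n : ℕ) :
    ‖psum g z n‖ ^ 2 ≤ (g n - g 0) * ∑ k ∈ Finset.range n, (g (k + 1) - g k) * ‖z k‖ ^ 2 := by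
  have h1 : ‖psum g z n‖ ≤ ∑ k ∈ Finset.range n, (g (k + 1) - g k) * ‖z k‖ := by
    refine (norm_sum_le _ _).trans (Finset.sum_le_sum fun k _ => ?_)
    rw [norm_smul, Real.norm_eq_abs, abs_of_nonneg (by linarith [hg k])]
  have h2 : (∑ k ∈ Finset.range n, (g (k + 1) - g k) * ‖z k‖) ^ 2
      ≤ (∑ k ∈ Finset.range n, (g (k + 1) - g k)) *
        ∑ k ∈ Finset.range n, (g (k + 1) - g k) * ‖z k‖ ^ 2 := by
    refine Finset.sum_sq_le_sum_mul_sum_of_sq_le_mul _ (fun k _ => by linarith [hg k])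
      (fun k _ => mul_nonneg (by linarith [hg k]) (sq_nonneg _)) fun k _ => le_of_eq ?_
    ring
  rw [Finset.sum_range_sub] at h2
  exact (pow_le_pow_left₀ (norm_nonneg _) h1 2).trans h2

/-- grid points -/
noncomputable def gp (T : ℝ) (N k : ℕ) : ℝ := T * k / N

/-- grid points clamped to `[s,t]` -/
noncomputable def tau (T : ℝ) (N : ℕ) (s t : ℝ) (k : ℕ) : ℝ := max s (min (gp T N k) t)

variable {T : ℝ}

lemma gp_nonneg (hT : 0 < T) (N k : ℕ) : 0 ≤ gp T N k := by
  unfold gp; positivity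

lemma gp_zero (N : ℕ) : gp T N 0 = 0 := by simp [gp]

lemma gp_self {N : ℕ} (hN : 0 < N) : gp T N N = T := by
  unfold gp
  have : (N : ℝ) ≠ 0 := by positivity
  field_simp

lemma gp_succ (N k : ℕ) : gp T N (k + 1) = gp T N k + T / N := by
  unfold gp; push_cast; ring

lemma gp_mono (hT : 0 < T) (N : ℕ) : Monotone (gp T N) := by
  intro a c hac
  unfold gp
  have : (a : ℝ) ≤ c := Nat.cast_le.2 hac
  gcongr

lemma gp_le (hT : 0 < T) {N k : ℕ} (hN : 0 < N) (hk : k ≤ N) : gp T N k ≤ T := by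
  have := gp_mono hT N hk
  rwa [gp_self hN] at this

lemma gp_mul (N M k : ℕ) (hM : 0 < M) : gp T (N * M) (k * M) = gp T N k := by
  unfold gp
  have : (M : ℝ) ≠ 0 := by positivity
  push_cast
  rw [← mul_assoc, mul_div_mul_right _ _ this]

lemma tau_mono (hT : 0 < T) (N : ℕ) (s t : ℝ) : Monotone (tau T N s t) := by
  intro a c hac
  unfold tau
  have := gp_mono hT N hac
  gcongr

lemma tau_nonneg {s : ℝ} (hs : 0 ≤ s) (N : ℕ) (t : ℝ) (k : ℕ) : 0 ≤ tau T N s t k :=
  hs.trans (le_max_left _ _)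

lemma tau_zero {s t : ℝ} (hs : 0 ≤ s) (hst : s ≤ t) (N : ℕ) : tau T N s t 0 = s := by
  unfold tau
  rw [gp_zero, min_eq_left (hs.trans hst), max_eq_left hs]

lemma tau_self {s t : ℝ} (hst : s ≤ t) (htT : t ≤ T) {N : ℕ} (hN : 0 < N) :
    tau T N s t N = t := by
  unfold tau
  rw [gp_self hN, min_eq_right htT, max_eq_right hst]

lemma tau_mul (N M k : ℕ) (hM : 0 < M) (s t : ℝ) :
    tau T (N * M) s t (k * M) = tau T N s t k := by
  unfold tau
  rw [gp_mul N M k hM]

lemma tau_sub (hT : 0 < T) (N : ℕ) (s t : ℝ) (k : ℕ) :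
    tau T N s t (k + 1) - tau T N s t k ≤ T / N := by
  unfold tau
  have h := gp_succ (T := T) N k
  have h0 : 0 ≤ T / N := by positivity
  rcases le_total (gp T N (k+1)) t with h1 | h1 <;> rcases le_total (gp T N k) t with h2 | h2 <;>
    simp only [h1, h2, min_eq_left, min_eq_right] <;>
    rcases le_total s (gp T N (k+1)) with h3 | h3 <;> rcases le_total s (gp T N k) with h4 | h4 <;>
    rcases le_total s t with h5 | h5 <;>
    simp only [h3, h4, h5, max_eq_left, max_eq_right] <;> linarith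

lemma tau_gp (hT : 0 < T) {N n k : ℕ} (h : k ≤ n) : tau T N 0 (gp T N n) k = gp T N k := by
  unfold tau
  rw [min_eq_left (gp_mono hT N h), max_eq_right (gp_nonneg hT N k)]

lemma tau_gp' (hT : 0 < T) {N n k : ℕ} (h : n ≤ k) : tau T N 0 (gp T N n) k = gp T N n := by
  unfold tau
  rw [min_eq_right (gp_mono hT N h), max_eq_right (gp_nonneg hT N n)]

variable {Ω : Type*} {mΩ : MeasurableSpace Ω} {P : Measure Ω} [IsProbabilityMeasure P]
  {F : ℝ → MeasurableSpace Ω} {b : ℝ → Ω → ℝ}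

lemma good_tau (hN : Noise P F b) (hT : 0 < T) (N : ℕ) {s t : ℝ} (hs : 0 ≤ s) (hst : s ≤ t)
    {Z : ℕ → Ω → E} (hZ : ∀ k, MemLp (Z k) 2 P)
    (hZm : ∀ k, AEStronglyMeasurable[F (gp T N k)] (Z k) P) :
    Good P F (tau T N s t) Z where
  nonneg := tau_nonneg hs N t
  mono k := tau_mono hT N s t (Nat.le_succ k)
  memLp := hZ
  meas k := by
    rcases le_total (gp T N k) t with h | h
    · right
      have h1 : gp T N k ≤ tau T N s t k := by
        unfold tau
        rw [min_eq_left h]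
        exact le_max_right _ _
      exact (hZm k).mono (hN.mono _ _ h1)
    · left
      have h2 : t ≤ gp T N (k + 1) := h.trans (gp_mono hT N (Nat.le_succ k))
      unfold tau
      rw [min_eq_right h, min_eq_right h2]

lemma good_gp (hN : Noise P F b) (hT : 0 < T) (N : ℕ)
    {Z : ℕ → Ω → E} (hZ : ∀ k, MemLp (Z k) 2 P)
    (hZm : ∀ k, AEStronglyMeasurable[F (gp T N k)] (Z k) P) :
    Good P F (gp T N) Z where
  nonneg := gp_nonneg hT N
  mono k := gp_mono hT N (Nat.le_succ k)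
  memLp := hZ
  meas k := Or.inr (hZm k)

end Pool.Agent.ACF
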