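import Pool.Agent.ACF.Chain

set_option autoImplicit false
set_option linter.unusedSectionVars false
open MeasureTheory ProbabilityTheory Set Filter Topology Module
open scoped NNReal ENNReal

namespace Pool.Agent.ACF

variable {Ω : Type*} {mΩ : MeasurableSpace Ω} {P : Measure Ω}

/-- tails of a centred Gaussian law -/
lemma gauss_tail {η : ℝ} (hη : 0 < η) : ∃ C : ℝ, 0 ≤ C ∧ ∀ v : ℝ≥0,
    (gaussianReal 0 v).real {x | η < |x|} ≤ C * (v : ℝ) ^ 2 := by
  set M := ∫ z, z ^ 4 ∂(gaussianReal 0 1) with hM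
  have hM0 : 0 ≤ M := integral_nonneg fun z => by positivity
  have hint : Integrable (fun z : ℝ => z ^ 4) (gaussianReal 0 1) := by
    have h1 : MemLp id 4 (gaussianReal 0 1) := memLp_id_gaussianReal (μ := 0) (v := 1) 4
    have h2 := h1.integrable_norm_pow (by norm_num)
    refine h2.congr (Eventually.of_forall fun z => ?_)
    simp only [id, Real.norm_eq_abs]
    exact Even.pow_abs (by decide) z
  refine ⟨M / η ^ 4, by positivity, fun v => ?_⟩
  have hv0 : (0 : ℝ) ≤ v := v.2
  have e1 : (gaussianReal 0 1).map (fun z => Real.sqrt v * z) = gaussianReal 0 v := by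
    rw [gaussianReal_map_const_mul]
    congr 1
    · simp
    · rw [mul_one]
      ext
      simp [Real.sq_sqrt hv0]
  have hms : MeasurableSet {x : ℝ | η < |x|} := measurableSet_lt measurable_const (by fun_prop)
  have e2 : (gaussianReal 0 v).real {x | η < |x|}
      = (gaussianReal 0 1).real {z | η < |Real.sqrt v * z|} := by
    rw [← e1, measureReal_def, Measure.map_apply (by fun_prop) hms]
    rfl
  rw [e2]
  have h1 := mul_meas_ge_le_integral_of_nonneg (μ := gaussianReal 0 1)
    (f := fun z => (v : ℝ) ^ 2 * z ^ 4) (Eventually.of_forall fun z => by positivity)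
    (hint.const_mul _) (η ^ 4)
  rw [integral_const_mul, ← hM] at h1
  have h2 : (gaussianReal 0 1).real {z | η < |Real.sqrt v * z|}
      ≤ (gaussianReal 0 1).real {z | η ^ 4 ≤ (v : ℝ) ^ 2 * z ^ 4} := by
    refine measureReal_mono (fun z hz => ?_) (measure_ne_top _ _)
    change η < |Real.sqrt v * z| at hz
    change η ^ 4 ≤ (v : ℝ) ^ 2 * z ^ 4
    have h3 := pow_le_pow_left₀ hη.le hz.le 4
    have h4 : |Real.sqrt v * z| ^ 4 = (v : ℝ) ^ 2 * z ^ 4 := by
      rw [Even.pow_abs (by decide), mul_pow]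
      congr 1
      have : Real.sqrt v ^ 4 = (Real.sqrt v ^ 2) ^ 2 := by ring
      rw [this, Real.sq_sqrt hv0]
    rwa [h4] at h3
  refine h2.trans ?_
  rw [div_mul_eq_mul_div, le_div_iff₀ (by positivity)]
  linarith

/-- the increments of a Brownian motion are symmetric with small tails -/
lemma sym_of_brownian {B : ℝ≥0 → Ω → ℝ} (hB : IsPreBrownianReal B P) :
    SymNoise P (fun t => B t.toNNReal) where
  symm s t hs hst φ hφ := by
    have h1 := hB.hasLaw_sub t.toNNReal s.toNNReal
    have hm : AEMeasurable (fun ω => B t.toNNReal ω - B s.toNNReal ω) P := h1.aemeasurable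
    have e0 : P.map (fun ω => B t.toNNReal ω - B s.toNNReal ω)
        = gaussianReal 0 (nndist (t.toNNReal : ℝ) (s.toNNReal : ℝ)) := h1.map_eq
    have e1 : ∫⁻ ω, φ (B t.toNNReal ω - B s.toNNReal ω) ∂P
        = ∫⁻ x, φ x ∂(gaussianReal 0 (nndist (t.toNNReal : ℝ) (s.toNNReal : ℝ))) := by
      rw [← e0, lintegral_map' hφ.aemeasurable hm]
    have e2 : ∫⁻ ω, φ (-(B t.toNNReal ω - B s.toNNReal ω)) ∂P
        = ∫⁻ x, φ (-x) ∂(gaussianReal 0 (nndist (t.toNNReal : ℝ) (s.toNNReal : ℝ))) := by
      rw [← e0, lintegral_map' (f := fun x => φ (-x)) (hφ.comp measurable_neg).aemeasurable hm]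
    have e3 : ∫⁻ x, φ x ∂((gaussianReal 0 (nndist (t.toNNReal : ℝ) (s.toNNReal : ℝ))).map
        (fun x => -x)) = ∫⁻ x, φ (-x) ∂(gaussianReal 0
          (nndist (t.toNNReal : ℝ) (s.toNNReal : ℝ))) :=
      lintegral_map hφ measurable_neg
    rw [gaussianReal_map_neg, neg_zero] at e3
    rw [e1, e2, ← e3]
  tail η hη := by
    obtain ⟨C, hC0, hC⟩ := gauss_tail hη
    refine ⟨C, hC0, fun s t hs hst => ?_⟩
    have h1 := hB.hasLaw_sub t.toNNReal s.toNNReal
    have hms : MeasurableSet {x : ℝ | η < |x|} := measurableSet_lt measurable_const (by fun_prop)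
    have e1 := h1.measure_eq (p := fun x => η < |x|) hms
    have h2 := hC (nndist (t.toNNReal : ℝ) (s.toNNReal : ℝ))
    have h4 : ((nndist (t.toNNReal : ℝ) (s.toNNReal : ℝ) : ℝ≥0) : ℝ) = t - s := by
      rw [coe_nndist, Real.coe_toNNReal _ (hs.trans hst), Real.coe_toNNReal _ hs, Real.dist_eq,
        abs_of_nonneg (by linarith)]
    rw [h4] at h2
    have e2 : P.real {ω | η < |B t.toNNReal ω - B s.toNNReal ω|}
        = (gaussianReal 0 (nndist (t.toNNReal : ℝ) (s.toNNReal : ℝ))).real {x | η < |x|} := by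
      rw [measureReal_def, measureReal_def]
      exact congrArg ENNReal.toReal e1
    rw [e2]
    exact h2

end Pool.Agent.ACF
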