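import Pool.Agent.ACF.Limit

set_option autoImplicit false
set_option linter.unusedSectionVars false
open MeasureTheory ProbabilityTheory Set Filter Topology
open scoped NNReal ENNReal

namespace Pool.Agent.ACF

variable {E : Type*} [NormedAddCommGroup E] [InnerProductSpace ℝ E]
variable {Ω : Type*} {mΩ : MeasurableSpace Ω} {P : Measure Ω} [IsProbabilityMeasure P]

/-- Cauchy-Schwarz in time -/
lemma cs_time {f : ℝ → E} {a t : ℝ} (ht : a ≤ t) (hf : IntervalIntegrable f volume a t)
    (hf2 : IntervalIntegrable (fun s => ‖f s‖ ^ 2) volume a t) :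
    ‖∫ s in a..t, f s‖ ^ 2 ≤ (t - a) * ∫ s in a..t, ‖f s‖ ^ 2 := by
  rcases eq_or_lt_of_le ht with h0 | hpos
  · rw [← h0]; simp
  have h1 : ‖∫ s in a..t, f s‖ ≤ ∫ s in a..t, ‖f s‖ :=
    intervalIntegral.norm_integral_le_integral_norm ht
  set I := ∫ s in a..t, ‖f s‖ with hI
  have hn : IntervalIntegrable (fun s => ‖f s‖) volume a t := hf.norm
  set c := I / (t - a) with hc
  have hta : 0 < t - a := by linarith
  have h2 : 0 ≤ ∫ s in a..t, (‖f s‖ - c) ^ 2 :=
    intervalIntegral.integral_nonneg ht fun s _ => sq_nonneg _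
  have h3 : ∫ s in a..t, (‖f s‖ - c) ^ 2
      = (∫ s in a..t, ‖f s‖ ^ 2) - 2 * c * I + c ^ 2 * (t - a) := by
    have e : ∀ s, (‖f s‖ - c) ^ 2 = ‖f s‖ ^ 2 - 2 * c * ‖f s‖ + c ^ 2 := fun s => by ring
    simp_rw [e]
    rw [intervalIntegral.integral_add (hf2.sub (hn.const_mul _)) intervalIntegrable_const,
      intervalIntegral.integral_sub hf2 (hn.const_mul _), intervalIntegral.integral_const_mul,
      intervalIntegral.integral_const]
    simp only [smul_eq_mul]
    ring
  have h4 : c * (t - a) = I := by rw [hc]; field_simp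
  have h5 : I ^ 2 ≤ (t - a) * ∫ s in a..t, ‖f s‖ ^ 2 := by
    rw [h3] at h2
    nlinarith
  exact (pow_le_pow_left₀ (norm_nonneg _) h1 2).trans h5

/-- the product measure on `[0,T]` times the probability space -/
noncomputable def muT (T : ℝ) (P : Measure Ω) : Measure (ℝ × Ω) :=
  (volume.restrict (Icc 0 T)).prod P

instance (T : ℝ) : IsFiniteMeasure (muT T P) := by
  unfold muT
  infer_instance

lemma muT_mono {T a t : ℝ} (ha : 0 ≤ a) (htT : t ≤ T) :
    (volume.restrict (Ioc a t)).prod P ≤ muT T P := by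
  unfold muT
  have hsub : Ioc (a : ℝ) t ⊆ Icc 0 T := fun s hs => ⟨ha.trans hs.1.le, hs.2.trans htT⟩
  have e1 : (volume.restrict (Ioc (a : ℝ) t)).prod P
      = (volume.prod P).restrict (Ioc a t ×ˢ univ) := by
    rw [← Measure.prod_restrict, Measure.restrict_univ]
  have e2 : (volume.restrict (Icc (0 : ℝ) T)).prod P
      = (volume.prod P).restrict (Icc 0 T ×ˢ univ) := by
    rw [← Measure.prod_restrict, Measure.restrict_univ]
  rw [e1, e2]
  exact Measure.restrict_mono (Set.prod_mono hsub subset_rfl) le_rfl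

section fub

variable {T a t : ℝ} {g : ℝ → Ω → E} (ha : 0 ≤ a) (ht : a ≤ t) (htT : t ≤ T)
  (hg : MemLp (fun p : ℝ × Ω => g p.1 p.2) 2 (muT T P))
include ha ht htT hg

lemma fub_ae : ∀ᵐ ω ∂P, IntervalIntegrable (fun s => g s ω) volume a t ∧
    IntervalIntegrable (fun s => ‖g s ω‖ ^ 2) volume a t := by
  have hg' := hg.mono_measure (muT_mono (P := P) ha htT)
  have i1 : Integrable (fun p : ℝ × Ω => g p.1 p.2) ((volume.restrict (Ioc a t)).prod P) :=
    hg'.integrable (by norm_num)
  have i2 : Integrable (fun p : ℝ × Ω => ‖g p.1 p.2‖ ^ 2) ((volume.restrict (Ioc a t)).prod P) :=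
    (memLp_two_iff_integrable_sq_norm hg'.1).1 hg'
  filter_upwards [i1.prod_left_ae, i2.prod_left_ae] with ω h1 h2
  constructor
  · rw [intervalIntegrable_iff_integrableOn_Ioc_of_le ht]
    exact h1
  · rw [intervalIntegrable_iff_integrableOn_Ioc_of_le ht]
    exact h2

lemma fub_swap : ∫ ω, (∫ s in a..t, ‖g s ω‖ ^ 2) ∂P = ∫ s in a..t, qn P (g s) := by
  have hg' := hg.mono_measure (muT_mono (P := P) ha htT)
  have i2 : Integrable (fun p : ℝ × Ω => ‖g p.1 p.2‖ ^ 2) ((volume.restrict (Ioc a t)).prod P) :=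
    (memLp_two_iff_integrable_sq_norm hg'.1).1 hg'
  rw [intervalIntegral.integral_of_le ht]
  simp_rw [intervalIntegral.integral_of_le ht]
  unfold qn
  exact (integral_integral_swap i2).symm

lemma fub_int : Integrable (fun ω => ∫ s in a..t, ‖g s ω‖ ^ 2) P := by
  have hg' := hg.mono_measure (muT_mono (P := P) ha htT)
  have i2 : Integrable (fun p : ℝ × Ω => ‖g p.1 p.2‖ ^ 2) ((volume.restrict (Ioc a t)).prod P) :=
    (memLp_two_iff_integrable_sq_norm hg'.1).1 hg'
  simp_rw [intervalIntegral.integral_of_le ht]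
  exact i2.integral_prod_right

lemma fub_qint : IntervalIntegrable (fun s => qn P (g s)) volume a t := by
  have hg' := hg.mono_measure (muT_mono (P := P) ha htT)
  have i2 : Integrable (fun p : ℝ × Ω => ‖g p.1 p.2‖ ^ 2) ((volume.restrict (Ioc a t)).prod P) :=
    (memLp_two_iff_integrable_sq_norm hg'.1).1 hg'
  rw [intervalIntegrable_iff_integrableOn_Ioc_of_le ht]
  exact i2.integral_prod_left

lemma fub_meas : AEStronglyMeasurable (fun ω => ∫ s in a..t, g s ω) P := by
  have hg' := hg.mono_measure (muT_mono (P := P) ha htT)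
  have i1 : Integrable (fun p : ℝ × Ω => g p.1 p.2) ((volume.restrict (Ioc a t)).prod P) :=
    hg'.integrable (by norm_num)
  simp_rw [intervalIntegral.integral_of_le ht]
  exact i1.integral_prod_right.1

/-- the drift estimate -/
lemma drift_est : MemLp (fun ω => ∫ s in a..t, g s ω) 2 P ∧
    qn P (fun ω => ∫ s in a..t, g s ω) ≤ (t - a) * ∫ s in a..t, qn P (g s) := by
  have hae := fub_ae ha ht htT hg
  have hint := fub_int ha ht htT hg
  have hmeas := fub_meas ha ht htT hg
  have hle : ∀ᵐ ω ∂P, ‖∫ s in a..t, g s ω‖ ^ 2 ≤ (t - a) * ∫ s in a..t, ‖g s ω‖ ^ 2 := by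
    filter_upwards [hae] with ω hω
    exact cs_time ht hω.1 hω.2
  have hsq : Integrable (fun ω => ‖∫ s in a..t, g s ω‖ ^ 2) P := by
    refine Integrable.mono' (hint.const_mul (t - a)) (hmeas.norm.pow 2) ?_
    filter_upwards [hle] with ω hω
    rw [Real.norm_eq_abs, abs_of_nonneg (sq_nonneg _)]
    exact hω
  refine ⟨(memLp_two_iff_integrable_sq_norm hmeas).2 hsq, ?_⟩
  have h1 : qn P (fun ω => ∫ s in a..t, g s ω)
      ≤ ∫ ω, ((t - a) * ∫ s in a..t, ‖g s ω‖ ^ 2) ∂P :=
    integral_mono_ae hsq (hint.const_mul (t - a)) hle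
  rw [integral_const_mul, fub_swap ha ht htT hg] at h1
  exact h1

end fub

/-- Riemann sums of a continuous function -/
lemma riemann {G : Type*} [NormedAddCommGroup G] [NormedSpace ℝ G] [CompleteSpace G]
    {T : ℝ} (hT : 0 < T) {φ : ℝ → G} (hφ : ContinuousOn φ (Icc 0 T)) {t : ℝ} (ht0 : 0 ≤ t)
    (htT : t ≤ T) : Tendsto (fun N : ℕ => ∑ k ∈ Finset.range N,
      (tau T N 0 t (k + 1) - tau T N 0 t k) • φ (gp T N k)) atTop
      (𝓝 (∫ s in (0 : ℝ)..t, φ s)) := by
  rw [Metric.tendsto_atTop]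
  intro ε hε
  have h1 := isCompact_Icc.uniformContinuousOn_of_continuous hφ
  rw [Metric.uniformContinuousOn_iff_le] at h1
  obtain ⟨δ, hδ, h2⟩ := h1 (ε / (2 * (T + 1))) (by positivity)
  obtain ⟨n, hn⟩ := exists_nat_gt (T / δ)
  refine ⟨n + 1, fun N hN => ?_⟩
  have hNp : 0 < N := by omega
  have hNr : (0 : ℝ) < N := Nat.cast_pos.2 hNp
  have hTN : T / N ≤ δ := by
    rw [div_le_iff₀ hNr]
    have h1 : (n : ℝ) ≤ N := Nat.cast_le.2 (by omega)
    rw [div_lt_iff₀ hδ] at hn
    nlinarith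
  have hmono := tau_mono hT N 0 t
  have htau : ∀ k, tau T N 0 t k ∈ Icc 0 T := fun k =>
    ⟨tau_nonneg le_rfl N t k, (max_le ht0 (min_le_right _ _)).trans htT⟩
  have hii : ∀ k, IntervalIntegrable φ volume (tau T N 0 t k) (tau T N 0 t (k + 1)) := by
    intro k
    refine (hφ.mono ?_).intervalIntegrable
    rw [uIcc_of_le (hmono (Nat.le_succ k))]
    exact Icc_subset_Icc (htau k).1 (htau (k + 1)).2
  have hsum : ∫ s in (0 : ℝ)..t, φ s
      = ∑ k ∈ Finset.range N, ∫ s in (tau T N 0 t k)..(tau T N 0 t (k + 1)), φ s := by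
    rw [intervalIntegral.sum_integral_adjacent_intervals fun k _ => hii k,
      tau_zero le_rfl ht0, tau_self ht0 htT hNp]
  rw [hsum, dist_eq_norm, ← Finset.sum_sub_distrib]
  have hterm : ∀ k ∈ Finset.range N, ‖(tau T N 0 t (k + 1) - tau T N 0 t k) • φ (gp T N k)
      - ∫ s in (tau T N 0 t k)..(tau T N 0 t (k + 1)), φ s‖
      ≤ (tau T N 0 t (k + 1) - tau T N 0 t k) * (ε / (2 * (T + 1))) := by
    intro k hk
    have hk' := Finset.mem_range.1 hk
    have hle := hmono (Nat.le_succ k)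
    have e1 : (tau T N 0 t (k + 1) - tau T N 0 t k) • φ (gp T N k)
        = ∫ _ in (tau T N 0 t k)..(tau T N 0 t (k + 1)), φ (gp T N k) := by
      rw [intervalIntegral.integral_const]
    rw [e1, ← intervalIntegral.integral_sub intervalIntegrable_const (hii k)]
    have h3 : ∀ s ∈ uIoc (tau T N 0 t k) (tau T N 0 t (k + 1)),
        ‖φ (gp T N k) - φ s‖ ≤ ε / (2 * (T + 1)) := by
      intro s hs
      rw [uIoc_of_le hle] at hs
      rcases le_total t (gp T N k) with h | h
      · exfalso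
        have a1 : tau T N 0 t k = t := by
          unfold tau
          rw [min_eq_right h, max_eq_right ht0]
        have a2 : tau T N 0 t (k + 1) ≤ t := max_le ht0 (min_le_right _ _)
        linarith [hs.1, hs.2]
      · have a1 : tau T N 0 t k = gp T N k := by
          unfold tau
          rw [min_eq_left h, max_eq_right (gp_nonneg hT N k)]
        have a2 : tau T N 0 t (k + 1) ≤ gp T N (k + 1) := by
          unfold tau
          exact max_le (gp_nonneg hT N _) (min_le_left _ _)
        rw [gp_succ] at a2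
        rw [a1] at hs
        rw [← dist_eq_norm]
        refine h2 _ ⟨gp_nonneg hT N k, gp_le hT hNp hk'.le⟩ s ⟨(gp_nonneg hT N k).trans hs.1.le,
          hs.2.trans (htau (k + 1)).2⟩ ?_
        rw [Real.dist_eq, abs_sub_comm, abs_of_nonneg (by linarith [hs.1])]
        linarith [hs.2]
    have h4 := intervalIntegral.norm_integral_le_of_norm_le_const h3
    rw [abs_of_nonneg (by linarith)] at h4
    linarith
  calc ‖∑ k ∈ Finset.range N, ((tau T N 0 t (k + 1) - tau T N 0 t k) • φ (gp T N k)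
      - ∫ s in (tau T N 0 t k)..(tau T N 0 t (k + 1)), φ s)‖
      ≤ ∑ k ∈ Finset.range N, (tau T N 0 t (k + 1) - tau T N 0 t k) * (ε / (2 * (T + 1))) :=
        norm_sum_le_of_le _ hterm
    _ = t * (ε / (2 * (T + 1))) := by
        rw [← Finset.sum_mul, Finset.sum_range_sub, tau_zero le_rfl ht0, tau_self ht0 htT hNp,
          sub_zero]
    _ < ε := by
        have h5 : t * (ε / (2 * (T + 1))) ≤ (T + 1) * (ε / (2 * (T + 1))) := by
          gcongr; linarith
        have h6 : (T + 1) * (ε / (2 * (T + 1))) = ε / 2 := by field_simp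
        linarith

/-- integral Gronwall inequality -/
lemma gronwall_int {T : ℝ} (hT : 0 < T) {φ : ℝ → ℝ} (hφ : ContinuousOn φ (Icc 0 T))
    {a C : ℝ} (hC : 0 ≤ C)
    (h : ∀ t ∈ Icc 0 T, φ t ≤ a + C * ∫ s in (0 : ℝ)..t, φ s) :
    ∀ t ∈ Icc 0 T, φ t ≤ a * Real.exp (C * t) := by
  set ψ : ℝ → ℝ := IccExtend hT.le ((Icc 0 T).restrict φ) with hψ
  have cψ : Continuous ψ := (continuousOn_iff_continuous_restrict.1 hφ).Icc_extend'
  have eψ : ∀ t ∈ Icc 0 T, ψ t = φ t := fun t ht => by
    rw [hψ, IccExtend_of_mem _ _ ht]; rfl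
  have eint : ∀ t ∈ Icc 0 T, ∫ s in (0 : ℝ)..t, ψ s = ∫ s in (0 : ℝ)..t, φ s := by
    intro t ht
    refine intervalIntegral.integral_congr fun s hs => ?_
    rw [uIcc_of_le ht.1] at hs
    exact eψ s ⟨hs.1, hs.2.trans ht.2⟩
  set H : ℝ → ℝ := fun t => a + C * ∫ s in (0 : ℝ)..t, ψ s with hH
  have dH : ∀ t, HasDerivAt H (C * ψ t) t := by
    intro t
    have h1 := intervalIntegral.integral_hasDerivAt_right
      (cψ.intervalIntegrable 0 t) (cψ.stronglyMeasurableAtFilter _ _) cψ.continuousAt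
    exact (h1.const_mul C).const_add a
  set Q : ℝ → ℝ := fun t => H t * Real.exp (-C * t) with hQ
  have dQ : ∀ t, HasDerivAt Q (C * ψ t * Real.exp (-C * t)
      + H t * (Real.exp (-C * t) * (-C))) t := by
    intro t
    have h2 : HasDerivAt (fun t => Real.exp (-C * t)) (Real.exp (-C * t) * (-C)) t := by
      have := ((hasDerivAt_id t).const_mul (-C)).exp
      simpa using this
    exact (dH t).mul h2
  have hanti : AntitoneOn Q (Icc 0 T) := by
    refine antitoneOn_of_deriv_nonpos (convex_Icc 0 T)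
      (fun t _ => (dQ t).continuousAt.continuousWithinAt)
      (fun t _ => (dQ t).differentiableAt.differentiableWithinAt) fun t ht => ?_
    rw [interior_Icc] at ht
    have ht' : t ∈ Icc 0 T := Ioo_subset_Icc_self ht
    rw [(dQ t).deriv]
    have h3 : ψ t ≤ H t := by
      rw [eψ t ht', hH]
      simp only
      rw [eint t ht']
      exact h t ht'
    have h4 := Real.exp_pos (-C * t)
    have h5 : C * ψ t * Real.exp (-C * t) + H t * (Real.exp (-C * t) * -C)
        = -(C * Real.exp (-C * t) * (H t - ψ t)) := by ring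
    rw [h5]
    have h6 : 0 ≤ C * Real.exp (-C * t) * (H t - ψ t) :=
      mul_nonneg (by positivity) (by linarith)
    linarith
  intro t ht
  have h7 := hanti ⟨le_rfl, hT.le⟩ ht ht.1
  have h8 : Q 0 = a := by simp [hQ, hH]
  rw [h8] at h7
  have h9 : φ t ≤ H t := by
    rw [hH]
    simp only
    rw [eint t ht]
    exact h t ht
  have h10 : H t = Q t * Real.exp (C * t) := by
    rw [hQ]
    simp only
    rw [mul_assoc, ← Real.exp_add]
    simp
  rw [h10] at h9
  exact h9.trans (mul_le_mul_of_nonneg_right h7 (Real.exp_pos _).le)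

end Pool.Agent.ACF
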