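import Pool.Agent.ACF.Jac

set_option autoImplicit false
set_option linter.unusedSectionVars false
open MeasureTheory Set Filter Topology Module
open scoped NNReal ENNReal

namespace Pool.Agent.ACF

variable {E : Type*} [NormedAddCommGroup E] [InnerProductSpace ℝ E] [FiniteDimensional ℝ E]
  [MeasurableSpace E] [BorelSpace E]

/-- the drift part of a step hardly changes the size -/
lemma size_drift {f : E → E} {h L c : ℝ} (hL : 0 ≤ L) (hc : 0 ≤ c)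
    (hf : ∀ x, ‖f x‖ ≤ c + L * ‖x‖) (hh : 0 ≤ h) (hh1 : h ≤ 1) (hhL : h * L ≤ 1 / 8) (x : E) :
    1 + ‖x‖ ^ 2 ≤ (1 + (1 + 4 * c ^ 2 * (1 + 2 * L) ^ 2 + 16 * L ^ 2) * h)
      * (1 + ‖x + h • f x‖ ^ 2) := by
  set z := ‖x + h • f x‖ with hz
  have hz0 : 0 ≤ z := norm_nonneg _
  have hx0 : 0 ≤ ‖x‖ := norm_nonneg _
  have h1 : ‖x‖ ≤ z + h * (c + L * ‖x‖) := by
    have e : x = (x + h • f x) - h • f x := by abel
    have h2 : ‖x‖ ≤ ‖x + h • f x‖ + ‖h • f x‖ := by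
      conv_lhs => rw [e]
      exact norm_sub_le _ _
    rw [norm_smul, Real.norm_eq_abs, abs_of_nonneg hh] at h2
    have h3 := mul_le_mul_of_nonneg_left (hf x) hh
    linarith
  have h2 : ‖x‖ ≤ 2 * (z + c) := by
    have h3 : h * (L * ‖x‖) ≤ 1 / 8 * ‖x‖ := by
      have := mul_le_mul_of_nonneg_right hhL hx0
      linarith
    have h4 : h * c ≤ c := by nlinarith
    nlinarith
  set δ := c + 2 * L * z + 2 * L * c with hδ
  have hδ0 : 0 ≤ δ := by positivity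
  have h3 : ‖x‖ ≤ z + h * δ := by
    have h4 : L * ‖x‖ ≤ L * (2 * (z + c)) := mul_le_mul_of_nonneg_left h2 hL
    have h5 : h * (c + L * ‖x‖) ≤ h * δ := mul_le_mul_of_nonneg_left (by linarith) hh
    linarith
  have h4 : ‖x‖ ^ 2 ≤ (z + h * δ) ^ 2 := pow_le_pow_left₀ hx0 h3 2
  have h5 : (z + h * δ) ^ 2 ≤ z ^ 2 + h * (z ^ 2 + 2 * δ ^ 2) := by
    have e : z ^ 2 + h * (z ^ 2 + 2 * δ ^ 2) - (z + h * δ) ^ 2
        = h * (z - δ) ^ 2 + h * (1 - h) * δ ^ 2 := by ring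
    have p1 : 0 ≤ h * (z - δ) ^ 2 := by positivity
    have p2 : 0 ≤ h * (1 - h) * δ ^ 2 := mul_nonneg (mul_nonneg hh (by linarith)) (sq_nonneg _)
    linarith
  have h6 : δ ^ 2 ≤ 2 * (c ^ 2 * (1 + 2 * L) ^ 2) + 8 * L ^ 2 * z ^ 2 := by
    have e : 2 * (c ^ 2 * (1 + 2 * L) ^ 2) + 8 * L ^ 2 * z ^ 2 - δ ^ 2
        = (c * (1 + 2 * L) - 2 * L * z) ^ 2 := by
      rw [hδ]
      ring
    have := sq_nonneg (c * (1 + 2 * L) - 2 * L * z)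
    linarith
  have h7 : z ^ 2 + 2 * δ ^ 2 ≤ (1 + 4 * c ^ 2 * (1 + 2 * L) ^ 2 + 16 * L ^ 2) * (1 + z ^ 2) := by
    have e : (1 + 4 * c ^ 2 * (1 + 2 * L) ^ 2 + 16 * L ^ 2) * (1 + z ^ 2)
        = z ^ 2 + 2 * (2 * (c ^ 2 * (1 + 2 * L) ^ 2) + 8 * L ^ 2 * z ^ 2)
          + (1 + 4 * c ^ 2 * (1 + 2 * L) ^ 2 * z ^ 2 + 16 * L ^ 2) := by ring
    have p : 0 ≤ 1 + 4 * c ^ 2 * (1 + 2 * L) ^ 2 * z ^ 2 + 16 * L ^ 2 := by positivity
    linarith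
  have h8 := mul_le_mul_of_nonneg_left h7 hh
  have e9 : (1 + (1 + 4 * c ^ 2 * (1 + 2 * L) ^ 2 + 16 * L ^ 2) * h) * (1 + z ^ 2)
      = 1 + z ^ 2 + h * ((1 + 4 * c ^ 2 * (1 + 2 * L) ^ 2 + 16 * L ^ 2) * (1 + z ^ 2)) := by ring
  rw [e9]
  linarith

/-- second order expansion of the inverse of the noise part -/
lemma size_noise {σ : E →L[ℝ] E} {β a : ℝ} (hσ : ‖σ‖ ≤ a) (hβ : |β| * a ≤ 1 / 4) {z y : E}
    (hzy : z + β • σ z = y) :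
    ‖z‖ ^ 2 ≤ ‖y‖ ^ 2 - 2 * (β * inner ℝ y (σ y)) + 5 * β ^ 2 * a ^ 2 * ‖y‖ ^ 2 := by
  have ha0 : 0 ≤ a := (norm_nonneg _).trans hσ
  have hy0 : 0 ≤ ‖y‖ := norm_nonneg y
  have hz0 : 0 ≤ ‖z‖ := norm_nonneg z
  set s := |β| * a with hs
  have hs0 : 0 ≤ s := mul_nonneg (abs_nonneg _) ha0
  have hs2 : s ^ 2 = β ^ 2 * a ^ 2 := by
    rw [hs, mul_pow, sq_abs]
  have bσ : ∀ w : E, ‖β • σ w‖ ≤ s * ‖w‖ := by
    intro w
    rw [norm_smul, Real.norm_eq_abs, hs, mul_assoc]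
    exact mul_le_mul_of_nonneg_left (σ.le_of_opNorm_le hσ w) (abs_nonneg _)
  have h1 : ‖z‖ ≤ 4 / 3 * ‖y‖ := by
    have e : z = y - β • σ z := by rw [← hzy]; abel
    have h2 : ‖z‖ ≤ ‖y‖ + ‖β • σ z‖ := by
      conv_lhs => rw [e]
      exact norm_sub_le _ _
    have h3 := bσ z
    have h4 := mul_le_mul_of_nonneg_right hβ hz0
    linarith
  set p : E := y - β • σ y with hp
  set r : E := β • σ (β • σ z) with hr
  have e : z = p + r := by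
    have e1 : z = y - β • σ z := by rw [← hzy]; abel
    have e2 : σ z = σ y - σ (β • σ z) := by
      conv_lhs => rw [e1]
      rw [map_sub]
    have e3 : z = y - β • (σ y - σ (β • σ z)) := by rw [← e2]; exact e1
    rw [hp, hr]
    conv_lhs => rw [e3]
    rw [smul_sub]
    abel
  have hrn : ‖r‖ ≤ s ^ 2 * (4 / 3 * ‖y‖) := by
    have h2 := bσ (β • σ z)
    have h3 := bσ z
    have h4 : s * ‖β • σ z‖ ≤ s * (s * ‖z‖) := mul_le_mul_of_nonneg_left h3 hs0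
    have h5 : s * (s * ‖z‖) ≤ s * (s * (4 / 3 * ‖y‖)) :=
      mul_le_mul_of_nonneg_left (mul_le_mul_of_nonneg_left h1 hs0) hs0
    calc ‖r‖ ≤ s * (s * (4 / 3 * ‖y‖)) := h2.trans (h4.trans h5)
      _ = s ^ 2 * (4 / 3 * ‖y‖) := by ring
  have hpn : ‖p‖ ≤ 5 / 4 * ‖y‖ := by
    have h2 := norm_sub_le y (β • σ y)
    have h3 := bσ y
    have h4 := mul_le_mul_of_nonneg_right hβ hy0
    linarith
  have hp2 : ‖p‖ ^ 2 ≤ ‖y‖ ^ 2 - 2 * (β * inner ℝ y (σ y)) + s ^ 2 * ‖y‖ ^ 2 := by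
    rw [hp, norm_sub_sq_real, real_inner_smul_right]
    have h3 := pow_le_pow_left₀ (norm_nonneg _) (bσ y) 2
    rw [mul_pow] at h3
    linarith
  rw [e, norm_add_sq_real]
  have h5 := real_inner_le_norm p r
  have hr0 := norm_nonneg r
  have hp0 := norm_nonneg p
  have h6 : ‖p‖ * ‖r‖ ≤ 5 / 4 * ‖y‖ * (s ^ 2 * (4 / 3 * ‖y‖)) :=
    mul_le_mul hpn hrn hr0 (by positivity)
  have h7 : ‖r‖ ^ 2 ≤ (s ^ 2 * (4 / 3 * ‖y‖)) ^ 2 := pow_le_pow_left₀ hr0 hrn 2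
  have h8 : (s ^ 2 * (4 / 3 * ‖y‖)) ^ 2 ≤ 1 / 9 * (s ^ 2 * ‖y‖ ^ 2) := by
    have h9 : s ^ 2 ≤ 1 / 16 := by nlinarith
    have e2 : (s ^ 2 * (4 / 3 * ‖y‖)) ^ 2 = s ^ 2 * (16 / 9 * (s ^ 2 * ‖y‖ ^ 2)) := by ring
    rw [e2]
    have h10 : 0 ≤ 16 / 9 * (s ^ 2 * ‖y‖ ^ 2) := by positivity
    nlinarith
  have e3 : 5 * β ^ 2 * a ^ 2 * ‖y‖ ^ 2 = 5 * (s ^ 2 * ‖y‖ ^ 2) := by rw [hs2]; ring
  rw [e3]
  have h11 : 0 ≤ s ^ 2 * ‖y‖ ^ 2 := by positivity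
  have e4 : 5 / 4 * ‖y‖ * (s ^ 2 * (4 / 3 * ‖y‖)) = 5 / 3 * (s ^ 2 * ‖y‖ ^ 2) := by ring
  rw [e4] at h6
  linarith

/-- sizes of the preimages under opposite noises -/
lemma size_pair {f : E → E} {σ : E →L[ℝ] E} {h β L a c : ℝ} (hL : 0 ≤ L) (hc : 0 ≤ c)
    (hf : ∀ x, ‖f x‖ ≤ c + L * ‖x‖) (hσ : ‖σ‖ ≤ a) (hh : 0 ≤ h) (hh1 : h ≤ 1)
    (hhL : h * L ≤ 1 / 8) (hβ : |β| * a ≤ 1 / 4) {x x' y : E}
    (hx : stp f σ h β x = y) (hx' : stp f σ h (-β) x' = y) :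
    (1 + ‖x‖ ^ 2) * (1 + ‖x'‖ ^ 2)
      ≤ ((1 + (1 + 4 * c ^ 2 * (1 + 2 * L) ^ 2 + 16 * L ^ 2) * h) * (1 + 5 * β ^ 2 * a ^ 2)) ^ 2
        * (1 + ‖y‖ ^ 2) ^ 2 := by
  set C := 1 + (1 + 4 * c ^ 2 * (1 + 2 * L) ^ 2 + 16 * L ^ 2) * h with hC
  have hC1 : 0 ≤ C := by positivity
  have s1 := size_drift hL hc hf hh hh1 hhL x
  have s2 := size_drift hL hc hf hh hh1 hhL x'
  rw [← hC] at s1 s2
  have hβ' : |(-β)| * a ≤ 1 / 4 := by rwa [abs_neg]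
  have n1 := size_noise hσ hβ (z := x + h • f x) (y := y) hx
  have n2 := size_noise hσ hβ' (z := x' + h • f x') (y := y) hx'
  set Z := ‖x + h • f x‖ ^ 2 with hZ
  set Z' := ‖x' + h • f x'‖ ^ 2 with hZ'
  set q := β * inner ℝ y (σ y) with hq
  set t := 5 * β ^ 2 * a ^ 2 with ht
  have ht0 : 0 ≤ t := by positivity
  have hY0 : 0 ≤ ‖y‖ ^ 2 := sq_nonneg _
  have e2 : 5 * (-β) ^ 2 * a ^ 2 = t := by rw [ht]; ring
  have e3 : -β * inner ℝ y (σ y) = -q := by rw [hq]; ring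
  rw [e2, e3] at n2
  set A := 1 + ‖y‖ ^ 2 with hA
  have hA0 : 0 ≤ A := by positivity
  have b1 : 1 + Z ≤ (1 + t) * A - 2 * q := by
    have : (1 + t) * A = 1 + ‖y‖ ^ 2 + t * ‖y‖ ^ 2 + t := by rw [hA]; ring
    linarith
  have b2 : 1 + Z' ≤ (1 + t) * A + 2 * q := by
    have : (1 + t) * A = 1 + ‖y‖ ^ 2 + t * ‖y‖ ^ 2 + t := by rw [hA]; ring
    linarith
  have hZ0 : 0 ≤ 1 + Z := by positivity
  have hZ0' : 0 ≤ 1 + Z' := by positivity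
  have b3 : (1 + Z) * (1 + Z') ≤ ((1 + t) * A) ^ 2 := by
    have h1 := mul_le_mul b1 b2 hZ0' (hZ0.trans b1)
    have e : ((1 + t) * A - 2 * q) * ((1 + t) * A + 2 * q) = ((1 + t) * A) ^ 2 - (2 * q) ^ 2 := by
      ring
    rw [e] at h1
    have := sq_nonneg (2 * q)
    linarith
  calc (1 + ‖x‖ ^ 2) * (1 + ‖x'‖ ^ 2) ≤ (C * (1 + Z)) * (C * (1 + Z')) :=
        mul_le_mul s1 s2 (by positivity) (by positivity)
    _ = C ^ 2 * ((1 + Z) * (1 + Z')) := by ring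
    _ ≤ C ^ 2 * ((1 + t) * A) ^ 2 := mul_le_mul_of_nonneg_left b3 (by positivity)
    _ = (C * (1 + t)) ^ 2 * A ^ 2 := by ring

/-- the weight function -/
noncomputable def wgt (m : ℕ) (x : E) : ℝ := ((1 + ‖x‖ ^ 2) ^ m)⁻¹

lemma wgt_pos (m : ℕ) (x : E) : 0 < wgt m x := by unfold wgt; positivity

lemma wgt_cont (m : ℕ) : Continuous (wgt m : E → ℝ) := by
  unfold wgt
  refine Continuous.inv₀ (by fun_prop) fun x => ?_
  positivity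

/-- the pointwise inequality behind the one step estimate -/
lemma pair_ineq {f : E → E} {σ : E →L[ℝ] E} {h β L a c : ℝ} (hL : 0 ≤ L) (hc : 0 ≤ c)
    (hf : ∀ x, ‖f x‖ ≤ c + L * ‖x‖) (hσ : ‖σ‖ ≤ a) (hh : 0 ≤ h) (hh1 : h ≤ 1)
    (hhL : h * L ≤ 1 / 8) (hβ : |β| * a ≤ 1 / 4) (m : ℕ) {x x' y : E}
    (hx : stp f σ h β x = y) (hx' : stp f σ h (-β) x' = y) {C3 : ℝ}
    (hC3 : (finrank ℝ E : ℝ) * L + m * (1 + 4 * c ^ 2 * (1 + 2 * L) ^ 2 + 16 * L ^ 2)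
      + (finrank ℝ E : ℝ) * a ^ 2 + 5 * m * a ^ 2 ≤ C3) :
    2 * (Real.exp (-(C3 * (h + β ^ 2))) * wgt m y)
      ≤ wgt m x / Kb σ h β L + wgt m x' / Kb σ h (-β) L := by
  set n : ℕ := finrank ℝ E with hn
  set C1 : ℝ := 1 + 4 * c ^ 2 * (1 + 2 * L) ^ 2 + 16 * L ^ 2 with hC1
  have hC10 : 0 ≤ C1 := by positivity
  have hβ' : |(-β)| * a ≤ 1 / 4 := by rwa [abs_neg]
  have k1 := Kb_pos hL hh hσ hβ
  have k2 := Kb_pos hL hh hσ hβ'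
  have w1 := wgt_pos m x
  have w2 := wgt_pos m x'
  have w3 := wgt_pos m y
  set A := wgt m x / Kb σ h β L with hA
  set B := wgt m x' / Kb σ h (-β) L with hB
  have hA0 : 0 < A := div_pos w1 k1
  have hB0 : 0 < B := div_pos w2 k2
  set c0 := Real.exp (-(C3 * (h + β ^ 2))) * wgt m y with hc0
  have hc00 : 0 < c0 := mul_pos (Real.exp_pos _) w3
  -- the product
  have hpair := size_pair hL hc hf hσ hh hh1 hhL hβ hx hx'
  rw [← hC1] at hpair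
  have hK := Kb_mul (σ := σ) (β := β) hL hh hσ
  rw [← hn] at hK
  have hprod : (1 + ‖x‖ ^ 2) ^ m * (1 + ‖x'‖ ^ 2) ^ m * (Kb σ h β L * Kb σ h (-β) L)
      ≤ Real.exp (2 * (C3 * (h + β ^ 2))) * ((1 + ‖y‖ ^ 2) ^ m) ^ 2 := by
    have p1 : (1 + ‖x‖ ^ 2) ^ m * (1 + ‖x'‖ ^ 2) ^ m
        ≤ (((1 + C1 * h) * (1 + 5 * β ^ 2 * a ^ 2)) ^ 2) ^ m * ((1 + ‖y‖ ^ 2) ^ 2) ^ m := by
      rw [← mul_pow, ← mul_pow]
      exact pow_le_pow_left₀ (by positivity) hpair m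
    have q1 : 1 + C1 * h ≤ Real.exp (C1 * h) := by linarith [Real.add_one_le_exp (C1 * h)]
    have q2 : 1 + 5 * β ^ 2 * a ^ 2 ≤ Real.exp (5 * β ^ 2 * a ^ 2) := by
      linarith [Real.add_one_le_exp (5 * β ^ 2 * a ^ 2)]
    have q3 : (1 + C1 * h) * (1 + 5 * β ^ 2 * a ^ 2)
        ≤ Real.exp (C1 * h) * Real.exp (5 * β ^ 2 * a ^ 2) :=
      mul_le_mul q1 q2 (by positivity) (Real.exp_pos _).le
    rw [← Real.exp_add] at q3
    have p2 : (((1 + C1 * h) * (1 + 5 * β ^ 2 * a ^ 2)) ^ 2) ^ m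
        ≤ Real.exp (2 * m * (C1 * h + 5 * β ^ 2 * a ^ 2)) := by
      have h1 := pow_le_pow_left₀ (by positivity) (pow_le_pow_left₀ (by positivity) q3 2) m
      refine h1.trans (le_of_eq ?_)
      rw [← pow_mul, ← Real.exp_nat_mul]
      push_cast
      ring_nf
    have q4 : 1 + β ^ 2 * a ^ 2 ≤ Real.exp (β ^ 2 * a ^ 2) := by
      linarith [Real.add_one_le_exp (β ^ 2 * a ^ 2)]
    have q5 : 1 + h * L ≤ Real.exp (h * L) := by linarith [Real.add_one_le_exp (h * L)]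
    have p3 : (1 + β ^ 2 * a ^ 2) ^ n * ((1 + h * L) ^ n) ^ 2
        ≤ Real.exp (n * (β ^ 2 * a ^ 2) + 2 * n * (h * L)) := by
      have h1 := pow_le_pow_left₀ (by positivity) q4 n
      have h2 := pow_le_pow_left₀ (by positivity) (pow_le_pow_left₀ (by positivity) q5 n) 2
      refine (mul_le_mul h1 h2 (by positivity) (by positivity)).trans (le_of_eq ?_)
      rw [← pow_mul, ← Real.exp_nat_mul, ← Real.exp_nat_mul, ← Real.exp_add]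
      push_cast
      ring_nf
    have p4 := hK.trans p3
    have hy : ((1 + ‖y‖ ^ 2) ^ 2) ^ m = ((1 + ‖y‖ ^ 2) ^ m) ^ 2 := by
      rw [← pow_mul, ← pow_mul, mul_comm]
    rw [hy] at p1
    have p5 := mul_le_mul (p1.trans (mul_le_mul_of_nonneg_right p2 (by positivity))) p4
      (mul_nonneg k1.le k2.le) (by positivity)
    refine p5.trans ?_
    have e5 : Real.exp (2 * m * (C1 * h + 5 * β ^ 2 * a ^ 2)) * ((1 + ‖y‖ ^ 2) ^ m) ^ 2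
        * Real.exp (n * (β ^ 2 * a ^ 2) + 2 * n * (h * L))
        = Real.exp (2 * m * (C1 * h + 5 * β ^ 2 * a ^ 2)
          + (n * (β ^ 2 * a ^ 2) + 2 * n * (h * L))) * ((1 + ‖y‖ ^ 2) ^ m) ^ 2 := by
      have e0 : ∀ X Y Z : ℝ, Real.exp X * Z * Real.exp Y = Real.exp (X + Y) * Z := by
        intro X Y Z
        rw [Real.exp_add]
        ring
      exact e0 _ _ _
    rw [e5]
    refine mul_le_mul_of_nonneg_right (Real.exp_le_exp.2 ?_) (by positivity)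
    have hm0 : (0 : ℝ) ≤ m := Nat.cast_nonneg m
    have hn0 : (0 : ℝ) ≤ n := Nat.cast_nonneg n
    have r1 : (n * L + m * C1 + n * a ^ 2 + 5 * m * a ^ 2) * (h + β ^ 2) ≤ C3 * (h + β ^ 2) :=
      mul_le_mul_of_nonneg_right hC3 (by positivity)
    have e6 : 2 * ((n * L + m * C1 + n * a ^ 2 + 5 * m * a ^ 2) * (h + β ^ 2))
        - (2 * m * (C1 * h + 5 * β ^ 2 * a ^ 2) + (n * (β ^ 2 * a ^ 2) + 2 * n * (h * L)))
        = 2 * (n * L * β ^ 2) + 2 * (m * C1 * β ^ 2) + 2 * (n * a ^ 2 * h) + n * a ^ 2 * β ^ 2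
          + 10 * (m * a ^ 2 * h) := by ring
    have r2 : 0 ≤ 2 * (n * L * β ^ 2) + 2 * (m * C1 * β ^ 2) + 2 * (n * a ^ 2 * h)
        + n * a ^ 2 * β ^ 2 + 10 * (m * a ^ 2 * h) := by positivity
    linarith
  have hAB : c0 ^ 2 ≤ A * B := by
    have e1 : A * B = ((1 + ‖x‖ ^ 2) ^ m * (1 + ‖x'‖ ^ 2) ^ m
        * (Kb σ h β L * Kb σ h (-β) L))⁻¹ := by
      rw [hA, hB]
      unfold wgt
      rw [div_mul_div_comm, ← mul_inv, div_eq_mul_inv, ← mul_inv]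
    have e2 : c0 ^ 2 = (Real.exp (2 * (C3 * (h + β ^ 2))) * ((1 + ‖y‖ ^ 2) ^ m) ^ 2)⁻¹ := by
      rw [hc0]
      unfold wgt
      rw [mul_pow, mul_inv, ← Real.exp_neg, ← Real.exp_nat_mul, inv_pow]
      congr 2
      push_cast
      ring
    rw [e1, e2]
    exact inv_anti₀ (by positivity) hprod
  by_contra hcon
  push Not at hcon
  have h1 : (A + B) ^ 2 < (2 * c0) ^ 2 := pow_lt_pow_left₀ hcon (by positivity) two_ne_zero
  nlinarith [sq_nonneg (A - B)]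

end Pool.Agent.ACF
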