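import Pool.Agent.ACF.DevG
import Pool.Agent.ACF.Reach
import Pool.Agent.ACF.Sym

set_option autoImplicit false
set_option linter.unusedSectionVars false
open MeasureTheory ProbabilityTheory Set Filter Topology Module
open scoped NNReal ENNReal

namespace Pool.Agent.ACF

variable {E : Type*} [NormedAddCommGroup E] [InnerProductSpace ℝ E] [FiniteDimensional ℝ E]
  [MeasurableSpace E] [BorelSpace E]
variable {G : Type*} [NormedAddCommGroup G] [InnerProductSpace ℝ G] [CompleteSpace G]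
variable {H : Type*} [NormedAddCommGroup H] [InnerProductSpace ℝ H] [CompleteSpace H]
variable {Ω : Type*} {mΩ : MeasurableSpace Ω} {P : Measure Ω} [IsProbabilityMeasure P]
  {F : ℝ → MeasurableSpace Ω} {b : ℝ → Ω → ℝ} {T : ℝ}
variable {A D : ℝ → E →L[ℝ] E} {B : ℝ → G →L[ℝ] E} {C : ℝ → H →L[ℝ] E}

/-- the closed loop drift is Lipschitz -/
lemma loop_drift (hT : 0 < T) (hcA : ContinuousOn A (Icc 0 T))
    (hcB : ContinuousOn B (Icc 0 T)) (hcC : ContinuousOn C (Icc 0 T)) {κ : ℝ} (hκ0 : 0 ≤ κ)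
    {u : ℝ → E → G} {v : ℝ → E → H}
    (lu : ∀ t ∈ Icc 0 T, ∀ x y, ‖u t x - u t y‖ ≤ κ * ‖x - y‖)
    (lv : ∀ t ∈ Icc 0 T, ∀ x y, ‖v t x - v t y‖ ≤ κ * ‖x - y‖)
    (hcu : ∀ x, ContinuousOn (fun t => u t x) (Icc 0 T))
    (hcv : ∀ x, ContinuousOn (fun t => v t x) (Icc 0 T)) :
    ∃ L : ℝ, Drift T L (fun t x => A t x + B t (u t x) + C t (v t x)) := by
  have h00 : (0 : ℝ) ∈ Icc 0 T := ⟨le_rfl, hT.le⟩
  obtain ⟨a, ha⟩ := isCompact_Icc.exists_bound_of_continuousOn (s := Icc (0 : ℝ) T) hcA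
  obtain ⟨k1, hk1⟩ := isCompact_Icc.exists_bound_of_continuousOn (s := Icc (0 : ℝ) T) hcB
  obtain ⟨k2, hk2⟩ := isCompact_Icc.exists_bound_of_continuousOn (s := Icc (0 : ℝ) T) hcC
  have ha0 : 0 ≤ a := (norm_nonneg _).trans (ha 0 h00)
  have hk10 : 0 ≤ k1 := (norm_nonneg _).trans (hk1 0 h00)
  have hk20 : 0 ≤ k2 := (norm_nonneg _).trans (hk2 0 h00)
  refine ⟨a + k1 * κ + k2 * κ, by positivity, fun t ht x y => ?_, fun x => ?_⟩
  · have e1 : A t x + B t (u t x) + C t (v t x) - (A t y + B t (u t y) + C t (v t y))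
        = A t (x - y) + B t (u t x - u t y) + C t (v t x - v t y) := by
      simp only [map_sub]
      abel
    rw [e1]
    refine norm_add₃_le.trans ?_
    have h1 := (A t).le_of_opNorm_le (ha t ht) (x - y)
    have h2 := (B t).le_of_opNorm_le (hk1 t ht) (u t x - u t y)
    have h3 := (C t).le_of_opNorm_le (hk2 t ht) (v t x - v t y)
    have h4 := mul_le_mul_of_nonneg_left (lu t ht x y) hk10
    have h5 := mul_le_mul_of_nonneg_left (lv t ht x y) hk20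
    linarith
  · exact ((hcA.clm_apply continuousOn_const).add (hcB.clm_apply (hcu x))).add
      (hcC.clm_apply (hcv x))

/-- Lipschitz equilibrium laws vanish at the origin -/
theorem laws_zero (hN : Noise P F b) (hS : SymNoise P b) (hT : 0 < T)
    (hcA : ContinuousOn A (Icc 0 T)) (hcD : ContinuousOn D (Icc 0 T))
    (hcB : ContinuousOn B (Icc 0 T)) (hcC : ContinuousOn C (Icc 0 T)) {g : ℝ} (hg : 0 < g)
    {Q : ℝ → E →L[ℝ] E} (hQ : ContinuousOn Q (Icc 0 T))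
    (hQ0 : ∀ t ∈ Icc 0 T, ∀ x, 0 ≤ inner ℝ (Q t x) x)
    {u : ℝ → E → G} {v : ℝ → E → H}
    (hlu : ∃ κ : ℝ, ∀ t ∈ Icc 0 T, ∀ x y, ‖u t x - u t y‖ ≤ κ * ‖x - y‖)
    (hlv : ∃ κ : ℝ, ∀ t ∈ Icc 0 T, ∀ x y, ‖v t x - v t y‖ ≤ κ * ‖x - y‖)
    (hcu : ∀ x, ContinuousOn (fun t => u t x) (Icc 0 T))
    (hcv : ∀ x, ContinuousOn (fun t => v t x) (Icc 0 T))
    (hNash : ∀ x0 : E, ∃ X : ℝ → Ω → E, NashAt P F b T A D B C g Q u v x0 X) :
    ∀ t ∈ Icc 0 T, u t 0 = 0 ∧ v t 0 = 0 := by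
  obtain ⟨κ1, hκ1⟩ := hlu
  obtain ⟨κ2, hκ2⟩ := hlv
  set κ := max 0 (max κ1 κ2) with hκ
  have hκ0 : 0 ≤ κ := le_max_left _ _
  have lu : ∀ t ∈ Icc 0 T, ∀ x y, ‖u t x - u t y‖ ≤ κ * ‖x - y‖ := fun t ht x y =>
    (hκ1 t ht x y).trans (mul_le_mul_of_nonneg_right
      ((le_max_left _ _).trans (le_max_right _ _)) (norm_nonneg _))
  have lv : ∀ t ∈ Icc 0 T, ∀ x y, ‖v t x - v t y‖ ≤ κ * ‖x - y‖ := fun t ht x y =>
    (hκ2 t ht x y).trans (mul_le_mul_of_nonneg_right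
      ((le_max_right _ _).trans (le_max_right _ _)) (norm_nonneg _))
  obtain ⟨L, hf⟩ := loop_drift hT hcA hcB hcC hκ0 lu lv hcu hcv
  choose X hX using hNash
  refine vanish hN hT hcA hcD hcB hcC hκ0 hg hQ hQ0 lu lv (hcu 0) (hcv 0) fun s hs ρ hρ => ?_
  obtain ⟨x0, hx0⟩ := reach hN hS hT hcD hf (X := X) (fun x0 => (hX x0).sol.msc)
    (fun x0 => (hX x0).sol.adp)
    (fun x0 => Sol.drift_memLp hT.le hcA hcB hcC (hX x0).cu (hX x0).cv (hX x0).sol)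
    (fun x0 => (hX x0).sol.eq) (fun x0 => Sol.init hN hT hcD (hX x0).sol) hs hρ
  exact ⟨x0, X x0, hX x0, hx0⟩

end Pool.Agent.ACF
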